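import Mathlib
import Pool.Agent.Lib.MP_50e386_al.N.TDefs
import Pool.Agent.Lib.MP_50e386_al.N.CDefs
import Pool.Agent.Lib.MP_50e386_al.N.QDefs
import Pool.Agent.Lib.MP_50e386_al.N.GDefs
import Pool.Agent.Lib.MP_50e386_al.N.LDefs
import Pool.Agent.Lib.MP_50e386_al.N.T1
import Pool.Agent.Lib.MP_50e386_al.N.T2

/-!
Definitions for the proof that `Sym(Sym^2(ℂ^∞))` is `O_∞`-noetherian, for the split symmetric form
`om(e_{2k}, e_{2k+1}) = om(e_{2k+1}, e_{2k}) = 1` (paper: MP_50e386_Q1_paper.md).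
-/

namespace MP50e386O

open MvPolynomial Pool.Agent.Lib.MP50e386 MP50e386N

/-- the split symmetric form `∑_k (x_(2k) y_(2k+1) + x_(2k+1) y_(2k))` -/
noncomputable def osf (x y : Cinf) : ℂ :=
  x.sum fun i a => if Even i then a * y (i + 1) else a * y (i - 1)

/-- the split symmetric form -/
noncomputable abbrev om (u v : V) : ℂ := osf u v

/-- `g` lies in `GL_∞` and preserves the split symmetric form -/
def IsSo (g : Cinf ≃ₗ[ℂ] Cinf) : Prop :=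
  IsGL g ∧ ∀ x y, osf (g x) (g y) = osf x y

variable {R : Type} [CommRing R] [Algebra ℂ R] [GLRing R]

/-- stable under `ℂ^* · O_∞` (split form) -/
def GS (N : Submodule R (U R)) : Prop :=
  ∀ g : Cinf ≃ₗ[ℂ] Cinf, IsSo g → ∀ c : ℂ, c ≠ 0 → ∀ f ∈ N, sbC (fun i => c • g (ee i)) f ∈ N

/-- the same for ideals of `R` -/
def GSI (I : Ideal R) : Prop :=
  ∀ g : Cinf ≃ₗ[ℂ] Cinf, IsSo g → ∀ c : ℂ, c ≠ 0 → ∀ f ∈ I, sbR (fun i => c • g (ee i)) f ∈ I

/-- the contraction of the slots `a` and `b` -/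
noncomputable def tr (a b : ℕ) : U R →ₗ[R] U R :=
  (basisMonomials (ℕ × ℕ) R).constr R (fun m => ∑ p ∈ m.support, ∑ q ∈ m.support,
    if p.1 = a ∧ q.1 = b then
      (algebraMap ℂ R (om (ee p.2) (ee q.2))) • pderiv p (pderiv q (monomial m (1 : R))) else 0)

/-- a family of vectors is isotropic -/
def Iso {ι : Type} (φ : ι → V) : Prop := ∀ i j, om (φ i) (φ j) = 0

/-- `nn(M₁)` -/
noncomputable def nn (M : Submodule R (U R)) : Submodule R (U R) :=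
  Submodule.span R {f | ∃ φ : ℕ → V, Iso φ ∧ ∃ g ∈ M, f = sbC φ g}

/-- The package `Pkg(R,r,s,h)`. -/
structure Pkg (R : Type) [CommRing R] [Algebra ℂ R] [GLRing R] (r s : ℕ) (h : Ideal R) : Prop where
  gl : GLSI h
  p1 : ∀ w : Fin (r + 1) → V, (Dl w : R) ^ (s + 1) = 0
  p2 : ∀ v : Fin r → V, LinearIndependent ℂ v → (Dl v : R) ∈ nonZeroDivisors R
  p3 : ∀ (D k q : ℕ) (v : Fin D → Fin r → ℕ) (c : Fin D → Fin k → ℕ),
    Function.Injective (fun p : Fin D × (Fin r ⊕ Fin k) => Sum.elim (v p.1) (c p.1) p.2) →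
    (∏ d, hh s q (fun i => ee (v d i)) (fun j => ee (c d j)) : R) ≠ 0
  p4 : ∀ a : ℕ, ∃ k q : ℕ, ∀ (v : Fin r → V) (c : Fin k → V), hh s q v c ∈ h ^ a
  p5 : ∀ I : Ideal R, GLSI I → I ≠ ⊥ → ∃ q, h ^ q ≤ I
  p6 : ∀ L D, NoethInt (R := R) GLS ⊥ (BD R L D)
  p7 : ∀ L D, ∀ N Y : Submodule R (U R), GLS N → GLS Y → N ≤ Y → Y ≤ BD R L D → AR h N Y
  p8 : ∀ L D, ∀ Y : Submodule R (U R), GLS Y → Y ≤ BD R L D → NoethInt GS (h • Y) Y

/-- `M₁(N)` -/
noncomputable def M1 (S : Finset ℕ) (N : Submodule R (U R)) : Submodule R (U R) where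
  carrier := {f | f ∈ MS R S ∧ ∀ φ : ℕ → V, Iso φ → sbC φ f ∈ N}
  zero_mem' := ⟨Submodule.zero_mem _, fun φ _ => by rw [map_zero]; exact Submodule.zero_mem _⟩
  add_mem' := by
    rintro a b ⟨ha, ha'⟩ ⟨hb, hb'⟩
    refine ⟨Submodule.add_mem _ ha hb, fun φ hφ => ?_⟩
    rw [map_add]
    exact Submodule.add_mem _ (ha' φ hφ) (hb' φ hφ)
  smul_mem' := by
    rintro c a ⟨ha, ha'⟩
    refine ⟨Submodule.smul_mem _ c ha, fun φ hφ => ?_⟩
    rw [sbC_smul]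
    exact Submodule.smul_mem _ _ (ha' φ hφ)

/-- all traces vanish -/
def TrZ (S : Finset ℕ) (f : U R) : Prop := ∀ a ∈ S, ∀ b ∈ S, a ≠ b → tr a b f = 0

/-- property (F) of paper 5.4 -/
def FProp (r s k q n D : ℕ) (S : Finset ℕ) (M : Submodule R (U R)) : Prop :=
  ∀ Z : Set ℕ, Z.Finite → (∀ z ∈ Z, 2 * n ≤ z) → (∀ z ∈ Z, ∀ z' ∈ Z, om (ee z) (ee z') = 0) →
    ∀ f ∈ M, TrZ S f → f ∈ LT R (Set.Iio (2 * n) ∪ Z) → TD n D f →
      ∀ (u : Fin r → V) (b : Fin k → V), Iso (Sum.elim u b) →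
        (∀ i, ∀ z ∈ Set.Iio (2 * n) ∪ Z, om (Sum.elim u b i) (ee z) = 0) →
        (hh s q u b : R) • f ∈ nn M

/-- the auxiliary vectors of claim 0: `u` and the hyperbolic pairs `p a b, q a b` -/
structure Aux (r n : ℕ) (Z : Set ℕ) (u : Fin r → V) (p q : ℕ → ℕ → V) : Prop where
  uu : ∀ i j, om (u i) (u j) = 0
  uT : ∀ i, ∀ k ∈ Set.Iio (2 * n) ∪ Z, om (u i) (ee k) = 0
  up : ∀ i a b, om (u i) (p a b) = 0
  uq : ∀ i a b, om (u i) (q a b) = 0
  pT : ∀ a b, ∀ k ∈ Set.Iio (2 * n) ∪ Z, om (p a b) (ee k) = 0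
  qT : ∀ a b, ∀ k ∈ Set.Iio (2 * n) ∪ Z, om (q a b) (ee k) = 0
  pp : ∀ a b a' b', om (p a b) (p a' b') = 0
  qq : ∀ a b a' b', om (q a b) (q a' b') = 0
  pq : ∀ a b a' b', om (p a b) (q a' b') = if a = a' ∧ b = b' then 1 else 0

/-- iterated kernels of traces -/
noncomputable def kerL (l : List (ℕ × ℕ)) (N : Submodule R (U R)) : Submodule R (U R) :=
  l.foldr (fun p N' => N' ⊓ LinearMap.ker (tr p.1 p.2)) N

/-- `M₂`: the elements of `M` killed by all traces -/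
noncomputable def M2 (S : Finset ℕ) (M : Submodule R (U R)) : Submodule R (U R) :=
  kerL S.offDiag.toList M

/-- the statement `Claim(S)` of the main step -/
def ClaimS (h : Ideal R) (S : Finset ℕ) : Prop :=
  (∀ N : Submodule R (U R), GS N → N ≤ MS R S → ∀ n, Good h n N) ∧
    NoethInt (R := R) GS ⊥ (MS R S)

/-- chains of `GS` submodules of `MS S` containing `J • MS S` are eventually constant -/
def NI (J : Ideal MP50e386.A) : Prop :=
  ∀ S : Finset ℕ, NoethInt (R := MP50e386.A) GS (J • MS MP50e386.A S) (MS MP50e386.A S)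

end MP50e386O
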