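import Mathlib
import Pool.Agent.Lib.MP_50e386_al.Witt
import Pool.Agent.Lib.MP_50e386_al.Bridge
import Pool.Agent.Lib.MP_50e386_al.O.Defs

/-! The split symmetric form in the general setting of `Witt.lean`; stability lemmas. -/

namespace MP50e386O

open MvPolynomial Pool.Agent.Lib.MP50e386 MP50e386N
open _root_.MP50e386 (frm pis gam GData TwoStep FN jN)

/-- the signs of the split symmetric form -/
noncomputable def sio (_ : ℕ) : ℂ := 1

theorem gdata_so : GData pis sio 1 where
  inv := _root_.MP50e386.gdata_sp.inv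
  shift := _root_.MP50e386.gdata_sp.shift
  small0 := _root_.MP50e386.gdata_sp.small0
  small1 := _root_.MP50e386.gdata_sp.small1
  sne _ := one_ne_zero
  sshift _ := rfl
  sym _ := by simp [sio]
  eps := Or.inl rfl

theorem osf_eq (x y : V) : osf x y = frm pis sio x y := by
  rw [_root_.MP50e386.frm_sum]
  unfold osf
  apply Finsupp.sum_congr
  intro i _
  unfold pis sio
  split_ifs
  · ring
  · ring

theorem osf_comm (x y : V) : osf x y = osf y x := by
  have h := _root_.MP50e386.frm_refl_eps gdata_so x y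
  rw [one_mul] at h
  rw [osf_eq, osf_eq]
  exact h

/-- the letters are isotropic -/
theorem osf_self (k : ℕ) : osf (Finsupp.single k 1) (Finsupp.single k 1) = 0 := by
  unfold osf
  rw [Finsupp.sum_single_index]
  · split_ifs with h
    · rw [Finsupp.single_eq_of_ne (by omega), mul_zero]
    · have : k ≠ 0 := by
        rintro rfl
        exact h Even.zero
      rw [Finsupp.single_eq_of_ne (by omega), mul_zero]
  · split_ifs <;> simp

theorem FN_symm' (N : ℕ) : (FN pis sio N).IsSymm := by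
  constructor
  intro x y
  have h1 := _root_.MP50e386.frm_refl_eps gdata_so (jN N x) (jN N y)
  rw [one_mul] at h1
  exact h1

theorem twoStep_split {W : Type} [AddCommGroup W] [Module ℂ W] [FiniteDimensional ℂ W]
    (F : LinearMap.BilinForm ℂ W) (hF : F.IsSymm) : TwoStep F (gam pis sio) := by
  have h1 : TwoStep F (fun i j => if i = j then 1 else 0) := by
    apply _root_.MP50e386.twoStep_symm
    · exact hF
    · simp
    · simp
    · simp
    · simp
  intro S hS
  obtain ⟨x, hx, y, hy, h00, h01, h10, h11⟩ := h1 S hS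
  simp only [if_true, zero_ne_one, one_ne_zero, if_false] at h00 h01 h10 h11
  have hI : Complex.I * Complex.I = -1 := Complex.I_mul_I
  refine ⟨x + Complex.I • y, S.add_mem hx (S.smul_mem _ hy),
    (2⁻¹ : ℂ) • (x - Complex.I • y), S.smul_mem _ (S.sub_mem hx (S.smul_mem _ hy)), ?_, ?_, ?_, ?_⟩
  · simp only [map_add, map_smul, LinearMap.add_apply, LinearMap.smul_apply, smul_eq_mul, h00, h01,
      h10, h11]
    rw [show gam pis sio 0 0 = 0 by simp [gam, pis]]
    linear_combination hI
  · simp only [map_add, map_sub, map_smul, LinearMap.add_apply, LinearMap.smul_apply, smul_eq_mul,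
      h00, h01, h10, h11]
    rw [show gam pis sio 0 1 = 1 by simp [gam, pis, sio]]
    linear_combination (-2⁻¹ : ℂ) * hI
  · simp only [map_add, map_sub, map_smul, LinearMap.add_apply, LinearMap.sub_apply,
      LinearMap.smul_apply, smul_eq_mul, h00, h01, h10, h11]
    rw [show gam pis sio 1 0 = 1 by simp [gam, pis, sio]]
    linear_combination (-2⁻¹ : ℂ) * hI
  · simp only [map_sub, map_smul, LinearMap.sub_apply, LinearMap.smul_apply, smul_eq_mul, h00, h01,
      h10, h11]
    rw [show gam pis sio 1 1 = 0 by simp [gam, pis]]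
    linear_combination (2⁻¹ * 2⁻¹ : ℂ) * hI

theorem step_so (N : ℕ) : TwoStep (FN pis sio N) (gam pis sio) :=
  twoStep_split _ (FN_symm' N)

variable {R : Type} [CommRing R] [Algebra ℂ R] [GLRing R]

/-! stability for one substitution -/

theorem st_sup (φ : ℕ → V) {N N' : Submodule R (U R)} (h : ∀ f ∈ N, sbC φ f ∈ N)
    (h' : ∀ f ∈ N', sbC φ f ∈ N') : ∀ f ∈ N ⊔ N', sbC φ f ∈ N ⊔ N' := by
  intro f hf
  obtain ⟨a, ha, b, hb, rfl⟩ := Submodule.mem_sup.1 hf
  rw [map_add]
  exact Submodule.add_mem_sup (h a ha) (h' b hb)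

theorem st_smul (φ : ℕ → V) {I : Ideal R} {N : Submodule R (U R)}
    (h : ∀ f ∈ I, sbR φ f ∈ I)
    (h' : ∀ f ∈ N, sbC φ f ∈ N) : ∀ f ∈ I • N, sbC φ f ∈ I • N := by
  intro f hf
  refine Submodule.smul_induction_on hf ?_ ?_
  · intro r hr n hn
    rw [sbC_smul]
    exact Submodule.smul_mem_smul (h r hr) (h' n hn)
  · intro x y hx hy
    rw [map_add]
    exact Submodule.add_mem _ hx hy

theorem st_mul (φ : ℕ → V) {I I' : Ideal R} (h : ∀ f ∈ I, sbR φ f ∈ I)
    (h' : ∀ f ∈ I', sbR φ f ∈ I') : ∀ f ∈ I * I', sbR φ f ∈ I * I' := by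
  intro f hf
  refine Submodule.mul_induction_on hf ?_ ?_
  · intro r hr n hn
    rw [map_mul]
    exact Ideal.mul_mem_mul (h r hr) (h' n hn)
  · intro x y hx hy
    rw [map_add]
    exact Ideal.add_mem _ hx hy

theorem st_pow (φ : ℕ → V) {I : Ideal R} (h : ∀ f ∈ I, sbR φ f ∈ I) (n : ℕ) :
    ∀ f ∈ I ^ n, sbR φ f ∈ I ^ n := by
  induction n with
  | zero =>
    intro f _
    rw [pow_zero, Ideal.one_eq_top]
    trivial
  | succ n ih =>
    rw [pow_succ]
    exact st_mul φ ih h

theorem st_span (φ : ℕ → V) (s : Set (U R))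
    (h : ∀ f ∈ s, sbC φ f ∈ Submodule.span R s) :
    ∀ f ∈ Submodule.span R s, sbC φ f ∈ Submodule.span R s := by
  intro f hf
  induction hf using Submodule.span_induction with
  | mem x hx => exact h x hx
  | zero => rw [map_zero]; exact Submodule.zero_mem _
  | add x y _ _ hx hy => rw [map_add]; exact Submodule.add_mem _ hx hy
  | smul a x _ hx => rw [sbC_smul]; exact Submodule.smul_mem _ _ hx

theorem GS.sup {N N' : Submodule R (U R)} (h : GS N) (h' : GS N') : GS (N ⊔ N') :=
  fun g hg c hc => st_sup _ (h g hg c hc) (h' g hg c hc)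

theorem GS.inf {N N' : Submodule R (U R)} (h : GS N) (h' : GS N') : GS (N ⊓ N') :=
  fun g hg c hc f hf => ⟨h g hg c hc f hf.1, h' g hg c hc f hf.2⟩

theorem GS.smul {I : Ideal R} {N : Submodule R (U R)} (hI : GSI I) (h : GS N) :
    GS (I • N) := fun g hg c hc => st_smul _ (hI g hg c hc) (h g hg c hc)

theorem GSI.mul {I I' : Ideal R} (h : GSI I) (h' : GSI I') : GSI (I * I') :=
  fun g hg c hc => st_mul _ (h g hg c hc) (h' g hg c hc)

theorem GSI.pow {I : Ideal R} (h : GSI I) (n : ℕ) : GSI (I ^ n) :=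
  fun g hg c hc => st_pow _ (h g hg c hc) n

theorem gs_of_gls {N : Submodule R (U R)} (h : GLS N) : GS N := fun _ _ _ _ => h _

theorem gsi_of_glsi {I : Ideal R} (h : GLSI I) : GSI I := fun _ _ _ _ => h _

theorem GS_span (s : Set (U R)) (h : ∀ g : Cinf ≃ₗ[ℂ] Cinf, IsSo g → ∀ c : ℂ, c ≠ 0 → ∀ f ∈ s,
    sbC (fun i => c • g (ee i)) f ∈ Submodule.span R s) : GS (Submodule.span R s) :=
  fun g hg c hc => st_span _ s (h g hg c hc)

theorem GS_ofI (I : Ideal R) : GS (ofI I) ↔ GSI I := by
  constructor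
  · intro h g hg c hc a ha
    have := h g hg c hc (C a) ((C_mem_ofI I a).2 ha)
    rw [sbC_C] at this
    exact (C_mem_ofI I _).1 this
  · intro h g hg c hc f hf
    obtain ⟨a, ha, rfl⟩ := (mem_ofI I f).1 hf
    rw [sbC_C]
    exact (C_mem_ofI I _).2 (h g hg c hc a ha)

end MP50e386O
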