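import Mathlib
import Pool.Agent.Lib.MP_50e386_al.N.T3
import Pool.Agent.Lib.MP_50e386_al.N.TDefs
import Pool.Agent.Lib.MP_50e386_al.N.T1
import Pool.Agent.Lib.MP_50e386_al.N.T2
import Pool.Agent.Lib.MP_50e386_al.O.W

/-! Letters, and substitutions with coefficients in `R`, (rc). -/

namespace MP50e386O

open MvPolynomial Pool.Agent.Lib.MP50e386 MP50e386N

variable {R : Type} [CommRing R] [Algebra ℂ R] [GLRing R]

private theorem t3_C_mem (a : R) : (C a : U R) ∈ MP50e386N.LT R Set.univ := by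
  have h : a ∈ Algebra.adjoin ℂ (Set.range fun p : ℕ × ℕ => (GLRing.x p.1 p.2 : R)) := by
    rw [GLRing.gen]
    exact Algebra.mem_top
  induction h using Algebra.adjoin_induction with
  | mem x hx =>
    obtain ⟨p, rfl⟩ := hx
    exact Algebra.subset_adjoin (Or.inl ⟨p.1, trivial, p.2, trivial, rfl⟩)
  | algebraMap c => exact Subalgebra.algebraMap_mem (MP50e386N.LT R Set.univ) c
  | add x y _ _ hx hy =>
    rw [map_add]
    exact Subalgebra.add_mem _ hx hy
  | mul x y _ _ hx hy =>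
    rw [map_mul]
    exact Subalgebra.mul_mem _ hx hy

private theorem t3_alg (ψ : ℕ → VR R) (c : ℂ) :
    sbU ψ (algebraMap ℂ (U R) c) = algebraMap ℂ (U R) c := by
  have h : (algebraMap ℂ (U R) c) = C (algebraMap ℂ R c) := rfl
  rw [h, sbU_C, AlgHom.commutes]

private theorem t3_smul_mem {T' : Set ℕ} {f : U R} (hf : f ∈ MP50e386N.LT R T') (c : ℂ) :
    (C (algebraMap ℂ R c) : U R) * f ∈ MP50e386N.LT R T' :=
  Subalgebra.mul_mem _ (Subalgebra.algebraMap_mem (MP50e386N.LT R T') c) hf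

omit [GLRing R] in
private theorem t3_cst_apply (v : V) (k : ℕ) : (cst v : VR R) k = algebraMap ℂ R (v k) := rfl

omit [GLRing R] in
private theorem t3_cst_supp {v : V} {k : ℕ} (hk : k ∈ (cst v : VR R).support) : v k ≠ 0 := by
  intro h0
  rw [Finsupp.mem_support_iff, t3_cst_apply, h0, map_zero] at hk
  exact hk rfl

theorem rc_nn {M : Submodule R (U R)} {f : U R} (hf : f ∈ M) (W : Submodule ℂ V)
    (hW : ∀ v ∈ W, ∀ w ∈ W, om v w = 0) (ψ : ℕ → VR R)
    (hψ : ∀ i, ψ i ∈ Submodule.span R ((fun v => (cst v : VR R)) '' (W : Set V))) :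
    sbU ψ f ∈ nn M := by
  refine rc_gen W (nn M) f (fun φ hφ => ?_) ψ hψ
  exact Submodule.subset_span ⟨φ, fun i j => hW _ (hφ i) _ (hφ j), f, hf, rfl⟩

end MP50e386O

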