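import Mathlib
import Pool.Agent.Lib.MP_50e386_al.N.TR
import Pool.Agent.Lib.MP_50e386_al.N.TDefs
import Pool.Agent.Lib.MP_50e386_al.N.T2
import Pool.Agent.Lib.MP_50e386_al.O.T3
import Pool.Agent.Lib.MP_50e386_al.O.W

/-! The traces (contractions) `tr a b`, (T1), (T2) of paper section 5. -/

namespace MP50e386O

open MvPolynomial Pool.Agent.Lib.MP50e386 MP50e386N

variable {R : Type} [CommRing R] [Algebra ℂ R] [GLRing R]

omit [Algebra ℂ R] [GLRing R] in
private theorem tR_C_supported (T : Set (ℕ × ℕ)) (r : R) :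
    (C r : MvPolynomial (ℕ × ℕ) R) ∈ supported R T := by
  rw [mem_supported, vars_C, Finset.coe_empty]
  exact Set.empty_subset _

private theorem tR_supported {T : Set ℕ} {f : U R} (hf : f ∈ MP50e386N.LT R T) :
    f ∈ supported R {p : ℕ × ℕ | p.2 ∈ T} := by
  unfold MP50e386N.LT at hf
  induction hf using Algebra.adjoin_induction with
  | mem x hx =>
    rcases hx with ⟨i, hi, j, hj, rfl⟩ | ⟨a, i, hi, rfl⟩
    · exact tR_C_supported _ _
    · exact Algebra.subset_adjoin ⟨(a, i), hi, rfl⟩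
  | algebraMap c =>
    have h : (algebraMap ℂ (U R) c) = C (algebraMap ℂ R c) := rfl
    rw [h]
    exact tR_C_supported _ _
  | add x y hx hy ihx ihy => exact Subalgebra.add_mem _ ihx ihy
  | mul x y hx hy ihx ihy => exact Subalgebra.mul_mem _ ihx ihy

omit [Algebra ℂ R] [GLRing R] in
private theorem tR_comm (p q : ℕ × ℕ) (m : ℕ × ℕ →₀ ℕ) (hp : p ∉ m.support) :
    pderiv p (pderiv q (monomial m (1 : R))) = 0 := by
  rw [pderiv_monomial, pderiv_monomial]
  have h1 : m p = 0 := Finsupp.notMem_support_iff.1 hp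
  have h2 : (m - Finsupp.single q 1 : ℕ × ℕ →₀ ℕ) p = 0 := by
    rw [Finsupp.tsub_apply, h1, Nat.zero_sub]
  rw [h2]
  simp

omit [Algebra ℂ R] [GLRing R] in
private theorem tR_comm' (p q : ℕ × ℕ) (m : ℕ × ℕ →₀ ℕ) (hq : q ∉ m.support) :
    pderiv p (pderiv q (monomial m (1 : R))) = 0 := by
  rw [pderiv_monomial]
  have h1 : m q = 0 := Finsupp.notMem_support_iff.1 hq
  rw [h1]
  simp

omit [GLRing R] in
private theorem tR_mono (a b : ℕ) (T : Finset ℕ) (m : ℕ × ℕ →₀ ℕ)
    (hm : ∀ p ∈ m.support, p.2 ∈ T) :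
    tr a b (monomial m (1 : R)) = ∑ i ∈ T, ∑ j ∈ T,
      om (ee i) (ee j) • pderiv (a, i) (pderiv (b, j) (monomial m (1 : R))) := by
  classical
  unfold tr
  have hb : (monomial m (1 : R)) = basisMonomials (ℕ × ℕ) R m := by
    rw [coe_basisMonomials]
  conv_lhs => rw [hb]
  rw [Module.Basis.constr_basis]
  have h1 : ∀ c : ℕ, m.support.filter (fun p => p.1 = c) ⊆ T.image (fun i => (c, i)) := by
    intro c p hp
    rw [Finset.mem_filter] at hp
    exact Finset.mem_image.2 ⟨p.2, hm p hp.1, Prod.ext hp.2.symm rfl⟩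
  have hinj : ∀ c : ℕ, Set.InjOn (fun i : ℕ => (c, i)) (T : Set ℕ) := fun c x _ y _ h =>
    (Prod.ext_iff.1 h).2
  calc (∑ p ∈ m.support, ∑ q ∈ m.support, if p.1 = a ∧ q.1 = b then
        (algebraMap ℂ R (om (ee p.2) (ee q.2))) •
          pderiv p (pderiv q (monomial m (1 : R))) else 0)
      = ∑ p ∈ m.support.filter (fun p => p.1 = a), ∑ q ∈ m.support.filter (fun p => p.1 = b),
          om (ee p.2) (ee q.2) • pderiv p (pderiv q (monomial m (1 : R))) := by
        rw [Finset.sum_filter]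
        refine Finset.sum_congr rfl fun p _ => ?_
        by_cases hp : p.1 = a
        · rw [if_pos hp, Finset.sum_filter]
          refine Finset.sum_congr rfl fun q _ => ?_
          by_cases hq : q.1 = b
          · rw [if_pos ⟨hp, hq⟩, if_pos hq, algebraMap_smul]
          · rw [if_neg (fun h => hq h.2), if_neg hq]
        · rw [if_neg hp]
          refine Finset.sum_eq_zero fun q _ => ?_
          rw [if_neg (fun h => hp h.1)]
    _ = ∑ p ∈ T.image (fun i => (a, i)), ∑ q ∈ T.image (fun i => (b, i)),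
          om (ee p.2) (ee q.2) • pderiv p (pderiv q (monomial m (1 : R))) := by
        have e1 : ∀ p : ℕ × ℕ, ∑ q ∈ m.support.filter (fun p => p.1 = b),
            om (ee p.2) (ee q.2) • pderiv p (pderiv q (monomial m (1 : R))) =
            ∑ q ∈ T.image (fun i => (b, i)),
              om (ee p.2) (ee q.2) • pderiv p (pderiv q (monomial m (1 : R))) := by
          intro p
          refine Finset.sum_subset (h1 b) fun q hq hq' => ?_
          have : q ∉ m.support := by
            intro h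
            apply hq'
            rw [Finset.mem_filter]
            obtain ⟨i, _, rfl⟩ := Finset.mem_image.1 hq
            exact ⟨h, rfl⟩
          rw [tR_comm' p q m this, smul_zero]
        simp only [e1]
        refine Finset.sum_subset (h1 a) fun p hp hp' => ?_
        have : p ∉ m.support := by
          intro h
          apply hp'
          rw [Finset.mem_filter]
          obtain ⟨i, _, rfl⟩ := Finset.mem_image.1 hp
          exact ⟨h, rfl⟩
        refine Finset.sum_eq_zero fun q _ => ?_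
        rw [tR_comm p q m this, smul_zero]
    _ = _ := by
        rw [Finset.sum_image (hinj a)]
        refine Finset.sum_congr rfl fun i _ => ?_
        rw [Finset.sum_image (hinj b)]

/-- (T1) for a finite set of letters -/
theorem tr_eq' (a b : ℕ) (T : Finset ℕ) (f : U R) (hf : f ∈ MP50e386N.LT R (T : Set ℕ)) :
    tr a b f = ∑ i ∈ T, ∑ j ∈ T, om (ee i) (ee j) • pderiv (a, i) (pderiv (b, j) f) := by
  have h1 := mem_supported.1 (tR_supported hf)
  have h2 : ∀ m ∈ f.support, ∀ p ∈ m.support, p.2 ∈ T := by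
    intro m hm p hp
    exact h1 ((mem_vars_iff_mem_support p).2 ⟨m, hm, hp⟩)
  have h3 : f = ∑ m ∈ f.support, coeff m f • monomial m (1 : R) := by
    conv_lhs => rw [as_sum f]
    refine Finset.sum_congr rfl fun m _ => ?_
    rw [smul_monomial, smul_eq_mul, mul_one]
  have h4 : ∀ i j, pderiv (a, i) (pderiv (b, j) f) = ∑ m ∈ f.support,
      coeff m f • pderiv (a, i) (pderiv (b, j) (monomial m (1 : R))) := by
    intro i j
    conv_lhs => rw [h3]
    rw [map_sum, map_sum]
    refine Finset.sum_congr rfl fun m _ => ?_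
    rw [Derivation.map_smul, Derivation.map_smul]
  conv_lhs => rw [h3]
  rw [map_sum]
  simp only [h4]
  have h5 : ∀ m ∈ f.support, tr a b (coeff m f • monomial m (1 : R)) =
      ∑ i ∈ T, ∑ j ∈ T, om (ee i) (ee j) •
        (coeff m f • pderiv (a, i) (pderiv (b, j) (monomial m (1 : R)))) := by
    intro m hm
    rw [map_smul, tR_mono a b T m (h2 m hm), Finset.smul_sum]
    refine Finset.sum_congr rfl fun i _ => ?_
    rw [Finset.smul_sum]
    refine Finset.sum_congr rfl fun j _ => ?_
    rw [smul_comm]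
  rw [Finset.sum_congr rfl h5, Finset.sum_comm]
  refine Finset.sum_congr rfl fun i _ => ?_
  rw [Finset.sum_comm]
  refine Finset.sum_congr rfl fun j _ => ?_
  rw [Finset.smul_sum]

/-- (T1) -/
theorem tr_eq (a b n : ℕ) (f : U R) (hf : f ∈ MP50e386N.LT R (Set.Iio n)) :
    tr a b f = ∑ i ∈ Finset.range n, ∑ j ∈ Finset.range n,
      om (ee i) (ee j) • pderiv (a, i) (pderiv (b, j) f) := by
  apply tr_eq'
  rw [Finset.coe_range]
  exact hf

private theorem tR_om_ee (k : ℕ) (y : V) :
    om (ee k) y = if Even k then y (k + 1) else y (k - 1) := by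
  change osf (Finsupp.single k 1) y = _
  unfold osf
  rw [Finsupp.sum_single_index]
  · split_ifs <;> simp
  · split_ifs <;> simp

private theorem tR_om_left (x y : V) : om x y = x.sum fun k a => a * om (ee k) y := by
  change osf x y = _
  unfold osf
  refine Finsupp.sum_congr fun k _ => ?_
  rw [tR_om_ee]
  split_ifs <;> ring

private theorem tR_om_right (k : ℕ) (y : V) :
    om (ee k) y = y.sum fun l b => b * om (ee k) (ee l) := by
  have h1 : ∀ c : ℕ, (y.sum fun l b => b * (ee l : V) c) = y c := by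
    intro c
    unfold Finsupp.sum
    simp only [ee, Finsupp.single_apply, mul_ite, mul_one, mul_zero]
    rw [Finset.sum_ite_eq']
    split_ifs with h
    · rfl
    · exact (Finsupp.notMem_support_iff.1 h).symm
  simp only [tR_om_ee]
  split_ifs with h
  · exact (h1 (k + 1)).symm
  · exact (h1 (k - 1)).symm

private theorem tR_om (x y : V) (N : ℕ) (hx : ∀ k, x k ≠ 0 → k < N) (hy : ∀ k, y k ≠ 0 → k < N) :
    om x y = ∑ k ∈ Finset.range N, ∑ l ∈ Finset.range N, x k * y l * om (ee k) (ee l) := by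
  have h1 : om x y = ∑ k ∈ Finset.range N, x k * om (ee k) y := by
    rw [tR_om_left]
    unfold Finsupp.sum
    refine Finset.sum_subset (fun k hk => ?_) fun k _ hk => ?_
    · exact Finset.mem_range.2 (hx k (Finsupp.mem_support_iff.1 hk))
    · beta_reduce
      rw [Finsupp.notMem_support_iff.1 hk, zero_mul]
  rw [h1]
  refine Finset.sum_congr rfl fun k _ => ?_
  have h2 : om (ee k) y = ∑ l ∈ Finset.range N, y l * om (ee k) (ee l) := by
    rw [tR_om_right]
    unfold Finsupp.sum
    refine Finset.sum_subset (fun l hl => ?_) fun l _ hl => ?_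
    · exact Finset.mem_range.2 (hy l (Finsupp.mem_support_iff.1 hl))
    · beta_reduce
      rw [Finsupp.notMem_support_iff.1 hl, zero_mul]
  rw [h2, Finset.mul_sum]
  exact Finset.sum_congr rfl fun l _ => by ring

theorem tr_sbC (φ : ℕ → V) (a b n : ℕ) (f : U R) (hf : f ∈ MP50e386N.LT R (Set.Iio n)) :
    tr a b (sbC φ f) = ∑ i ∈ Finset.range n, ∑ j ∈ Finset.range n,
      om (φ i) (φ j) • sbC φ (pderiv (a, i) (pderiv (b, j) f)) := by
  classical
  obtain ⟨N, hN⟩ : ∃ N : ℕ, ∀ i < n, ∀ k, φ i k ≠ 0 → k < N := by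
    refine ⟨(Finset.range n).sup (fun i => (φ i).support.sup fun k => k + 1), ?_⟩
    intro i hi k hk
    have h1 : k + 1 ≤ (φ i).support.sup fun k => k + 1 :=
      Finset.le_sup (f := fun k => k + 1) (Finsupp.mem_support_iff.2 hk)
    have h2 : ((φ i).support.sup fun k => k + 1) ≤
        (Finset.range n).sup (fun i => (φ i).support.sup fun k => k + 1) :=
      Finset.le_sup (f := fun i => (φ i).support.sup fun k => k + 1) (Finset.mem_range.2 hi)
    omega
  have h1 : sbC φ f ∈ MP50e386N.LT R (Set.Iio N) := sbC_LT hf φ fun i hi k hk => hN i hi k hk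
  rw [tr_eq a b N _ h1]
  have h2 : ∀ k l, pderiv (a, k) (pderiv (b, l) (sbC φ f)) =
      ∑ j ∈ Finset.range n, ∑ i ∈ Finset.range n,
        (φ j l * φ i k) • sbC φ (pderiv (a, i) (pderiv (b, j) f)) := by
    intro k l
    rw [pderiv_sbC φ b l n f hf, map_sum]
    refine Finset.sum_congr rfl fun j _ => ?_
    rw [Derivation.map_smul_of_tower, pderiv_sbC φ a k n _ (pderiv_LT hf _), Finset.smul_sum]
    refine Finset.sum_congr rfl fun i _ => ?_
    rw [smul_smul]
  simp only [h2, Finset.smul_sum, smul_smul]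
  have h3 : ∀ i ∈ Finset.range n, ∀ j ∈ Finset.range n,
      om (φ i) (φ j) • sbC φ (pderiv (a, i) (pderiv (b, j) f)) =
      ∑ k ∈ Finset.range N, ∑ l ∈ Finset.range N,
        (om (ee k) (ee l) * (φ j l * φ i k)) • sbC φ (pderiv (a, i) (pderiv (b, j) f)) := by
    intro i hi j hj
    rw [tR_om (φ i) (φ j) N (hN i (Finset.mem_range.1 hi)) (hN j (Finset.mem_range.1 hj)),
      Finset.sum_smul]
    refine Finset.sum_congr rfl fun k _ => ?_
    rw [Finset.sum_smul]
    refine Finset.sum_congr rfl fun l _ => ?_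
    congr 1
    ring
  rw [Finset.sum_congr rfl fun i hi => Finset.sum_congr rfl fun j hj => h3 i hi j hj]
  -- reorder the sums
  have e1 : ∀ G : ℕ → ℕ → ℕ → ℕ → U R,
      (∑ k ∈ Finset.range N, ∑ l ∈ Finset.range N, ∑ j ∈ Finset.range n,
        ∑ i ∈ Finset.range n, G k l j i) =
      ∑ i ∈ Finset.range n, ∑ j ∈ Finset.range n, ∑ k ∈ Finset.range N,
        ∑ l ∈ Finset.range N, G k l j i := by
    intro G
    have s1 : ∀ k, ∑ l ∈ Finset.range N, ∑ j ∈ Finset.range n, ∑ i ∈ Finset.range n, G k l j i =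
        ∑ i ∈ Finset.range n, ∑ j ∈ Finset.range n, ∑ l ∈ Finset.range N, G k l j i := by
      intro k
      have s2 : ∀ l, ∑ j ∈ Finset.range n, ∑ i ∈ Finset.range n, G k l j i =
          ∑ i ∈ Finset.range n, ∑ j ∈ Finset.range n, G k l j i := fun l => Finset.sum_comm
      simp only [s2]
      rw [Finset.sum_comm]
      refine Finset.sum_congr rfl fun i _ => ?_
      rw [Finset.sum_comm]
    simp only [s1]
    rw [Finset.sum_comm]
    refine Finset.sum_congr rfl fun i _ => ?_
    rw [Finset.sum_comm]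
  exact e1 _

theorem tr_sbC_iso (φ : ℕ → V) (a b : ℕ) (T : Set ℕ) (f : U R) (hf : f ∈ MP50e386N.LT R T) (c : ℂ)
    (h : ∀ i ∈ T, ∀ j ∈ T, om (φ i) (φ j) = c * om (ee i) (ee j)) :
    tr a b (sbC φ f) = c • sbC φ (tr a b f) := by
  obtain ⟨n, hn⟩ := exists_LT f
  rw [tr_sbC φ a b n f hn, tr_eq a b n f hn, map_sum, Finset.smul_sum]
  refine Finset.sum_congr rfl fun i _ => ?_
  rw [map_sum, Finset.smul_sum]
  refine Finset.sum_congr rfl fun j _ => ?_
  by_cases hi : i ∈ T
  · by_cases hj : j ∈ T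
    · rw [h i hi j hj, sbC_smulC, smul_smul]
    · rw [pderiv_eq_zero_of_LT hf b j hj]
      simp
  · rw [pderiv_eq_zero_of_LT (pderiv_LT hf _) a i hi]
    simp

theorem tr_LT {T : Set ℕ} {f : U R} (hf : f ∈ MP50e386N.LT R T) (a b : ℕ) : tr a b f ∈ MP50e386N.LT R T := by
  obtain ⟨n, hn⟩ := exists_LT f
  rw [tr_eq a b n f hn]
  exact Subalgebra.sum_mem _ fun i _ => Subalgebra.sum_mem _ fun j _ =>
    Subalgebra.smul_mem _ (pderiv_LT (pderiv_LT hf _) _) _

private theorem tR_sdeg_add (a : ℕ) (m m' : ℕ × ℕ →₀ ℕ) :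
    sdeg a (m + m') = sdeg a m + sdeg a m' := by
  unfold sdeg
  rw [Finsupp.sum_add_index']
  · intro p; simp
  · intro p k k'
    split_ifs <;> simp

private theorem tR_sdeg_single (a : ℕ) (p : ℕ × ℕ) :
    sdeg a (Finsupp.single p 1) = if p.1 = a then 1 else 0 := by
  unfold sdeg
  rw [Finsupp.sum_single_index]
  simp

omit [Algebra ℂ R] [GLRing R] in
private theorem tR_pderiv_MS {S : Finset ℕ} {a : ℕ} (ha : a ∈ S) (i : ℕ) {f : U R}
    (hf : f ∈ MS R S) : pderiv (a, i) f ∈ MS R (S.erase a) := by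
  unfold MS at hf ⊢
  rw [mem_restrictSupport_iff] at hf ⊢
  intro m hm a'
  have h1 : coeff (m + Finsupp.single (a, i) 1) f ≠ 0 := by
    intro h
    rw [Finset.mem_coe, mem_support_iff, coeff_pderiv, h, zero_mul] at hm
    exact hm rfl
  have h2 := hf (Finset.mem_coe.2 (mem_support_iff.2 h1)) a'
  rw [tR_sdeg_add, tR_sdeg_single] at h2
  by_cases haa : a' = a
  · subst haa
    simp only [if_true, if_pos ha] at h2
    rw [if_neg (Finset.notMem_erase _ _)]
    omega
  · have h3 : ¬ (a = a') := fun h => haa h.symm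
    simp only [h3, if_false, add_zero] at h2
    rw [h2]
    simp [Finset.mem_erase, haa]

omit [GLRing R] in
private theorem tR_smulC (N : Submodule R (U R)) (c : ℂ) {f : U R} (hf : f ∈ N) : c • f ∈ N := by
  rw [← algebraMap_smul R c f]
  exact Submodule.smul_mem _ _ hf

theorem tr_MS {S : Finset ℕ} {a b : ℕ} (ha : a ∈ S) (hb : b ∈ S) (hab : a ≠ b) {f : U R}
    (hf : f ∈ MS R S) : tr a b f ∈ MS R ((S.erase a).erase b) := by
  obtain ⟨n, hn⟩ := exists_LT f
  rw [tr_eq a b n f hn, Finset.erase_right_comm]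
  exact Submodule.sum_mem _ fun i _ => Submodule.sum_mem _ fun j _ =>
    tR_smulC _ _ (tR_pderiv_MS (Finset.mem_erase.2 ⟨hab, ha⟩) i (tR_pderiv_MS hb j hf))

private theorem tR_om_smul (c : ℂ) (x y : V) : om (c • x) (c • y) = c ^ 2 * om x y := by
  obtain ⟨N, hN⟩ : ∃ N : ℕ, ∀ k, x k ≠ 0 ∨ y k ≠ 0 → k < N := by
    classical
    refine ⟨(x.support ∪ y.support).sup (fun k => k + 1), fun k hk => ?_⟩
    have h1 : k ∈ x.support ∪ y.support := by
      rw [Finset.mem_union, Finsupp.mem_support_iff, Finsupp.mem_support_iff]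
      exact hk
    have h2 : k + 1 ≤ (x.support ∪ y.support).sup fun k => k + 1 :=
      Finset.le_sup (f := fun k => k + 1) h1
    omega
  have hs : ∀ (z : V) (k : ℕ), (c • z) k ≠ 0 → z k ≠ 0 := by
    intro z k hk h
    apply hk
    rw [Finsupp.smul_apply, h, smul_zero]
  rw [tR_om (c • x) (c • y) N (fun k hk => hN k (Or.inl (hs x k hk)))
    (fun k hk => hN k (Or.inr (hs y k hk))), tR_om x y N (fun k hk => hN k (Or.inl hk))
    (fun k hk => hN k (Or.inr hk)), Finset.mul_sum]
  refine Finset.sum_congr rfl fun k _ => ?_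
  rw [Finset.mul_sum]
  refine Finset.sum_congr rfl fun l _ => ?_
  rw [Finsupp.smul_apply, Finsupp.smul_apply, smul_eq_mul, smul_eq_mul]
  ring

theorem tr_sp (g : Cinf ≃ₗ[ℂ] Cinf) (hg : IsSo g) (c : ℂ) (a b : ℕ) (f : U R) :
    tr a b (sbC (fun i => c • g (ee i)) f) = c ^ 2 • sbC (fun i => c • g (ee i)) (tr a b f) := by
  refine tr_sbC_iso _ a b Set.univ f (by rw [LT_univ]; exact Algebra.mem_top) _ fun i _ j _ => ?_
  rw [tR_om_smul]
  exact congrArg (fun z => c ^ 2 * z) (hg.2 (ee i) (ee j))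

theorem GS_map_tr {N : Submodule R (U R)} (hN : GS N) (a b : ℕ) : GS (N.map (tr a b)) := by
  intro g hg c hc f' hf'
  obtain ⟨f, hf, rfl⟩ := Submodule.mem_map.1 hf'
  have h1 := tr_sp (R := R) g hg c a b f
  have h2 : sbC (fun i => c • g (ee i)) (tr a b f) =
      (c ^ 2)⁻¹ • tr a b (sbC (fun i => c • g (ee i)) f) := by
    rw [h1, smul_smul, inv_mul_cancel₀ (pow_ne_zero 2 hc), one_smul]
  rw [h2]
  exact tR_smulC _ _ (Submodule.mem_map_of_mem (hN g hg c hc f hf))

theorem GS_ker_tr {N : Submodule R (U R)} (hN : GS N) (a b : ℕ) :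
    GS (N ⊓ LinearMap.ker (tr a b)) := by
  intro g hg c hc f hf
  refine Submodule.mem_inf.2 ⟨hN g hg c hc f hf.1, ?_⟩
  rw [LinearMap.mem_ker, tr_sp g hg c a b f, LinearMap.mem_ker.1 hf.2, map_zero, smul_zero]

end MP50e386O

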