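import Mathlib
import Pool.Agent.Lib.MP_50e386_al.N.C3
import Pool.Agent.Lib.MP_50e386_al.N.CDefs
import Pool.Agent.Lib.MP_50e386_al.N.T2
import Pool.Agent.Lib.MP_50e386_al.O.T3
import Pool.Agent.Lib.MP_50e386_al.O.TR
import Pool.Agent.Lib.MP_50e386_al.N.C1
import Pool.Agent.Lib.MP_50e386_al.N.C2
import Pool.Agent.Lib.MP_50e386_al.O.W

/-! The contraction lemma (paper 5.2). -/

namespace MP50e386O

open MvPolynomial Pool.Agent.Lib.MP50e386 MP50e386N

variable {R : Type} [CommRing R] [Algebra ℂ R] [GLRing R]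

private theorem C3_sdeg_add (a : ℕ) (m m' : ℕ × ℕ →₀ ℕ) :
    sdeg a (m + m') = sdeg a m + sdeg a m' := by
  unfold sdeg
  refine Finsupp.sum_add_index' ?_ ?_
  · intro p; simp
  · intro p b c; split_ifs <;> simp

private theorem C3_sdeg_single (a : ℕ) (p : ℕ × ℕ) (k : ℕ) :
    sdeg a (Finsupp.single p k) = if p.1 = a then k else 0 := by
  unfold sdeg
  rw [Finsupp.sum_single_index]
  simp

/-- split off the letter in the slot `a` -/
private theorem C3_split (m : ℕ × ℕ →₀ ℕ) (a : ℕ) (h : sdeg a m = 1) :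
    ∃ i0 m', m = Finsupp.single (a, i0) 1 + m' ∧ sdeg a m' = 0 ∧
      ∀ a', a' ≠ a → sdeg a' m' = sdeg a' m := by
  have h1 : ∃ p ∈ m.support, p.1 = a := by
    by_contra hcon
    push Not at hcon
    have h2 : sdeg a m = 0 := by
      unfold sdeg Finsupp.sum
      exact Finset.sum_eq_zero fun p hp => if_neg (hcon p hp)
    omega
  obtain ⟨⟨a0, i0⟩, hp, ha⟩ := h1
  have ha' : a0 = a := ha
  subst ha'
  have hle : Finsupp.single (a0, i0) 1 ≤ m := by
    rw [Finsupp.single_le_iff]
    exact Nat.one_le_iff_ne_zero.2 (Finsupp.mem_support_iff.1 hp)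
  have hm : m = Finsupp.single (a0, i0) 1 + (m - Finsupp.single (a0, i0) 1) :=
    (add_tsub_cancel_of_le hle).symm
  refine ⟨i0, m - Finsupp.single (a0, i0) 1, hm, ?_, ?_⟩
  · have h2 := h
    rw [hm, C3_sdeg_add, C3_sdeg_single, if_pos rfl] at h2
    omega
  · intro a' ha'
    conv_rhs => rw [hm]
    rw [C3_sdeg_add, C3_sdeg_single, if_neg (fun h => ha' h.symm), zero_add]

private theorem C3_notMem (m : ℕ × ℕ →₀ ℕ) (a : ℕ) (h : sdeg a m = 0) (p : ℕ × ℕ)
    (hp : p ∈ m.support) : p.1 ≠ a := by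
  intro hpa
  have h1 : (if p.1 = a then m p else 0) ≤ sdeg a m := by
    unfold sdeg Finsupp.sum
    exact Finset.single_le_sum (f := fun q : ℕ × ℕ => if q.1 = a then m q else 0)
      (fun q _ => Nat.zero_le _) hp
  rw [if_pos hpa] at h1
  exact Finsupp.mem_support_iff.1 hp (by omega)

omit [Algebra ℂ R] [GLRing R] in
private theorem C3_pderiv_mono (m : ℕ × ℕ →₀ ℕ) (a i : ℕ) (h : sdeg a m = 0) :
    pderiv (a, i) (monomial m (1 : R)) = 0 := by
  rw [pderiv_monomial]
  have h1 : m (a, i) = 0 := by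
    by_contra hne
    exact C3_notMem m a h (a, i) (Finsupp.mem_support_iff.2 hne) rfl
  rw [h1]
  simp

omit [Algebra ℂ R] [GLRing R] in
private theorem C3_mono_split (p : ℕ × ℕ) (m : ℕ × ℕ →₀ ℕ) :
    (monomial (Finsupp.single p 1 + m) (1 : R)) = X p * monomial m 1 := by
  rw [X, monomial_mul, one_mul]

omit [Algebra ℂ R] [GLRing R] in
private theorem C3_mev_mono (Y Y' : ℕ → ℕ → VR R) (m : ℕ × ℕ →₀ ℕ)
    (h : ∀ p ∈ m.support, Y p.1 = Y' p.1) :
    mev Y (monomial m (1 : R)) = mev Y' (monomial m 1) := by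
  unfold mev
  rw [aeval_monomial, aeval_monomial]
  congr 1
  refine Finsupp.prod_congr fun p hp => ?_
  rw [h p hp]

omit [Algebra ℂ R] [GLRing R] in
private theorem C3_mev_X (Y : ℕ → ℕ → VR R) (a i : ℕ) :
    mev Y (X (a, i) : U R) = zf a (Y a i) := by
  unfold mev
  rw [aeval_X]

omit [Algebra ℂ R] [GLRing R] in
private theorem C3_two_mono (S : Finset ℕ) (m : ℕ × ℕ →₀ ℕ)
    (hm : ∀ a, sdeg a m = if a ∈ S then 1 else 0) (Y : ℕ → ℕ → VR R) (a b i j : ℕ)
    (ha : a ∈ S) (hb : b ∈ S) (hab : a ≠ b) (y y' : VR R) :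
    mev (Function.update (Function.update Y a (Pi.single i y)) b (Pi.single j y'))
      (monomial m (1 : R)) =
      zf a y * zf b y' * mev Y (pderiv (a, i) (pderiv (b, j) (monomial m 1))) := by
  obtain ⟨i0, m1, h1, h2, h3⟩ := C3_split m a (by rw [hm a, if_pos ha])
  obtain ⟨j0, m2, h4, h5, h6⟩ := C3_split m1 b (by rw [h3 b hab.symm, hm b, if_pos hb])
  have h7 : sdeg a m2 = 0 := by rw [h6 a hab, h2]
  have e1 : (monomial m (1 : R)) = X (a, i0) * (X (b, j0) * monomial m2 1) := by
    rw [h1, C3_mono_split, h4, C3_mono_split]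
  have e2 : pderiv (b, j) (monomial m (1 : R)) =
      if j0 = j then X (a, i0) * monomial m2 1 else 0 := by
    rw [e1, pderiv_mul, pderiv_X_of_ne (fun h => hab (Prod.mk.inj h).1), zero_mul, zero_add,
      pderiv_mul, C3_pderiv_mono m2 b j h5, mul_zero, add_zero]
    by_cases hj : j0 = j
    · rw [if_pos hj, hj, pderiv_X_self, one_mul]
    · rw [if_neg hj, pderiv_X_of_ne (fun h => hj (Prod.mk.inj h).2), zero_mul, mul_zero]
  have e3 : pderiv (a, i) (pderiv (b, j) (monomial m (1 : R))) =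
      if j0 = j then (if i0 = i then monomial m2 1 else 0) else 0 := by
    rw [e2]
    by_cases hj : j0 = j
    · rw [if_pos hj, if_pos hj, pderiv_mul, C3_pderiv_mono m2 a i h7, mul_zero, add_zero]
      by_cases hi : i0 = i
      · rw [if_pos hi, hi, pderiv_X_self, one_mul]
      · rw [if_neg hi, pderiv_X_of_ne (fun h => hi (Prod.mk.inj h).2), zero_mul]
    · rw [if_neg hj, if_neg hj, map_zero]
  have e4 : mev (Function.update (Function.update Y a (Pi.single i y)) b (Pi.single j y'))
      (monomial m2 (1 : R)) = mev Y (monomial m2 1) := by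
    refine C3_mev_mono _ _ m2 fun p hp => ?_
    rw [Function.update_of_ne (C3_notMem m2 b h5 p hp),
      Function.update_of_ne (C3_notMem m2 a h7 p hp)]
  rw [e3, e1, map_mul, map_mul, C3_mev_X, C3_mev_X, e4, Function.update_self,
    Function.update_of_ne hab, Function.update_self]
  by_cases hj : j0 = j
  · rw [if_pos hj, hj, Pi.single_eq_same]
    by_cases hi : i0 = i
    · rw [if_pos hi, hi, Pi.single_eq_same]
      ring
    · rw [if_neg hi, Pi.single_eq_of_ne hi, map_zero, map_zero]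
      ring
  · rw [if_neg hj, Pi.single_eq_of_ne hj, map_zero, map_zero]
    ring

theorem contraction (S : Finset ℕ) (F : U R) (hF : F ∈ MS R S) (T : Finset ℕ)
    (hT : ∀ a ∈ S, ∀ b ∈ S, a ≠ b → ∑ i ∈ T, ∑ j ∈ T,
      om (ee i) (ee j) • pderiv (a, i) (pderiv (b, j) F) = 0)
    (ψ' : ℕ → VR R) {l : ℕ} (φ : Fin l → ℕ → VR R) (t t' : Fin l) (htt : t ≠ t') (y y' : VR R) :
    ∑ i ∈ T, ∑ j ∈ T, om (ee i) (ee j) •
      DDm S F ψ' (Function.update (Function.update φ t (Pi.single i y)) t' (Pi.single j y')) = 0 := by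
  classical
  unfold DDm
  simp only [Finset.smul_sum]
  have h0 : ∀ G : ℕ → ℕ → (S → Option (Fin l)) → U R, ∀ C : Finset (S → Option (Fin l)),
      (∑ i ∈ T, ∑ j ∈ T, ∑ c ∈ C, G i j c) = ∑ c ∈ C, ∑ i ∈ T, ∑ j ∈ T, G i j c := by
    intro G C
    rw [Finset.sum_congr rfl fun i _ => Finset.sum_comm (s := T) (t := C) (f := fun j c => G i j c),
      Finset.sum_comm]
  rw [h0]
  refine Finset.sum_eq_zero fun c hc => ?_
  have hc' : ∀ t, ∃! a, c a = some t := (Finset.mem_filter.1 hc).2
  obtain ⟨a, hca, hua⟩ := hc' t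
  obtain ⟨b, hcb, hub⟩ := hc' t'
  have hab : a ≠ b := by
    intro h
    rw [h, hcb] at hca
    exact htt (Option.some.inj hca).symm
  have hab' : (a : ℕ) ≠ (b : ℕ) := fun h => hab (Subtype.ext h)
  set Y : ℕ → ℕ → VR R := fun s => if h : s ∈ S then Option.elim (c ⟨s, h⟩) ψ' φ else 0 with hY
  have h1 : ∀ i j : ℕ, (fun s => if h : s ∈ S then Option.elim (c ⟨s, h⟩) ψ'
      (Function.update (Function.update φ t (Pi.single i y)) t' (Pi.single j y')) else 0) =
      Function.update (Function.update Y a (Pi.single i y)) b (Pi.single j y') := by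
    intro i j
    funext s
    by_cases hsb : s = b
    · rw [hsb, Function.update_self, dif_pos b.2]
      have : (⟨(b : ℕ), b.2⟩ : S) = b := Subtype.ext rfl
      rw [this, hcb]
      show Function.update (Function.update φ t (Pi.single i y)) t' (Pi.single j y') t' = _
      rw [Function.update_self]
    · rw [Function.update_of_ne hsb]
      by_cases hsa : s = a
      · rw [hsa, Function.update_self, dif_pos a.2]
        have : (⟨(a : ℕ), a.2⟩ : S) = a := Subtype.ext rfl
        rw [this, hca]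
        show Function.update (Function.update φ t (Pi.single i y)) t' (Pi.single j y') t = _
        rw [Function.update_of_ne htt, Function.update_self]
      · rw [Function.update_of_ne hsa, hY]
        beta_reduce
        by_cases hs : s ∈ S
        · rw [dif_pos hs, dif_pos hs]
          cases hcs : c ⟨s, hs⟩ with
          | none => rfl
          | some u =>
            have hu1 : u ≠ t := by
              intro h
              rw [h] at hcs
              have := hua _ hcs
              exact hsa (congrArg Subtype.val this)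
            have hu2 : u ≠ t' := by
              intro h
              rw [h] at hcs
              have := hub _ hcs
              exact hsb (congrArg Subtype.val this)
            show Function.update (Function.update φ t (Pi.single i y)) t' (Pi.single j y') u = φ u
            rw [Function.update_of_ne hu2, Function.update_of_ne hu1]
        · rw [dif_neg hs, dif_neg hs]
  have h2 : ∀ i j : ℕ, om (ee i) (ee j) • mev (fun s => if h : s ∈ S then Option.elim (c ⟨s, h⟩) ψ'
      (Function.update (Function.update φ t (Pi.single i y)) t' (Pi.single j y')) else 0) F =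
      zf a y * zf b y' * mev Y (om (ee i) (ee j) • pderiv ((a : ℕ), i) (pderiv ((b : ℕ), j) F)) := by
    intro i j
    rw [h1 i j, mev_two S F hF Y a b i j a.2 b.2 hab' y y', ← algebraMap_smul R (om (ee i) (ee j))
      (pderiv ((a : ℕ), i) (pderiv ((b : ℕ), j) F)), map_smul, algebraMap_smul, mul_smul_comm]
  simp only [h2]
  simp only [← Finset.mul_sum, ← map_sum]
  rw [hT a a.2 b b.2 hab', map_zero, mul_zero]

private theorem C3_om_comm (k l : ℕ) : om (ee k) (ee l) = om (ee l) (ee k) := osf_comm _ _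

private theorem C3_cfs_smul (ψ' : ℕ → VR R) (c : ℂ) (f : U R) : cfs ψ' (c • f) = c • cfs ψ' f := by
  unfold cfs
  rw [← algebraMap_smul R c f, smul_eq_C_mul, map_mul, map_C,
    ← algebraMap_smul R c (MvPolynomial.map _ f), smul_eq_C_mul]
  congr 2
  exact AlgHom.commutes _ _

/-- the hypothesis of `contraction` for `F = cfs ψ' f` -/
theorem contr_cfs (S : Finset ℕ) (f : U R) (hf : f ∈ MS R S) (htr : TrZ S f) (T : Finset ℕ)
    (Z : Set ℕ) (hfT : f ∈ MP50e386N.LT R ((T : Set ℕ) ∪ Z))
    (hZ : ∀ i ∈ (T : Set ℕ) ∪ Z, ∀ z ∈ Z, z ∉ T → om (ee i) (ee z) = 0) (ψ' : ℕ → VR R) :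
    ∀ a ∈ S, ∀ b ∈ S, a ≠ b → ∑ i ∈ T, ∑ j ∈ T,
      om (ee i) (ee j) • pderiv (a, i) (pderiv (b, j) (cfs ψ' f)) = 0 := by
  classical
  intro a ha b hb hab
  have h1 : ∀ i j : ℕ, om (ee i) (ee j) • pderiv (a, i) (pderiv (b, j) (cfs ψ' f)) =
      cfs ψ' (om (ee i) (ee j) • pderiv (a, i) (pderiv (b, j) f)) := by
    intro i j
    rw [C3_cfs_smul]
    unfold cfs
    rw [pderiv_map, pderiv_map]
  simp only [h1]
  simp only [← map_sum]
  obtain ⟨n, hn⟩ := exists_LT f
  have h2 := htr a ha b hb hab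
  rw [tr_eq a b n f hn] at h2
  have hn1 : ∀ i j : ℕ, n ≤ i → pderiv (a, i) (pderiv (b, j) f) = 0 := fun i j hi =>
    pderiv_eq_zero_of_LT (pderiv_LT hn _) a i (fun h => absurd (Set.mem_Iio.1 h) (by omega))
  have hn2 : ∀ i j : ℕ, n ≤ j → pderiv (a, i) (pderiv (b, j) f) = 0 := fun i j hj => by
    rw [pderiv_eq_zero_of_LT hn b j (fun h => absurd (Set.mem_Iio.1 h) (by omega)), map_zero]
  have hT1 : ∀ i j : ℕ, i ∉ (T : Set ℕ) ∪ Z → pderiv (a, i) (pderiv (b, j) f) = 0 := fun i j hi =>
    pderiv_eq_zero_of_LT (pderiv_LT hfT _) a i hi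
  have hT2 : ∀ i j : ℕ, j ∉ (T : Set ℕ) ∪ Z → pderiv (a, i) (pderiv (b, j) f) = 0 := fun i j hj => by
    rw [pderiv_eq_zero_of_LT hfT b j hj, map_zero]
  have key : ∀ i j : ℕ, ¬ (i ∈ T ∧ j ∈ T) →
      om (ee i) (ee j) • pderiv (a, i) (pderiv (b, j) f) = 0 := by
    intro i j hij
    by_cases hi : i ∈ (T : Set ℕ) ∪ Z
    · by_cases hj : j ∈ (T : Set ℕ) ∪ Z
      · by_cases hjT : j ∈ T
        · have hiT : i ∉ T := fun h => hij ⟨h, hjT⟩
          have hiZ : i ∈ Z := by
            rcases hi with h | h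
            · exact absurd (Finset.mem_coe.1 h) hiT
            · exact h
          rw [C3_om_comm, hZ j hj i hiZ hiT, zero_smul]
        · have hjZ : j ∈ Z := by
            rcases hj with h | h
            · exact absurd (Finset.mem_coe.1 h) hjT
            · exact h
          rw [hZ i hi j hjZ hjT, zero_smul]
      · rw [hT2 i j hj, smul_zero]
    · rw [hT1 i j hi, smul_zero]
  have key2 : ∀ i j : ℕ, ¬ (i ∈ Finset.range n ∧ j ∈ Finset.range n) →
      om (ee i) (ee j) • pderiv (a, i) (pderiv (b, j) f) = 0 := by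
    intro i j hij
    by_cases hi : i ∈ Finset.range n
    · have hj : n ≤ j := by
        by_contra h
        exact hij ⟨hi, Finset.mem_range.2 (by omega)⟩
      rw [hn2 i j hj, smul_zero]
    · rw [hn1 i j (by rw [Finset.mem_range] at hi; omega), smul_zero]
  have h3 : ∀ A B : Finset ℕ, A ⊆ B → (∀ i j : ℕ, ¬ (i ∈ A ∧ j ∈ A) →
      om (ee i) (ee j) • pderiv (a, i) (pderiv (b, j) f) = 0) →
      ∑ i ∈ A, ∑ j ∈ A, om (ee i) (ee j) • pderiv (a, i) (pderiv (b, j) f) =
      ∑ i ∈ B, ∑ j ∈ B, om (ee i) (ee j) • pderiv (a, i) (pderiv (b, j) f) := by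
    intro A B hAB hz
    rw [Finset.sum_congr rfl fun i _ => Finset.sum_subset hAB fun j _ hj =>
      hz i j (fun h => hj h.2)]
    exact Finset.sum_subset hAB fun i _ hi => Finset.sum_eq_zero fun j _ =>
      hz i j (fun h => hi h.1)
  rw [h3 T (T ∪ Finset.range n) Finset.subset_union_left key,
    ← h3 (Finset.range n) (T ∪ Finset.range n) Finset.subset_union_right key2, h2, map_zero]

end MP50e386O

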