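import Mathlib
import Pool.Agent.Lib.MP_50e386_al.Witt
import Pool.Agent.Lib.MP_50e386_al.Bridge
import Pool.Agent.Lib.MP_50e386_al.N.TDefs
import Pool.Agent.Lib.MP_50e386_al.N.T1
import Pool.Agent.Lib.MP_50e386_al.N.T2
import Pool.Agent.Lib.MP_50e386_al.N.T3
import Pool.Agent.Lib.MP_50e386_al.O.W

/-! (w1): Witt extension. -/

namespace MP50e386O

open MvPolynomial Pool.Agent.Lib.MP50e386 MP50e386N

variable {R : Type} [CommRing R] [Algebra ℂ R] [GLRing R]

/-- an isometric family indexed by `0, …, 2n-1` is the beginning of an element of `O_∞` -/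
theorem exists_so (n : ℕ) (φ : ℕ → V)
    (h : ∀ i < 2 * n, ∀ j < 2 * n, om (φ i) (φ j) = om (ee i) (ee j)) :
    ∃ g : Cinf ≃ₗ[ℂ] Cinf, IsSo g ∧ ∀ i < 2 * n, g (ee i) = φ i := by
  obtain ⟨g, hg1, hg2, hg3⟩ := _root_.MP50e386.witt gdata_so
    step_so (even_two_mul n) φ (by
      intro i hi j hj
      rw [← osf_eq, ← _root_.MP50e386.frm_ee,
        ← osf_eq]
      exact h i hi j hj)
  refine ⟨g, ⟨hg1, fun x y => ?_⟩, hg3⟩
  rw [osf_eq, osf_eq]
  exact hg2 x y

namespace T5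

theorem gl_high {g : Cinf ≃ₗ[ℂ] Cinf} {n : ℕ}
    (h1 : ∀ i, n ≤ i → g (Finsupp.single i 1) = Finsupp.single i 1)
    (h2 : ∀ i < n, ∀ j, n ≤ j → g (Finsupp.single i 1) j = 0) (x : Cinf) (j : ℕ) (hj : n ≤ j) :
    g x j = x j := by
  induction x using Finsupp.induction_linear with
  | zero => rw [map_zero]
  | add x y hx hy => rw [map_add, Finsupp.add_apply, Finsupp.add_apply, hx, hy]
  | single i a =>
    have e : (Finsupp.single i a : Cinf) = a • Finsupp.single i 1 := by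
      rw [Finsupp.smul_single, smul_eq_mul, mul_one]
    rw [e, map_smul, Finsupp.smul_apply, Finsupp.smul_apply]
    by_cases hi : n ≤ i
    · rw [h1 i hi]
    · rw [h2 i (by omega) j hj, Finsupp.single_apply, if_neg (by omega)]

end T5

theorem isSo_inv {g : Cinf ≃ₗ[ℂ] Cinf} (hg : IsSo g) : IsSo g.symm := by
  obtain ⟨⟨n, h1, h2⟩, h3⟩ := hg
  refine ⟨⟨n, fun i hi => ?_, fun i hi j hj => ?_⟩, fun x y => ?_⟩
  · rw [LinearEquiv.symm_apply_eq, h1 i hi]
  · rw [← T5.gl_high h1 h2 _ j hj, LinearEquiv.apply_symm_apply, Finsupp.single_apply,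
      if_neg (by omega)]
  · rw [← h3, LinearEquiv.apply_symm_apply, LinearEquiv.apply_symm_apply]

theorem isSo_mul {g g' : Cinf ≃ₗ[ℂ] Cinf} (hg : IsSo g) (hg' : IsSo g') : IsSo (g'.trans g) := by
  obtain ⟨⟨n, h1, h2⟩, h3⟩ := hg
  obtain ⟨⟨n', h1', h2'⟩, h3'⟩ := hg'
  refine ⟨⟨max n n', fun i hi => ?_, fun i hi j hj => ?_⟩, fun x y => ?_⟩
  · rw [LinearEquiv.trans_apply, h1' i (le_trans (le_max_right _ _) hi),
      h1 i (le_trans (le_max_left _ _) hi)]
  · rw [LinearEquiv.trans_apply, T5.gl_high h1 h2 _ j (le_trans (le_max_left _ _) hj),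
      T5.gl_high h1' h2' _ j (le_trans (le_max_right _ _) hj), Finsupp.single_apply,
      if_neg (by omega)]
  · rw [LinearEquiv.trans_apply, LinearEquiv.trans_apply, h3, h3']

namespace T5

open _root_.MP50e386 (frm pis gam)

/-- the symplectic form as a bilinear form -/
noncomputable abbrev B : LinearMap.BilinForm ℂ V := frm pis sio

theorem om_eq (x y : V) : om x y = B x y := osf_eq x y

theorem B_anti (x y : V) : B x y = B y x := by
  have h := _root_.MP50e386.frm_refl_eps gdata_so x y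
  rw [one_mul] at h
  exact h

theorem B_al (x y z : V) : B (x + y) z = B x z + B y z := by
  rw [map_add, LinearMap.add_apply]

theorem B_ar (x y z : V) : B x (y + z) = B x y + B x z := map_add _ _ _

theorem B_sl (c : ℂ) (x z : V) : B (c • x) z = c * B x z := by
  rw [map_smul, LinearMap.smul_apply, smul_eq_mul]

theorem B_sr (c : ℂ) (x z : V) : B x (c • z) = c * B x z := by
  rw [map_smul, smul_eq_mul]

theorem B_suml {ι : Type} (s : Finset ι) (v : ι → V) (z : V) :
    B (∑ i ∈ s, v i) z = ∑ i ∈ s, B (v i) z := by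
  rw [map_sum, LinearMap.sum_apply]

theorem B_sumr {ι : Type} (s : Finset ι) (v : ι → V) (z : V) :
    B z (∑ i ∈ s, v i) = ∑ i ∈ s, B z (v i) := map_sum _ _ _

theorem B_ee (i j : ℕ) : B (ee i) (ee j) = gam pis sio i j := _root_.MP50e386.frm_ee i j

theorem pis_even {i : ℕ} (h : Even i) : pis i = i + 1 := by
  unfold pis
  rw [if_pos h]

theorem pis_odd {i : ℕ} (h : ¬ Even i) : pis i = i - 1 := by
  unfold pis
  rw [if_neg h]

/-- a far letter and a vector with low support -/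
theorem B_far {n : ℕ} (x : V) (hx : ∀ j, 2 * n ≤ j → x j = 0) {k : ℕ} (hk : 2 * n ≤ k) :
    B (ee k) x = 0 := by
  have h1 : B (ee k) x = sio k * x (pis k) := _root_.MP50e386.frm_ee_left k x
  rw [h1, hx, mul_zero]
  by_contra hcon
  have h2 := _root_.MP50e386.pi_lt gdata_so (even_two_mul n) (i := pis k) (by omega)
  rw [gdata_so.inv] at h2
  omega

theorem B_bb (n i j : ℕ) : B (ee (2 * n + 2 * i)) (ee (2 * n + 2 * j)) = 0 := by
  rw [B_ee]
  unfold gam
  have h : Even (2 * n + 2 * i) := ⟨n + i, by ring⟩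
  rw [pis_even h, if_neg (by omega)]

theorem B_ss (n i j : ℕ) : B (ee (2 * n + 2 * i + 1)) (ee (2 * n + 2 * j + 1)) = 0 := by
  rw [B_ee]
  unfold gam
  have h : ¬ Even (2 * n + 2 * i + 1) := by
    rw [Nat.even_add_one, not_not]
    exact ⟨n + i, by ring⟩
  rw [pis_odd h, if_neg (by omega)]

theorem B_sb (n i j : ℕ) : B (ee (2 * n + 2 * i + 1)) (ee (2 * n + 2 * j)) =
    if j = i then 1 else 0 := by
  rw [B_ee]
  unfold gam
  have h : ¬ Even (2 * n + 2 * i + 1) := by
    rw [Nat.even_add_one, not_not]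
    exact ⟨n + i, by ring⟩
  rw [pis_odd h]
  have h2 : sio (2 * n + 2 * i + 1) = 1 := rfl
  by_cases hj : j = i
  · rw [if_pos (by omega), if_pos hj, h2]
  · rw [if_neg (by omega), if_neg hj]

theorem B_shift (n i j : ℕ) : B (ee (6 * n + i)) (ee (6 * n + j)) = B (ee i) (ee j) := by
  rw [B_ee, B_ee]
  have h : Even (6 * n) := ⟨3 * n, by ring⟩
  rw [← _root_.MP50e386.gam_shift' gdata_so h i j, add_comm i, add_comm j]

theorem B_farl (n i j : ℕ) (hj : j < 6 * n) : B (ee (6 * n + i)) (ee j) = 0 := by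
  rw [B_ee]
  have h : Even (6 * n) := ⟨3 * n, by ring⟩
  exact _root_.MP50e386.gam_zero_right gdata_so h (by omega) hj

end T5

/-- (w1) -/
theorem witt1 {N : Submodule R (U R)} (hN : GS N) {f : U R} (hf : f ∈ N) {T : Set ℕ}
    (hT : T.Finite) (hfT : f ∈ LT R T) (φ : ℕ → V)
    (h : ∀ i ∈ T, ∀ j ∈ T, om (φ i) (φ j) = om (ee i) (ee j)) : sbC φ f ∈ N := by
  classical
  -- a level
  obtain ⟨n, hn1, hn2⟩ : ∃ n : ℕ, (∀ i ∈ T, i < 2 * n) ∧
      ∀ i ∈ T, ∀ j, 2 * n ≤ j → φ i j = 0 := by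
    set S : Finset ℕ := hT.toFinset ∪ hT.toFinset.biUnion (fun i => (φ i).support) with hS
    refine ⟨S.sup id + 1, ?_, ?_⟩
    · intro i hi
      have h1 : i ∈ S := by
        rw [hS, Finset.mem_union]
        exact Or.inl (hT.mem_toFinset.2 hi)
      have h2 := Finset.le_sup (f := id) h1
      simp only [id] at h2
      omega
    · intro i hi j hj
      by_contra hne
      have h1 : j ∈ S := by
        rw [hS, Finset.mem_union, Finset.mem_biUnion]
        exact Or.inr ⟨i, hT.mem_toFinset.2 hi, Finsupp.mem_support_iff.2 hne⟩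
      have h2 := Finset.le_sup (f := id) h1
      simp only [id] at h2
      omega
  -- the family
  set T' : Finset ℕ := hT.toFinset with hT'
  have memT : ∀ i, i ∈ T' ↔ i ∈ T := fun i => hT.mem_toFinset
  set y : ℕ → V := fun i => ∑ j ∈ T', (om (ee i) (ee j)) • ee (2 * n + 2 * j + 1) with hy
  set Ψ : ℂ → ℕ → V := fun t i => if i ∈ T then φ i + t • ee (2 * n + 2 * i) else
    ee (6 * n + i) + t⁻¹ • y i with hΨ
  have hyb : ∀ i, ∀ j ∈ T, T5.B (y i) (ee (2 * n + 2 * j)) = om (ee i) (ee j) := by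
    intro i j hj
    simp only [hy]
    rw [T5.B_suml, Finset.sum_eq_single j]
    · rw [T5.B_sl, T5.B_sb, if_pos rfl]
      ring
    · intro k _ hk
      rw [T5.B_sl, T5.B_sb, if_neg (fun h' => hk h'.symm), mul_zero]
    · intro h'
      exact absurd ((memT j).2 hj) h'
  have hyφ : ∀ i, ∀ j ∈ T, T5.B (y i) (φ j) = 0 := by
    intro i j hj
    simp only [hy]
    rw [T5.B_suml]
    refine Finset.sum_eq_zero fun k _ => ?_
    rw [T5.B_sl, T5.B_far (φ j) (hn2 j hj) (by omega), mul_zero]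
  have hyy : ∀ i i', T5.B (y i) (y i') = 0 := by
    intro i i'
    simp only [hy]
    rw [T5.B_suml]
    refine Finset.sum_eq_zero fun k _ => ?_
    rw [T5.B_sl, T5.B_sumr, Finset.sum_eq_zero, mul_zero]
    intro k' _
    rw [T5.B_sr, T5.B_ss, mul_zero]
  have hey : ∀ i i', T5.B (ee (6 * n + i)) (y i') = 0 := by
    intro i i'
    simp only [hy]
    rw [T5.B_sumr]
    refine Finset.sum_eq_zero fun k hk => ?_
    have := hn1 k ((memT k).1 hk)
    rw [T5.B_sr, T5.B_farl n i _ (by omega), mul_zero]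
  have heb : ∀ i, ∀ j ∈ T, T5.B (ee (6 * n + i)) (ee (2 * n + 2 * j)) = 0 := by
    intro i j hj
    have := hn1 j hj
    exact T5.B_farl n i _ (by omega)
  have heφ : ∀ i, ∀ j ∈ T, T5.B (ee (6 * n + i)) (φ j) = 0 := by
    intro i j hj
    have := hn1 j hj
    exact T5.B_far (φ j) (hn2 j hj) (by omega)
  have hbφ : ∀ i, ∀ j ∈ T, T5.B (ee (2 * n + 2 * i)) (φ j) = 0 := by
    intro i j hj
    exact T5.B_far (φ j) (hn2 j hj) (by omega)
  -- mixed pairs
  have hmix : ∀ t : ℂ, t ≠ 0 → ∀ i, i ∉ T → ∀ j ∈ T,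
      T5.B (Ψ t i) (Ψ t j) = om (ee i) (ee j) := by
    intro t ht i hi j hj
    simp only [hΨ]
    rw [if_neg hi, if_pos hj, T5.B_al, T5.B_ar, T5.B_ar, T5.B_sl, T5.B_sl, T5.B_sr, T5.B_sr,
      heφ i j hj, heb i j hj, hyφ i j hj, hyb i j hj]
    field_simp
    ring
  have hgram : ∀ t : ℂ, t ≠ 0 → ∀ i < 2 * n, ∀ j < 2 * n,
      om (Ψ t i) (Ψ t j) = om (ee i) (ee j) := by
    intro t ht i _ j _
    rw [T5.om_eq]
    by_cases hi : i ∈ T
    · by_cases hj : j ∈ T
      · simp only [hΨ]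
        rw [if_pos hi, if_pos hj, T5.B_al, T5.B_ar, T5.B_ar, T5.B_sl, T5.B_sl, T5.B_sr, T5.B_sr,
          T5.B_bb, hbφ i j hj, T5.B_anti (φ i) (ee (2 * n + 2 * j)), hbφ j i hi, ← T5.om_eq,
          h i hi j hj]
        ring
      · rw [T5.B_anti, hmix t ht j hj i hi, T5.om_eq, T5.om_eq, T5.B_anti (ee i)]
    · by_cases hj : j ∈ T
      · exact hmix t ht i hi j hj
      · simp only [hΨ]
        rw [if_neg hi, if_neg hj, T5.B_al, T5.B_ar, T5.B_ar, T5.B_sl, T5.B_sl, T5.B_sr, T5.B_sr,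
          hyy, hey, T5.B_anti (y i), hey, T5.B_shift, T5.om_eq]
        ring
  have hmem : ∀ t : ℂ, t ≠ 0 → sbC (fun i => φ i + t • ee (2 * n + 2 * i)) f ∈ N := by
    intro t ht
    obtain ⟨g, hg, hg'⟩ := exists_so n (Ψ t) (hgram t ht)
    have h1 := hN g hg 1 one_ne_zero f hf
    rw [sbC_congr hfT _ (fun i => φ i + t • ee (2 * n + 2 * i))] at h1
    · exact h1
    · intro i hi
      rw [one_smul, hg' i (hn1 i hi)]
      simp only [hΨ]
      rw [if_pos hi]
  -- Vandermonde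
  obtain ⟨P, hP⟩ := exists_sbU_poly (σ := Unit) (fun i =>
    (cst (φ i) : VR R).mapRange (C : R →+* MvPolynomial Unit R) (map_zero _) +
      (X () : MvPolynomial Unit R) • (cst (ee (2 * n + 2 * i)) : VR R).mapRange
        (C : R →+* MvPolynomial Unit R) (map_zero _)) f
  have hP' : ∀ t : ℂ, sbC (fun i => φ i + t • ee (2 * n + 2 * i)) f =
      eval (fun _ => algebraMap ℂ (U R) t) P := by
    intro t
    have h1 := hP (fun _ => algebraMap ℂ R t)
    have h2 : (fun _ : Unit => (C (algebraMap ℂ R t) : U R)) =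
        fun _ => algebraMap ℂ (U R) t := rfl
    rw [h2] at h1
    rw [← h1]
    have h3 : (fun i => (cst (φ i + t • ee (2 * n + 2 * i)) : VR R)) = fun i =>
        ((cst (φ i) : VR R).mapRange (C : R →+* MvPolynomial Unit R) (map_zero _) +
      (X () : MvPolynomial Unit R) • (cst (ee (2 * n + 2 * i)) : VR R).mapRange
        (C : R →+* MvPolynomial Unit R) (map_zero _)).mapRange
          (eval fun _ : Unit => algebraMap ℂ R t) (map_zero _) := by
      funext i
      ext k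
      by_cases hk : 2 * n + 2 * i = k
      · simp [cst, hk]
      · simp [cst, hk]
    unfold sbC
    simp only [h3]
  have h3 := vand_mvpoly (N.restrictScalars ℂ) P (by
    intro t ht
    have h1 := hmem (t ()) (ht ())
    rw [hP'] at h1
    exact h1) 0
  have h4 := hP' 0
  rw [map_zero] at h4
  have h5 : eval (fun _ : Unit => (0 : U R)) P = P.coeff 0 := by
    rw [MvPolynomial.eval_zero', constantCoeff_eq]
  rw [h5] at h4
  rw [← h4] at h3
  simpa using h3

theorem T5.isSo_refl : IsSo (LinearEquiv.refl ℂ Cinf) := by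
  refine ⟨⟨0, fun i _ => rfl, fun i hi => absurd hi (Nat.not_lt_zero i)⟩, fun x y => rfl⟩

/-- (w1) with a scalar -/
theorem witt1_smul {N : Submodule R (U R)} (hN : GS N) {f : U R} (hf : f ∈ N) {T : Set ℕ}
    (hT : T.Finite) (hfT : f ∈ LT R T) (φ : ℕ → V) (c : ℂ) (hc : c ≠ 0)
    (h : ∀ i ∈ T, ∀ j ∈ T, om (φ i) (φ j) = c * om (ee i) (ee j)) : sbC φ f ∈ N := by
  obtain ⟨d, hd⟩ := IsAlgClosed.exists_pow_nat_eq c (n := 2) (by norm_num)
  have hd0 : d ≠ 0 := by
    rintro rfl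
    apply hc
    rw [← hd]
    ring
  have h1 := witt1 hN hf hT hfT (fun i => d⁻¹ • φ i) (by
    intro i hi j hj
    have h2 := h i hi j hj
    rw [T5.om_eq, T5.B_sl, T5.B_sr, ← T5.om_eq, h2, ← hd]
    field_simp)
  have h2 := hN _ T5.isSo_refl d hd0 _ h1
  rw [sbC_sbC] at h2
  have h3 : linC (fun i => d • (LinearEquiv.refl ℂ Cinf) (ee i)) = d • LinearMap.id := by
    apply Finsupp.lhom_ext'
    intro i
    apply LinearMap.ext_ring
    change linC (fun i => d • (LinearEquiv.refl ℂ Cinf) (ee i)) (ee i) = _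
    rw [linC_ee]
    rfl
  have h4 : (fun i => (linC fun i => d • (LinearEquiv.refl ℂ Cinf) (ee i)) (d⁻¹ • φ i)) = φ := by
    funext i
    rw [h3, LinearMap.smul_apply, LinearMap.id_apply, smul_smul, mul_inv_cancel₀ hd0, one_smul]
  rw [h4] at h2
  exact h2

/-- the same for ideals of `R` -/
theorem witt1I {I : Ideal R} (hI : GSI I) {a : R} (ha : a ∈ I) {T : Set ℕ}
    (hT : T.Finite) (haT : (C a : U R) ∈ LT R T) (φ : ℕ → V)
    (h : ∀ i ∈ T, ∀ j ∈ T, om (φ i) (φ j) = om (ee i) (ee j)) : sbR φ a ∈ I := by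
  have h1 := witt1 ((GS_ofI I).2 hI) ((C_mem_ofI I a).2 ha) hT haT φ h
  rw [sbC_C, C_mem_ofI] at h1
  exact h1

end MP50e386O
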