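import Mathlib
import Pool.Agent.Lib.MP_50e386_al.N.T6
import Pool.Agent.Lib.MP_50e386_al.N.TDefs
import Pool.Agent.Lib.MP_50e386_al.N.T1
import Pool.Agent.Lib.MP_50e386_al.N.T2
import Pool.Agent.Lib.MP_50e386_al.O.T3
import Pool.Agent.Lib.MP_50e386_al.N.T4
import Pool.Agent.Lib.MP_50e386_al.O.T5
import Pool.Agent.Lib.MP_50e386_al.O.W

/-! Weights and (w2). -/

namespace MP50e386O

open MvPolynomial Pool.Agent.Lib.MP50e386 MP50e386N

variable {R : Type} [CommRing R] [Algebra ℂ R] [GLRing R]

/-- strong homogeneity: scalars in `R` -/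
private def SHW (d : ℕ) (f : U R) : Prop :=
  ∀ (c : R) (ψ : ℕ → VR R), sbU (fun i => c • ψ i) f = c ^ d • sbU ψ f

omit [GLRing R] in
private theorem cst_ee (i : ℕ) : (cst (ee i) : VR R) = Finsupp.single i 1 := by
  unfold cst
  rw [Finsupp.mapRange.linearMap_apply, Finsupp.mapRange_single, Algebra.linearMap_apply, map_one]

omit [GLRing R] in
private theorem cst_smul (c : ℂ) (v : V) : (cst (c • v) : VR R) = algebraMap ℂ R c • cst v := by
  rw [map_smul]
  exact (algebraMap_smul R c _).symm

private theorem SHW.hw {d : ℕ} {f : U R} (hf : SHW d f) : HW d f := by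
  intro c
  have h := hf (algebraMap ℂ R c) (fun i => cst (ee i))
  unfold sbC
  have e : (fun i => (cst (c • ee i) : VR R)) = fun i => algebraMap ℂ R c • cst (ee i) := by
    funext i
    exact cst_smul c _
  rw [e, h]
  have e2 : sbU (fun i => (cst (ee i) : VR R)) f = f := sbC_id f
  rw [e2, ← map_pow, algebraMap_smul]

private theorem SHW.zero (d : ℕ) : SHW d (0 : U R) := by
  intro c ψ
  rw [map_zero, map_zero, smul_zero]

private theorem SHW.add {d : ℕ} {f g : U R} (hf : SHW d f) (hg : SHW d g) : SHW d (f + g) := by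
  intro c ψ
  rw [map_add, map_add, hf c ψ, hg c ψ, smul_add]

private theorem SHW.mul {d e : ℕ} {f g : U R} (hf : SHW d f) (hg : SHW e g) :
    SHW (d + e) (f * g) := by
  intro c ψ
  rw [map_mul, map_mul, hf c ψ, hg c ψ, smul_mul_smul_comm, pow_add]

private theorem SHW.sum {ι : Type} (s : Finset ι) (d : ℕ) (f : ι → U R)
    (h : ∀ i ∈ s, SHW d (f i)) : SHW d (∑ i ∈ s, f i) := by
  classical
  induction s using Finset.induction_on with
  | empty => rw [Finset.sum_empty]; exact SHW.zero d
  | insert a s ha ih =>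
    rw [Finset.sum_insert ha]
    exact (h a (Finset.mem_insert_self _ _)).add
      (ih fun i hi => h i (Finset.mem_insert_of_mem hi))

private theorem SHW_C (a : ℂ) : SHW 0 (C (algebraMap ℂ R a) : U R) := by
  intro c ψ
  rw [sbU_C, sbU_C, AlgHom.commutes, AlgHom.commutes, pow_zero, one_smul]

private theorem SHW_x (i j : ℕ) : SHW 2 (C (GLRing.x i j) : U R) := by
  intro c ψ
  have e : (xf (c • ψ i) (c • ψ j) : R) = c ^ 2 * xf (ψ i) (ψ j) := by
    rw [LinearMap.map_smul, LinearMap.map_smul, LinearMap.smul_apply, smul_smul, ← pow_two,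
      smul_eq_mul]
  rw [sbU_C, sbU_C, sb_x', sb_x', e, smul_eq_C_mul, map_mul]

private theorem SHW_X (a i : ℕ) : SHW 1 (X (a, i) : U R) := by
  intro c ψ
  rw [sbU_X, sbU_X, map_smul, pow_one]

private theorem SHW.decomp_pad {n : ℕ} (m : ℕ) (hnm : n ≤ m) {f : U R} {g : ℕ → U R}
    (h : f = ∑ d ∈ Finset.range n, g d) (hg : ∀ d, SHW d (g d)) :
    ∃ g' : ℕ → U R, f = ∑ d ∈ Finset.range m, g' d ∧ ∀ d, SHW d (g' d) := by
  refine ⟨fun d => if d < n then g d else 0, ?_, ?_⟩
  · rw [h, ← Finset.sum_subset (Finset.range_mono hnm)]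
    · refine Finset.sum_congr rfl fun d hd => ?_
      rw [if_pos (Finset.mem_range.1 hd)]
    · intro d _ hd
      rw [if_neg (fun h => hd (Finset.mem_range.2 h))]
  · intro d
    dsimp only
    split_ifs
    · exact hg d
    · exact SHW.zero d

private theorem exists_SHW_decomp (f : U R) :
    ∃ (n : ℕ) (g : ℕ → U R), f = ∑ d ∈ Finset.range n, g d ∧ ∀ d, SHW d (g d) := by
  have hf : f ∈ MP50e386N.LT R Set.univ := by rw [LT_univ]; trivial
  have single : ∀ (e : ℕ) (u : U R), SHW e u →
      ∃ (n : ℕ) (g : ℕ → U R), u = ∑ d ∈ Finset.range n, g d ∧ ∀ d, SHW d (g d) := by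
    intro e u hu
    refine ⟨e + 1, fun d => if d = e then u else 0, ?_, ?_⟩
    · rw [Finset.sum_ite_eq' (Finset.range (e + 1)) e (fun _ => u),
        if_pos (Finset.mem_range.2 (Nat.lt_succ_self e))]
    · intro d
      dsimp only
      split_ifs with h
      · rw [h]; exact hu
      · exact SHW.zero d
  unfold MP50e386N.LT at hf
  induction hf using Algebra.adjoin_induction with
  | mem u hu =>
    rcases hu with ⟨i, _, j, _, rfl⟩ | ⟨a, i, _, rfl⟩
    · exact single 2 _ (SHW_x i j)
    · exact single 1 _ (SHW_X a i)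
  | algebraMap c =>
    refine single 0 _ ?_
    have := SHW_C (R := R) c
    exact this
  | add u v _ _ hu hv =>
    obtain ⟨n, g, hg, hg'⟩ := hu
    obtain ⟨m, k, hk, hk'⟩ := hv
    obtain ⟨g1, h1, h1'⟩ := SHW.decomp_pad (max n m) (le_max_left _ _) hg hg'
    obtain ⟨k1, h2, h2'⟩ := SHW.decomp_pad (max n m) (le_max_right _ _) hk hk'
    refine ⟨max n m, fun d => g1 d + k1 d, ?_, fun d => (h1' d).add (h2' d)⟩
    rw [Finset.sum_add_distrib, ← h1, ← h2]
  | mul u v _ _ hu hv =>
    obtain ⟨n, g, hg, hg'⟩ := hu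
    obtain ⟨m, k, hk, hk'⟩ := hv
    refine ⟨n + m, fun d => ∑ p ∈ (Finset.range n ×ˢ Finset.range m).filter
      (fun p => p.1 + p.2 = d), g p.1 * k p.2, ?_, ?_⟩
    · rw [Finset.sum_fiberwise_of_maps_to (s := Finset.range n ×ˢ Finset.range m)
        (t := Finset.range (n + m)) (g := fun p => p.1 + p.2) ?_ (fun p => g p.1 * k p.2),
        hg, hk, Finset.sum_mul_sum, Finset.sum_product]
      intro p hp
      rw [Finset.mem_product, Finset.mem_range, Finset.mem_range] at hp
      rw [Finset.mem_range]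
      omega
    · intro d
      refine SHW.sum _ _ _ fun p hp => ?_
      rw [Finset.mem_filter] at hp
      rw [← hp.2]
      exact (hg' _).mul (hk' _)

private theorem inf_ne : {t : ℂ | t ≠ 0}.Infinite := by
  have : {t : ℂ | t ≠ 0} = ({0} : Set ℂ)ᶜ := by
    ext t
    simp
  rw [this]
  exact (Set.finite_singleton (0 : ℂ)).infinite_compl

/-- a homogeneous element is strongly homogeneous -/
private theorem HW.shw {d : ℕ} {f : U R} (hf : HW d f) : SHW d f := by
  obtain ⟨n, g, h, h'⟩ := exists_SHW_decomp f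
  -- all components `g e`, `e ≠ d`, vanish
  have key : ∀ e < n, e ≠ d → g e = 0 := by
    set G : ℕ → U R := fun e => g e - if e = d then f else 0 with hG
    have hGd : ∀ e, HW e (G e) := by
      intro e c
      rw [hG]
      dsimp only
      rw [map_sub, (h' e).hw c, smul_sub]
      congr 1
      split_ifs with hed
      · rw [hed]; exact hf c
      · rw [map_zero, smul_zero]
    by_cases hd : d < n
    · have hs : ∑ e ∈ Finset.range n, G e = 0 := by
        rw [hG]
        dsimp only
        rw [Finset.sum_sub_distrib, ← h, Finset.sum_ite_eq' (Finset.range n) d (fun _ => f),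
          if_pos (Finset.mem_range.2 hd), sub_self]
      have h0 := HW_comp_mem (⊥ : Submodule ℂ (U R)) (by
        intro t _ u hu
        rw [Submodule.mem_bot] at hu ⊢
        rw [hu, map_zero]) n G hGd (by rw [hs]; exact Submodule.zero_mem _)
      intro e he hne
      have h1 := h0 e he
      rw [Submodule.mem_bot, hG] at h1
      dsimp only at h1
      rwa [if_neg hne, sub_zero] at h1
    · -- pad
      set G' : ℕ → U R := fun e => (if e < n then g e else 0) - if e = d then f else 0 with hG'
      have hGd' : ∀ e, HW e (G' e) := by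
        intro e c
        rw [hG']
        dsimp only
        rw [map_sub, smul_sub]
        congr 1
        · split_ifs
          · exact (h' e).hw c
          · rw [map_zero, smul_zero]
        · split_ifs with hed
          · rw [hed]; exact hf c
          · rw [map_zero, smul_zero]
      have hs : ∑ e ∈ Finset.range (d + 1), G' e = 0 := by
        rw [hG']
        dsimp only
        rw [Finset.sum_sub_distrib, Finset.sum_ite_eq' (Finset.range (d + 1)) d (fun _ => f),
          if_pos (Finset.mem_range.2 (Nat.lt_succ_self d))]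
        rw [sub_eq_zero, h, ← Finset.sum_subset (Finset.range_mono (show n ≤ d + 1 by omega))]
        · refine Finset.sum_congr rfl fun e he => ?_
          rw [if_pos (Finset.mem_range.1 he)]
        · intro e _ he
          rw [if_neg (fun h => he (Finset.mem_range.2 h))]
      have h0 := HW_comp_mem (⊥ : Submodule ℂ (U R)) (by
        intro t _ u hu
        rw [Submodule.mem_bot] at hu ⊢
        rw [hu, map_zero]) (d + 1) G' hGd' (by rw [hs]; exact Submodule.zero_mem _)
      intro e he hne
      have h1 := h0 e (by omega)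
      rw [Submodule.mem_bot, hG'] at h1
      dsimp only at h1
      rwa [if_neg hne, sub_zero, if_pos he] at h1
  by_cases hd : d < n
  · have e : f = g d := by
      rw [h, Finset.sum_eq_single d]
      · intro b hb hne
        exact key b (Finset.mem_range.1 hb) hne
      · intro hb
        exact absurd (Finset.mem_range.2 hd) hb
    rw [e]
    exact h' d
  · have e : f = 0 := by
      rw [h]
      refine Finset.sum_eq_zero fun b hb => ?_
      have hb' := Finset.mem_range.1 hb
      exact key b hb' (by omega)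
    rw [e]
    exact SHW.zero d

private theorem isSo_one : IsSo (LinearEquiv.refl ℂ Cinf) := by
  refine ⟨⟨0, fun i _ => rfl, fun i hi => absurd hi (Nat.not_lt_zero i)⟩, fun x y => rfl⟩

private theorem GS.scal {N : Submodule R (U R)} (hN : GS N) (t : ℂ) (ht : t ≠ 0) {f : U R}
    (hf : f ∈ N) : sbC (fun i => t • ee i) f ∈ N := hN _ isSo_one t ht f hf

theorem GS_HW_comp {N : Submodule R (U R)} (hN : GS N) (n : ℕ) (g : ℕ → U R)
    (hg : ∀ d, HW d (g d)) (h : ∑ d ∈ Finset.range n, g d ∈ N) : ∀ d < n, g d ∈ N :=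
  HW_comp_mem (N.restrictScalars ℂ) (fun t ht _ hf => GS.scal hN t ht hf) n g hg h

/-- two graded submodules -/
theorem GS_le_of_HW {N N' : Submodule R (U R)} (hN : GS N)
    (h : ∀ d, ∀ f ∈ N, HW d f → f ∈ N') : N ≤ N' := by
  intro f hf
  obtain ⟨n, g, hg, hg'⟩ := exists_HW_decomp f
  rw [hg] at hf ⊢
  refine Submodule.sum_mem _ fun d hd => ?_
  exact h d _ (GS_HW_comp hN n g hg' hf d (Finset.mem_range.1 hd)) (hg' d)

private theorem om_frm (x y : V) : om x y = MP50e386.frm MP50e386.pis sio x y :=
  osf_eq x y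

private theorem pis_shift (j : ℕ) (k : ℕ) :
    MP50e386.pis (j + 2 * k) = MP50e386.pis j + 2 * k := by
  induction k with
  | zero => rfl
  | succ k ih =>
    have h := gdata_so.shift (j + 2 * k)
    rw [show j + 2 * (k + 1) = j + 2 * k + 2 by ring, h, ih]
    ring

private theorem om_far (x : V) (j k : ℕ) (h : ∀ i, 2 * k ≤ i → x i = 0) :
    om x (ee (j + 2 * k)) = 0 ∧ om (ee (j + 2 * k)) x = 0 := by
  have h1 : x (MP50e386.pis (j + 2 * k)) = 0 := by
    apply h
    rw [pis_shift]
    omega
  constructor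
  · rw [om_frm]
    have := MP50e386.frm_ee_right gdata_so x (j + 2 * k)
    rw [h1, mul_zero, mul_zero] at this
    exact this
  · rw [om_frm]
    have := MP50e386.frm_ee_left (π := MP50e386.pis) (σ := sio) (j + 2 * k) x
    rw [h1, mul_zero] at this
    exact this

private theorem om_ee_shift (i j k : ℕ) :
    om (ee (i + 2 * k)) (ee (j + 2 * k)) = om (ee i) (ee j) := by
  rw [om_frm, om_frm]
  have h1 := MP50e386.frm_ee (π := MP50e386.pis) (σ := sio) (i + 2 * k) (j + 2 * k)
  have h2 := MP50e386.frm_ee (π := MP50e386.pis) (σ := sio) i j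
  have h3 := MP50e386.gam_shift' gdata_so (N := 2 * k) ⟨k, by ring⟩ i j
  exact h1.trans (h3.trans h2.symm)

private theorem om_add_smul (a b a' b' : V) (u : ℂ) : om (a + u • b) (a' + u • b') =
    om a a' + u * om a b' + u * om b a' + u ^ 2 * om b b' := by
  simp only [om_frm, map_add, map_smul, LinearMap.add_apply, LinearMap.smul_apply, smul_eq_mul]
  ring

omit [GLRing R] in
private theorem cst_mapRange (v : V) (σ : Type) (t : σ → R) :
    ((cst v : VR R).mapRange (C : R →+* MvPolynomial σ R) (map_zero _)).mapRange (eval t)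
      (map_zero _) = cst v := by
  ext i
  rw [Finsupp.mapRange_apply, Finsupp.mapRange_apply, eval_C]

/-- (w2) -/
theorem witt2 {N : Submodule R (U R)} (hN : GS N) {f : U R} (hf : f ∈ N) (φ : ℕ → V)
    (hφ : Iso φ) : sbC φ f ∈ N := by
  obtain ⟨n, hn⟩ := exists_LT f
  -- a bound for the supports
  obtain ⟨k, hk⟩ : ∃ k, ∀ i < n, ∀ j, 2 * k ≤ j → φ i j = 0 := by
    refine ⟨(Finset.range n).sup (fun i => (φ i).support.sup id) + 1, ?_⟩
    intro i hi j hj
    by_contra hne
    have h1 : j ≤ (φ i).support.sup id :=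
      Finset.le_sup (f := id) (Finsupp.mem_support_iff.2 hne)
    have h2 : (φ i).support.sup id ≤ (Finset.range n).sup (fun i => (φ i).support.sup id) :=
      Finset.le_sup (f := fun i => (φ i).support.sup id) (Finset.mem_range.2 hi)
    omega
  obtain ⟨P, hP⟩ := exists_sbU_poly (R := R) (σ := Unit)
    (fun i => (cst (φ i) : VR R).mapRange (C : R →+* MvPolynomial Unit R) (map_zero _) +
      Finsupp.single (i + 2 * k) (X ())) f
  have hval : ∀ t : Unit → R, (fun i => ((cst (φ i) : VR R).mapRange
      (C : R →+* MvPolynomial Unit R) (map_zero _) +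
      Finsupp.single (i + 2 * k) (X ())).mapRange (eval t) (map_zero _)) =
      fun i => cst (φ i) + t () • cst (ee (i + 2 * k)) := by
    intro t
    funext i
    rw [Finsupp.mapRange_add (map_add _), cst_mapRange, Finsupp.mapRange_single, eval_X, cst_ee,
      Finsupp.smul_single, smul_eq_mul, mul_one]
  have key : ∀ m, P.coeff m ∈ N.restrictScalars ℂ := by
    refine vand_mvpoly _ P ?_
    intro t ht
    have h1 := hP (fun i => algebraMap ℂ R (t i))
    rw [hval] at h1
    have h2 : (fun i : Unit => (algebraMap ℂ (U R)) (t i)) =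
        fun i => C (algebraMap ℂ R (t i)) := rfl
    rw [h2, ← h1]
    have h3 : (fun i => (cst (φ i) : VR R) + algebraMap ℂ R (t ()) • cst (ee (i + 2 * k))) =
        fun i => cst (φ i + t () • ee (i + 2 * k)) := by
      funext i
      rw [map_add, cst_smul]
    rw [h3]
    refine witt1_smul hN hf (Set.finite_Iio n) hn _ (t () ^ 2) (pow_ne_zero _ (ht ())) ?_
    intro i hi j hj
    have hi' : i < n := hi
    have hj' : j < n := hj
    rw [om_add_smul, hφ i j, (om_far (φ i) j k (hk i hi')).1, (om_far (φ j) i k (hk j hj')).2,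
      om_ee_shift]
    ring
  have h0 := key 0
  have h1 := hP (fun _ => 0)
  rw [hval] at h1
  have h2 : (fun i => (cst (φ i) : VR R) + (0 : R) • cst (ee (i + 2 * k))) =
      fun i => cst (φ i) := by
    funext i
    rw [zero_smul, add_zero]
  have h3 : (fun _ : Unit => (C (0 : R) : U R)) = 0 := by
    funext i
    rw [map_zero]
    rfl
  rw [h2, h3, eval_zero, constantCoeff_eq] at h1
  have h4 : sbC φ f = P.coeff 0 := h1
  rw [h4]
  exact h0

/-- (w2) for finitely many letters -/
theorem witt2' {N : Submodule R (U R)} (hN : GS N) {f : U R} (hf : f ∈ N) {T : Set ℕ}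
    (hfT : f ∈ MP50e386N.LT R T) (φ : ℕ → V)
    (h : ∀ i ∈ T, ∀ j ∈ T, om (φ i) (φ j) = 0) : sbC φ f ∈ N := by
  classical
  have e : sbC φ f = sbC (fun i => if i ∈ T then φ i else 0) f :=
    sbC_congr hfT _ _ fun i hi => by rw [if_pos hi]
  rw [e]
  refine witt2 hN hf _ ?_
  intro i j
  dsimp only
  split_ifs with h1 h2 h2
  · exact h i h1 j h2
  · rw [om_frm, map_zero]
  · rw [om_frm, map_zero, LinearMap.zero_apply]
  · rw [om_frm, map_zero]

theorem witt2I {I : Ideal R} (hI : GSI I) {a : R} (ha : a ∈ I) (φ : ℕ → V)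
    (hφ : Iso φ) : sbR φ a ∈ I := by
  have h1 := witt2 ((GS_ofI I).2 hI) ((C_mem_ofI I a).2 ha) φ hφ
  rw [sbC_C] at h1
  exact (C_mem_ofI I _).1 h1

end MP50e386O

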