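import Mathlib
import Pool.Agent.Lib.MP_50e386_al.N.T8
import Pool.Agent.Lib.MP_50e386_al.N.TDefs
import Pool.Agent.Lib.MP_50e386_al.N.T1
import Pool.Agent.Lib.MP_50e386_al.N.T2
import Pool.Agent.Lib.MP_50e386_al.O.T3
import Pool.Agent.Lib.MP_50e386_al.O.T6
import Pool.Agent.Lib.MP_50e386_al.O.W

/-! The sandwich `nn (M1 N) ≤ N ≤ M1 N`, and chain conditions. -/

namespace MP50e386O

open MvPolynomial Pool.Agent.Lib.MP50e386 MP50e386N

variable {R : Type} [CommRing R] [Algebra ℂ R] [GLRing R]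

/-- the symplectic form as a bilinear map -/
private noncomputable def omL : V →ₗ[ℂ] V →ₗ[ℂ] ℂ :=
  Finsupp.linearCombination ℂ (fun i =>
    (if Even i then Finsupp.lapply (i + 1) else Finsupp.lapply (i - 1) : V →ₗ[ℂ] ℂ))

private theorem omL_eq (u v : V) : omL u v = om u v := by
  unfold omL
  rw [Finsupp.linearCombination_apply]
  change _ = osf u v
  unfold osf Finsupp.sum
  rw [LinearMap.sum_apply]
  apply Finset.sum_congr rfl
  intro i _
  beta_reduce
  split_ifs
  · simp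
  · simp

theorem Iso.lin {φ : ℕ → V} (h : Iso φ) (φ' : ℕ → V) : Iso (fun i => linC φ (φ' i)) := by
  have h0 : omL.compl₁₂ (linC φ) (linC φ) = 0 := by
    apply Finsupp.lhom_ext'
    intro i
    apply LinearMap.ext_ring
    apply Finsupp.lhom_ext'
    intro j
    apply LinearMap.ext_ring
    change omL (linC φ (ee i)) (linC φ (ee j)) = 0
    rw [linC_ee, linC_ee, omL_eq]
    exact h i j
  intro i j
  have h1 := congrArg (fun f : V →ₗ[ℂ] V →ₗ[ℂ] ℂ => f (φ' i) (φ' j)) h0
  change omL (linC φ (φ' i)) (linC φ (φ' j)) = 0 at h1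
  rw [omL_eq] at h1
  exact h1

theorem M1_le (S : Finset ℕ) (N : Submodule R (U R)) : M1 S N ≤ MS R S := fun _ hf => hf.1

theorem M1_GLS (S : Finset ℕ) (N : Submodule R (U R)) : GLS (M1 S N) := by
  intro φ f hf
  refine ⟨GLS_MS S φ f hf.1, fun φ' hφ' => ?_⟩
  rw [sbC_sbC]
  exact hf.2 _ (hφ'.lin φ)

theorem M1_mono {S : Finset ℕ} {N N' : Submodule R (U R)} (h : N ≤ N') : M1 S N ≤ M1 S N' :=
  fun _ hf => ⟨hf.1, fun φ hφ => h (hf.2 φ hφ)⟩

theorem le_M1 {S : Finset ℕ} {N : Submodule R (U R)} (hN : GS N) (h : N ≤ MS R S) :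
    N ≤ M1 S N := fun _ hf => ⟨h hf, fun φ hφ => witt2 hN hf φ hφ⟩

theorem nn_mono {M M' : Submodule R (U R)} (h : M ≤ M') : nn M ≤ nn M' := by
  unfold nn
  apply Submodule.span_mono
  rintro f ⟨φ, hφ, g, hg, rfl⟩
  exact ⟨φ, hφ, g, h hg, rfl⟩

private theorem linC_smul_g (g : Cinf ≃ₗ[ℂ] Cinf) (c : ℂ) (v : V) :
    linC (fun i => c • g (ee i)) v = c • g v := by
  have h0 : linC (fun i => c • g (ee i)) = c • g.toLinearMap := by
    apply Finsupp.lhom_ext'
    intro i
    apply LinearMap.ext_ring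
    change linC (fun i => c • g (ee i)) (ee i) = c • g (ee i)
    rw [linC_ee]
  rw [h0]
  rfl

theorem nn_GS {M : Submodule R (U R)} (hM : GLS M) : GS (nn M) := by
  unfold nn
  apply GS_span
  rintro g hg c hc f ⟨φ, hφ, h, hh, rfl⟩
  apply Submodule.subset_span
  refine ⟨fun i => linC (fun i => c • g (ee i)) (φ i), ?_, h, hh, sbC_sbC _ _ _⟩
  intro i j
  simp only [linC_smul_g]
  rw [← omL_eq, map_smul, map_smul, LinearMap.smul_apply, omL_eq]
  change c • c • osf (g (φ i)) (g (φ j)) = 0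
  rw [hg.2]
  have h3 : osf (φ i) (φ j) = 0 := hφ i j
  rw [h3, smul_zero, smul_zero]

theorem nn_le {M : Submodule R (U R)} (hM : GLS M) : nn M ≤ M := by
  unfold nn
  rw [Submodule.span_le]
  rintro f ⟨φ, hφ, g, hg, rfl⟩
  exact hM φ g hg

theorem nn_M1_le (S : Finset ℕ) (N : Submodule R (U R)) : nn (M1 S N) ≤ N := by
  unfold nn
  rw [Submodule.span_le]
  rintro f ⟨φ, hφ, g, hg, rfl⟩
  exact hg.2 φ hφ

theorem mem_nn_of_iso_letters {M : Submodule R (U R)} {f : U R} (hf : f ∈ M) {T : Set ℕ}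
    (hfT : f ∈ MP50e386N.LT R T) (hT : ∀ i ∈ T, ∀ j ∈ T, om (ee i) (ee j) = 0) : f ∈ nn M := by
  classical
  unfold nn
  apply Submodule.subset_span
  refine ⟨fun i => if i ∈ T then ee i else 0, ?_, f, hf, ?_⟩
  · intro i j
    by_cases hi : i ∈ T
    · by_cases hj : j ∈ T
      · simp only [if_pos hi, if_pos hj]
        exact hT i hi j hj
      · simp only [if_neg hj]
        rw [← omL_eq, map_zero]
    · simp only [if_neg hi]
      rw [← omL_eq, map_zero, LinearMap.zero_apply]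
  · rw [← sbC_congr hfT ee (fun i => if i ∈ T then ee i else 0)
      (fun i hi => by simp only [if_pos hi]), sbC_id]

theorem smul_mem_nn {M : Submodule R (U R)} {f : U R} (a : R) (hf : f ∈ nn M) : a • f ∈ nn M :=
  Submodule.smul_mem _ a hf

/-! chain conditions -/

end MP50e386O

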