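import Mathlib
import Pool.Agent.Lib.MP_50e386_al.N.C6
import Pool.Agent.Lib.MP_50e386_al.N.CDefs
import Pool.Agent.Lib.MP_50e386_al.N.T1
import Pool.Agent.Lib.MP_50e386_al.N.T2
import Pool.Agent.Lib.MP_50e386_al.O.T3
import Pool.Agent.Lib.MP_50e386_al.N.T4
import Pool.Agent.Lib.MP_50e386_al.O.T6
import Pool.Agent.Lib.MP_50e386_al.O.TR
import Pool.Agent.Lib.MP_50e386_al.O.W

/-! `T`-degrees. -/

namespace MP50e386O

open MvPolynomial Pool.Agent.Lib.MP50e386 MP50e386N

variable {R : Type} [CommRing R] [Algebra ℂ R] [GLRing R]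

/-- the `T`-degree of a multidegree -/
private noncomputable def c6deg (n : ℕ) (κ : ℕ →₀ ℕ) : ℕ :=
  κ.sum fun i k => if i < 2 * n then k else 0

private theorem c6_scT (n : ℕ) (c : ℂ) :
    scT n c = fun i => (if i < 2 * n then c else 1) • ee i := by
  funext i
  unfold scT
  split_ifs
  · rfl
  · rw [one_smul]

private theorem c6_prod (n : ℕ) (c : ℂ) (κ : ℕ →₀ ℕ) :
    (κ.prod fun i k => (if i < 2 * n then c else 1 : ℂ) ^ k) = c ^ c6deg n κ := by
  unfold c6deg Finsupp.prod Finsupp.sum
  rw [← Finset.prod_pow_eq_pow_sum]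
  refine Finset.prod_congr rfl fun i _ => ?_
  beta_reduce
  split_ifs
  · rfl
  · rw [one_pow, pow_zero]

private theorem c6_MW {n : ℕ} {κ : ℕ →₀ ℕ} {f : U R} (hf : MW κ f) (c : ℂ) :
    sbC (scT n c) f = c ^ c6deg n κ • f := by
  rw [c6_scT, hf, c6_prod]

open Classical in
/-- collecting the components of a decomposition by the `T`-degree -/
private theorem c6_collect (n D : ℕ) (s : Finset (ℕ →₀ ℕ)) (g : (ℕ →₀ ℕ) → U R)
    (hg : ∀ κ ∈ s, MW κ (g κ)) (hD : ∀ κ ∈ s, c6deg n κ ≤ D) :
    TD n D (∑ κ ∈ s, g κ) := by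
  refine ⟨fun d => ∑ κ ∈ s.filter (fun κ => c6deg n κ = d), g κ, ?_, ?_⟩
  · rw [Finset.sum_fiberwise_of_maps_to]
    intro κ hκ
    rw [Finset.mem_range]
    exact Nat.lt_succ_of_le (hD κ hκ)
  · intro d c
    rw [map_sum, Finset.smul_sum]
    refine Finset.sum_congr rfl fun κ hκ => ?_
    rw [Finset.mem_filter] at hκ
    rw [c6_MW (hg κ hκ.1), hκ.2]

private theorem c6_deg_le (n : ℕ) (κ : ℕ →₀ ℕ) : c6deg n κ ≤ κ.degree := by
  unfold c6deg Finsupp.sum
  rw [Finsupp.degree_apply]
  refine Finset.sum_le_sum fun i _ => ?_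
  beta_reduce
  split_ifs
  · exact le_rfl
  · exact Nat.zero_le _

private theorem c6_HW_of_MW {κ : ℕ →₀ ℕ} {f : U R} (hf : MW κ f) : HW κ.degree f := by
  intro c
  have h := hf (fun _ => c)
  rw [h]
  congr 1
  unfold Finsupp.prod
  rw [Finset.prod_pow_eq_pow_sum, Finsupp.degree_apply]

private theorem c6_om_ee (k : ℕ) (y : V) :
    om (ee k) y = if Even k then y (k + 1) else y (k - 1) := by
  change osf (Finsupp.single k 1) y = _
  unfold osf
  rw [Finsupp.sum_single_index]
  · split_ifs <;> simp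
  · split_ifs <;> simp

private theorem c6_om_symm (i j : ℕ) : om (ee i) (ee j) = om (ee j) (ee i) := osf_comm _ _

private theorem c6_om_smul_ee (a b : ℂ) (i j : ℕ) :
    om (a • ee i) (b • ee j) = a * b * om (ee i) (ee j) := by
  have e : ∀ (a : ℂ) (i : ℕ) (y : V), om (a • ee i) y = a * om (ee i) y := by
    intro a i y
    rw [c6_om_ee, show (a • ee i : V) = Finsupp.single i a by
      rw [ee, Finsupp.smul_single, smul_eq_mul, mul_one]]
    change osf (Finsupp.single i a) y = _
    unfold osf
    rw [Finsupp.sum_single_index]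
    · split_ifs <;> simp
    · split_ifs <;> simp
  rw [e, mul_assoc]
  congr 1
  rw [c6_om_ee, c6_om_ee]
  split_ifs
  · rw [Finsupp.smul_apply, smul_eq_mul]
  · rw [Finsupp.smul_apply, smul_eq_mul]

/-- the components of `f ∈ M` killed by the traces are of the same kind -/
theorem TD_comp (n D : ℕ) (S : Finset ℕ) (M : Submodule R (U R)) (hM : GLS M) (T : Set ℕ)
    (f : U R) (hf : f ∈ M) (hfT : f ∈ MP50e386N.LT R T) (htr : TrZ S f)
    (htrn : ∀ i < 2 * n, ∀ j ≥ 2 * n, j ∈ T → om (ee i) (ee j) = 0)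
    (htrZ : ∀ i ≥ 2 * n, ∀ j ≥ 2 * n, i ∈ T → j ∈ T → om (ee i) (ee j) = 0)
    (hD : TD n D f) : ∃ g : ℕ → U R, f = ∑ d ∈ Finset.range (D + 1), g d ∧
      ∀ d, g d ∈ M ∧ g d ∈ MP50e386N.LT R T ∧ TrZ S (g d) ∧ ∀ c : ℂ, sbC (scT n c) (g d) = c ^ d • g d := by
  obtain ⟨g, hfg, hg⟩ := hD
  have hexp : ∀ c : ℂ, sbC (scT n c) f = ∑ d ∈ Finset.range (D + 1), c ^ d • g d := by
    intro c
    conv_lhs => rw [hfg]
    rw [map_sum]
    exact Finset.sum_congr rfl fun d _ => hg d c
  have hinf : ∀ P : ℂ → Prop, (∀ c, P c) → {c : ℂ | P c}.Infinite := by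
    intro P hP
    have : {c : ℂ | P c} = Set.univ := Set.eq_univ_of_forall hP
    rw [this]
    exact Set.infinite_univ
  have h1 : ∀ d < D + 1, g d ∈ M.restrictScalars ℂ := by
    refine vand1 (M.restrictScalars ℂ) (D + 1) g (hinf _ fun c => ?_)
    rw [← hexp c]
    exact hM _ f hf
  have h2 : ∀ d < D + 1, g d ∈ Subalgebra.toSubmodule (MP50e386N.LT R T) := by
    refine vand1 (Subalgebra.toSubmodule (MP50e386N.LT R T)) (D + 1) g (hinf _ fun c => ?_)
    rw [← hexp c]
    refine sbC_LT hfT _ ?_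
    intro i hi j hj
    have : j = i := by
      by_contra hne
      apply hj
      rw [c6_scT]
      beta_reduce
      rw [Finsupp.smul_apply, ee, Finsupp.single_eq_of_ne hne, smul_zero]
    rw [this]
    exact hi
  have h3 : ∀ a ∈ S, ∀ b ∈ S, a ≠ b → ∀ d < D + 1, tr a b (g d) = 0 := by
    intro a ha b hb hab
    have h4 := vand1 (⊥ : Submodule ℂ (U R)) (D + 1) (fun d => tr a b (g d)) (hinf _ fun c => by
      rw [Submodule.mem_bot]
      have h5 : tr a b (sbC (scT n c) f) = c ^ 2 • sbC (scT n c) (tr a b f) := by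
        refine tr_sbC_iso _ a b T f hfT _ ?_
        intro i hi j hj
        rw [c6_scT]
        beta_reduce
        rw [c6_om_smul_ee]
        by_cases hi2 : i < 2 * n <;> by_cases hj2 : j < 2 * n
        · rw [if_pos hi2, if_pos hj2]; ring
        · rw [htrn i hi2 j (by omega) hj]; ring
        · rw [c6_om_symm, htrn j hj2 i (by omega) hi]; ring
        · rw [htrZ i (by omega) j (by omega) hi hj]; ring
      rw [htr a ha b hb hab, map_zero, smul_zero, hexp, map_sum] at h5
      rw [← h5]
      refine Finset.sum_congr rfl fun d _ => ?_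
      rw [LinearMap.map_smul_of_tower])
    intro d hd
    have := h4 d hd
    rwa [Submodule.mem_bot] at this
  refine ⟨fun d => if d < D + 1 then g d else 0, ?_, ?_⟩
  · rw [hfg]
    refine Finset.sum_congr rfl fun d hd => ?_
    beta_reduce
    rw [if_pos (Finset.mem_range.1 hd)]
  · intro d
    by_cases hd : d < D + 1
    · simp only [if_pos hd]
      exact ⟨h1 d hd, h2 d hd, fun a ha b hb hab => h3 a ha b hb hab d hd, hg d⟩
    · simp only [if_neg hd]
      refine ⟨Submodule.zero_mem _, Subalgebra.zero_mem _, fun a _ b _ _ => map_zero _, ?_⟩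
      intro c
      rw [map_zero, smul_zero]

/-- homogeneity may be tested with `c ≠ 0`, also with a negative exponent -/
private theorem c6_hom (n : ℕ) (f : U R) (D e : ℕ)
    (h : ∀ c : ℂ, c ≠ 0 → c ^ e • sbC (scT n c) f = c ^ D • f) :
    (∀ c : ℂ, sbC (scT n c) f = c ^ (D - e) • f) ∧ (e ≤ D ∨ f = 0) := by
  obtain ⟨N, hN⟩ := exists_TD n f
  obtain ⟨g, hfg, hg⟩ := hN
  have hexp : ∀ c : ℂ, sbC (scT n c) f = ∑ d ∈ Finset.range (N + 1), c ^ d • g d := by
    intro c
    conv_lhs => rw [hfg]
    rw [map_sum]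
    exact Finset.sum_congr rfl fun d _ => hg d c
  -- the coefficients of `c ^ k`
  set F : ℕ → U R := fun k => (if e ≤ k ∧ k - e < N + 1 then g (k - e) else 0) -
    (if k = D then f else 0) with hF
  set B : ℕ := max (D + 1) (e + N + 1) with hB
  have h1 : ∀ c : ℂ, c ≠ 0 → ∑ k ∈ Finset.range B, c ^ k • F k = 0 := by
    intro c hc
    have h2 := h c hc
    rw [hexp] at h2
    rw [hF]
    simp only [smul_sub, Finset.sum_sub_distrib]
    rw [sub_eq_zero]
    have e1 : ∑ k ∈ Finset.range B, c ^ k • (if k = D then f else 0) = c ^ D • f := by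
      rw [Finset.sum_eq_single D]
      · rw [if_pos rfl]
      · intro k _ hk
        rw [if_neg hk, smul_zero]
      · intro hk
        exact absurd (Finset.mem_range.2 (by omega)) hk
    have e2 : ∑ k ∈ Finset.range B, c ^ k • (if e ≤ k ∧ k - e < N + 1 then g (k - e) else 0) =
        c ^ e • ∑ d ∈ Finset.range (N + 1), c ^ d • g d := by
      rw [Finset.smul_sum]
      have e3 : ∀ d ∈ Finset.range (N + 1), c ^ e • c ^ d • g d =
          (fun k => c ^ k • (if e ≤ k ∧ k - e < N + 1 then g (k - e) else 0)) (d + e) := by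
        intro d hd
        beta_reduce
        rw [if_pos ⟨by omega, by
          rw [Nat.add_sub_cancel]
          exact Finset.mem_range.1 hd⟩, Nat.add_sub_cancel, smul_smul, ← pow_add,
          add_comm e d]
      rw [Finset.sum_congr rfl e3]
      rw [← Finset.sum_image (s := Finset.range (N + 1)) (g := fun d => d + e)
        (f := fun k => c ^ k • (if e ≤ k ∧ k - e < N + 1 then g (k - e) else 0))]
      · symm
        apply Finset.sum_subset
        · intro k hk
          obtain ⟨d, hd, rfl⟩ := Finset.mem_image.1 hk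
          have := Finset.mem_range.1 hd
          exact Finset.mem_range.2 (by omega)
        · intro k _ hk
          rw [if_neg, smul_zero]
          rintro ⟨h3, h4⟩
          apply hk
          exact Finset.mem_image.2 ⟨k - e, Finset.mem_range.2 h4, by omega⟩
      · intro a _ b _ hab
        exact Nat.add_right_cancel hab
    rw [e1, e2, h2]
  have h3 : ∀ k < B, F k ∈ (⊥ : Submodule ℂ (U R)) := by
    refine vand1 ⊥ B F ?_
    have hsub : ({0}ᶜ : Set ℂ) ⊆ {t : ℂ | ∑ k ∈ Finset.range B, t ^ k • F k ∈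
        (⊥ : Submodule ℂ (U R))} := by
      intro c hc
      change ∑ k ∈ Finset.range B, c ^ k • F k ∈ (⊥ : Submodule ℂ (U R))
      rw [h1 c hc]
      exact Submodule.zero_mem _
    exact (Set.finite_singleton (0 : ℂ)).infinite_compl.mono hsub
  have h4 : ∀ k < B, F k = 0 := fun k hk => by
    have := h3 k hk
    rwa [Submodule.mem_bot] at this
  by_cases heD : e ≤ D
  · refine ⟨?_, Or.inl heD⟩
    -- `g d = 0` for `d ≠ D - e`, and the component `D - e` is `f`
    have h5 : ∀ d < N + 1, d ≠ D - e → g d = 0 := by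
      intro d hd hne
      have := h4 (d + e) (by omega)
      rw [hF] at this
      beta_reduce at this
      rw [if_pos ⟨by omega, by rw [Nat.add_sub_cancel]; exact hd⟩, Nat.add_sub_cancel,
        if_neg (by omega), sub_zero] at this
      exact this
    intro c
    rw [hexp]
    have h6 := h4 D (by omega)
    rw [hF] at h6
    beta_reduce at h6
    rw [if_pos rfl] at h6
    by_cases h7 : D - e < N + 1
    · rw [if_pos ⟨heD, h7⟩, sub_eq_zero] at h6
      rw [Finset.sum_eq_single (D - e)]
      · rw [h6]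
      · intro d hd hne
        rw [h5 d (Finset.mem_range.1 hd) hne, smul_zero]
      · intro h8
        exact absurd (Finset.mem_range.2 h7) h8
    · rw [if_neg (fun h => h7 h.2), zero_sub, neg_eq_zero] at h6
      rw [h6, smul_zero]
      refine Finset.sum_eq_zero fun d hd => ?_
      have := Finset.mem_range.1 hd
      rw [h5 d this (by omega), smul_zero]
  · have h6 := h4 D (by omega)
    rw [hF] at h6
    beta_reduce at h6
    rw [if_pos rfl, if_neg (fun h => heD h.1), zero_sub, neg_eq_zero] at h6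
    refine ⟨fun c => ?_, Or.inr h6⟩
    rw [h6, map_zero, smul_zero]

private theorem c6_cst_single (i : ℕ) (a : ℂ) : (cst (Finsupp.single i a) : VR R) =
    Finsupp.single i (algebraMap ℂ R a) := by
  simp [cst]

/-- the substitution of `replace_letters` -/
private noncomputable def c6ph (n : ℕ) (y : ℕ → ℕ) (lam : ℕ → ℂ) (i : ℕ) : V :=
  if i < 2 * n then ee i + lam i • ee (y i) else ee i

open Classical in
private theorem c6_poly (n : ℕ) (y : ℕ → ℕ) (f : U R) :
    ∃ P : MvPolynomial ℕ (U R), ∀ lam : ℕ → ℂ, sbC (c6ph n y lam) f =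
      ∑ m ∈ P.support, (m.prod fun i k => lam i ^ k) • coeff m P := by
  obtain ⟨P, hP⟩ := exists_sbU_poly (R := R) (σ := ℕ)
    (fun i => if i < 2 * n then Finsupp.single i 1 + Finsupp.single (y i) (X i)
      else Finsupp.single i 1) f
  refine ⟨P, fun lam => ?_⟩
  have h1 := hP (fun i => algebraMap ℂ R (lam i))
  have h2 : (fun i => ((if i < 2 * n then Finsupp.single i 1 + Finsupp.single (y i) (X i)
      else Finsupp.single i 1 : VR (MvPolynomial ℕ R)).mapRange
        (eval (fun i => algebraMap ℂ R (lam i))) (map_zero _) : VR R)) =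
      fun i => cst (c6ph n y lam i) := by
    funext i
    unfold c6ph
    split_ifs
    · rw [Finsupp.mapRange_add (by intro a b; exact map_add _ a b), Finsupp.mapRange_single,
        Finsupp.mapRange_single, map_one, eval_X, map_add, map_smul]
      simp only [ee]
      rw [c6_cst_single, c6_cst_single, map_one, Finsupp.smul_single, Algebra.smul_def, mul_one]
    · rw [Finsupp.mapRange_single, map_one]
      simp only [ee]
      rw [c6_cst_single, map_one]
  rw [h2] at h1
  unfold sbC
  rw [h1, eval_eq]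
  refine Finset.sum_congr rfl fun m _ => ?_
  rw [mul_comm, Algebra.smul_def, Finsupp.prod, map_prod]
  congr 1
  refine Finset.prod_congr rfl fun i _ => ?_
  rw [map_pow]
  rfl

private theorem c6_linC_add (φ : ℕ → V) (a : ℂ) (i j : ℕ) :
    linC φ (ee i + a • ee j) = φ i + a • φ j := by
  rw [map_add, map_smul, linC_ee, linC_ee]

end MP50e386O

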