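import Mathlib
import Pool.Agent.Lib.MP_50e386_al.N.C7
import Pool.Agent.Lib.MP_50e386_al.N.CDefs
import Pool.Agent.Lib.MP_50e386_al.N.T1
import Pool.Agent.Lib.MP_50e386_al.N.T2
import Pool.Agent.Lib.MP_50e386_al.O.T3
import Pool.Agent.Lib.MP_50e386_al.O.T5
import Pool.Agent.Lib.MP_50e386_al.O.T8
import Pool.Agent.Lib.MP_50e386_al.O.TR
import Pool.Agent.Lib.MP_50e386_al.N.Q1
import Pool.Agent.Lib.MP_50e386_al.O.C5c
import Pool.Agent.Lib.MP_50e386_al.O.C6
import Pool.Agent.Lib.MP_50e386_al.O.W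

/-! (F), paper 5.4. -/

namespace MP50e386O

open MvPolynomial Pool.Agent.Lib.MP50e386 MP50e386N

variable {R : Type} [CommRing R] [Algebra ℂ R] [GLRing R]

private theorem C7_om_div {i j : ℕ} (h : i / 2 ≠ j / 2) : om (ee i) (ee j) = 0 := by
  rw [T5.om_eq, T5.B_ee]
  unfold _root_.MP50e386.gam _root_.MP50e386.pis
  rw [if_neg]
  split_ifs with hi
  · obtain ⟨k, hk⟩ := hi
    omega
  · rw [Nat.not_even_iff_odd] at hi
    obtain ⟨k, hk⟩ := hi
    omega

private theorem C7_om_even {i j : ℕ} (hi : Even i) (hj : Even j) : om (ee i) (ee j) = 0 := by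
  rw [T5.om_eq, T5.B_ee]
  unfold _root_.MP50e386.gam _root_.MP50e386.pis
  rw [if_neg]
  rw [if_pos hi]
  obtain ⟨k, hk⟩ := hi
  obtain ⟨l, hl⟩ := hj
  omega

private theorem C7_om_pair (i : ℕ) : om (ee (2 * i)) (ee (2 * i + 1)) = 1 := by
  rw [T5.om_eq, T5.B_ee]
  unfold _root_.MP50e386.gam _root_.MP50e386.pis sio
  rw [if_pos (even_two_mul i), if_pos rfl]

private theorem C7_om_odd {i j : ℕ} (hi : ¬ Even i) (hj : ¬ Even j) : om (ee i) (ee j) = 0 := by
  rw [T5.om_eq, T5.B_ee]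
  unfold _root_.MP50e386.gam _root_.MP50e386.pis
  rw [if_neg]
  rw [if_neg hi]
  rw [Nat.not_even_iff_odd] at hi hj
  obtain ⟨k, hk⟩ := hi
  obtain ⟨l, hl⟩ := hj
  omega

private theorem C7_om_anti (x y : V) (h : om x y = 0) : om y x = 0 := by
  rw [T5.om_eq] at h ⊢
  rw [T5.B_anti, h]

private theorem C7_x_LT {T : Set ℕ} {i j : ℕ} (hi : i ∈ T) (hj : j ∈ T) :
    (C (xv (ee i) (ee j) : R) : U R) ∈ MP50e386N.LT R T := by
  rw [xv_ee]
  exact Algebra.subset_adjoin (Or.inl ⟨i, hi, j, hj, rfl⟩)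

private theorem C7_Dl_LT {m : ℕ} (T : Set ℕ) (v : Fin m → ℕ) (hv : ∀ i, v i ∈ T) :
    (C (Dl (fun i => ee (v i)) : R) : U R) ∈ MP50e386N.LT R T := by
  unfold Dl
  rw [Matrix.det_apply', map_sum]
  refine Subalgebra.sum_mem _ fun σ _ => ?_
  rw [map_mul, map_prod, map_intCast]
  refine Subalgebra.mul_mem _ (Subalgebra.intCast_mem _ _) ?_
  refine Subalgebra.prod_mem _ fun i _ => ?_
  exact C7_x_LT (hv _) (hv _)

private theorem C7_Dl1_LT {m : ℕ} (T : Set ℕ) (v : Fin m → ℕ) (hv : ∀ i, v i ∈ T) (c : ℕ)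
    (hc : c ∈ T) : (C (Dl1 (fun i => ee (v i)) (ee c) : R) : U R) ∈ MP50e386N.LT R T := by
  have h1 : (Fin.snoc (fun i => ee (v i)) (ee c) : Fin (m + 1) → V) =
      fun i => ee ((Fin.snoc v c : Fin (m + 1) → ℕ) i) := by
    exact (Fin.comp_snoc (fun i => ee i) v c).symm
  unfold Dl1
  rw [h1]
  refine C7_Dl_LT T _ fun i => ?_
  refine Fin.lastCases ?_ (fun j => ?_) i
  · rw [Fin.snoc_last]; exact hc
  · rw [Fin.snoc_castSucc]; exact hv j

private theorem C7_hh_LT {r k s q : ℕ} (T : Set ℕ) (v : Fin r → ℕ) (hv : ∀ i, v i ∈ T)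
    (c : Fin k → ℕ) (hc : ∀ i, c i ∈ T) :
    (C (hh s q (fun i => ee (v i)) (fun j => ee (c j)) : R) : U R) ∈ MP50e386N.LT R T := by
  unfold hh Ek
  rw [map_mul, map_prod, map_pow]
  refine Subalgebra.mul_mem _ (Subalgebra.prod_mem _ fun j _ => ?_)
    (Subalgebra.pow_mem _ (C7_Dl_LT T v hv) _)
  rw [map_pow]
  exact Subalgebra.pow_mem _ (C7_Dl1_LT T v hv _ (hc j)) _

private theorem C7_bound {T : Set ℕ} (hT : T.Finite) : ∃ N : ℕ, ∀ z ∈ T, z < N := by
  obtain ⟨N, hN⟩ := hT.bddAbove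
  exact ⟨N + 1, fun z hz => Nat.lt_succ_of_le (hN hz)⟩

/-- it is enough to know (F) for fresh letters of even index -/
theorem F_of_letters {r s k q n : ℕ} (S : Finset ℕ) (M : Submodule R (U R)) (hM : GLS M)
    (Z : Set ℕ) (hZf : Z.Finite) (f : U R) (hfT : f ∈ MP50e386N.LT R (Set.Iio (2 * n) ∪ Z)) (B : ℕ)
    (h : ∀ w : Fin r ⊕ Fin k → ℕ, Function.Injective w → (∀ i, B ≤ w i ∧ Even (w i)) →
      (hh s q (fun i => ee (w (Sum.inl i))) (fun j => ee (w (Sum.inr j))) : R) • f ∈ nn M)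
    (u : Fin r → V) (b : Fin k → V) (hub : Iso (Sum.elim u b))
    (hT : ∀ i, ∀ z ∈ Set.Iio (2 * n) ∪ Z, om (Sum.elim u b i) (ee z) = 0) :
    (hh s q u b : R) • f ∈ nn M := by
  classical
  have hfin : (Set.Iio (2 * n) ∪ Z).Finite := (Set.finite_Iio _).union hZf
  obtain ⟨N0, hN0⟩ := C7_bound hfin
  obtain ⟨L, hL⟩ : ∃ L : Fin r ⊕ Fin k → ℕ, ∀ i, L i = 2 * (N0 + B + (finSumFinEquiv i : ℕ)) :=
    ⟨_, fun i => rfl⟩
  have hinj : Function.Injective L := by
    intro i j hij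
    rw [hL, hL] at hij
    exact finSumFinEquiv.injective (Fin.ext (by omega))
  have hev : ∀ i, Even (L i) := fun i => by rw [hL]; exact even_two_mul _
  have hge : ∀ i, N0 + B ≤ L i := fun i => by rw [hL]; omega
  obtain ⟨φ, hφ1, hφ2⟩ : ∃ φ : ℕ → V, (∀ i, φ (L i) = Sum.elim u b i) ∧
      ∀ j ∈ Set.Iio (2 * n) ∪ Z, φ j = ee j := by
    refine ⟨fun j => if h : ∃ i, L i = j then Sum.elim u b h.choose else ee j, fun i => ?_,
      fun j hj => ?_⟩
    · have hi : ∃ i', L i' = L i := ⟨i, rfl⟩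
      beta_reduce
      rw [dif_pos hi, hinj hi.choose_spec]
    · beta_reduce
      rw [dif_neg]
      rintro ⟨i, hi⟩
      have h1 := hN0 j hj
      have h2 := hge i
      omega
  have h1 := h L hinj (fun i => ⟨by have := hge i; omega, hev i⟩)
  have hTfin : ((Set.Iio (2 * n) ∪ Z) ∪ Set.range L).Finite := hfin.union (Set.finite_range _)
  have hLT : (hh s q (fun i => ee (L (Sum.inl i))) (fun j => ee (L (Sum.inr j))) : R) • f ∈
      MP50e386N.LT R ((Set.Iio (2 * n) ∪ Z) ∪ Set.range L) := by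
    rw [smul_eq_C_mul]
    refine Subalgebra.mul_mem _ (C7_hh_LT _ (fun i => L (Sum.inl i)) (fun i => Or.inr ⟨_, rfl⟩)
      (fun i => L (Sum.inr i)) (fun i => Or.inr ⟨_, rfl⟩)) (LT_mono Set.subset_union_left hfT)
  have hfar : ∀ i, ∀ z ∈ Set.Iio (2 * n) ∪ Z, om (ee (L i)) (ee z) = 0 := by
    intro i z hz
    refine C7_om_div ?_
    have h1 := hN0 z hz
    rw [hL]
    omega
  have h2 := witt1 (nn_GS hM) h1 hTfin hLT φ (by
    rintro i (hi | ⟨i, rfl⟩) j (hj | ⟨j, rfl⟩)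
    · rw [hφ2 i hi, hφ2 j hj]
    · rw [hφ2 i hi, hφ1, C7_om_anti _ _ (hT j i hi), C7_om_anti _ _ (hfar j i hi)]
    · rw [hφ2 j hj, hφ1, hT i j hj, hfar i j hj]
    · rw [hφ1, hφ1, hub i j, C7_om_even (hev i) (hev j)])
  rw [sbC_smul, sbR_hh, sbC_congr hfT φ ee hφ2, sbC_id] at h2
  simp only [linC_ee, hφ1, Sum.elim_inl, Sum.elim_inr] at h2
  exact h2

omit [GLRing R] in
private theorem C7_top (N : Submodule R (U R)) (s : ℕ) (A B C' E : R) (f : U R)
    (h : ∀ t : ℂ, (E * (A + (2 * t) • B + t ^ 2 • C') ^ s) • f ∈ N) :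
    (E * C' ^ s) • f ∈ N := by
  obtain ⟨P, hP⟩ : ∃ P : Polynomial (U R), P = Polynomial.C (C E * f) *
    (Polynomial.C (C A) + Polynomial.C (C (2 * B)) * Polynomial.X +
      Polynomial.C (C C') * Polynomial.X ^ 2) ^ s := ⟨_, rfl⟩
  have h1 : ∀ t : ℂ, P.eval (algebraMap ℂ (U R) t) =
      (E * (A + (2 * t) • B + t ^ 2 • C') ^ s) • f := by
    intro t
    rw [hP]
    simp only [Polynomial.eval_mul, Polynomial.eval_C, Polynomial.eval_pow, Polynomial.eval_add,
      Polynomial.eval_X]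
    have e0 : (C (E * (A + (2 * t) • B + t ^ 2 • C') ^ s) : U R) =
        C E * (C A + C ((2 * t) • B) + C (t ^ 2 • C')) ^ s := by
      rw [MvPolynomial.C_mul, MvPolynomial.C_pow, MvPolynomial.C_add, MvPolynomial.C_add]
    have e : (algebraMap ℂ (U R) t) = C (algebraMap ℂ R t) := rfl
    rw [smul_eq_C_mul, e0, e]
    have e1 : (C ((2 * t) • B) : U R) = C (2 * B) * C (algebraMap ℂ R t) := by
      rw [← map_mul]
      congr 1
      rw [Algebra.smul_def, map_mul, map_ofNat]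
      ring
    have e2 : (C (t ^ 2 • C') : U R) = C C' * C (algebraMap ℂ R t) ^ 2 := by
      rw [← map_pow, ← map_mul]
      congr 1
      rw [Algebra.smul_def, map_pow]
      ring
    rw [e1, e2]
    ring
  have h2 := vand_poly (N.restrictScalars ℂ) P (by
    refine Set.infinite_univ.mono fun t _ => ?_
    show P.eval _ ∈ N.restrictScalars ℂ
    rw [h1]
    exact h t) (s * 2)
  have h3 : P.coeff (s * 2) = (E * C' ^ s) • f := by
    have hd : (Polynomial.C (C A) + Polynomial.C (C (2 * B)) * Polynomial.X +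
      Polynomial.C (C C') * Polynomial.X ^ 2 : Polynomial (U R)).natDegree ≤ 2 := by
      compute_degree
    rw [hP, Polynomial.coeff_C_mul, Polynomial.coeff_pow_of_natDegree_le hd]
    have e : (Polynomial.C (C A) + Polynomial.C (C (2 * B)) * Polynomial.X +
      Polynomial.C (C C') * Polynomial.X ^ 2 : Polynomial (U R)).coeff 2 = C C' := by
      rw [Polynomial.coeff_add, Polynomial.coeff_add, Polynomial.coeff_C_mul,
        Polynomial.coeff_C_mul, Polynomial.coeff_C, Polynomial.coeff_X, Polynomial.coeff_X_pow]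
      simp
    rw [e, smul_eq_C_mul, map_mul, map_pow]
    ring
  rw [h3] at h2
  exact h2

private theorem C7_Ek (N : Submodule R (U R)) {r K : ℕ} (s : ℕ) (u : Fin r → V) (c b : Fin K → V)
    (G : R) (f : U R)
    (h : ∀ t : Fin K → ℂ, (Ek s u (fun j => c j + t j • b j) * G : R) • f ∈ N) :
    (Ek s u b * G : R) • f ∈ N := by
  classical
  have key : ∀ J : Finset (Fin K), ∀ t : Fin K → ℂ,
      ((∏ j, (if j ∈ J then (Dl1 u (b j) : R) ^ s else (Dl1 u (c j + t j • b j) : R) ^ s)) * G) •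
        f ∈ N := by
    intro J
    induction J using Finset.induction_on with
    | empty =>
      intro t
      have h1 := h t
      unfold Ek at h1
      simpa only [Finset.notMem_empty, if_false] using h1
    | insert j0 J hj ih =>
      intro t
      rw [← Finset.mul_prod_erase Finset.univ _ (Finset.mem_univ j0),
        if_pos (Finset.mem_insert_self _ _)]
      have h1 : ∀ z : ℂ, ∏ j ∈ Finset.univ.erase j0, (if j ∈ insert j0 J then
          (Dl1 u (b j) : R) ^ s else (Dl1 u (c j + t j • b j) : R) ^ s) =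
          ∏ j ∈ Finset.univ.erase j0, (if j ∈ J then (Dl1 u (b j) : R) ^ s else
            (Dl1 u (c j + (Function.update t j0 z) j • b j) : R) ^ s) := by
        intro z
        refine Finset.prod_congr rfl fun j hj' => ?_
        have hne : j ≠ j0 := (Finset.mem_erase.1 hj').1
        rw [Function.update_of_ne hne]
        by_cases hJ : j ∈ J
        · rw [if_pos hJ, if_pos (Finset.mem_insert_of_mem hJ)]
        · rw [if_neg hJ, if_neg]
          intro h2
          rcases Finset.mem_insert.1 h2 with h3 | h3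
          · exact hne h3
          · exact hJ h3
      have h2 := C7_top N s (Dl1 u (c j0)) (xf (til u (c j0)) (cst (b j0))) (Dl1 u (b j0))
        ((∏ j ∈ Finset.univ.erase j0, (if j ∈ insert j0 J then
          (Dl1 u (b j) : R) ^ s else (Dl1 u (c j + t j • b j) : R) ^ s)) * G) f (fun z => by
          have h3 := ih (Function.update t j0 z)
          rw [← Finset.mul_prod_erase Finset.univ _ (Finset.mem_univ j0), if_neg hj,
            Function.update_self, ← h1 z, Dl1_add] at h3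
          convert h3 using 2
          ring)
      convert h2 using 2
      ring
  have h1 := key Finset.univ (fun _ => 0)
  unfold Ek
  simpa only [Finset.mem_univ, if_true] using h1

private theorem C7_om_add (x y v w : V) (c d : ℂ) (h1 : om x w = 0) (h2 : om v y = 0)
    (h3 : om v w = 0) : om (x + c • v) (y + d • w) = om x y := by
  rw [T5.om_eq] at h1 h2 h3 ⊢
  rw [T5.om_eq, T5.B_al, T5.B_ar, T5.B_ar, T5.B_sl, T5.B_sl, T5.B_sr, T5.B_sr, h1, h2, h3]
  ring

private theorem C7_prod_zero (t : ℕ → ℂ) :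
    ((0 : ℕ →₀ ℕ).prod fun i k => t i ^ k) = 1 := Finsupp.prod_zero_index

/-- the induction step for homogeneous elements and letters -/
theorem F_step {r s : ℕ} (h1 : HP1 R r s) (S : Finset ℕ) (M : Submodule R (U R)) (hM : GLS M)
    (hMS : M ≤ MS R S) (n D k' q' : ℕ) (hF : FProp r s k' q' n D S M) :
    ∃ k q : ℕ, ∀ Z : Set ℕ, Z.Finite → (∀ z ∈ Z, 2 * n ≤ z) →
      (∀ z ∈ Z, ∀ z' ∈ Z, om (ee z) (ee z') = 0) → ∀ f ∈ M, TrZ S f →
      f ∈ MP50e386N.LT R (Set.Iio (2 * n) ∪ Z) → (∀ c : ℂ, sbC (scT n c) f = c ^ (D + 1) • f) →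
      ∃ B : ℕ, ∀ w : Fin r ⊕ Fin k → ℕ, Function.Injective w → (∀ i, B ≤ w i ∧ Even (w i)) →
        (hh s q (fun i => ee (w (Sum.inl i))) (fun j => ee (w (Sum.inr j))) : R) • f ∈ nn M := by
  classical
  obtain ⟨m, hm⟩ : ∃ m, m = S.card := ⟨_, rfl⟩
  obtain ⟨K, hK⟩ : ∃ K, K = 2 * n + 2 * (m * m) := ⟨_, rfl⟩
  refine ⟨K + k', (D + 1) + q', fun Z hZf hZ2 hZi f hf htr hfT hdeg => ?_⟩
  have hfin : (Set.Iio (2 * n) ∪ Z).Finite := (Set.finite_Iio _).union hZf
  obtain ⟨B, hB⟩ := C7_bound hfin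
  refine ⟨B + 2 * n, fun w _ hw => ?_⟩
  have hwe : ∀ i, Even (w i) := fun i => (hw i).2
  have hwB : ∀ i, B ≤ w i := fun i => by have := (hw i).1; omega
  have hwn : ∀ i, 2 * n ≤ w i := fun i => by have := (hw i).1; omega
  -- the letters
  obtain ⟨uL, huL⟩ : ∃ uL : Fin r → ℕ, ∀ i, uL i = w (Sum.inl i) := ⟨_, fun i => rfl⟩
  obtain ⟨b1, hb1⟩ : ∃ b1 : Fin K → ℕ, ∀ j, b1 j = w (Sum.inr (Fin.castAdd k' j)) :=
    ⟨_, fun i => rfl⟩
  obtain ⟨b2, hb2⟩ : ∃ b2 : Fin k' → ℕ, ∀ j, b2 j = w (Sum.inr (Fin.natAdd K j)) :=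
    ⟨_, fun i => rfl⟩
  obtain ⟨N1, hN1B, hN1⟩ : ∃ N1, B ≤ N1 ∧ ∀ i, w i < N1 := by
    obtain ⟨N, hN⟩ := C7_bound (Set.finite_range w)
    exact ⟨B + N, by omega, fun i => by have := hN _ ⟨i, rfl⟩; omega⟩
  have hwfar : ∀ i, ∀ z ∈ Set.Iio (2 * n) ∪ Z, om (ee (w i)) (ee z) = 0 := by
    intro i z hz
    refine C7_om_div ?_
    have h1 := hB z hz
    have h2 := hwB i
    obtain ⟨k, hk⟩ := hwe i
    omega
  have hzN : ∀ z ∈ Set.Iio (2 * n) ∪ Z, z < N1 := fun z hz => (hB z hz).trans_le hN1B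
  -- claim 0
  obtain ⟨ℓ, hℓ1, hℓ2⟩ : ∃ ℓ : Fin K → ℕ, (∀ j : Fin K, (j : ℕ) < 2 * n → ℓ j = j) ∧
      (∀ j : Fin K, 2 * n ≤ (j : ℕ) → ℓ j = 2 * N1 + (j - 2 * n)) := by
    refine ⟨fun j => if (j : ℕ) < 2 * n then j else 2 * N1 + (j - 2 * n), fun j hj => if_pos hj,
      fun j hj => if_neg (by omega)⟩
  obtain ⟨p, hp⟩ : ∃ p : ℕ → ℕ → V, ∀ a b, p a b = ee (2 * (N1 + Nat.pair a b)) :=
    ⟨_, fun _ _ => rfl⟩
  obtain ⟨q, hq⟩ : ∃ q : ℕ → ℕ → V, ∀ a b, q a b = ee (2 * (N1 + Nat.pair a b) + 1) :=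
    ⟨_, fun _ _ => rfl⟩
  have hodd : ∀ i, ¬ Even (2 * i + 1) := fun i => by
    rw [Nat.not_even_iff_odd]
    exact ⟨i, rfl⟩
  have haux : Aux r n Z (fun i => ee (uL i)) p q := by
    refine ⟨fun i j => ?_, fun i k hk => ?_, fun i a b => ?_, fun i a b => ?_, fun a b k hk => ?_,
      fun a b k hk => ?_, fun a b a' b' => ?_, fun a b a' b' => ?_, fun a b a' b' => ?_⟩
    · rw [huL, huL]
      exact C7_om_even (hwe _) (hwe _)
    · rw [huL]
      exact hwfar _ k hk
    · rw [huL, hp]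
      exact C7_om_even (hwe _) (even_two_mul _)
    · rw [huL, hq]
      refine C7_om_div ?_
      have := hN1 (Sum.inl i)
      omega
    · rw [hp]
      refine C7_om_div ?_
      have := hzN k hk
      omega
    · rw [hq]
      refine C7_om_div ?_
      have := hzN k hk
      omega
    · rw [hp, hp]
      exact C7_om_even (even_two_mul _) (even_two_mul _)
    · rw [hq, hq]
      exact C7_om_odd (hodd _) (hodd _)
    · rw [hp, hq]
      split_ifs with h
      · rw [h.1, h.2]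
        exact C7_om_pair _
      · refine C7_om_div ?_
        intro h2
        apply h
        rw [← Nat.pair_eq_pair]
        omega
  have hcl := claim0 (k := K) h1 S M hM hMS f hf htr n (D + 1) Z hZ2 hZi hfT hdeg
    (fun i => ee (uL i)) p q haux (fun j => ee (ℓ j)) (by
      intro i hi
      refine Submodule.subset_span (Or.inr ⟨⟨i, by omega⟩, ?_⟩)
      beta_reduce
      rw [hℓ1 ⟨i, by omega⟩ hi]) (by
      intro a ha b hb
      have h2 : Nat.pair a b < m * m := by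
        have h3 := Nat.pair_lt_max_add_one_sq a b
        have h4 : max a b + 1 ≤ m := by rw [hm]; exact max_lt ha hb
        calc Nat.pair a b < (max a b + 1) ^ 2 := h3
          _ ≤ m ^ 2 := Nat.pow_le_pow_left h4 2
          _ = m * m := sq m
      refine Submodule.subset_span (Or.inr ⟨⟨2 * n + 2 * Nat.pair a b, by omega⟩, ?_⟩)
      beta_reduce
      rw [hℓ2 ⟨2 * n + 2 * Nat.pair a b, by omega⟩ (Nat.le_add_right _ _), hp]
      congr 1
      show 2 * N1 + (2 * n + 2 * Nat.pair a b - 2 * n) = _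
      omega) (by
      intro a ha b hb
      have h2 : Nat.pair a b < m * m := by
        have h3 := Nat.pair_lt_max_add_one_sq a b
        have h4 : max a b + 1 ≤ m := by rw [hm]; exact max_lt ha hb
        calc Nat.pair a b < (max a b + 1) ^ 2 := h3
          _ ≤ m ^ 2 := Nat.pow_le_pow_left h4 2
          _ = m * m := sq m
      refine Submodule.subset_span (Or.inr ⟨⟨2 * n + (2 * Nat.pair a b + 1), by omega⟩, ?_⟩)
      beta_reduce
      rw [hℓ2 ⟨2 * n + (2 * Nat.pair a b + 1), by omega⟩ (Nat.le_add_right _ _), hq]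
      congr 1
      show 2 * N1 + (2 * n + (2 * Nat.pair a b + 1) - 2 * n) = _
      omega)
  -- the substitution
  have hbfar : ∀ j : Fin K, ∀ z ∈ (Set.Iio (2 * n) ∪ Z) ∪ (Set.range uL ∪
      Set.Ico (2 * N1) (2 * N1 + 2 * (m * m))), om (ee (b1 j)) (ee z) = 0 := by
    rintro j z (hz | ⟨i, rfl⟩ | hz)
    · rw [hb1]
      exact hwfar _ z hz
    · rw [hb1, huL]
      exact C7_om_even (hwe _) (hwe _)
    · rw [hb1]
      refine C7_om_div ?_
      have := hN1 (Sum.inr (Fin.castAdd k' j))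
      have h2 := hz.1
      omega
  have hb1e : ∀ j, Even (b1 j) := fun j => by rw [hb1]; exact hwe _
  obtain ⟨y, hy⟩ : ∃ y : ℕ → ℕ, ∀ j : Fin K, y j = b1 j := by
    refine ⟨fun j => if h : j < K then b1 ⟨j, h⟩ else 0, fun j => ?_⟩
    beta_reduce
    rw [dif_pos j.2]
  have hyG : ∀ j < K, Even (y j) ∧ ∀ z ∈ (Set.Iio (2 * n) ∪ Z) ∪ (Set.range uL ∪
      Set.Ico (2 * N1) (2 * N1 + 2 * (m * m))), om (ee (y j)) (ee z) = 0 := by
    intro j hj
    rw [hy ⟨j, hj⟩]
    exact ⟨hb1e _, hbfar _⟩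
  have hφ : ∀ t : ℕ → ℂ, ∃ φ : ℕ → V, (∀ i < 2 * n, φ i = ee i + t i • ee (y i)) ∧
      (∀ i ∈ Z, φ i = ee i) ∧ (∀ i, φ (uL i) = ee (uL i)) ∧
      (∀ j : Fin K, φ (ℓ j) = ee (ℓ j) + t j • ee (b1 j)) ∧
      (∀ i ∈ (Set.Iio (2 * n) ∪ Z) ∪ (Set.range uL ∪ Set.Ico (2 * N1) (2 * N1 + 2 * (m * m))),
        ∀ j ∈ (Set.Iio (2 * n) ∪ Z) ∪ (Set.range uL ∪ Set.Ico (2 * N1) (2 * N1 + 2 * (m * m))),
        om (φ i) (φ j) = om (ee i) (ee j)) := by
    intro t
    obtain ⟨φ, hφ⟩ : ∃ φ : ℕ → V, φ = fun i => if i < 2 * n then ee i + t i • ee (y i) else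
      if 2 * N1 ≤ i ∧ i < 2 * N1 + 2 * (m * m) then
        ee i + t (2 * n + (i - 2 * N1)) • ee (y (2 * n + (i - 2 * N1))) else ee i := ⟨_, rfl⟩
    have e1 : ∀ i < 2 * n, φ i = ee i + t i • ee (y i) := fun i hi => by
      rw [hφ]; exact if_pos hi
    have e2 : ∀ i, 2 * n ≤ i → i < 2 * N1 → φ i = ee i := fun i hi hi' => by
      rw [hφ]
      beta_reduce
      rw [if_neg (by omega), if_neg (by omega)]
    have hnN : 0 < 2 * n → 2 * n ≤ 2 * N1 := fun h0 => by
      have h2 : 2 * n - 1 < N1 := hzN (2 * n - 1) (Or.inl (by simp only [Set.mem_Iio]; omega))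
      omega
    have e3 : ∀ i, 2 * N1 ≤ i → i < 2 * N1 + 2 * (m * m) →
        φ i = ee i + t (2 * n + (i - 2 * N1)) • ee (y (2 * n + (i - 2 * N1))) := fun i hi hi' => by
      rw [hφ]
      beta_reduce
      rw [if_neg (by omega), if_pos ⟨hi, hi'⟩]
    have e4 : ∀ i ∈ (Set.Iio (2 * n) ∪ Z) ∪ (Set.range uL ∪
        Set.Ico (2 * N1) (2 * N1 + 2 * (m * m))), ∃ (c : ℂ) (l : ℕ), (Even l ∧
          ∀ z ∈ (Set.Iio (2 * n) ∪ Z) ∪ (Set.range uL ∪
            Set.Ico (2 * N1) (2 * N1 + 2 * (m * m))), om (ee l) (ee z) = 0) ∧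
          φ i = ee i + c • ee l := by
      have h0 : Even (2 * (N1 + m * m)) ∧ ∀ z ∈ (Set.Iio (2 * n) ∪ Z) ∪ (Set.range uL ∪
            Set.Ico (2 * N1) (2 * N1 + 2 * (m * m))), om (ee (2 * (N1 + m * m))) (ee z) = 0 := by
        refine ⟨even_two_mul _, ?_⟩
        rintro z (hz | ⟨i, rfl⟩ | hz)
        · refine C7_om_div ?_
          have := hzN z hz
          omega
        · refine C7_om_div ?_
          rw [huL]
          have := hN1 (Sum.inl i)
          omega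
        · refine C7_om_div ?_
          have h2 := hz.1
          have h3 := hz.2
          omega
      rintro i ((hi | hi) | ⟨i, rfl⟩ | hi)
      · exact ⟨t i, y i, hyG i (by simp only [Set.mem_Iio] at hi; omega), e1 i hi⟩
      · refine ⟨0, _, h0, ?_⟩
        rw [e2 i (hZ2 i hi) (by have := hzN i (Or.inr hi); omega), zero_smul, add_zero]
      · refine ⟨0, _, h0, ?_⟩
        rw [e2 _ (by rw [huL]; exact hwn _) (by rw [huL]; have := hN1 (Sum.inl i); omega),
          zero_smul, add_zero]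
      · have h2 := hi.1
        have h3 := hi.2
        exact ⟨_, _, hyG _ (by omega), e3 i h2 h3⟩
    refine ⟨φ, e1, fun i hi => e2 i (hZ2 i hi) (by have := hzN i (Or.inr hi); omega),
      fun i => e2 _ (by rw [huL]; exact hwn _) (by rw [huL]; have := hN1 (Sum.inl i); omega),
      fun j => ?_, fun i hi j hj => ?_⟩
    · rcases lt_or_ge (j : ℕ) (2 * n) with hj | hj
      · rw [hℓ1 j hj, e1 _ hj, hy j]
      · have hj2 := j.2
        rw [hℓ2 j hj, e3 _ (by omega) (by omega)]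
        have h2 : 2 * n + (2 * N1 + (↑j - 2 * n) - 2 * N1) = (j : ℕ) := by omega
        rw [h2, hy j]
    · obtain ⟨c, l, hl, hl'⟩ := e4 i hi
      obtain ⟨c', l', hll, hll'⟩ := e4 j hj
      rw [hl', hll']
      exact C7_om_add _ _ _ _ _ _ (C7_om_anti _ _ (hll.2 i hi)) (hl.2 j hj)
        (C7_om_even hl.1 hll.1)
  obtain ⟨s', g, hg1, hg0, hg00, hgs, hgd⟩ := replace_letters n (D + 1) f hdeg y (fun i hi => by
    rw [hy ⟨i, by omega⟩, hb1]
    exact hwn _)
  have hsub : ∀ t : ℕ → ℂ, ∀ φ : ℕ → V, (∀ i < 2 * n, φ i = ee i + t i • ee (y i)) →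
      (∀ i ∈ Z, φ i = ee i) → sbC φ f = ∑ κ ∈ s', (κ.prod fun i k => t i ^ k) • g κ := by
    intro t φ ha hb
    rw [← hg1]
    refine sbC_congr hfT _ _ ?_
    rintro i (hi | hi)
    · rw [if_pos (show i < 2 * n from hi)]
      exact ha i hi
    · rw [if_neg (not_lt.2 (hZ2 i hi))]
      exact hb i hi
  -- properties of the `g κ`
  have hgM : ∀ κ ∈ s', g κ ∈ M := by
    refine vandM (M.restrictScalars ℂ) s' g fun t _ => ?_
    obtain ⟨φ, ha, hb, -, -, -⟩ := hφ t
    rw [← hsub t φ ha hb]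
    exact hM φ f hf
  have hgtr : ∀ κ ∈ s', TrZ S (g κ) := by
    intro κ hκ a haS b hbS hab
    refine vandM ((LinearMap.ker (tr a b)).restrictScalars ℂ) s' g (fun t _ => ?_) κ hκ
    obtain ⟨φ, ha, hb, -, -, hi⟩ := hφ t
    rw [← hsub t φ ha hb]
    show sbC φ f ∈ LinearMap.ker (tr a b)
    rw [LinearMap.mem_ker, tr_sbC_iso φ a b (Set.Iio (2 * n) ∪ Z) f hfT 1 (fun i hi' j hj' => by
      rw [one_mul]
      exact hi i (Or.inl hi') j (Or.inl hj')), htr a haS b hbS hab, map_zero, smul_zero]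
  obtain ⟨Z', hZ'⟩ : ∃ Z' : Set ℕ, Z' = Z ∪ y '' Set.Iio (2 * n) := ⟨_, rfl⟩
  have hyK : ∀ i < 2 * n, ∃ j : Fin K, y i = b1 j := fun i hi => ⟨⟨i, by omega⟩, hy ⟨i, by omega⟩⟩
  have hgLT : ∀ κ ∈ s', g κ ∈ MP50e386N.LT R (Set.Iio (2 * n) ∪ Z') := by
    refine vandM (Subalgebra.toSubmodule (MP50e386N.LT R (Set.Iio (2 * n) ∪ Z'))) s' g fun t _ => ?_
    obtain ⟨φ, ha, hb, -, -, -⟩ := hφ t
    rw [← hsub t φ ha hb]
    refine sbC_LT hfT φ ?_
    rintro i (hi | hi) j hj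
    · rw [ha i hi] at hj
      by_cases h2 : j = i
      · rw [h2]; exact Or.inl hi
      · by_cases h3 : j = y i
        · rw [h3, hZ']
          exact Or.inr (Or.inr ⟨i, hi, rfl⟩)
        · exfalso
          apply hj
          rw [Finsupp.add_apply, Finsupp.smul_apply, ee, ee, Finsupp.single_apply,
            Finsupp.single_apply, if_neg (Ne.symm h2), if_neg (Ne.symm h3), smul_zero, add_zero]
    · rw [hb i hi] at hj
      have h2 : j = i := by
        by_contra h2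
        apply hj
        rw [ee, Finsupp.single_apply, if_neg (Ne.symm h2)]
      rw [h2, hZ']
      exact Or.inr (Or.inl hi)
  have hgTD : ∀ κ ∈ s', κ ≠ 0 → TD n D (g κ) := by
    intro κ hκ hκ0
    have hdeg0 : κ.degree ≠ 0 := fun h => hκ0 ((Finsupp.degree_eq_zero_iff κ).1 h)
    refine ⟨fun d => if d = D + 1 - κ.degree then g κ else 0, ?_, fun d c => ?_⟩
    · rw [Finset.sum_ite_eq', if_pos]
      rw [Finset.mem_range]
      omega
    · beta_reduce
      split_ifs with h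
      · rw [h]
        exact (hgd κ hκ c).1
      · rw [map_zero, smul_zero]
  -- the induction hypothesis
  have hF' : ∀ κ ∈ s', κ ≠ 0 →
      (hh s q' (fun i => ee (uL i)) (fun j => ee (b2 j)) : R) • g κ ∈ nn M := by
    intro κ hκ hκ0
    refine hF Z' ?_ ?_ ?_ (g κ) (hgM κ hκ) (hgtr κ hκ) (hgLT κ hκ) (hgTD κ hκ hκ0) _ _ ?_ ?_
    · rw [hZ']
      exact hZf.union ((Set.finite_Iio _).image y)
    · rw [hZ']
      rintro z (hz | ⟨i, hi, rfl⟩)
      · exact hZ2 z hz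
      · obtain ⟨j, hj⟩ := hyK i hi
        rw [hj, hb1]
        exact hwn _
    · rw [hZ']
      rintro z (hz | ⟨i, hi, rfl⟩) z' (hz' | ⟨i', hi', rfl⟩)
      · exact hZi z hz z' hz'
      · obtain ⟨j, hj⟩ := hyK i' hi'
        rw [hj]
        exact C7_om_anti _ _ (hbfar j z (Or.inl (Or.inr hz)))
      · obtain ⟨j, hj⟩ := hyK i hi
        rw [hj]
        exact hbfar j z' (Or.inl (Or.inr hz'))
      · obtain ⟨j, hj⟩ := hyK i hi
        obtain ⟨j', hj'⟩ := hyK i' hi'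
        rw [hj, hj']
        exact C7_om_even (hb1e _) (hb1e _)
    · have h2 : ∀ i, ∃ l, Even l ∧ (Sum.elim (fun i => ee (uL i)) (fun j => ee (b2 j)) :
          Fin r ⊕ Fin k' → V) i = ee l := by
        rintro (i | j)
        · exact ⟨uL i, by rw [huL]; exact hwe _, rfl⟩
        · exact ⟨b2 j, by rw [hb2]; exact hwe _, rfl⟩
      intro i j
      obtain ⟨l, hl, hl'⟩ := h2 i
      obtain ⟨l', hll, hll'⟩ := h2 j
      rw [hl', hll']
      exact C7_om_even hl hll
    · have h2 : ∀ i, ∃ l, (Sum.elim (fun i => ee (uL i)) (fun j => ee (b2 j)) :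
          Fin r ⊕ Fin k' → V) i = ee (w l) := by
        rintro (i | j)
        · exact ⟨Sum.inl i, by rw [Sum.elim_inl, huL]⟩
        · exact ⟨Sum.inr (Fin.natAdd K j), by rw [Sum.elim_inr, hb2]⟩
      intro i z hz
      obtain ⟨l, hl⟩ := h2 i
      rw [hl]
      rw [hZ'] at hz
      rcases hz with hz | hz | ⟨i', hi', rfl⟩
      · exact hwfar l z (Or.inl hz)
      · exact hwfar l z (Or.inr hz)
      · obtain ⟨j, hj⟩ := hyK i' hi'
        rw [hj]
        exact C7_om_even (hwe _) (hb1e _)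
  -- the coefficient of the top monomial
  obtain ⟨N, hN⟩ : ∃ N : Submodule R (U R),
      N = nn M ⊔ Submodule.span R {x | ∃ κ ∈ s', κ ≠ 0 ∧ x = g κ} := ⟨_, rfl⟩
  have hkey : ∀ t : Fin K → ℂ, (Ek s (fun i => ee (uL i))
      (fun j => ee (ℓ j) + t j • ee (b1 j)) * Dl (fun i => ee (uL i)) ^ (D + 1) : R) • f ∈ N := by
    intro t
    obtain ⟨t', ht'⟩ : ∃ t' : ℕ → ℂ, ∀ j : Fin K, t' j = t j := by
      refine ⟨fun j => if h : j < K then t ⟨j, h⟩ else 0, fun j => ?_⟩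
      beta_reduce
      rw [dif_pos j.2]
    obtain ⟨φ, ha, hb, hc, hd, hi⟩ := hφ t'
    have hTfin : ((Set.Iio (2 * n) ∪ Z) ∪ (Set.range uL ∪
        Set.Ico (2 * N1) (2 * N1 + 2 * (m * m)))).Finite :=
      hfin.union ((Set.finite_range _).union (Set.finite_Ico _ _))
    have hLT : (hh s (D + 1) (fun i => ee (uL i)) (fun j => ee (ℓ j)) : R) • f ∈
        MP50e386N.LT R ((Set.Iio (2 * n) ∪ Z) ∪ (Set.range uL ∪
          Set.Ico (2 * N1) (2 * N1 + 2 * (m * m)))) := by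
      rw [smul_eq_C_mul]
      refine Subalgebra.mul_mem _ (C7_hh_LT _ uL (fun i => Or.inr (Or.inl ⟨_, rfl⟩)) ℓ
        (fun j => ?_)) (LT_mono Set.subset_union_left hfT)
      rcases lt_or_ge (j : ℕ) (2 * n) with hj | hj
      · rw [hℓ1 j hj]
        exact Or.inl (Or.inl hj)
      · have hj2 := j.2
        rw [hℓ2 j hj]
        refine Or.inr (Or.inr ⟨by omega, by omega⟩)
    have h2 := witt1 (nn_GS hM) (show (hh s (D + 1) (fun i => ee (uL i))
      (fun j => ee (ℓ j)) : R) • f ∈ nn M from hcl) hTfin hLT φ hi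
    rw [sbC_smul, sbR_hh, hsub t' φ ha hb] at h2
    simp only [linC_ee, hc, hd, ht'] at h2
    have h3 : ∑ κ ∈ s', (κ.prod fun i k => t' i ^ k) • g κ =
        f + ∑ κ ∈ s'.erase 0, (κ.prod fun i k => t' i ^ k) • g κ := by
      rw [← Finset.add_sum_erase s' _ hg0, Finsupp.prod_zero_index, one_smul, hg00]
    rw [h3, smul_add] at h2
    have h4 : (hh s (D + 1) (fun i => ee (uL i)) (fun j => ee (ℓ j) + t j • ee (b1 j)) : R) •
        ∑ κ ∈ s'.erase 0, (κ.prod fun i k => t' i ^ k) • g κ ∈ N := by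
      rw [hN]
      refine Submodule.smul_mem _ _ (Submodule.sum_mem _ fun κ hκ => smulC_mem _ _ ?_)
      refine Submodule.mem_sup_right (Submodule.subset_span ⟨κ, (Finset.mem_erase.1 hκ).2,
        (Finset.mem_erase.1 hκ).1, rfl⟩)
    have h5 : nn M ≤ N := by rw [hN]; exact le_sup_left
    exact (Submodule.add_mem_iff_left N h4).1 (h5 h2)
  have htop := C7_Ek N s (fun i => ee (uL i)) (fun j => ee (ℓ j)) (fun j => ee (b1 j))
    (Dl (fun i => ee (uL i)) ^ (D + 1)) f hkey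
  have hNQ : N ≤ (nn M).comap ((hh s q' (fun i => ee (uL i)) (fun j => ee (b2 j)) : R) •
      (LinearMap.id : U R →ₗ[R] U R)) := by
    rw [hN]
    refine sup_le (fun x hx => ?_) (Submodule.span_le.2 ?_)
    · exact smul_mem_nn _ hx
    · rintro x ⟨κ, hκ, hκ0, rfl⟩
      exact hF' κ hκ hκ0
  have h2 := hNQ htop
  rw [Submodule.mem_comap, LinearMap.smul_apply, LinearMap.id_apply, smul_smul] at h2
  have h3 : (hh s ((D + 1) + q') (fun i => ee (w (Sum.inl i)))
      (fun j => ee (w (Sum.inr j))) : R) =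
      hh s q' (fun i => ee (uL i)) (fun j => ee (b2 j)) *
        (Ek s (fun i => ee (uL i)) (fun j => ee (b1 j)) * Dl (fun i => ee (uL i)) ^ (D + 1)) := by
    unfold hh Ek
    rw [Fin.prod_univ_add]
    simp only [huL, hb1, hb2]
    ring
  rw [h3]
  exact h2

private theorem C7_hh_split (s q q' : ℕ) {r k k' : ℕ} (u : Fin r → V) (b : Fin (k + k') → V) :
    (hh s (q + q') u b : R) = hh s q u (fun j => b (Fin.castAdd k' j)) *
      hh s q' u (fun j => b (Fin.natAdd k j)) := by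
  unfold hh Ek
  rw [Fin.prod_univ_add]
  ring

/-- (F) -/
theorem F54 {r s : ℕ} (h1 : HP1 R r s) (S : Finset ℕ) (M : Submodule R (U R)) (hM : GLS M)
    (hMS : M ≤ MS R S) (n D : ℕ) : ∃ k q : ℕ, FProp r s k q n D S M := by
  classical
  induction D with
  | zero =>
    refine ⟨0, 0, fun Z _ hZ2 hZi f hf _ hfT hTD u b _ _ => ?_⟩
    obtain ⟨g, hg, hg'⟩ := hTD
    rw [zero_add, Finset.sum_range_one] at hg
    have h2 := LT_of_TD_zero (n := n) hfT (by
      intro c
      rw [hg]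
      exact hg' 0 c)
    refine smul_mem_nn _ (mem_nn_of_iso_letters hf h2 ?_)
    have h3 : ∀ i ∈ (Set.Iio (2 * n) ∪ Z) \ Set.Iio (2 * n), i ∈ Z := by
      rintro i ⟨hi | hi, hi'⟩
      · exact absurd hi hi'
      · exact hi
    intro i hi j hj
    exact hZi i (h3 i hi) j (h3 j hj)
  | succ D ih =>
    obtain ⟨k', q', hF⟩ := ih
    obtain ⟨k, q, hk⟩ := F_step h1 S M hM hMS n D k' q' hF
    refine ⟨k + k', q + q', fun Z hZf hZ2 hZi f hf htr hfT hTD u b hub hT => ?_⟩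
    obtain ⟨g, hg, hg'⟩ := TD_comp n (D + 1) S M hM (Set.Iio (2 * n) ∪ Z) f hf hfT htr
      (fun i hi j hj _ => C7_om_div (by omega)) (fun i hi j hj hi' hj' => by
        have hiZ : i ∈ Z := by
          rcases hi' with h | h
          · exact absurd h (not_lt.2 hi)
          · exact h
        have hjZ : j ∈ Z := by
          rcases hj' with h | h
          · exact absurd h (not_lt.2 hj)
          · exact h
        exact hZi i hiZ j hjZ) hTD
    obtain ⟨b1, hb1⟩ : ∃ b1 : Fin k → V, b1 = fun j => b (Fin.castAdd k' j) := ⟨_, rfl⟩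
    obtain ⟨b2, hb2⟩ : ∃ b2 : Fin k' → V, b2 = fun j => b (Fin.natAdd k j) := ⟨_, rfl⟩
    have hin1 : ∀ i, ∃ j, (Sum.elim u b1 : Fin r ⊕ Fin k → V) i =
        (Sum.elim u b : Fin r ⊕ Fin (k + k') → V) j := by
      rintro (i | i)
      · exact ⟨Sum.inl i, rfl⟩
      · exact ⟨Sum.inr (Fin.castAdd k' i), by rw [Sum.elim_inr, Sum.elim_inr, hb1]⟩
    have hin2 : ∀ i, ∃ j, (Sum.elim u b2 : Fin r ⊕ Fin k' → V) i =
        (Sum.elim u b : Fin r ⊕ Fin (k + k') → V) j := by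
      rintro (i | i)
      · exact ⟨Sum.inl i, rfl⟩
      · exact ⟨Sum.inr (Fin.natAdd k i), by rw [Sum.elim_inr, Sum.elim_inr, hb2]⟩
    have hiso1 : Iso (Sum.elim u b1) := by
      intro i j
      obtain ⟨i', hi'⟩ := hin1 i
      obtain ⟨j', hj'⟩ := hin1 j
      rw [hi', hj']
      exact hub i' j'
    have hiso2 : Iso (Sum.elim u b2) := by
      intro i j
      obtain ⟨i', hi'⟩ := hin2 i
      obtain ⟨j', hj'⟩ := hin2 j
      rw [hi', hj']
      exact hub i' j'
    -- the top component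
    have htop : (hh s q u b1 : R) • g (D + 1) ∈ nn M := by
      obtain ⟨hgM, hgT, hgtr, hgd⟩ := hg' (D + 1)
      obtain ⟨B, hB⟩ := hk Z hZf hZ2 hZi (g (D + 1)) hgM hgtr hgT hgd
      refine F_of_letters S M hM Z hZf (g (D + 1)) hgT B hB u b1 hiso1 fun i z hz => ?_
      obtain ⟨i', hi'⟩ := hin1 i
      rw [hi']
      exact hT i' z hz
    -- the other components
    have hlow : (hh s q' u b2 : R) • (∑ d ∈ Finset.range (D + 1), g d) ∈ nn M := by
      refine hF Z hZf hZ2 hZi _ (Submodule.sum_mem _ fun d _ => (hg' d).1) ?_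
        (Subalgebra.sum_mem _ fun d _ => (hg' d).2.1) ⟨g, rfl, fun d => (hg' d).2.2.2⟩ u b2 hiso2
        fun i z hz => ?_
      · intro a ha a' ha' hne
        rw [map_sum]
        exact Finset.sum_eq_zero fun d _ => (hg' d).2.2.1 a ha a' ha' hne
      · obtain ⟨i', hi'⟩ := hin2 i
        rw [hi']
        exact hT i' z hz
    rw [hg, Finset.sum_range_succ, smul_add, C7_hh_split, ← hb1, ← hb2]
    refine Submodule.add_mem _ ?_ ?_
    · rw [mul_smul]
      exact smul_mem_nn _ hlow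
    · rw [mul_comm, mul_smul]
      exact smul_mem_nn _ htop

end MP50e386O

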