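import Mathlib
import Pool.Agent.Lib.MP_50e386_al.N.TL1
import Pool.Agent.Lib.MP_50e386_al.N.QDefs
import Pool.Agent.Lib.MP_50e386_al.N.T2
import Pool.Agent.Lib.MP_50e386_al.O.T3
import Pool.Agent.Lib.MP_50e386_al.O.T6
import Pool.Agent.Lib.MP_50e386_al.O.T8
import Pool.Agent.Lib.MP_50e386_al.N.Q1
import Pool.Agent.Lib.MP_50e386_al.O.W

/-! Paper 5.7 (a). -/

namespace MP50e386O

open MvPolynomial Pool.Agent.Lib.MP50e386 MP50e386N

variable {R : Type} [CommRing R] [Algebra ℂ R] [GLRing R]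

private noncomputable def TL1_phi {r k : ℕ} (w : Fin r → V) (c : Fin k → V) (i : ℕ) : V :=
  if h : i < r then w ⟨i, h⟩ else if h' : i - r < k then c ⟨i - r, h'⟩ else 0

private theorem TL1_om_zero_left (v : V) : om 0 v = 0 := by
  show osf 0 v = 0
  unfold osf
  exact Finsupp.sum_zero_index

private theorem TL1_om_zero_right (v : V) : om v 0 = 0 := by
  show osf v 0 = 0
  unfold osf
  rw [Finsupp.sum]
  refine Finset.sum_eq_zero fun i _ => ?_
  split_ifs <;> simp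

private theorem TL1_iso {r k : ℕ} (w : Fin r → V) (c : Fin k → V) (h : Iso (Sum.elim w c)) :
    Iso (TL1_phi w c) := by
  have key : ∀ i, TL1_phi w c i = 0 ∨ ∃ x : Fin r ⊕ Fin k, TL1_phi w c i = Sum.elim w c x := by
    intro i
    unfold TL1_phi
    split_ifs with h1 h2
    · exact Or.inr ⟨Sum.inl ⟨i, h1⟩, rfl⟩
    · exact Or.inr ⟨Sum.inr ⟨i - r, h2⟩, rfl⟩
    · exact Or.inl rfl
  intro i j
  rcases key i with hi | ⟨x, hx⟩
  · rw [hi]; exact TL1_om_zero_left _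
  · rcases key j with hj | ⟨y, hy⟩
    · rw [hj]; exact TL1_om_zero_right _
    · rw [hx, hy]; exact h x y

theorem TLa {r s : ℕ} {h : Ideal R} (P : Pkg R r s h) (N : Ideal R) (hN : GSI N) (hne : N ≠ ⊥) :
    ∃ k q : ℕ, ∀ (w : Fin r → V) (c : Fin k → V), Iso (Sum.elim w c) → hh s q w c ∈ N := by
  set M : Submodule R (U R) := M1 ∅ (ofI N) with hM
  set I : Ideal R := Submodule.comap (Algebra.linearMap R (U R)) M with hI
  have hmemI : ∀ a : R, a ∈ I ↔ (C a : U R) ∈ M := fun a => Iff.rfl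
  have hle : M ≤ ofI ⊤ := by
    rw [← MS_empty]
    exact M1_le ∅ (ofI N)
  have hMI : ofI I = M := by
    apply le_antisymm
    · intro f hf
      obtain ⟨a, ha, rfl⟩ := (mem_ofI I f).1 hf
      exact (hmemI a).1 ha
    · intro f hf
      obtain ⟨a, -, rfl⟩ := (mem_ofI ⊤ f).1 (hle hf)
      exact (mem_ofI I _).2 ⟨a, (hmemI a).2 hf, rfl⟩
  have hGLSI : GLSI I := by
    rw [← GLS_ofI, hMI]
    exact M1_GLS ∅ (ofI N)
  have hNle : ofI N ≤ M := by
    refine le_M1 ((GS_ofI N).2 hN) ?_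
    rw [MS_empty, ofI_le]
    exact le_top
  have hNI : N ≤ I := by
    rw [← ofI_le, hMI]
    exact hNle
  have hIne : I ≠ ⊥ := by
    intro h0
    apply hne
    rw [h0] at hNI
    exact le_bot_iff.1 hNI
  obtain ⟨a, ha⟩ := P.p5 I hGLSI hIne
  obtain ⟨k, q, hkq⟩ := P.p4 a
  refine ⟨k, q, fun w c hiso => ?_⟩
  have h1 : hh s q (fun i : Fin r => ee i.val) (fun j : Fin k => ee (r + j.val)) ∈ I :=
    ha (hkq _ _)
  have h2 := ((hmemI _).1 h1).2 (TL1_phi w c) (TL1_iso w c hiso)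
  rw [sbC_C, C_mem_ofI, sbR_hh] at h2
  have e1 : (fun i : Fin r => linC (TL1_phi w c) (ee i.val)) = w := by
    funext i
    rw [linC_ee]
    unfold TL1_phi
    rw [dif_pos i.2]
  have e2 : (fun j : Fin k => linC (TL1_phi w c) (ee (r + j.val))) = c := by
    funext j
    rw [linC_ee]
    unfold TL1_phi
    rw [dif_neg (by omega), dif_pos (by omega)]
    congr 1
    apply Fin.ext
    show r + j.val - r = j.val
    omega
  rw [e1, e2] at h2
  exact h2

/-- more `c`'s and larger exponents are harmless -/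
theorem hh_mem_mono {s r k k' q q' : ℕ} (hk : k ≤ k') (hq : q ≤ q') (N : Ideal R)
    (h : ∀ (w : Fin r → V) (c : Fin k → V), Iso (Sum.elim w c) → hh s q w c ∈ N)
    (w : Fin r → V) (c : Fin k' → V)
    (hc : ∀ e : Fin k → V, (∀ j, ∃ hj : j.val < k', e j = c ⟨j.val, hj⟩) → Iso (Sum.elim w e)) :
    hh s q' w c ∈ N := by
  have h1 := h w (fun j => c (Fin.castLE hk j)) (hc _ fun j => ⟨lt_of_lt_of_le j.2 hk, rfl⟩)
  refine Ideal.mem_of_dvd N ?_ h1
  unfold hh
  refine mul_dvd_mul ?_ (pow_dvd_pow _ hq)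
  exact Ek_mono s w _ c ⟨⟨Fin.castLE hk, Fin.castLE_injective hk⟩, fun j => rfl⟩

end MP50e386O

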