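import Mathlib
import Pool.Agent.Lib.MP_50e386_al.N.NS
import Pool.Agent.Lib.MP_50e386_al.Main
import Pool.Agent.Lib.MP_50e386_al.Bridge
import Pool.Agent.Lib.MP_50e386_al.N.Defs
import Pool.Agent.Lib.MP_50e386_al.N.LA
import Pool.Agent.Lib.MP_50e386_al.O.W

/-! Paper 5.7 (c3): Nullstellensatz in the polynomial ring of symmetric `2n × 2n` matrices. -/

namespace MP50e386O

open MvPolynomial Pool.Agent.Lib.MP50e386 MP50e386N MP50e386 Module

section

variable {W : Type} [AddCommGroup W] [Module ℂ W] [FiniteDimensional ℂ W]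

private theorem ns_le_rank (F : LinearMap.BilinForm ℂ W) {k : ℕ} (v : Fin k → W)
    (h : (Matrix.of fun i j : Fin k => F (v i) (v j)).det ≠ 0) :
    k ≤ finrank ℂ (LinearMap.range F) := by
  have hli : LinearIndependent ℂ
      (fun i : Fin k => (⟨F (v i), LinearMap.mem_range_self F (v i)⟩ : LinearMap.range F)) := by
    rw [Fintype.linearIndependent_iff]
    intro c hc
    have h1 : ∑ i, c i • F (v i) = 0 := by
      have := congrArg (Submodule.subtype (LinearMap.range F)) hc
      simpa [map_sum] using this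
    have h2 : Matrix.vecMul c (Matrix.of fun i j : Fin k => F (v i) (v j)) = 0 := by
      funext j
      have h3 := congrArg (fun f : W →ₗ[ℂ] ℂ => f (v j)) h1
      simp only [LinearMap.sum_apply, LinearMap.smul_apply, LinearMap.zero_apply, smul_eq_mul] at h3
      simpa [Matrix.vecMul, dotProduct] using h3
    have h4 := Matrix.eq_zero_of_vecMul_eq_zero h h2
    intro i
    rw [h4]
    rfl
  simpa using hli.fintype_card_le_finrank

omit [FiniteDimensional ℂ W] in
private theorem ns_minor (F : LinearMap.BilinForm ℂ W) {k : ℕ}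
    (hk : k ≤ finrank ℂ (LinearMap.range F)) :
    ∃ a b : Fin k → W, (Matrix.of fun i j : Fin k => F (a i) (b j)).det ≠ 0 := by
  obtain ⟨f, hf⟩ := exists_linearIndependent_of_le_finrank hk
  have hch : ∀ i, ∃ a : W, F a = (f i : W →ₗ[ℂ] ℂ) := fun i => (f i).2
  choose a ha using hch
  have hli : LinearIndependent ℂ (fun i => F (a i)) := by
    have := hf.map' (LinearMap.range F).subtype (Submodule.ker_subtype _)
    have he : (⇑(LinearMap.range F).subtype ∘ f) = fun i => F (a i) := by
      funext i
      rw [ha i]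
      rfl
    rwa [he] at this
  set Φ : W →ₗ[ℂ] (Fin k → ℂ) := LinearMap.pi (fun i => F (a i)) with hΦ
  have hsur : LinearMap.range Φ = ⊤ := by
    by_contra hne
    obtain ⟨g, hg0, hg⟩ := Submodule.exists_le_ker_of_lt_top _ (lt_top_iff_ne_top.2 hne)
    apply hg0
    have h1 : ∑ i, g (Pi.single i 1) • F (a i) = 0 := by
      ext w
      have h2 : g (Φ w) = 0 := hg (LinearMap.mem_range_self Φ w)
      have h3 : Φ w = ∑ i, (F (a i) w) • (Pi.single i (1 : ℂ) : Fin k → ℂ) := by
        funext j
        simp [hΦ, Finset.sum_apply, Pi.single_apply]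
      rw [h3, map_sum] at h2
      simp only [map_smul, smul_eq_mul] at h2
      simp only [LinearMap.sum_apply, LinearMap.smul_apply, smul_eq_mul, LinearMap.zero_apply]
      rw [← h2]
      exact Finset.sum_congr rfl fun i _ => mul_comm _ _
    have h4 := Fintype.linearIndependent_iff.1 hli _ h1
    apply LinearMap.pi_ext'
    intro i
    ext
    simpa using h4 i
  have hb : ∀ j : Fin k, ∃ b : W, Φ b = Pi.single j 1 := fun j =>
    LinearMap.range_eq_top.1 hsur _
  choose b hb using hb
  refine ⟨a, b, ?_⟩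
  have hm : (Matrix.of fun i j : Fin k => F (a i) (b j)) = 1 := by
    ext i j
    have := congrFun (hb j) i
    simp only [hΦ, LinearMap.pi_apply] at this
    rw [Matrix.of_apply, this, Matrix.one_apply, Pi.single_apply]
  rw [hm, Matrix.det_one]
  exact one_ne_zero

end

private theorem ns_aeval_det {M k : ℕ} (p : Sym2 (Fin M) → ℂ) (a b : Fin k → Fin M → ℂ) :
    aeval p (Matrix.det (Matrix.of fun i j : Fin k => bilM M (a i) (b j))) =
      (Matrix.of fun i j : Fin k => Matrix.toBilin' (qm p) (a i) (b j)).det := by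
  rw [AlgHom.map_det]
  congr 1
  ext i j
  simp only [AlgHom.mapMatrix_apply, Matrix.map_apply, Matrix.of_apply]
  exact aeval_bilM p (a i) (b j)

/-- a symmetric form of rank `r` on a split quadratic space of dimension at least `4r` has an
isotropic `r`-tuple with the same (invertible) Gram matrix as a given tuple -/
private theorem LAo (n r : ℕ) (X : LinearMap.BilinForm ℂ (Fin (2 * n) → ℂ)) (hX : X.IsSymm)
    (hr : finrank ℂ (LinearMap.ker X) + r = 2 * n) (h : 4 * r ≤ 2 * n)
    (c : Fin r → Fin (2 * n) → ℂ) :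
    ∃ v : Fin r → Fin (2 * n) → ℂ, (∀ i j, FN pis sio (2 * n) (v i) (v j) = 0) ∧
      ∀ i j, X (v i) (v j) = X (c i) (c j) := by
  set F := FN pis sio (2 * n) with hF
  have hnd : F.Nondegenerate := FN_nondeg gdata_so (even_two_mul n)
  have hrefl : F.IsRefl := FN_isRefl gdata_so (2 * n)
  have hsymm : ∀ x y, F x y = F y x := fun x y => (FN_symm' (2 * n)).eq x y
  have hrad : finrank ℂ (radS F (LinearMap.ker X)) ≤ r := by
    have h1 : radS F (LinearMap.ker X) ≤ F.orthogonal (LinearMap.ker X) := by
      intro x hx y hy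
      exact (hsymm y x).trans (hx.2 y hy)
    have h2 := Submodule.finrank_mono h1
    rw [LinearMap.BilinForm.finrank_orthogonal hnd, finrank_fin_fun] at h2
    omega
  obtain ⟨b, hb1, hb2⟩ := exists_gram F hrefl (gam pis sio) (fun i j => gam_shift gdata_so i j)
    (fun i j hi hj => gam_zero_left gdata_so even_two hi hj)
    (fun i j hi hj => gam_zero_right gdata_so even_two hi hj) (gam_D gdata_so) (step_so (2 * n))
    r (LinearMap.ker X) (by omega)
  have hb00 : ∀ i < r, ∀ j < r, F (b (2 * i)) (b (2 * j)) = 0 := by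
    intro i hi j hj
    rw [hb2 _ (by omega) _ (by omega)]
    unfold gam pis
    rw [if_pos (even_two_mul i), if_neg (by omega)]
  have hb11 : ∀ i < r, ∀ j < r, F (b (2 * i + 1)) (b (2 * j + 1)) = 0 := by
    intro i hi j hj
    rw [hb2 _ (by omega) _ (by omega)]
    unfold gam pis
    have h1 : ¬ Even (2 * i + 1) := by
      rw [Nat.even_add_one, not_not]
      exact even_two_mul i
    rw [if_neg h1, if_neg (by omega)]
  have hb01 : ∀ i < r, ∀ j < r, F (b (2 * i)) (b (2 * j + 1)) = if i = j then 1 else 0 := by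
    intro i hi j hj
    rw [hb2 _ (by omega) _ (by omega)]
    unfold gam pis
    rw [if_pos (even_two_mul i)]
    by_cases hij : i = j
    · rw [if_pos hij, if_pos (by omega)]
      rfl
    · rw [if_neg hij, if_neg (by omega)]
  -- the first correction
  set c' : Fin r → Fin (2 * n) → ℂ := fun i => c i - ∑ k : Fin r,
    (F (c i) (b (2 * k + 1)) • b (2 * k) + F (c i) (b (2 * k)) • b (2 * k + 1)) with hc'
  have hc0 : ∀ i, ∀ j : Fin r, F (c' i) (b (2 * j)) = 0 := by
    intro i j
    simp only [hc', map_sub, LinearMap.sub_apply, map_sum, LinearMap.sum_apply, map_add,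
      LinearMap.add_apply, map_smul, LinearMap.smul_apply, smul_eq_mul]
    rw [Finset.sum_eq_single j]
    · rw [hb00 j j.2 j j.2, hsymm (b (2 * j + 1)), hb01 j j.2 j j.2, if_pos rfl]
      ring
    · intro k _ hk
      rw [hb00 k k.2 j j.2, hsymm (b (2 * k + 1)), hb01 j j.2 k k.2,
        if_neg (fun h => hk (Fin.ext h.symm))]
      ring
    · intro h
      exact absurd (Finset.mem_univ j) h
  have hc1 : ∀ i, ∀ j : Fin r, F (c' i) (b (2 * j + 1)) = 0 := by
    intro i j
    simp only [hc', map_sub, LinearMap.sub_apply, map_sum, LinearMap.sum_apply, map_add,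
      LinearMap.add_apply, map_smul, LinearMap.smul_apply, smul_eq_mul]
    rw [Finset.sum_eq_single j]
    · rw [hb11 j j.2 j j.2, hb01 j j.2 j j.2, if_pos rfl]
      ring
    · intro k _ hk
      rw [hb11 k k.2 j j.2, hb01 k k.2 j j.2, if_neg (fun h => hk (Fin.ext h))]
      ring
    · intro h
      exact absurd (Finset.mem_univ j) h
  -- the second correction
  set z : Fin r → Fin (2 * n) → ℂ := fun i => b (2 * i) - ∑ k : Fin r,
    (2⁻¹ * F (c' i) (c' k)) • b (2 * k + 1) with hz
  have hcz : ∀ i j, F (c' i) (z j) = 0 := by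
    intro i j
    simp only [hz, map_sub, map_sum, map_smul, smul_eq_mul, hc0, hc1, mul_zero,
      Finset.sum_const_zero, sub_zero]
  have hzz : ∀ i j, F (z i) (z j) = - F (c' i) (c' j) := by
    intro i j
    have e1 : F (b (2 * i)) (z j) = - (2⁻¹ * F (c' j) (c' i)) := by
      simp only [hz, map_sub, map_sum, map_smul, smul_eq_mul]
      rw [hb00 i i.2 j j.2, Finset.sum_eq_single i]
      · rw [hb01 i i.2 i i.2, if_pos rfl]
        ring
      · intro k _ hk
        rw [hb01 i i.2 k k.2, if_neg (fun h => hk (Fin.ext h.symm)), mul_zero]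
      · intro h
        exact absurd (Finset.mem_univ i) h
    have e2 : ∀ k : Fin r, F (b (2 * k + 1)) (z j) = if k = j then 1 else 0 := by
      intro k
      simp only [hz, map_sub, map_sum, map_smul, smul_eq_mul]
      rw [hsymm, hb01 j j.2 k k.2, Finset.sum_eq_zero, sub_zero]
      · by_cases hkj : k = j
        · rw [if_pos (by rw [hkj]), if_pos hkj]
        · rw [if_neg (fun h => hkj (Fin.ext h.symm)), if_neg hkj]
      · intro k' _
        rw [hb11 k k.2 k' k'.2, mul_zero]
    have e3 : F (z i) (z j) = F (b (2 * i)) (z j) -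
        ∑ k : Fin r, (2⁻¹ * F (c' i) (c' k)) * F (b (2 * k + 1)) (z j) := by
      have e4 : ∀ y, F (z i) y = F (b (2 * i)) y -
          ∑ k : Fin r, (2⁻¹ * F (c' i) (c' k)) * F (b (2 * k + 1)) y := by
        intro y
        simp only [hz, map_sub, LinearMap.sub_apply, map_sum, LinearMap.sum_apply, map_smul,
          LinearMap.smul_apply, smul_eq_mul]
      exact e4 (z j)
    rw [e3, e1, Finset.sum_eq_single j]
    · rw [e2 j, if_pos rfl, hsymm (c' j) (c' i)]
      ring
    · intro k _ hk
      rw [e2 k, if_neg hk, mul_zero]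
    · intro h
      exact absurd (Finset.mem_univ j) h
  have hXb : ∀ k < 2 * r, ∀ y, X (b k) y = 0 := by
    intro k hk y
    have := hb1 k hk
    rw [LinearMap.mem_ker] at this
    rw [this, LinearMap.zero_apply]
  have hXb' : ∀ k < 2 * r, ∀ y, X y (b k) = 0 := by
    intro k hk y
    rw [← hXb k hk y]
    exact (hX.eq (b k) y).symm
  have hdiff : ∀ i, ∀ y, X (c' i + z i) y = X (c i) y := by
    intro i y
    have e1 : X (c' i) y = X (c i) y := by
      simp only [hc', map_sub, LinearMap.sub_apply, map_sum, LinearMap.sum_apply, map_add,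
        LinearMap.add_apply, map_smul, LinearMap.smul_apply, smul_eq_mul]
      rw [Finset.sum_eq_zero, sub_zero]
      intro k _
      rw [hXb _ (by omega), hXb _ (by omega)]
      ring
    have e2 : X (z i) y = 0 := by
      simp only [hz, map_sub, LinearMap.sub_apply, map_sum, LinearMap.sum_apply, map_smul,
        LinearMap.smul_apply, smul_eq_mul]
      rw [hXb _ (by omega), Finset.sum_eq_zero, sub_zero]
      intro k _
      rw [hXb _ (by omega), mul_zero]
    rw [map_add, LinearMap.add_apply, e1, e2, add_zero]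
  refine ⟨fun i => c' i + z i, ?_, ?_⟩
  · intro i j
    have e1 : F (z i) (c' j) = 0 := by rw [hsymm, hcz]
    simp only [map_add, LinearMap.add_apply, hcz, hzz, e1]
    ring
  · intro i j
    rw [hdiff]
    have e2 : X (c i) (c' j + z j) = X (c' j + z j) (c i) := (hX.eq _ _)
    rw [e2, hdiff]
    exact hX.eq _ _

theorem NS (n r q : ℕ) (hn : 2 * r ≤ n) (hq : 1 ≤ q) : ∃ q1 : ℕ,
    ∀ v : Fin r → (Fin (2 * n) → ℂ),
      (Matrix.det (Matrix.of fun i j : Fin r => bilM (2 * n) (v i) (v j))) ^ q1 ∈
        Ideal.span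
          ({f | ∃ a b : Fin (r + 1) → (Fin (2 * n) → ℂ),
              f = Matrix.det (Matrix.of fun i j : Fin (r + 1) => bilM (2 * n) (a i) (b j))} ∪
           {f | ∃ v' : Fin r → (Fin (2 * n) → ℂ),
              (∀ i j, om (jN (2 * n) (v' i)) (jN (2 * n) (v' j)) = 0) ∧
              f = (Matrix.det (Matrix.of fun i j : Fin r => bilM (2 * n) (v' i) (v' j))) ^ q}) := by
  set I := Ideal.span
          ({f | ∃ a b : Fin (r + 1) → (Fin (2 * n) → ℂ),
              f = Matrix.det (Matrix.of fun i j : Fin (r + 1) => bilM (2 * n) (a i) (b j))} ∪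
           {f | ∃ v' : Fin r → (Fin (2 * n) → ℂ),
              (∀ i j, om (jN (2 * n) (v' i)) (jN (2 * n) (v' j)) = 0) ∧
              f = (Matrix.det (Matrix.of fun i j : Fin r => bilM (2 * n) (v' i) (v' j))) ^ q})
    with hI
  obtain ⟨q1, hq1⟩ := I.exists_radical_pow_le_of_fg I.radical.fg_of_isNoetherianRing
  refine ⟨q1, fun v => hq1 (Ideal.pow_mem_pow ?_ q1)⟩
  rw [← vanishingIdeal_zeroLocus_eq_radical (K := ℂ) I, mem_vanishingIdeal_iff]
  intro p hp
  rw [hI, zeroLocus_span] at hp
  rw [ns_aeval_det]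
  by_contra hne
  set F := Matrix.toBilin' (qm p) with hF
  have hge : r ≤ finrank ℂ (LinearMap.range F) := ns_le_rank F v hne
  have hle : finrank ℂ (LinearMap.range F) ≤ r := by
    by_contra hlt
    obtain ⟨a, b, hab⟩ := ns_minor F (k := r + 1) (by omega)
    apply hab
    rw [← ns_aeval_det]
    exact hp _ (Or.inl ⟨a, b, rfl⟩)
  have hrank : finrank ℂ (LinearMap.ker F) + r = finrank ℂ (Fin (2 * n) → ℂ) := by
    have := LinearMap.finrank_range_add_finrank_ker F
    omega
  obtain ⟨v', hv', hX'⟩ := LAo n r F (qm_symm p) (by rw [hrank, finrank_fin_fun]) (by omega) v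
  have hdet : (Matrix.of fun i j : Fin r => F (v' i) (v' j)).det ≠ 0 := by
    simp only [hX']
    exact hne
  apply hdet
  have h3 := hp _ (Or.inr ⟨v', fun i j => by
    have := hv' i j
    rw [FN_apply] at this
    rw [om, MP50e386O.osf_eq]
    exact this, rfl⟩)
  rw [map_pow, ns_aeval_det] at h3
  exact pow_eq_zero_iff (by omega) |>.1 h3

end MP50e386O

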