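import Mathlib
import Pool.Agent.Lib.MP_50e386_al.N.TL3
import Pool.Agent.Lib.MP_50e386_al.Main
import Pool.Agent.Lib.MP_50e386_al.N.QDefs
import Pool.Agent.Lib.MP_50e386_al.N.T1
import Pool.Agent.Lib.MP_50e386_al.N.T2
import Pool.Agent.Lib.MP_50e386_al.O.T3
import Pool.Agent.Lib.MP_50e386_al.O.T5
import Pool.Agent.Lib.MP_50e386_al.N.Q1
import Pool.Agent.Lib.MP_50e386_al.O.W

/-! Paper 5.7 (d). -/

namespace MP50e386O

open MvPolynomial Pool.Agent.Lib.MP50e386 MP50e386N

variable {R : Type} [CommRing R] [Algebra ℂ R] [GLRing R]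

/-! ### the symplectic basis -/

section symp

open _root_.MP50e386 (frm pis gam)
open MP50e386O.T5 (B om_eq)

/-- a family with nonzero Gram determinant is independent -/
private theorem tl3_indep {ι : Type} [Fintype ι] [DecidableEq ι] (y : ι → V)
    (hy : (Matrix.of fun i j : ι => om (y i) (y j)).det ≠ 0) : LinearIndependent ℂ y := by
  rw [Fintype.linearIndependent_iff]
  intro a ha
  have h1 : Matrix.vecMul a (Matrix.of fun i j : ι => om (y i) (y j)) = 0 := by
    funext j
    have h2 : B (∑ i, a i • y i) (y j) = 0 := by rw [ha, map_zero, LinearMap.zero_apply]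
    rw [T5.B_suml] at h2
    simp only [T5.B_sl] at h2
    simp only [Matrix.vecMul, dotProduct, Matrix.of_apply, Pi.zero_apply, om_eq]
    exact h2
  have h3 := Matrix.eq_zero_of_vecMul_eq_zero hy h1
  intro i
  exact congrFun h3 i

private theorem tl3_ee_indep (m : ℕ) : LinearIndependent ℂ (fun i : Fin m => (ee i : V)) := by
  have h1 : LinearIndependent ℂ (fun i : ℕ => (ee i : V)) :=
    Finsupp.basisSingleOne.linearIndependent
  exact h1.comp _ Fin.val_injective

private theorem tl3_range (m : ℕ) (f : ℕ → V) :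
    Set.range (fun i : Fin m => f i) = (fun i : ℕ => f i) '' Set.Iio m := by
  ext x
  constructor
  · rintro ⟨i, rfl⟩
    exact ⟨i, i.2, rfl⟩
  · rintro ⟨i, hi, rfl⟩
    exact ⟨⟨i, hi⟩, rfl⟩

/-- a nondegenerate `2n`-dimensional space is the image of the standard one under `O_∞` -/
theorem exists_so_span (n : ℕ) {ι : Type} [Fintype ι] [DecidableEq ι] (hι : Fintype.card ι = 2 * n)
    (y : ι → V) (hy : (Matrix.of fun i j : ι => om (y i) (y j)).det ≠ 0) :
    ∃ g : Cinf ≃ₗ[ℂ] Cinf, IsSo g ∧
      Submodule.span ℂ (Set.range fun i => g.symm (y i)) =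
        Submodule.span ℂ ((fun i : ℕ => ee i) '' Set.Iio (2 * n)) ∧
      LinearIndependent ℂ fun i => g.symm (y i) := by
  have hind := tl3_indep y hy
  -- the form on the coordinate space
  let T : (ι → ℂ) →ₗ[ℂ] V := Fintype.linearCombination ℂ y
  have hT : ∀ a, T a = ∑ i, a i • y i := fun a => rfl
  let F : LinearMap.BilinForm ℂ (ι → ℂ) := B.compl₁₂ T T
  have hF : ∀ a b, F a b = B (T a) (T b) := fun a b => rfl
  have hFs : F.IsSymm := ⟨fun a b => T5.B_anti (T a) (T b)⟩
  have hrad : _root_.MP50e386.radS F ⊤ = ⊥ := by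
    rw [eq_bot_iff]
    rintro a ⟨-, ha⟩
    have h1 : Matrix.vecMul a (Matrix.of fun i j : ι => om (y i) (y j)) = 0 := by
      funext j
      have h2 := ha (Pi.single j 1) trivial
      have h3 : T (Pi.single j 1) = y j := by
        rw [hT]
        rw [Finset.sum_eq_single j]
        · rw [Pi.single_eq_same, one_smul]
        · intro i _ hi
          rw [Pi.single_eq_of_ne hi, zero_smul]
        · intro h
          exact absurd (Finset.mem_univ _) h
      rw [hF, h3, hT, T5.B_suml] at h2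
      simp only [T5.B_sl] at h2
      simp only [Matrix.vecMul, dotProduct, Matrix.of_apply, Pi.zero_apply, om_eq]
      exact h2
    exact Matrix.eq_zero_of_vecMul_eq_zero hy h1
  obtain ⟨b, -, hb⟩ := _root_.MP50e386.exists_gram F hFs.isRefl (gam pis sio)
    (_root_.MP50e386.gam_shift gdata_so)
    (fun i j hi hj => _root_.MP50e386.gam_zero_left gdata_so (n := 2) even_two hi hj)
    (fun i j hi hj => _root_.MP50e386.gam_zero_right gdata_so (n := 2) even_two hi hj)
    (_root_.MP50e386.gam_D gdata_so)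
    (twoStep_split F hFs) n ⊤ (by
      rw [hrad, finrank_bot, finrank_top, Module.finrank_fintype_fun_eq_card, hι]
      omega)
  obtain ⟨g, hg, hge⟩ := exists_so n (fun i => T (b i)) (by
    intro i hi j hj
    rw [om_eq, om_eq, T5.B_ee]
    exact hb i hi j hj)
  have hgsymm : ∀ i, i < 2 * n → g.symm (T (b i)) = ee i := by
    intro i hi
    rw [LinearEquiv.symm_apply_eq, hge i hi]
  have hli : LinearIndependent ℂ fun i => g.symm (y i) :=
    hind.map' (g.symm : Cinf →ₗ[ℂ] Cinf) (LinearEquiv.ker _)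
  refine ⟨g, hg, ?_, hli⟩
  -- the standard space is contained in the span
  have hle : Submodule.span ℂ ((fun i : ℕ => (ee i : V)) '' Set.Iio (2 * n)) ≤
      Submodule.span ℂ (Set.range fun i => g.symm (y i)) := by
    rw [Submodule.span_le]
    rintro x ⟨i, hi, rfl⟩
    have hi' : i < 2 * n := hi
    show (ee i : V) ∈ _
    rw [← hgsymm i hi', hT, map_sum]
    refine Submodule.sum_mem _ fun j _ => ?_
    rw [map_smul]
    exact Submodule.smul_mem _ _ (Submodule.subset_span ⟨j, rfl⟩)
  haveI : FiniteDimensional ℂ (Submodule.span ℂ (Set.range fun i => g.symm (y i))) :=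
    FiniteDimensional.span_of_finite ℂ (Set.finite_range _)
  symm
  refine Submodule.eq_of_le_of_finrank_eq hle ?_
  rw [finrank_span_eq_card hli, hι, ← tl3_range (2 * n) (fun i => (ee i : V)),
    finrank_span_eq_card (tl3_ee_indep (2 * n)), Fintype.card_fin]

/-- the standard Gram matrix is invertible -/
private theorem tl3_det {ι : Type} [Fintype ι] [DecidableEq ι] (n : ℕ) (σ : ι ≃ Fin (2 * n)) :
    (Matrix.of fun i j : ι => om (ee (σ i : ℕ)) (ee (σ j : ℕ))).det ≠ 0 := by
  intro h0
  obtain ⟨a, ha0, ha⟩ := Matrix.exists_vecMul_eq_zero_iff.2 h0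
  apply ha0
  funext i
  -- pair with the partner of the letter
  have hlt : pis (σ i : ℕ) < 2 * n :=
    _root_.MP50e386.pi_lt gdata_so (even_two_mul n) (σ i).2
  have h1 := congrFun ha (σ.symm ⟨pis (σ i : ℕ), hlt⟩)
  simp only [Matrix.vecMul, dotProduct, Matrix.of_apply, Pi.zero_apply, Equiv.apply_symm_apply,
    om_eq, T5.B_ee] at h1
  rw [Finset.sum_eq_single i] at h1
  · unfold gam at h1
    rw [if_pos rfl] at h1
    exact (mul_eq_zero.1 h1).resolve_right (gdata_so.sne _)
  · intro j _ hj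
    unfold gam
    rw [if_neg, mul_zero]
    intro h2
    apply hj
    have h3 := congrArg pis h2
    rw [gdata_so.inv, gdata_so.inv] at h3
    exact σ.injective (Fin.ext h3.symm)
  · intro h
    exact absurd (Finset.mem_univ _) h

end symp

/-! ### polynomial families -/

private theorem tl3_xv_add (v w v' w' : V) (t : ℂ) :
    (xv (v + t • w) (v' + t • w') : R) = xv v v' + algebraMap ℂ R t * (xv v w' + xv w v') +
      algebraMap ℂ R t ^ 2 * xv w w' := by
  have h : ∀ w : V, (cst (t • w) : VR R) = algebraMap ℂ R t • cst w := by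
    intro w
    rw [map_smul, algebraMap_smul]
  unfold xv
  simp only [map_add, h, LinearMap.add_apply]
  simp only [map_smul, LinearMap.smul_apply, smul_eq_mul]
  ring

private theorem tl3_Dl {ι : Type} [Fintype ι] [DecidableEq ι] (v w : ι → V) :
    ∃ P : Polynomial R, ∀ t : ℂ, P.eval (algebraMap ℂ R t) = Dl (fun i => v i + t • w i) := by
  refine ⟨(Matrix.of fun i j : ι => Polynomial.C (xv (v i) (v j) : R) +
    Polynomial.X * Polynomial.C (xv (v i) (w j) + xv (w i) (v j) : R) +
    Polynomial.X ^ 2 * Polynomial.C (xv (w i) (w j) : R)).det, fun t => ?_⟩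
  unfold Dl
  rw [← Polynomial.coe_evalRingHom, RingHom.map_det]
  congr 1
  ext i j
  simp only [RingHom.mapMatrix_apply, Matrix.map_apply, Matrix.of_apply, gramM,
    Polynomial.coe_evalRingHom, Polynomial.eval_add, Polynomial.eval_mul, Polynomial.eval_C,
    Polynomial.eval_X, Polynomial.eval_pow]
  rw [tl3_xv_add]

private theorem tl3_hh (s q : ℕ) {r k : ℕ} (v v0 : Fin r → V) (c c0 : Fin k → V) :
    ∃ P : Polynomial R, ∀ t : ℂ, P.eval (algebraMap ℂ R t) =
      hh s q (fun i => v i + t • v0 i) (fun j => c j + t • c0 j) := by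
  obtain ⟨P0, hP0⟩ := tl3_Dl (R := R) v v0
  have h1 : ∀ j : Fin k, ∃ P : Polynomial R, ∀ t : ℂ, P.eval (algebraMap ℂ R t) =
      Dl1 (fun i => v i + t • v0 i) (c j + t • c0 j) := by
    intro j
    obtain ⟨P, hP⟩ := tl3_Dl (R := R) (Fin.snoc v (c j) : Fin (r + 1) → V)
      (Fin.snoc v0 (c0 j) : Fin (r + 1) → V)
    refine ⟨P, fun t => ?_⟩
    rw [hP]
    unfold Dl1
    congr 1
    funext i
    refine Fin.lastCases ?_ (fun i => ?_) i
    · simp only [Fin.snoc_last]
    · simp only [Fin.snoc_castSucc]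
  choose P hP using h1
  refine ⟨(∏ j, P j ^ s) * P0 ^ q, fun t => ?_⟩
  unfold hh Ek
  rw [Polynomial.eval_mul, Polynomial.eval_pow, hP0, Polynomial.eval_prod]
  congr 1
  refine Finset.prod_congr rfl fun j _ => ?_
  rw [Polynomial.eval_pow, hP]

/-- a nondegenerate matrix deforms every matrix into a nondegenerate one -/
private theorem tl3_inf {ι : Type} [Fintype ι] [DecidableEq ι] (A G : Matrix ι ι ℂ)
    (hG : G.det ≠ 0) : {t : ℂ | (A + t ^ 2 • G).det ≠ 0}.Infinite := by
  have hu : IsUnit G.det := isUnit_iff_ne_zero.2 hG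
  set M : Matrix ι ι ℂ := -(G⁻¹ * A) with hM
  have h1 : ∀ t : ℂ, (A + t ^ 2 • G).det = G.det * M.charpoly.eval (t ^ 2) := by
    intro t
    rw [Matrix.eval_charpoly, ← Matrix.det_mul]
    congr 1
    rw [hM, mul_sub, mul_neg, ← mul_assoc, Matrix.mul_nonsing_inv _ hu, one_mul, sub_neg_eq_add,
      add_comm]
    congr 1
    rw [Matrix.scalar_apply, ← Matrix.smul_one_eq_diagonal, mul_smul_comm, mul_one]
  have h2 : {t : ℂ | (A + t ^ 2 • G).det = 0}.Finite := by
    have h3 : (M.charpoly.comp (Polynomial.X ^ 2)) ≠ 0 := by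
      intro h4
      rw [Polynomial.comp_eq_zero_iff] at h4
      rcases h4 with h4 | ⟨-, h4⟩
      · exact M.charpoly_monic.ne_zero h4
      · have h5 := congrArg Polynomial.natDegree h4
        rw [Polynomial.natDegree_X_pow, Polynomial.natDegree_C] at h5
        omega
    refine (Polynomial.finite_setOf_isRoot h3).subset ?_
    intro t ht
    have ht' : (A + t ^ 2 • G).det = 0 := ht
    rw [h1] at ht'
    have h5 := (mul_eq_zero.1 ht').resolve_left hG
    show Polynomial.IsRoot _ t
    rw [Polynomial.IsRoot, Polynomial.eval_comp, Polynomial.eval_pow, Polynomial.eval_X]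
    exact h5
  have h3 : {t : ℂ | (A + t ^ 2 • G).det ≠ 0} = {t : ℂ | (A + t ^ 2 • G).det = 0}ᶜ := by
    ext t; rfl
  rw [h3]
  exact h2.infinite_compl

private theorem tl3_linC (g : Cinf ≃ₗ[ℂ] Cinf) (v : V) :
    linC (fun i => (1 : ℂ) • g (ee i)) v = g v := by
  induction v using Finsupp.induction_linear with
  | zero => simp
  | add f g hf hg => simp only [map_add, hf, hg]
  | single i c =>
    rw [linC, Finsupp.linearCombination_single, one_smul, ← map_smul, Finsupp.smul_single,
      smul_eq_mul, mul_one]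

theorem TLd {r s k : ℕ} (n : ℕ) (hn : r + k = 2 * n) (N : Ideal R) (hN : GSI N) (q' : ℕ)
    (h : ∀ y : Fin r ⊕ Fin k → V, LinearIndependent ℂ y →
      Submodule.span ℂ (Set.range y) = Submodule.span ℂ ((fun i : ℕ => ee i) '' Set.Iio (2 * n)) →
      hh s q' (fun i => y (Sum.inl i)) (fun j => y (Sum.inr j)) ∈ N)
    (y : Fin r ⊕ Fin k → V) :
    hh s q' (fun i => y (Sum.inl i)) (fun j => y (Sum.inr j)) ∈ N := by
  classical
  have hcard : Fintype.card (Fin r ⊕ Fin k) = 2 * n := by
    rw [Fintype.card_sum, Fintype.card_fin, Fintype.card_fin, hn]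
  let σ : Fin r ⊕ Fin k ≃ Fin (2 * n) := finSumFinEquiv.trans (finCongr hn)
  -- a bound of the supports
  obtain ⟨m, hm⟩ : ∃ m : ℕ, ∀ x, ∀ j, 2 * m ≤ j → y x j = 0 := by
    set S : Finset ℕ := Finset.univ.biUnion (fun x => (y x).support) with hS
    refine ⟨S.sup id + 1, fun x j hj => ?_⟩
    by_contra hne
    have h1 : j ∈ S := by
      rw [hS, Finset.mem_biUnion]
      exact ⟨x, Finset.mem_univ _, Finsupp.mem_support_iff.2 hne⟩
    have h2 : j ≤ S.sup id := Finset.le_sup (f := id) h1
    omega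
  set y0 : Fin r ⊕ Fin k → V := fun x => ee (6 * m + (σ x : ℕ)) with hy0
  obtain ⟨P, hP⟩ := tl3_hh (R := R) s q' (fun i => y (Sum.inl i)) (fun i => y0 (Sum.inl i))
    (fun j => y (Sum.inr j)) (fun j => y0 (Sum.inr j))
  have hgram : ∀ t : ℂ, (Matrix.of fun i j : Fin r ⊕ Fin k =>
      om (y i + t • y0 i) (y j + t • y0 j)) = (Matrix.of fun i j => om (y i) (y j)) +
        t ^ 2 • (Matrix.of fun i j => om (ee (σ i : ℕ)) (ee (σ j : ℕ))) := by
    intro t
    ext i j
    have h1 : T5.B (y0 i) (y j) = 0 := T5.B_far (y j) (hm j) (by omega)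
    have h2 : T5.B (y i) (y0 j) = 0 := by
      rw [T5.B_anti, T5.B_far (y i) (hm i) (by omega)]
    have h3 : T5.B (y0 i) (y0 j) = T5.B (ee (σ i : ℕ)) (ee (σ j : ℕ)) := T5.B_shift m _ _
    simp only [Matrix.of_apply, Matrix.add_apply, Matrix.smul_apply, smul_eq_mul, T5.om_eq,
      T5.B_al, T5.B_ar, T5.B_sl, T5.B_sr, h1, h2, h3]
    ring
  have hinf : {t : ℂ | P.eval (algebraMap ℂ R t) ∈ N.restrictScalars ℂ}.Infinite := by
    refine (tl3_inf (Matrix.of fun i j => om (y i) (y j))
      (Matrix.of fun i j => om (ee (σ i : ℕ)) (ee (σ j : ℕ))) (tl3_det n σ)).mono ?_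
    intro t ht
    have ht' : (Matrix.of fun i j : Fin r ⊕ Fin k =>
      om (y i + t • y0 i) (y j + t • y0 j)).det ≠ 0 := by
      rw [hgram]
      exact ht
    obtain ⟨g, hg, hspan, hli⟩ := exists_so_span n hcard (fun i => y i + t • y0 i) ht'
    have h1 := h (fun i => g.symm (y i + t • y0 i)) hli hspan
    have h2 := hN g hg 1 one_ne_zero _ h1
    rw [sbR_hh] at h2
    simp only [tl3_linC, LinearEquiv.apply_symm_apply] at h2
    show P.eval (algebraMap ℂ R t) ∈ N
    rw [hP]
    exact h2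
  have h0 := vand_poly (N.restrictScalars ℂ) P hinf 0
  have h1 := hP 0
  rw [map_zero, ← Polynomial.coeff_zero_eq_eval_zero] at h1
  simp only [zero_smul, add_zero] at h1
  rw [h1] at h0
  exact h0

end MP50e386O

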