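import Mathlib
import Pool.Agent.Lib.MP_50e386_al.N.TL
import Pool.Agent.Lib.MP_50e386_al.N.QDefs
import Pool.Agent.Lib.MP_50e386_al.N.T2
import Pool.Agent.Lib.MP_50e386_al.O.T5
import Pool.Agent.Lib.MP_50e386_al.O.T6
import Pool.Agent.Lib.MP_50e386_al.O.TR
import Pool.Agent.Lib.MP_50e386_al.N.Q1
import Pool.Agent.Lib.MP_50e386_al.O.TL1
import Pool.Agent.Lib.MP_50e386_al.O.TL2
import Pool.Agent.Lib.MP_50e386_al.O.TL3
import Pool.Agent.Lib.MP_50e386_al.O.CMain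
import Pool.Agent.Lib.MP_50e386_al.O.W

/-! Theorem (TL), paper 5.7, and the corollary. -/

namespace MP50e386O

open MvPolynomial Pool.Agent.Lib.MP50e386 MP50e386N

variable {R : Type} [CommRing R] [Algebra ℂ R] [GLRing R]

theorem TL {r s : ℕ} {h : Ideal R} (P : Pkg R r s h) (N : Ideal R) (hN : GSI N) (hne : N ≠ ⊥) :
    ∃ q, h ^ q ≤ N := by
  obtain ⟨k, q, hkq⟩ := TLa P N hN hne
  set n : ℕ := max (2 * r) (r + k) with hn
  have hn1 : 2 * r ≤ n := le_max_left _ _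
  have hn2 : r + k ≤ n := le_max_right _ _
  obtain ⟨q', hq'⟩ := TLc (R := R) P.p1 P.p2 N k q n hn1 hn2 hkq
  have hall := TLd (R := R) (r := r) (s := s) (k := 2 * n - r) n (by omega) N hN q' hq'
  set I : Ideal R := Ideal.span {a : R | ∃ (v : Fin r → V) (c : Fin (2 * n - r) → V),
    a = hh s q' v c} with hI
  have hIN : I ≤ N := by
    rw [hI, Ideal.span_le]
    rintro a ⟨v, c, rfl⟩
    exact hall (Sum.elim v c)
  have hIGL : GLSI I := by
    intro φ f hf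
    have h1 : I ≤ I.comap (sbR φ : R →ₐ[ℂ] R).toRingHom := by
      rw [hI, Ideal.span_le]
      rintro a ⟨v, c, rfl⟩
      show sbR φ (hh s q' v c : R) ∈ I
      rw [sbR_hh]
      exact Ideal.subset_span ⟨_, _, rfl⟩
    exact h1 hf
  have hIne : I ≠ ⊥ := by
    intro hbot
    have hinj : Function.Injective (fun p : Fin 1 × (Fin r ⊕ Fin (2 * n - r)) =>
        Sum.elim ((fun (_ : Fin 1) (i : Fin r) => (i : ℕ)) p.1)
          ((fun (_ : Fin 1) (j : Fin (2 * n - r)) => r + (j : ℕ)) p.1) p.2) := by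
      rintro ⟨d, a⟩ ⟨d', a'⟩ hp
      have hd : d = d' := Subsingleton.elim _ _
      subst hd
      rcases a with i | j <;> rcases a' with i' | j' <;> simp only [Sum.elim_inl, Sum.elim_inr] at hp
      · rw [Fin.ext hp]
      · have := i.2; omega
      · have := i'.2; omega
      · have : (j : ℕ) = j' := by omega
        rw [Fin.ext this]
    have := P.p3 1 (2 * n - r) q' (fun _ i => (i : ℕ)) (fun _ j => r + (j : ℕ)) hinj
    apply this
    rw [Fin.prod_univ_one]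
    have hmem : (hh s q' (fun i : Fin r => ee (i : ℕ)) (fun j : Fin (2 * n - r) => ee (r + (j : ℕ))) : R) ∈ I :=
      Ideal.subset_span ⟨_, _, rfl⟩
    rw [hbot] at hmem
    exact hmem
  obtain ⟨m, hm⟩ := P.p5 I hIGL hIne
  exact ⟨m, hm.trans hIN⟩

/-- `M₂` is `GS` -/
theorem GS_M2 (S : Finset ℕ) (M : Submodule R (U R)) (hM : GS M) (f : U R) (hf : f ∈ M)
    (htr : ∀ a ∈ S, ∀ b ∈ S, a ≠ b → tr a b f = 0) (g : Cinf ≃ₗ[ℂ] Cinf) (hg : IsSo g) (c : ℂ)
    (hc : c ≠ 0) (a b : ℕ) (ha : a ∈ S) (hb : b ∈ S) (hab : a ≠ b) :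
    tr a b (sbC (fun i => c • g (ee i)) f) = 0 := by
  rw [tr_sp g hg c a b f, htr a ha b hb hab, map_zero, smul_zero]

/-- the corollary -/
theorem torsion {r s : ℕ} {h : Ideal R} (P : Pkg R r s h) (S : Finset ℕ)
    (M : Submodule R (U R)) (hM : GLS M) (hMS : M ≤ MS R S) (f : U R) (hf : f ∈ M)
    (htr : ∀ a ∈ S, ∀ b ∈ S, a ≠ b → tr a b f = 0) :
    ∃ q : ℕ, ∀ a ∈ h ^ q, a • f ∈ nn M := by
  obtain ⟨n, g, hfg, hg⟩ := exists_HW_decomp f
  have hgM : ∀ d < n, g d ∈ M := GS_HW_comp (gs_of_gls hM) n g hg (hfg ▸ hf)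
  have hgtr : ∀ d < n, ∀ a ∈ S, ∀ b ∈ S, a ≠ b → tr a b (g d) = 0 := by
    intro d hd a ha b hb hab
    have h1 : GS (M ⊓ LinearMap.ker (tr a b)) := GS_ker_tr (gs_of_gls hM) a b
    have h2 : f ∈ M ⊓ LinearMap.ker (tr a b) := ⟨hf, htr a ha b hb hab⟩
    exact (GS_HW_comp h1 n g hg (hfg ▸ h2) d hd).2
  have key : ∀ d : ℕ, ∃ q : ℕ, d < n → ∀ a ∈ h ^ q, a • g d ∈ nn M := by
    intro d
    by_cases hd : d < n
    · obtain ⟨I, hI, hIne, hIf⟩ := torsion56 (R := R) r s P.p1 P.p3 S M hM hMS d (g d) (hgM d hd)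
        (hg d) (hgtr d hd)
      obtain ⟨q, hq⟩ := TL P I hI hIne
      exact ⟨q, fun _ a ha => hIf a (hq ha)⟩
    · exact ⟨0, fun h => absurd h hd⟩
  choose q hq using key
  refine ⟨(Finset.range n).sup q, fun a ha => ?_⟩
  rw [hfg, Finset.smul_sum]
  refine Submodule.sum_mem _ fun d hd => hq d (Finset.mem_range.1 hd) a ?_
  exact Ideal.pow_le_pow_right (Finset.le_sup (f := q) hd) ha

end MP50e386O

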