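import Mathlib
import Pool.Agent.Lib.MP_50e386_al.N.L5
import Pool.Agent.Lib.MP_50e386_al.N.LDefs
import Pool.Agent.Lib.MP_50e386_al.N.T2
import Pool.Agent.Lib.MP_50e386_al.O.T8
import Pool.Agent.Lib.MP_50e386_al.O.L1
import Pool.Agent.Lib.MP_50e386_al.N.L2
import Pool.Agent.Lib.MP_50e386_al.N.L3
import Pool.Agent.Lib.MP_50e386_al.O.L4
import Pool.Agent.Lib.MP_50e386_al.O.M3m
import Pool.Agent.Lib.MP_50e386_al.O.W

/-! Outer induction on `(r|s)` (paper section 7). -/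

namespace MP50e386O

open MvPolynomial Pool.Agent.Lib.MP50e386 MP50e386N

/-- the package for `R_{r|s}` -/
theorem pkg_rs (r s : ℕ) (h' : NI (MP50e386.detIdeal r (s + 1)))
    (h'' : NI (MP50e386.detIdeal (r + 1) s)) : Pkg (Rrs r s) r s (hrs r s) where
  gl := hrs_GLSI r s
  p1 := Rrs_P1 r s
  p2 := Rrs_P2 r s
  p3 := Rrs_P3 r s
  p4 := Rrs_P4 r s
  p5 := Rrs_P5 r s
  p6 := Rrs_P6 r s
  p7 := fun L D N Y hN hY hNY hYD => Rrs_P7 r s L D N Y hN hY hNY hYD
  p8 := fun L D Y hY hYD => noeth_two (MP50e386.detIdeal (r + 1) (s + 1)) (Rrs_P6 r s)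
    (MP50e386.detIdeal r (s + 1)) (MP50e386.detIdeal (r + 1) s) h' h'' L D Y hY hYD

/-- from `A ⧸ J` to `A` -/
theorem NI_of_quot (J : Ideal MP50e386.A) [GLIdeal J]
    (h : ∀ S : Finset ℕ, NoethInt (R := MP50e386.A ⧸ J) GS ⊥ (MS (MP50e386.A ⧸ J) S)) : NI J := by
  intro S N hmono hN
  choose N' hG hMS hmem hpull using fun i => exists_push J S (N i) (hN i).1 (hN i).2.1 (hN i).2.2
  obtain ⟨n0, hn0⟩ := h S N' (fun i j hij f hf => by
    obtain ⟨F, hF, hFf⟩ := (hmem i f).1 hf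
    exact (hmem j f).2 ⟨F, hmono hij hF, hFf⟩) (fun i => ⟨hG i, bot_le, hMS i⟩)
  refine ⟨n0, fun n hn => ?_⟩
  rw [← hpull n, ← hpull n0, hn0 n hn]

private theorem detIdeal_zero_left (N0 : ℕ) : MP50e386.detIdeal 0 N0 = ⊤ := by
  rw [Ideal.eq_top_iff_one]
  refine Ideal.subset_span ⟨fun i => i.elim0, ?_⟩
  simp

private theorem detIdeal_zero_right (M : ℕ) : MP50e386.detIdeal M 0 = ⊤ := by
  rw [Ideal.eq_top_iff_one]
  refine Ideal.subset_span ⟨fun _ => 0, ?_⟩
  simp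

theorem NI_zero_left (N0 : ℕ) : NI (MP50e386.detIdeal 0 N0) := by
  rw [detIdeal_zero_left]
  exact NI_top

theorem NI_zero_right (M : ℕ) : NI (MP50e386.detIdeal M 0) := by
  rw [detIdeal_zero_right]
  exact NI_top

theorem NI_det (M N0 : ℕ) : NI (MP50e386.detIdeal M N0) := by
  induction hm : M + N0 using Nat.strong_induction_on generalizing M N0 with
  | _ m ih =>
    rcases M with - | r
    · exact NI_zero_left N0
    rcases N0 with - | s
    · exact NI_zero_right (r + 1)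
    · have h' : NI (MP50e386.detIdeal r (s + 1)) := ih (r + (s + 1)) (by omega) r (s + 1) rfl
      have h'' : NI (MP50e386.detIdeal (r + 1) s) := ih (r + 1 + s) (by omega) (r + 1) s rfl
      have P := pkg_rs r s h' h''
      exact NI_of_quot (MP50e386.detIdeal (r + 1) (s + 1)) fun S => (main_step P S).2

end MP50e386O

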