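import Mathlib
import Pool.Agent.Lib.MP_50e386_al.N.Inst
import Pool.Agent.Lib.MP_50e386_al.N.L1
import Pool.Agent.Lib.MP_50e386_al.N.Q1
import Pool.Agent.Lib.MP_50e386_al.N.C6
import Pool.Agent.Lib.MP_50e386_al.N.C8
import Pool.Agent.Lib.MP_50e386_al.O.W
import Pool.Agent.Lib.MP_50e386_al.O.T3
import Pool.Agent.Lib.MP_50e386_al.O.T5
import Pool.Agent.Lib.MP_50e386_al.O.T6
import Pool.Agent.Lib.MP_50e386_al.O.T8

/-!
Definitions for the second part of the proof that `Sym(Sym^2(ℂ^∞))` is `O_∞`-noetherian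
(the shift `τ : x ↦ x + t ω`, the ideals `K_J` and `nn(J)`), paper: MP_50e386_Q1_paper.md.
-/

namespace MP50e386O

open MvPolynomial Pool.Agent.Lib.MP50e386 MP50e386N

/-- `A = Sym(Sym^2(ℂ^∞))` -/
abbrev AA := MP50e386.A

/-- the value of the form on an unordered pair of letters -/
noncomputable def omS (s : Sym2 ℕ) : ℂ :=
  Sym2.lift ⟨fun i j => om (ee i) (ee j), fun _ _ => osf_comm _ _⟩ s

/-- `τ : A → A[t]`, `x_ij ↦ x_ij + om_ij t` -/
noncomputable def tauA : AA →ₐ[ℂ] Polynomial AA :=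
  aeval (fun s => Polynomial.C (X s) + Polynomial.C (C (omS s)) * Polynomial.X)

/-- the extension of `τ` to `U_A → U_A[t]`, `z_{a,i} ↦ z_{a,i}` -/
noncomputable def tauU : U AA →+* Polynomial (U AA) :=
  eval₂Hom ((Polynomial.mapRingHom (C : AA →+* U AA)).comp (tauA : AA →+* Polynomial AA))
    (fun p => Polynomial.C (X p))

/-- `K_J`: all coefficients of `τ f` lie in `J` -/
noncomputable def KK (J : Ideal AA) : Ideal AA :=
  Ideal.comap (tauA : AA →+* Polynomial AA) (Ideal.map Polynomial.C J)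

/-- `nn(J)` for ideals: generated by the `f(φ)`, `f ∈ J`, `φ` isotropic -/
noncomputable def nnI (J : Ideal AA) : Ideal AA :=
  Ideal.span {f | ∃ φ : ℕ → V, Iso φ ∧ ∃ g ∈ J, f = sbR φ g}

/-- the action on `U_A[t]`: `φ` on the coefficients, `t ↦ μ t` -/
noncomputable def actP (φ : ℕ → V) (μ : ℂ) : Polynomial (U AA) →+* Polynomial (U AA) :=
  Polynomial.eval₂RingHom (Polynomial.C.comp (sbC φ))
    (Polynomial.C (algebraMap ℂ (U AA) μ) * Polynomial.X)

/-- `t^k τ(c)` is in `τ(A)` modulo `J[t]`, for all `k` -/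
def CondP (J : Ideal AA) (c : AA) : Prop :=
  ∀ k : ℕ, ∃ c' : AA, tauA c' - Polynomial.X ^ k * tauA c ∈ Ideal.map Polynomial.C J

/-- `t` is integral of degree `m` over `τ(A)` modulo `J[t]` -/
def IntP (J : Ideal AA) (m : ℕ) : Prop :=
  ∃ p : ℕ → AA, Polynomial.X ^ m - ∑ k ∈ Finset.range m, Polynomial.X ^ k * tauA (p k) ∈
    Ideal.map Polynomial.C J

/-- subspaces of `U_A[t]` stable under `A`, `t` and `G` -/
def GX (Y : Submodule ℂ (Polynomial (U AA))) : Prop :=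
  (∀ a : AA, ∀ P ∈ Y, Polynomial.C (C a) * P ∈ Y) ∧ (∀ P ∈ Y, Polynomial.X * P ∈ Y) ∧
    ∀ g : Cinf ≃ₗ[ℂ] Cinf, IsSo g → ∀ c : ℂ, c ≠ 0 → ∀ P ∈ Y,
      actP (fun i => c • g (ee i)) (c ^ 2) P ∈ Y

/-- `J_{r|s}` -/
noncomputable abbrev Jd (r s : ℕ) : Ideal AA := MP50e386.detIdeal (r + 1) (s + 1)

end MP50e386O
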