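import Mathlib
import Pool.Agent.Lib.MP_50e386_al.O.XDefs

/-! Basic facts about `τ`. -/

namespace MP50e386O

open MvPolynomial Pool.Agent.Lib.MP50e386 MP50e386N

theorem tauA_X (s : Sym2 ℕ) : tauA (X s) =
    Polynomial.C (X s) + Polynomial.C (C (omS s)) * Polynomial.X := by
  unfold tauA
  rw [aeval_X]

private theorem X1_om (x y : V) : om x y = MP50e386.frm MP50e386.pis sio x y := osf_eq x y

private theorem X1_cst_single (i : ℕ) (a : ℂ) : (cst (Finsupp.single i a) : VR AA) =
    Finsupp.single i (algebraMap ℂ AA a) := by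
  simp [cst]

private theorem X1_tauA_alg (c : ℂ) : tauA (C c) = Polynomial.C (C c) := by
  have : tauA (algebraMap ℂ AA c) = algebraMap ℂ (Polynomial AA) c := AlgHom.commutes _ _
  exact this

private theorem X1_xv_single (i j : ℕ) (a b : ℂ) :
    (xv (Finsupp.single i a) (Finsupp.single j b) : AA) = C a * C b * X s(i, j) := by
  unfold xv
  rw [X1_cst_single, X1_cst_single, xf_single]
  rfl

private theorem X1_om_single (i j : ℕ) (a b : ℂ) :
    om (Finsupp.single i a) (Finsupp.single j b) = a * b * om (ee i) (ee j) := by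
  have h1 : (Finsupp.single i a : V) = a • ee i := by
    rw [ee, Finsupp.smul_single, smul_eq_mul, mul_one]
  have h2 : (Finsupp.single j b : V) = b • ee j := by
    rw [ee, Finsupp.smul_single, smul_eq_mul, mul_one]
  rw [h1, h2, X1_om, X1_om, map_smul, map_smul, LinearMap.smul_apply, smul_eq_mul, smul_eq_mul]
  ring

/-- `τ(x(v,w)) = x(v,w) + om(v,w) t` -/
theorem tauA_xv (v w : V) : tauA (xv v w : AA) =
    Polynomial.C (xv v w : AA) + Polynomial.C (C (om v w)) * Polynomial.X := by
  induction v using Finsupp.induction_linear with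
  | zero =>
    have h1 : (xv (0 : V) w : AA) = 0 := by unfold xv; rw [map_zero, map_zero, LinearMap.zero_apply]
    rw [h1, X1_om]
    simp only [map_zero, LinearMap.zero_apply, zero_mul, add_zero]
  | add f g hf hg =>
    have h1 : (xv (f + g) w : AA) = xv f w + xv g w := by
      unfold xv; rw [map_add, map_add, LinearMap.add_apply]
    have h2 : om (f + g) w = om f w + om g w := by
      rw [X1_om, X1_om, X1_om, map_add, LinearMap.add_apply]
    rw [h1, h2, map_add, hf, hg, map_add, map_add, map_add]
    ring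
  | single i a =>
    induction w using Finsupp.induction_linear with
    | zero =>
      have h1 : (xv (Finsupp.single i a) (0 : V) : AA) = 0 := by unfold xv; rw [map_zero, map_zero]
      rw [h1, X1_om]
      simp only [map_zero, zero_mul, add_zero]
    | add f g hf hg =>
      have h1 : (xv (Finsupp.single i a) (f + g) : AA) = xv (Finsupp.single i a) f +
          xv (Finsupp.single i a) g := by
        unfold xv; rw [map_add, map_add]
      have h2 : om (Finsupp.single i a) (f + g) = om (Finsupp.single i a) f +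
          om (Finsupp.single i a) g := by
        rw [X1_om, X1_om, X1_om, map_add]
      rw [h1, h2, map_add, hf, hg, map_add, map_add, map_add]
      ring
    | single j b =>
      rw [X1_xv_single, X1_om_single, map_mul, map_mul, X1_tauA_alg, X1_tauA_alg, tauA_X]
      have h3 : omS s(i, j) = om (ee i) (ee j) := rfl
      rw [h3]
      simp only [map_mul]
      ring

theorem tauA_coeff_zero (a : AA) : (tauA a).coeff 0 = a := by
  have h : (Polynomial.constantCoeff.comp (tauA : AA →+* Polynomial AA)) = RingHom.id AA := by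
    apply MvPolynomial.ringHom_ext
    · intro r
      show (tauA (C r)).coeff 0 = C r
      rw [X1_tauA_alg, Polynomial.coeff_C_zero]
    · intro s
      show (tauA (X s)).coeff 0 = X s
      rw [tauA_X]
      simp
  exact DFunLike.congr_fun h a

theorem tauU_C (a : AA) : tauU (C a) = (tauA a).map (C : AA →+* U AA) := by
  unfold tauU
  rw [eval₂Hom_C]
  rfl

theorem tauU_X (p : ℕ × ℕ) : tauU (X p) = Polynomial.C (X p) := by
  unfold tauU
  rw [eval₂Hom_X']

theorem tauU_smul (a : AA) (f : U AA) :
    tauU (a • f) = (tauA a).map (C : AA →+* U AA) * tauU f := by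
  rw [smul_eq_C_mul, map_mul, tauU_C]

theorem tauU_coeff_zero (f : U AA) : (tauU f).coeff 0 = f := by
  have h : (Polynomial.constantCoeff.comp tauU) = RingHom.id (U AA) := by
    apply MvPolynomial.ringHom_ext
    · intro r
      show (tauU (C r)).coeff 0 = C r
      rw [tauU_C, Polynomial.coeff_map, tauA_coeff_zero]
    · intro s
      show (tauU (X s)).coeff 0 = X s
      rw [tauU_X, Polynomial.coeff_C_zero]
  exact DFunLike.congr_fun h f

private theorem X1_tauU_mon (u : ℕ × ℕ →₀ ℕ) :
    tauU (monomial u (1 : AA)) = Polynomial.C (monomial u (1 : AA)) := by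
  rw [monomial_eq, C_1, one_mul]
  simp only [Finsupp.prod, map_prod, map_pow, tauU_X]

/-- coefficientwise description of `τ` on `U_A` -/
theorem tauU_coeff (f : U AA) (k : ℕ) (m : ℕ × ℕ →₀ ℕ) :
    coeff m ((tauU f).coeff k) = (tauA (coeff m f)).coeff k := by
  classical
  induction f using MvPolynomial.induction_on' with
  | monomial u a =>
    have h1 : (monomial u a : U AA) = a • monomial u (1 : AA) := by
      rw [smul_monomial, smul_eq_mul, mul_one]
    rw [h1, tauU_smul, X1_tauU_mon, Polynomial.coeff_mul_C, Polynomial.coeff_map, coeff_C_mul,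
      coeff_smul, coeff_monomial]
    split_ifs with h
    · rw [mul_one, smul_eq_mul, mul_one]
    · rw [mul_zero, smul_zero, map_zero, Polynomial.coeff_zero]
  | add p q hp hq =>
    rw [map_add, Polynomial.coeff_add, coeff_add, hp, hq, coeff_add, map_add, Polynomial.coeff_add]

theorem tauU_MS (S : Finset ℕ) (f : U AA) (hf : f ∈ MS AA S) (k : ℕ) :
    (tauU f).coeff k ∈ MS AA S := by
  unfold MS at hf ⊢
  rw [mem_restrictSupport_iff] at hf ⊢
  intro m hm
  apply hf
  rw [Finset.mem_coe, mem_support_iff] at hm ⊢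
  intro h0
  apply hm
  rw [tauU_coeff, h0, map_zero, Polynomial.coeff_zero]

theorem actP_coeff (φ : ℕ → V) (μ : ℂ) (P : Polynomial (U AA)) (k : ℕ) :
    (actP φ μ P).coeff k = μ ^ k • sbC φ (P.coeff k) := by
  induction P using Polynomial.induction_on' with
  | add p q hp hq => rw [map_add, Polynomial.coeff_add, Polynomial.coeff_add, map_add, smul_add, hp, hq]
  | monomial n a =>
    have h1 : actP φ μ (Polynomial.monomial n a) = Polynomial.C (sbC φ a) *
        (Polynomial.C (algebraMap ℂ (U AA) μ) * Polynomial.X) ^ n := by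
      unfold actP
      rw [Polynomial.coe_eval₂RingHom, Polynomial.eval₂_monomial]
      rfl
    rw [h1, mul_pow, ← mul_assoc, ← Polynomial.C_pow, ← Polynomial.C_mul, Polynomial.coeff_C_mul_X_pow,
      Polynomial.coeff_monomial]
    by_cases h : k = n
    · subst h
      rw [if_pos rfl, if_pos rfl, Algebra.smul_def, map_pow, mul_comm]
    · rw [if_neg h, if_neg (fun h' => h h'.symm), map_zero, smul_zero]

private theorem X1_sbR_x (φ : ℕ → V) (i j : ℕ) :
    sbR φ (GLRing.x i j : AA) = xv (φ i) (φ j) := by
  unfold sbR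
  rw [sb_x']
  rfl

private theorem X1_tauU_zf (a : ℕ) (v : V) : tauU (zf a (cst v : VR AA)) =
    Polynomial.C (zf a (cst v : VR AA)) := by
  induction v using Finsupp.induction_linear with
  | zero => rw [map_zero, map_zero, map_zero, map_zero]
  | add f g hf hg => rw [map_add, map_add, map_add, map_add, hf, hg]
  | single j c =>
    rw [X1_cst_single, zf_single, tauU_smul, tauU_X]
    have : tauA (algebraMap ℂ AA c) = Polynomial.C (algebraMap ℂ AA c) := X1_tauA_alg c
    rw [this, Polynomial.map_C, ← Polynomial.C_mul, smul_eq_C_mul]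

private theorem X1_sbC_alg (φ : ℕ → V) (c : ℂ) :
    sbC φ (C (algebraMap ℂ AA c) : U AA) = C (algebraMap ℂ AA c) := by
  rw [sbC_C]
  congr 1
  exact AlgHom.commutes _ _

/-- equivariance of `τ` -/
theorem tauU_sbC (φ : ℕ → V) (μ : ℂ) (h : ∀ i j, om (φ i) (φ j) = μ * om (ee i) (ee j))
    (f : U AA) : tauU (sbC φ f) = actP φ μ (tauU f) := by
  have key : tauU.comp (sbC φ) = (actP φ μ).comp tauU := by
    apply U_ext
    · intro c
      rw [RingHom.comp_apply, RingHom.comp_apply, X1_sbC_alg, tauU_C]
      have h1 : tauA (algebraMap ℂ AA c) = Polynomial.C (algebraMap ℂ AA c) := X1_tauA_alg c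
      rw [h1, Polynomial.map_C]
      ext1 k
      rw [actP_coeff, Polynomial.coeff_C]
      by_cases hk : k = 0
      · subst hk
        rw [if_pos rfl, X1_sbC_alg, pow_zero, one_smul]
      · rw [if_neg hk, map_zero, smul_zero]
    · intro i j
      rw [RingHom.comp_apply, RingHom.comp_apply, sbC_C, tauU_C, X1_sbR_x, tauA_xv, tauU_C]
      have h1 : tauA (GLRing.x i j : AA) = Polynomial.C (GLRing.x i j : AA) +
          Polynomial.C (C (om (ee i) (ee j))) * Polynomial.X := tauA_X s(i, j)
      rw [h1]
      ext1 k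
      rw [actP_coeff, Polynomial.coeff_map, Polynomial.coeff_map, Polynomial.coeff_add,
        Polynomial.coeff_add, Polynomial.coeff_C_mul, Polynomial.coeff_C_mul, Polynomial.coeff_C,
        Polynomial.coeff_C, Polynomial.coeff_X]
      rcases k with _ | _ | k
      · simp only [if_true, if_neg (show ¬ (1 : ℕ) = 0 by omega), mul_zero, add_zero, pow_zero,
          one_smul]
        rw [sbC_C, X1_sbR_x]
      · simp only [zero_add, if_neg (show ¬ (1 : ℕ) = 0 by omega), if_true, mul_one, pow_one]
        have h2 : sbC φ (C (C (om (ee i) (ee j)) : AA) : U AA) = C (C (om (ee i) (ee j))) :=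
          X1_sbC_alg φ _
        rw [h2, h i j, map_mul, map_mul, Algebra.smul_def]
        rfl
      · simp only [if_neg (show ¬ (k + 1 + 1 : ℕ) = 0 by omega),
          if_neg (show ¬ (1 : ℕ) = k + 1 + 1 by omega), mul_zero, add_zero, map_zero, smul_zero]
    · intro a i
      rw [RingHom.comp_apply, RingHom.comp_apply, sbC_X, X1_tauU_zf, tauU_X]
      ext1 k
      rw [actP_coeff, Polynomial.coeff_C, Polynomial.coeff_C]
      by_cases hk : k = 0
      · subst hk
        rw [if_pos rfl, if_pos rfl, sbC_X, pow_zero, one_smul]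
      · rw [if_neg hk, if_neg hk, map_zero, smul_zero]
  exact DFunLike.congr_fun key f

theorem tauA_sbR (φ : ℕ → V) (μ : ℂ) (h : ∀ i j, om (φ i) (φ j) = μ * om (ee i) (ee j))
    (a : AA) (k : ℕ) : (tauA (sbR φ a)).coeff k = μ ^ k • sbR φ ((tauA a).coeff k) := by
  have h1 := congrArg (fun P => Polynomial.coeff P k) (tauU_sbC φ μ h (C a))
  simp only [sbC_C, tauU_C, actP_coeff, Polynomial.coeff_map] at h1
  apply MvPolynomial.C_injective (ℕ × ℕ) AA
  rw [h1, Algebra.smul_def, Algebra.smul_def, map_mul]
  rfl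

/-- `τ` fixes the isotropic substitutions -/
theorem tauA_iso {φ : ℕ → V} (h : Iso φ) (a : AA) : tauA (sbR φ a) = Polynomial.C (sbR φ a) := by
  ext1 k
  rw [tauA_sbR φ 0 (fun i j => by rw [zero_mul]; exact h i j), Polynomial.coeff_C]
  by_cases hk : k = 0
  · subst hk
    rw [if_pos rfl, pow_zero, one_smul, tauA_coeff_zero]
  · rw [if_neg hk, zero_pow hk, zero_smul]

private theorem X1_tauU_LT {T : Set ℕ} {f : U AA} (h : f ∈ MP50e386N.LT AA T) :
    ∀ k, (tauU f).coeff k ∈ MP50e386N.LT AA T := by
  unfold MP50e386N.LT at h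
  induction h using Algebra.adjoin_induction with
  | mem x hx =>
    intro k
    rcases hx with ⟨i, hi, j, hj, rfl⟩ | ⟨a, i, hi, rfl⟩
    · have h1 : tauA (GLRing.x i j : AA) = Polynomial.C (GLRing.x i j : AA) +
          Polynomial.C (C (om (ee i) (ee j))) * Polynomial.X := tauA_X s(i, j)
      rw [tauU_C, h1, Polynomial.coeff_map, Polynomial.coeff_add, Polynomial.coeff_C_mul,
        Polynomial.coeff_C, Polynomial.coeff_X]
      rcases k with _ | _ | k
      · simp only [if_true, if_neg (show ¬ (1 : ℕ) = 0 by omega), mul_zero, add_zero]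
        exact Algebra.subset_adjoin (Or.inl ⟨i, hi, j, hj, rfl⟩)
      · simp only [zero_add, if_neg (show ¬ (1 : ℕ) = 0 by omega), if_true, mul_one]
        exact Subalgebra.algebraMap_mem (MP50e386N.LT AA T) (om (ee i) (ee j))
      · simp only [if_neg (show ¬ (k + 1 + 1 : ℕ) = 0 by omega),
          if_neg (show ¬ (1 : ℕ) = k + 1 + 1 by omega), mul_zero, add_zero, map_zero]
        exact Subalgebra.zero_mem _
    · rw [tauU_X, Polynomial.coeff_C]
      split_ifs
      · exact Algebra.subset_adjoin (Or.inr ⟨a, i, hi, rfl⟩)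
      · exact Subalgebra.zero_mem _
  | algebraMap c =>
    intro k
    have h1 : (algebraMap ℂ (U AA) c) = C (algebraMap ℂ AA c) := rfl
    have h2 : tauA (algebraMap ℂ AA c) = Polynomial.C (algebraMap ℂ AA c) := X1_tauA_alg c
    rw [h1, tauU_C, h2, Polynomial.map_C, Polynomial.coeff_C]
    split_ifs
    · exact Subalgebra.algebraMap_mem (MP50e386N.LT AA T) c
    · exact Subalgebra.zero_mem _
  | add x y _ _ hx hy =>
    intro k
    rw [map_add, Polynomial.coeff_add]
    exact Subalgebra.add_mem _ (hx k) (hy k)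
  | mul x y _ _ hx hy =>
    intro k
    rw [map_mul, Polynomial.coeff_mul]
    exact Subalgebra.sum_mem _ fun p _ => Subalgebra.mul_mem _ (hx _) (hy _)

/-- `τ` preserves the letters -/
theorem tauA_LT {T : Set ℕ} {a : AA} (h : (C a : U AA) ∈ MP50e386N.LT AA T) (k : ℕ) :
    (C ((tauA a).coeff k) : U AA) ∈ MP50e386N.LT AA T := by
  have h1 := X1_tauU_LT h k
  rwa [tauU_C, Polynomial.coeff_map] at h1

/-- every element of `A` is a `t`-polynomial with coefficients in `τ(A)` -/
theorem C_eq_sum_tau (a : AA) : ∃ (n : ℕ) (p : ℕ → AA),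
    (Polynomial.C a : Polynomial AA) = ∑ k ∈ Finset.range n, Polynomial.X ^ k * tauA (p k) := by
  let θ : AA →ₐ[ℂ] Polynomial AA :=
    aeval (fun s => Polynomial.C (X s) - Polynomial.C (C (omS s)) * Polynomial.X)
  let Ψ : Polynomial AA →+* Polynomial AA :=
    Polynomial.eval₂RingHom (tauA : AA →+* Polynomial AA) Polynomial.X
  have hΨC : ∀ b : AA, Ψ (Polynomial.C b) = tauA b := fun b => by
    show Polynomial.eval₂ _ _ _ = _
    rw [Polynomial.eval₂_C]; rfl
  have hΨX : Ψ Polynomial.X = Polynomial.X := by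
    show Polynomial.eval₂ _ _ _ = _
    rw [Polynomial.eval₂_X]
  have key : Ψ.comp (θ : AA →+* Polynomial AA) = (Polynomial.C : AA →+* Polynomial AA) := by
    apply MvPolynomial.ringHom_ext
    · intro r
      have h1 : θ (C r) = Polynomial.C (C r) := by
        have : θ (algebraMap ℂ AA r) = algebraMap ℂ (Polynomial AA) r := AlgHom.commutes _ _
        exact this
      show Ψ (θ (C r)) = _
      rw [h1, hΨC, X1_tauA_alg]
    · intro s
      show Ψ (θ (X s)) = _
      have h1 : θ (X s) = Polynomial.C (X s) - Polynomial.C (C (omS s)) * Polynomial.X :=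
        aeval_X _ _
      rw [h1, map_sub, map_mul, hΨC, hΨC, hΨX, tauA_X, X1_tauA_alg]
      ring
  refine ⟨(θ a).natDegree + 1, fun k => (θ a).coeff k, ?_⟩
  have h2 : Ψ (θ a) = Polynomial.C a := DFunLike.congr_fun key a
  rw [← h2]
  show Polynomial.eval₂ _ _ _ = _
  rw [Polynomial.eval₂_eq_sum_range]
  apply Finset.sum_congr rfl
  intro k _
  rw [mul_comm]
  rfl

end MP50e386O
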