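import Mathlib
import Pool.Agent.Lib.MP_50e386_al.O.XDefs
import Pool.Agent.Lib.MP_50e386_al.O.X1

/-! The ideals `KK J` and `nnI J`. -/

namespace MP50e386O

open MvPolynomial Pool.Agent.Lib.MP50e386 MP50e386N

/-- the form as a bilinear map -/
private noncomputable def x2L : V →ₗ[ℂ] V →ₗ[ℂ] ℂ :=
  Finsupp.linearCombination ℂ (fun i =>
    (if Even i then Finsupp.lapply (i + 1) else Finsupp.lapply (i - 1) : V →ₗ[ℂ] ℂ))

private theorem x2L_eq (u v : V) : x2L u v = om u v := by
  unfold x2L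
  rw [Finsupp.linearCombination_apply]
  change _ = osf u v
  unfold osf Finsupp.sum
  rw [LinearMap.sum_apply]
  apply Finset.sum_congr rfl
  intro i _
  beta_reduce
  split_ifs
  · simp
  · simp

private theorem x2_om_smul (c : ℂ) (v w : V) : om (c • v) (c • w) = c ^ 2 * om v w := by
  rw [← x2L_eq, ← x2L_eq, map_smul, map_smul, LinearMap.smul_apply, smul_eq_mul, smul_eq_mul]
  ring

private theorem x2_om_zero_left (w : V) : om 0 w = 0 := by
  rw [← x2L_eq, map_zero, LinearMap.zero_apply]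

private theorem x2_om_zero_right (v : V) : om v 0 = 0 := by
  rw [← x2L_eq, map_zero]

private theorem x2_linC_smul_g (g : Cinf ≃ₗ[ℂ] Cinf) (c : ℂ) (v : V) :
    linC (fun i => c • g (ee i)) v = c • g v := by
  have h0 : linC (fun i => c • g (ee i)) = c • g.toLinearMap := by
    apply Finsupp.lhom_ext'
    intro i
    apply LinearMap.ext_ring
    change linC (fun i => c • g (ee i)) (ee i) = c • g (ee i)
    rw [linC_ee]
  rw [h0]
  rfl

private theorem x2_iso_lin {φ : ℕ → V} (h : Iso φ) (v w : V) :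
    om (linC φ v) (linC φ w) = 0 := by
  have := Iso.lin h (fun n => if n = 0 then v else w) 0 1
  simpa using this

theorem mem_KK (J : Ideal AA) (a : AA) : a ∈ KK J ↔ ∀ k, (tauA a).coeff k ∈ J := by
  unfold KK
  rw [Ideal.mem_comap, Ideal.mem_map_C_iff]
  rfl

theorem KK_le (J : Ideal AA) : KK J ≤ J := by
  intro a ha
  have := (mem_KK J a).1 ha 0
  rwa [tauA_coeff_zero] at this

theorem KK_GSI {J : Ideal AA} (hJ : GSI J) : GSI (KK J) := by
  intro g hg c hc f hf
  rw [mem_KK] at hf ⊢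
  intro k
  rw [tauA_sbR (fun i => c • g (ee i)) (c ^ 2) (fun i j => ?_)]
  · exact Submodule.smul_of_tower_mem J _ (hJ g hg c hc _ (hf k))
  · rw [x2_om_smul]
    congr 1
    exact hg.2 _ _

private theorem x2_smul_top (J : Ideal AA) (f : U AA) :
    f ∈ (J • ⊤ : Submodule AA (U AA)) ↔ ∀ m, coeff m f ∈ J := by
  rw [← red_eq_zero]
  unfold red
  constructor
  · intro h m
    have h1 := congrArg (coeff m) h
    rw [coeff_map, coeff_zero] at h1
    exact Ideal.Quotient.eq_zero_iff_mem.1 h1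
  · intro h
    ext m
    rw [coeff_map, coeff_zero]
    exact Ideal.Quotient.eq_zero_iff_mem.2 (h m)

/-- `K_J M_S` is the kernel of `τ` modulo `J` -/
theorem KK_smul_MS (J : Ideal AA) (S : Finset ℕ) (f : U AA) (hf : f ∈ MS AA S) :
    f ∈ KK J • MS AA S ↔ ∀ k, (tauU f).coeff k ∈ J • MS AA S := by
  rw [J_smul_MS, J_smul_MS]
  simp only [Submodule.mem_inf, x2_smul_top]
  constructor
  · rintro ⟨h, _⟩ k
    refine ⟨fun m => ?_, tauU_MS S f hf k⟩
    rw [tauU_coeff]
    exact (mem_KK J _).1 (h m) k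
  · intro h
    refine ⟨fun m => (mem_KK J _).2 fun k => ?_, hf⟩
    rw [← tauU_coeff]
    exact (h k).1 m

theorem nnI_mono {J J' : Ideal AA} (h : J ≤ J') : nnI J ≤ nnI J' := by
  unfold nnI
  apply Ideal.span_mono
  rintro f ⟨φ, hφ, g, hg, rfl⟩
  exact ⟨φ, hφ, g, h hg, rfl⟩

theorem nnI_GSI {J : Ideal AA} (hJ : GLSI J) : GSI (nnI J) := by
  have _ := hJ
  intro g hg c hc f hf
  have key : nnI J ≤ (nnI J).comap (sbR (fun i => c • g (ee i)) : AA →ₐ[ℂ] AA) := by
    conv_lhs => unfold nnI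
    rw [Ideal.span_le]
    rintro _ ⟨φ, hφ, h, hh, rfl⟩
    rw [SetLike.mem_coe, Ideal.mem_comap, sbR_sbR]
    refine Ideal.subset_span ⟨_, ?_, h, hh, rfl⟩
    intro i j
    simp only [x2_linC_smul_g]
    rw [x2_om_smul]
    have h2 : om (g (φ i)) (g (φ j)) = om (φ i) (φ j) := hg.2 _ _
    rw [h2, hφ i j, mul_zero]
  exact key hf

theorem nnI_le {J : Ideal AA} (hJ : GLSI J) : nnI J ≤ J := by
  unfold nnI
  rw [Ideal.span_le]
  rintro f ⟨φ, _, g, hg, rfl⟩
  exact hJ φ g hg

theorem nnI_le_KK {J : Ideal AA} (hJ : GLSI J) : nnI J ≤ KK J := by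
  conv_lhs => unfold nnI
  rw [Ideal.span_le]
  rintro f ⟨φ, hφ, g, hg, rfl⟩
  rw [SetLike.mem_coe, mem_KK, tauA_iso hφ]
  intro k
  rw [Polynomial.coeff_C]
  split_ifs
  · exact hJ φ g hg
  · exact J.zero_mem

theorem nnI_top : nnI ⊤ = ⊤ := by
  rw [Ideal.eq_top_iff_one]
  unfold nnI
  refine Ideal.subset_span ⟨fun _ => 0, fun _ _ => x2_om_zero_left _, 1, trivial, ?_⟩
  rw [map_one]

/-- `nn(J)` is contained in every graded stable ideal `I` with `J ≤ M₁(I)` -/
theorem nnI_le_of (J I : Ideal AA) (h : ∀ φ : ℕ → V, Iso φ → ∀ g ∈ J, sbR φ g ∈ I) :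
    nnI J ≤ I := by
  unfold nnI
  rw [Ideal.span_le]
  rintro f ⟨φ, hφ, g, hg, rfl⟩
  exact h φ hφ g hg

/-- (rc) for `nn(J)` -/
theorem rc_nnI {J : Ideal AA} {a : AA} (ha : a ∈ J) (W : Submodule ℂ V)
    (hW : ∀ v ∈ W, ∀ w ∈ W, om v w = 0) (ψ : ℕ → VR AA)
    (hψ : ∀ i, ψ i ∈ Submodule.span AA ((fun v => (cst v : VR AA)) '' (W : Set V))) :
    GLRing.sb ψ a ∈ nnI J := by
  have h := rc_gen W (ofI (nnI J)) (C a : U AA) (fun φ hφ => ?_) ψ hψ
  · rw [sbU_C] at h
    exact (C_mem_ofI _ _).1 h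
  · rw [sbC_C]
    refine (C_mem_ofI _ _).2 (Ideal.subset_span ⟨φ, fun i j => ?_, a, ha, rfl⟩)
    exact hW _ (hφ i) _ (hφ j)

/-- elements of `J` with isotropic letters lie in `nn(J)` -/
theorem mem_nnI_of_letters {J : Ideal AA} {a : AA} (ha : a ∈ J) {T : Set ℕ}
    (haT : (C a : U AA) ∈ MP50e386N.LT AA T) (hT : ∀ i ∈ T, ∀ j ∈ T, om (ee i) (ee j) = 0) :
    a ∈ nnI J := by
  classical
  unfold nnI
  refine Ideal.subset_span ⟨fun i => if i ∈ T then ee i else 0, ?_, a, ha, ?_⟩
  · intro i j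
    by_cases hi : i ∈ T
    · by_cases hj : j ∈ T
      · simp only [if_pos hi, if_pos hj]
        exact hT i hi j hj
      · simp only [if_neg hj]
        exact x2_om_zero_right _
    · simp only [if_neg hi]
      exact x2_om_zero_left _
  · have h := sbC_congr haT ee (fun i => if i ∈ T then ee i else 0)
      (fun i hi => by simp only [if_pos hi])
    rw [sbC_id, sbC_C] at h
    exact C_injective _ _ h

private theorem x2_Dl (M : ℕ) (u : Fin M → V) : (Dl u : AA) =
    Matrix.det (Matrix.of fun i j : Fin M => MP50e386.bil (u i) (u j)) := by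
  unfold Dl gramM
  simp only [xv_A]

/-- `nn(<Δ(w)^N>)` is generated by the `Δ(w)^N`, `w` isotropic -/
theorem nnI_detIdeal (M N0 : ℕ) : nnI (MP50e386.detIdeal M N0) =
    Ideal.span {f | ∃ w : Fin M → V, Iso w ∧ f = (Dl w : AA) ^ N0} := by
  apply le_antisymm
  · apply nnI_le_of
    intro φ hφ g hg
    have key : MP50e386.detIdeal M N0 ≤ (Ideal.span {f | ∃ w : Fin M → V, Iso w ∧
        f = (Dl w : AA) ^ N0}).comap (sbR φ : AA →ₐ[ℂ] AA) := by
      conv_lhs => unfold MP50e386.detIdeal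
      rw [Ideal.span_le]
      rintro _ ⟨u, rfl⟩
      rw [SetLike.mem_coe, Ideal.mem_comap, ← x2_Dl, map_pow, sbR_Dl]
      exact Ideal.subset_span ⟨_, fun i j => x2_iso_lin hφ _ _, rfl⟩
    exact key hg
  · rw [Ideal.span_le]
    rintro _ ⟨w, hw, rfl⟩
    refine Ideal.subset_span ⟨fun i => if h : i < M then w ⟨i, h⟩ else 0, ?_,
      (Dl (fun i : Fin M => ee (i : ℕ)) : AA) ^ N0, ?_, ?_⟩
    · intro i j
      by_cases hi : i < M
      · by_cases hj : j < M
        · simp only [dif_pos hi, dif_pos hj]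
          exact hw _ _
        · simp only [dif_neg hj]
          exact x2_om_zero_right _
      · simp only [dif_neg hi]
        exact x2_om_zero_left _
    · rw [x2_Dl]
      exact Ideal.subset_span ⟨_, rfl⟩
    · rw [map_pow, sbR_Dl]
      congr 2
      funext i
      rw [linC_ee, dif_pos i.2]

private theorem x2_scal_X (c : ℂ) (s : Sym2 ℕ) :
    sbR (fun i => c • ee i) (X s : AA) = C (c ^ 2) * X s := by
  induction s using Sym2.ind with
  | _ i j =>
    rw [sbR_eq_sub, MP50e386.sub_X, map_smul, LinearMap.map_smul₂, MP50e386.bil_ee, smul_smul,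
      smul_eq_C_mul, pow_two]

/-- homogeneous polynomials of degree `d` have weight `2 d` -/
theorem HW_of_homog {a : AA} {d : ℕ} (h : a.IsHomogeneous d) : HW (2 * d) (C a : U AA) := by
  intro c
  rw [sbC_C]
  have key : sbR (fun i => c • ee i) a = c ^ (2 * d) • a := by
    have h1 : (sbR (fun i => c • ee i) : AA →ₐ[ℂ] AA) =
        aeval (fun s => (C (c ^ 2) * X s : AA)) := by
      apply MvPolynomial.algHom_ext
      intro s
      rw [x2_scal_X, aeval_X]
    rw [h1]
    conv_lhs => rw [a.as_sum]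
    conv_rhs => rw [a.as_sum]
    rw [map_sum, Finset.smul_sum]
    refine Finset.sum_congr rfl fun m hm => ?_
    rw [aeval_monomial]
    have h2 : m.degree = d := by
      have := h (mem_support_iff.1 hm)
      rw [Finsupp.degree_eq_weight_one]
      exact this
    have h3 : (m.prod fun s k => ((C (c ^ 2) * X s : AA)) ^ k) =
        C (c ^ (2 * d)) * m.prod fun s k => (X s : AA) ^ k := by
      unfold Finsupp.prod
      simp only [mul_pow]
      rw [Finset.prod_mul_distrib, Finset.prod_pow_eq_pow_sum, ← map_pow, ← pow_mul, ← h2]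
      rfl
    rw [h3, smul_eq_C_mul, monomial_eq (s := m) (a := coeff m a)]
    change C _ * _ = _
    ring
  rw [key, smul_eq_C_mul, map_mul]
  rw [Algebra.smul_def]
  rfl

private theorem x2_sum (F : ℕ → U AA) (n : ℕ) :
    ∑ e ∈ Finset.range (2 * n), (if e % 2 = 0 then F (e / 2) else 0) =
      ∑ d ∈ Finset.range n, F d := by
  induction n with
  | zero => simp
  | succ n ih =>
    rw [show 2 * (n + 1) = 2 * n + 1 + 1 by ring, Finset.sum_range_succ, Finset.sum_range_succ,
      ih, Finset.sum_range_succ, if_pos (by omega), if_neg (by omega), add_zero]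
    congr 2
    omega

/-- a graded stable ideal contains the homogeneous components of its elements -/
theorem GSI_hc {I : Ideal AA} (hI : GSI I) {a : AA} (ha : a ∈ I) (d : ℕ) :
    homogeneousComponent d a ∈ I := by
  by_cases hd : d < a.totalDegree + 1
  · have h1 : GS (ofI I) := (GS_ofI I).2 hI
    have h2 := GS_HW_comp h1 (2 * (a.totalDegree + 1))
      (fun e => if e % 2 = 0 then (C (homogeneousComponent (e / 2) a) : U AA) else 0)
      (fun e => ?_) ?_ (2 * d) (by omega)
    · simp only [Nat.mul_mod_right, if_true] at h2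
      have h3 : 2 * d / 2 = d := by omega
      rw [h3] at h2
      exact (C_mem_ofI I _).1 h2
    · split_ifs with he
      · have h4 := HW_of_homog (homogeneousComponent_isHomogeneous (e / 2) a)
        have h5 : 2 * (e / 2) = e := by omega
        rwa [h5] at h4
      · intro c
        rw [map_zero, smul_zero]
    · rw [x2_sum (fun d => (C (homogeneousComponent d a) : U AA)), ← map_sum,
        sum_homogeneousComponent]
      exact (C_mem_ofI I _).2 ha
  · rw [homogeneousComponent_eq_zero]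
    · exact I.zero_mem
    · omega

end MP50e386O
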