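import Mathlib
import Pool.Agent.Lib.MP_50e386_al.N.C6
import Pool.Agent.Lib.MP_50e386_al.N.C8
import Pool.Agent.Lib.MP_50e386_al.O.XDefs
import Pool.Agent.Lib.MP_50e386_al.O.X2

/-! From fresh isotropic letters to arbitrary isotropic vectors (general form of paper 5.5). -/

namespace MP50e386O

open MvPolynomial Pool.Agent.Lib.MP50e386 MP50e386N

section

variable {R : Type} [CommRing R] [Algebra ℂ R] [GLRing R]

private theorem x10_congr {a : R} {T : Set ℕ} (ha : (C a : U R) ∈ MP50e386N.LT R T)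
    (φ φ' : ℕ → V) (h : ∀ i ∈ T, φ i = φ' i) : sbR φ a = sbR φ' a := by
  have h1 := sbC_congr ha φ φ' h
  rw [sbC_C, sbC_C] at h1
  exact C_injective _ _ h1

private theorem x10_expand (n J : ℕ) (f : U R) (hTD : TD n J f) (v : ℕ → V)
    (hv : ∀ i, ∀ l < 2 * n, v i l = 0) :
    ∃ f' : ℕ → U R, f' 0 = f ∧
      (∀ τ : ℂ, sbC (fun i => if i < 2 * n then ee i + τ • v i else ee i) f =
        ∑ d ∈ Finset.range (J + 1), τ ^ d • f' d) ∧
      ∀ d ≤ J, TD n (J - d) (f' d) := by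
  obtain ⟨g, hg1, hg2⟩ := hTD
  have hex := fun e => MP50e386N.C8.expand n e (g e) (hg2 e) v hv
  choose F hF0 hF1 hF2 using hex
  refine ⟨fun d => ∑ e ∈ Finset.range (J - d + 1), F (d + e) d, ?_, ?_, ?_⟩
  · beta_reduce
    rw [Nat.sub_zero, hg1]
    apply Finset.sum_congr rfl
    intro e _
    rw [zero_add, hF0]
  · intro τ
    have e1 : sbC (fun i => if i < 2 * n then ee i + τ • v i else ee i) f =
        ∑ e ∈ Finset.range (J + 1), ∑ d ∈ Finset.range (e + 1), τ ^ d • F e d := by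
      conv_lhs => rw [hg1]
      rw [map_sum]
      exact Finset.sum_congr rfl fun e _ => hF1 e τ
    rw [e1, Finset.sum_comm' (s' := fun d => Finset.Ico d (J + 1)) (t' := Finset.range (J + 1))
      (by
        intro x y
        rw [Finset.mem_range, Finset.mem_range, Finset.mem_Ico, Finset.mem_range]
        omega)]
    apply Finset.sum_congr rfl
    intro d hd
    have hd' := Finset.mem_range.1 hd
    rw [← Finset.smul_sum, Finset.sum_Ico_eq_sum_range, show J + 1 - d = J - d + 1 by omega]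
  · intro d _
    refine ⟨fun e => F (d + e) d, rfl, fun e c => ?_⟩
    have h1 := hF2 (d + e) d c
    rw [Nat.add_sub_cancel_left] at h1
    exact h1

private theorem x10_level (n N J : ℕ) (Z : Set ℕ) (hZf : Z.Finite) (w : ℕ → ℕ → V)
    (hwN : ∀ i l, N ≤ l → w i l = 0) :
    ∃ L : ℕ, (∀ i ∈ Set.Iio (2 * n) ∪ Z, i < 2 * L) ∧ ∀ i ≤ J, ∀ a l, 2 * L ≤ l → w i a l = 0 := by
  classical
  set T : Finset ℕ := (Finset.range (2 * n) ∪ hZf.toFinset) ∪
    (Finset.range (J + 1)).biUnion (fun i => (Finset.range N).biUnion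
      (fun a => (w i a).support)) with hT
  refine ⟨T.sup id + 1, ?_, ?_⟩
  · intro i hi
    have h1 : i ∈ T := by
      rw [hT, Finset.mem_union, Finset.mem_union, Finset.mem_range, hZf.mem_toFinset]
      rcases hi with hi | hi
      · exact Or.inl (Or.inl hi)
      · exact Or.inl (Or.inr hi)
    have h2 := Finset.le_sup (f := id) h1
    simp only [id] at h2
    omega
  · intro i hiJ a l hl
    by_cases haN : N ≤ a
    · rw [hwN i a haN]
      rfl
    by_contra hne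
    have h1 : l ∈ T := by
      rw [hT, Finset.mem_union, Finset.mem_biUnion]
      refine Or.inr ⟨i, Finset.mem_range.2 (by omega), ?_⟩
      rw [Finset.mem_biUnion]
      exact ⟨a, Finset.mem_range.2 (by omega), Finsupp.mem_support_iff.2 hne⟩
    have h2 := Finset.le_sup (f := id) h1
    simp only [id] at h2
    omega

/-- the base case -/
private theorem x10_base {𝔪 𝔫 : Ideal R} (h𝔫 : GSI 𝔫) (n N : ℕ) (H0 : R)
    (hN : (C H0 : U R) ∈ MP50e386N.LT R (Set.Iio N))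
    (Z : Set ℕ) (hZf : Z.Finite) (_hZ : ∀ z ∈ Z, 2 * n ≤ z)
    (hF : ∀ f ∈ 𝔪, (C f : U R) ∈ MP50e386N.LT R (Set.Iio (2 * n) ∪ Z) → TD n 0 (C f : U R) →
        ∀ w : ℕ → V, Iso w → (∀ i, ∀ z ∈ Set.Iio (2 * n) ∪ Z, om (w i) (ee z) = 0) →
          sbR w H0 * f ∈ 𝔫)
    (f : R) (hf : f ∈ 𝔪) (hfT : (C f : U R) ∈ MP50e386N.LT R (Set.Iio (2 * n) ∪ Z))
    (hTD : TD n 0 (C f : U R)) (a : ℕ → V) (ha : Iso a) (L : ℕ)
    (hL1 : ∀ i ∈ Set.Iio (2 * n) ∪ Z, i < 2 * L)
    (haZ : ∀ l, ∀ z ∈ Z, om (a l) (ee z) = 0) : sbR a H0 * f ∈ 𝔫 := by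
  classical
  set y : ℕ → ℕ := fun l => 2 * L + 2 * l with hy
  have y_inj : Function.Injective y := by
    intro a b h
    simp only [hy] at h
    omega
  have hlow : ∀ i ∈ Set.Iio (2 * n) ∪ Z, ∀ l, 2 * L ≤ l → (ee i : V) l = 0 := by
    intro i hi l hl
    have := hL1 i hi
    exact Finsupp.single_eq_of_ne (by omega)
  have Bye : ∀ l, ∀ i ∈ Set.Iio (2 * n) ∪ Z, T5.B (ee (y l)) (ee i) = 0 := fun l i hi =>
    T5.B_far (ee i) (hlow i hi) (by simp only [hy]; omega)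
  have Byy : ∀ l l', T5.B (ee (y l)) (ee (y l')) = 0 := fun l l' => T5.B_bb L l l'
  -- letters of `f`
  have hfZ : (C f : U R) ∈ MP50e386N.LT R ((Set.Iio (2 * n) ∪ Z) \ Set.Iio (2 * n)) := by
    obtain ⟨g, hfg, hg⟩ := hTD
    rw [zero_add, Finset.sum_range_one] at hfg
    refine LT_of_TD_zero hfT (fun c => ?_)
    have h2 := hg 0 c
    rw [← hfg] at h2
    exact h2
  have hfZ' : (C f : U R) ∈ MP50e386N.LT R Z := by
    refine LT_mono ?_ hfZ
    rintro i ⟨hi, hi2⟩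
    exact hi.resolve_left hi2
  have h1 : sbR (fun l => ee (y l)) H0 * f ∈ 𝔫 := by
    refine hF f hf hfT hTD _ ?_ ?_
    · intro l l'
      rw [T5.om_eq, Byy]
    · intro l z hz
      rw [T5.om_eq, Bye l z hz]
  set Φ : ℕ → V := Function.extend y a ee with hΦ
  have Φy : ∀ l, Φ (y l) = a l := fun l => by rw [hΦ, y_inj.extend_apply]
  have Φe : ∀ i ∈ Z, Φ i = ee i := by
    intro i hi
    have h1 : ¬ ∃ l, y l = i := by
      rintro ⟨l, hl⟩
      have h2 := hL1 i (Or.inr hi)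
      simp only [hy] at hl
      omega
    rw [hΦ, Function.extend_apply' _ _ _ h1]
  have h2 := witt1I h𝔫 h1 (T := Z ∪ y '' Set.Iio N) (hZf.union ((Set.finite_Iio N).image y)) (by
    rw [map_mul]
    refine Subalgebra.mul_mem _ ?_ (LT_mono Set.subset_union_left hfZ')
    rw [← sbC_C]
    refine sbC_LT hN _ ?_
    intro i hi j hj
    refine Or.inr ⟨i, hi, ?_⟩
    by_contra hne
    exact hj (Finsupp.single_eq_of_ne (Ne.symm hne))) Φ (by
    rintro i (hi | ⟨l, -, rfl⟩) i' (hi' | ⟨l', -, rfl⟩)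
    · rw [Φe i hi, Φe i' hi']
    · rw [Φe i hi, Φy, T5.om_eq, T5.om_eq, T5.B_anti, T5.B_anti (ee i), Bye l' i (Or.inr hi),
        ← T5.om_eq, haZ l' i hi]
    · rw [Φe i' hi', Φy, haZ l i' hi', T5.om_eq, Bye l i' (Or.inr hi')]
    · rw [Φy, Φy, ha l l', T5.om_eq, Byy])
  rw [map_mul, sbR_sbR] at h2
  have h3 : (fun i => linC Φ (ee (y i))) = a := by
    funext i
    rw [linC_ee, Φy]
  have h4 : sbR Φ f = f := by
    rw [x10_congr hfZ' Φ ee Φe, sbR_id]
  rw [h3, h4] at h2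
  exact h2

/-- the step -/
private theorem x10_step {𝔪 𝔫 : Ideal R} (h𝔪 : GSI 𝔪) (h𝔫 : GSI 𝔫) (n N : ℕ) (HJ : R)
    (hN : (C HJ : U R) ∈ MP50e386N.LT R (Set.Iio N)) (J : ℕ)
    (Z : Set ℕ) (hZf : Z.Finite) (_hZ : ∀ z ∈ Z, 2 * n ≤ z)
    (_hZi : ∀ z ∈ Z, ∀ z' ∈ Z, om (ee z) (ee z') = 0)
    (hF : ∀ f ∈ 𝔪, (C f : U R) ∈ MP50e386N.LT R (Set.Iio (2 * n) ∪ Z) → TD n J (C f : U R) →
        ∀ w : ℕ → V, Iso w → (∀ i, ∀ z ∈ Set.Iio (2 * n) ∪ Z, om (w i) (ee z) = 0) →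
          sbR w HJ * f ∈ 𝔫)
    (f : R) (hf : f ∈ 𝔪) (hfT : (C f : U R) ∈ MP50e386N.LT R (Set.Iio (2 * n) ∪ Z))
    (hTD : TD n J (C f : U R)) (a : ℕ → V) (ha : Iso a) (L : ℕ)
    (hL1 : ∀ i ∈ Set.Iio (2 * n) ∪ Z, i < 2 * L) (hL2 : ∀ l m, 2 * L ≤ m → a l m = 0)
    (haZ : ∀ l, ∀ z ∈ Z, om (a l) (ee z) = 0) :
    ∃ (P : ℕ → R) (f' : ℕ → R), P 0 = sbR a HJ ∧ f' 0 = f ∧
      ∑ d ∈ Finset.range (J + 1), P d * f' d ∈ 𝔫 ∧
      ∀ d ≤ J, f' d ∈ 𝔪 ∧ TD n (J - d) (C (f' d) : U R) ∧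
        (C (f' d) : U R) ∈ MP50e386N.LT R (Set.Iio (2 * n) ∪
          (Z ∪ (fun l => 2 * L + 2 * l + 1) '' Set.Iio N)) := by
  classical
  set y : ℕ → ℕ := fun l => 2 * L + 2 * l with hy
  set yd : ℕ → ℕ := fun l => 2 * L + 2 * l + 1 with hyd
  have hnL : n ≤ L := by
    rcases Nat.eq_zero_or_pos n with h | h
    · omega
    · have := hL1 (2 * n - 1) (Or.inl (by rw [Set.mem_Iio]; omega))
      omega
  have y_inj : Function.Injective y := by
    intro a b h
    simp only [hy] at h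
    omega
  -- the form on the vectors
  have Baa : ∀ l l', T5.B (a l) (a l') = 0 := fun l l' => by rw [← T5.om_eq]; exact ha l l'
  have Bya : ∀ l l', T5.B (ee (y l)) (a l') = 0 := fun l l' =>
    T5.B_far (a l') (hL2 l') (by simp only [hy]; omega)
  have Bda : ∀ l l', T5.B (ee (yd l)) (a l') = 0 := fun l l' =>
    T5.B_far (a l') (hL2 l') (by simp only [hyd]; omega)
  have hlow : ∀ i ∈ Set.Iio (2 * n) ∪ Z, ∀ l, 2 * L ≤ l → (ee i : V) l = 0 := by
    intro i hi l hl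
    have := hL1 i hi
    exact Finsupp.single_eq_of_ne (by omega)
  have Bye : ∀ l, ∀ i ∈ Set.Iio (2 * n) ∪ Z, T5.B (ee (y l)) (ee i) = 0 := fun l i hi =>
    T5.B_far (ee i) (hlow i hi) (by simp only [hy]; omega)
  have Bde : ∀ l, ∀ i ∈ Set.Iio (2 * n) ∪ Z, T5.B (ee (yd l)) (ee i) = 0 := fun l i hi =>
    T5.B_far (ee i) (hlow i hi) (by simp only [hyd]; omega)
  have Byy : ∀ l l', T5.B (ee (y l)) (ee (y l')) = 0 := fun l l' => T5.B_bb L l l'
  have Bdd : ∀ l l', T5.B (ee (yd l)) (ee (yd l')) = 0 := fun l l' => T5.B_ss L l l'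
  have Bdy : ∀ l l', T5.B (ee (yd l)) (ee (y l')) = if l' = l then 1 else 0 := by
    intro l l'
    have h1 := T5.B_sb L l l'
    simp only [hyd, hy]
    rw [h1]
  -- the replacement vectors
  set v : ℕ → V := fun i => ∑ l ∈ Finset.range N, (- om (a l) (ee i)) • ee (yd l) with hv
  have hvlow : ∀ i, ∀ l < 2 * n, v i l = 0 := by
    intro i l hl
    simp only [hv]
    rw [Finsupp.finsetSum_apply]
    apply Finset.sum_eq_zero
    intro l' _
    rw [Finsupp.smul_apply, Finsupp.single_eq_of_ne (by simp only [hyd]; omega), smul_zero]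
  have hvZ : ∀ z ∈ Z, v z = 0 := by
    intro z hz
    simp only [hv]
    apply Finset.sum_eq_zero
    intro l _
    rw [haZ l z hz, neg_zero, zero_smul]
  have Bve : ∀ i, ∀ i' ∈ Set.Iio (2 * n) ∪ Z, T5.B (v i) (ee i') = 0 := by
    intro i i' hi'
    simp only [hv]
    rw [T5.B_suml]
    exact Finset.sum_eq_zero fun l _ => by rw [T5.B_sl, Bde l i' hi', mul_zero]
  have Bvv : ∀ i i', T5.B (v i) (v i') = 0 := by
    intro i i'
    simp only [hv]
    rw [T5.B_suml]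
    refine Finset.sum_eq_zero fun l _ => ?_
    rw [T5.B_sl, T5.B_sumr, Finset.sum_eq_zero, mul_zero]
    intro l' _
    rw [T5.B_sr, Bdd, mul_zero]
  have Bva : ∀ i l, T5.B (v i) (a l) = 0 := by
    intro i l
    simp only [hv]
    rw [T5.B_suml]
    exact Finset.sum_eq_zero fun l' _ => by rw [T5.B_sl, Bda l' l, mul_zero]
  have Bvy : ∀ i, ∀ l < N, T5.B (v i) (ee (y l)) = - T5.B (a l) (ee i) := by
    intro i l hl
    simp only [hv]
    rw [T5.B_suml, Finset.sum_eq_single l]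
    · rw [T5.B_sl, Bdy, if_pos rfl, T5.om_eq]
      ring
    · intro l' _ hl'
      rw [T5.B_sl, Bdy, if_neg (Ne.symm hl'), mul_zero]
    · intro h
      exact absurd (Finset.mem_range.2 hl) h
  -- expansion
  obtain ⟨F, hF0, hF1, hF2⟩ := x10_expand n J (C f) hTD v hvlow
  have hψgen : ∀ τ : ℂ, ∀ i ∈ Set.Iio (2 * n) ∪ Z,
      (if i < 2 * n then (ee i : V) + τ • v i else ee i) = ee i + τ • v i := by
    intro τ i hi
    split_ifs with h
    · rfl
    · have hz : i ∈ Z := hi.resolve_left h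
      rw [hvZ i hz, smul_zero, add_zero]
  have hτinf : ∀ P : ℂ → Prop, (∀ τ, P τ) → {τ : ℂ | P τ}.Infinite := by
    intro P hP
    have : {τ : ℂ | P τ} = Set.univ := Set.eq_univ_of_forall hP
    rw [this]
    exact Set.infinite_univ
  have hpres : ∀ τ : ℂ, ∀ i ∈ Set.Iio (2 * n) ∪ Z, ∀ i' ∈ Set.Iio (2 * n) ∪ Z,
      om (if i < 2 * n then (ee i : V) + τ • v i else ee i)
        (if i' < 2 * n then (ee i' : V) + τ • v i' else ee i') = om (ee i) (ee i') := by
    intro τ i hi i' hi'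
    rw [hψgen τ i hi, hψgen τ i' hi', T5.om_eq, T5.om_eq, T5.B_al, T5.B_ar, T5.B_ar, T5.B_sl,
      T5.B_sl, T5.B_sr, T5.B_sr, Bvv, Bve i i' hi', T5.B_anti (ee i) (v i'), Bve i' i hi]
    ring
  have hmemM : ∀ d < J + 1, F d ∈ (ofI 𝔪 : Submodule R (U R)) := by
    intro d hd
    refine vand1 ((ofI 𝔪 : Submodule R (U R)).restrictScalars ℂ) (J + 1) F
      (hτinf _ fun τ => ?_) d hd
    rw [← hF1 τ, sbC_C]
    exact (C_mem_ofI 𝔪 _).2 (witt1I h𝔪 hf ((Set.finite_Iio _).union hZf) hfT _ (hpres τ))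
  have hLT' : ∀ d < J + 1, F d ∈ MP50e386N.LT R (Set.Iio (2 * n) ∪ (Z ∪ yd '' Set.Iio N)) := by
    intro d hd
    refine vand1 (Subalgebra.toSubmodule (MP50e386N.LT R (Set.Iio (2 * n) ∪
      (Z ∪ yd '' Set.Iio N)))) (J + 1) F (hτinf _ fun τ => ?_) d hd
    rw [← hF1 τ]
    refine sbC_LT hfT _ ?_
    intro i hi l hil
    rw [hψgen τ i hi, Finsupp.add_apply, Finsupp.smul_apply] at hil
    by_cases h1 : i = l
    · rw [← h1]
      rcases hi with hi | hi
      · exact Or.inl hi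
      · exact Or.inr (Or.inl hi)
    · rw [Finsupp.single_eq_of_ne (Ne.symm h1), zero_add] at hil
      have h2 : v i l ≠ 0 := fun h => hil (by rw [h, smul_zero])
      simp only [hv] at h2
      rw [Finsupp.finsetSum_apply] at h2
      obtain ⟨l', hl'N, hl'⟩ := Finset.exists_ne_zero_of_sum_ne_zero h2
      rw [Finsupp.smul_apply] at hl'
      by_cases h3 : yd l' = l
      · exact Or.inr (Or.inr ⟨l', Finset.mem_range.1 hl'N, h3⟩)
      · rw [Finsupp.single_eq_of_ne (Ne.symm h3), smul_zero] at hl'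
        exact absurd rfl hl'
  -- (F)
  have hFf : sbR (fun l => ee (y l)) HJ * f ∈ 𝔫 := by
    refine hF f hf hfT hTD _ ?_ ?_
    · intro l l'
      rw [T5.om_eq, Byy]
    · intro l z hz
      rw [T5.om_eq, Bye l z hz]
  have hELT : (C (sbR (fun l => ee (y l)) HJ * f) : U R) ∈
      MP50e386N.LT R ((Set.Iio (2 * n) ∪ Z) ∪ y '' Set.Iio N) := by
    rw [map_mul]
    refine Subalgebra.mul_mem _ ?_ (LT_mono Set.subset_union_left hfT)
    rw [← sbC_C]
    refine sbC_LT hN _ ?_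
    intro i hi j hj
    refine Or.inr ⟨i, hi, ?_⟩
    by_contra hne
    exact hj (Finsupp.single_eq_of_ne (Ne.symm hne))
  -- the polynomial
  obtain ⟨P, hP⟩ := MP50e386N.C8.sbR_poly (R := R) (fun l => ee (y l)) a HJ
  have hP0 : P.coeff 0 = sbR a HJ := by
    have h1 := hP 0
    rw [map_zero, ← Polynomial.coeff_zero_eq_eval_zero] at h1
    rw [← h1]
    congr 1
    congr 1
    funext i
    rw [zero_smul, zero_add]
  -- the main family
  have hmain : ∀ t : ℂ, t ≠ 0 →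
      (P.eval (algebraMap ℂ R t)) • ∑ d ∈ Finset.range (J + 1), t ^ (J - d) • F d ∈
        (ofI 𝔫 : Submodule R (U R)) := by
    intro t ht
    set Φ : ℕ → V := Function.extend y (fun l => t • ee (y l) + a l)
      (fun i => if i < 2 * n then ee i + t⁻¹ • v i else ee i) with hΦ
    have Φy : ∀ l, Φ (y l) = t • ee (y l) + a l := fun l => by rw [hΦ, y_inj.extend_apply]
    have Φe : ∀ i ∈ Set.Iio (2 * n) ∪ Z, Φ i = ee i + t⁻¹ • v i := by
      intro i hi
      have h1 : ¬ ∃ l, y l = i := by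
        rintro ⟨l, hl⟩
        have h2 := hL1 i hi
        simp only [hy] at hl
        omega
      rw [hΦ, Function.extend_apply' _ _ _ h1]
      exact hψgen _ i hi
    have h1 := witt1I h𝔫 hFf (T := (Set.Iio (2 * n) ∪ Z) ∪ y '' Set.Iio N)
      (((Set.finite_Iio _).union hZf).union ((Set.finite_Iio N).image y)) hELT Φ (by
        have hmix : ∀ i ∈ Set.Iio (2 * n) ∪ Z, ∀ l < N, T5.B (Φ i) (Φ (y l)) = 0 := by
          intro i hi l hl
          rw [Φe i hi, Φy, T5.B_al, T5.B_ar, T5.B_ar, T5.B_sl, T5.B_sl, T5.B_sr, T5.B_sr, Bva,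
            Bvy i l hl, T5.B_anti (ee i) (ee (y l)), Bye l i hi, T5.B_anti (ee i) (a l)]
          field_simp
          ring
        rintro i (hi | ⟨l, hl, rfl⟩) i' (hi' | ⟨l', hl', rfl⟩)
        · rw [Φe i hi, Φe i' hi', T5.om_eq, T5.om_eq, T5.B_al, T5.B_ar, T5.B_ar, T5.B_sl,
            T5.B_sl, T5.B_sr, T5.B_sr, Bvv, Bve i i' hi', T5.B_anti (ee i) (v i'), Bve i' i hi]
          ring
        · rw [T5.om_eq, T5.om_eq, hmix i hi l' hl', T5.B_anti, Bye l' i hi]
        · rw [T5.om_eq, T5.om_eq, T5.B_anti, hmix i' hi' l hl, Bye l i' hi']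
        · rw [Φy, Φy, T5.om_eq, T5.om_eq, T5.B_al, T5.B_ar, T5.B_ar, T5.B_sl, T5.B_sl, T5.B_sr,
            T5.B_sr, Byy, Bya, T5.B_anti (a l) (ee (y l')), Bya, Baa]
          ring)
    rw [map_mul, sbR_sbR] at h1
    have h2 : (C (sbR Φ f) : U R) = ∑ d ∈ Finset.range (J + 1), t⁻¹ ^ d • F d := by
      rw [← sbC_C, ← hF1 t⁻¹]
      apply sbC_congr hfT
      intro i hi
      rw [Φe i hi, hψgen _ i hi]
    have h3 : ∑ d ∈ Finset.range (J + 1), t ^ (J - d) • F d = t ^ J • (C (sbR Φ f) : U R) := by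
      rw [h2, Finset.smul_sum]
      apply Finset.sum_congr rfl
      intro d hd
      have hd' : d ≤ J := by
        have := Finset.mem_range.1 hd
        omega
      rw [smul_smul]
      congr 1
      rw [inv_pow, ← div_eq_mul_inv, pow_sub₀ _ ht hd', div_eq_mul_inv]
    have h4 : (fun i => linC Φ (ee (y i))) = fun i => t • (ee (y i) : V) + a i := by
      funext i
      rw [linC_ee, Φy]
    rw [h4] at h1
    rw [h3, ← hP, smul_comm]
    refine smulC_mem _ _ ?_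
    rw [smul_eq_C_mul, ← map_mul]
    exact (C_mem_ofI 𝔫 _).2 h1
  -- the coefficient of `t ^ J`
  have hcoef : ∑ d ∈ Finset.range (J + 1), P.coeff d • F d ∈ (ofI 𝔫 : Submodule R (U R)) := by
    set Q : Polynomial (U R) := (P.map (C : R →+* U R)) *
      ∑ d ∈ Finset.range (J + 1), Polynomial.C (F d) * Polynomial.X ^ (J - d) with hQ
    have h1 := vand_poly ((ofI 𝔫 : Submodule R (U R)).restrictScalars ℂ) Q (by
      refine Set.Infinite.mono (s := {t : ℂ | t ≠ 0}) ?_ ?_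
      · intro t ht
        have h2 := hmain t ht
        have h3 : Q.eval (algebraMap ℂ (U R) t) =
            (P.eval (algebraMap ℂ R t)) • ∑ d ∈ Finset.range (J + 1), t ^ (J - d) • F d := by
          rw [hQ, Polynomial.eval_mul, smul_eq_C_mul]
          congr 1
          · have h4 : (algebraMap ℂ (U R) t) = (C : R →+* U R) (algebraMap ℂ R t) := rfl
            rw [h4, Polynomial.eval_map_apply]
          · rw [Polynomial.eval_finsetSum]
            apply Finset.sum_congr rfl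
            intro d _
            rw [Polynomial.eval_mul, Polynomial.eval_C, Polynomial.eval_pow, Polynomial.eval_X,
              ← map_pow, Algebra.smul_def, mul_comm]
        change Q.eval (algebraMap ℂ (U R) t) ∈
          (ofI 𝔫 : Submodule R (U R)).restrictScalars ℂ
        rw [h3]
        exact h2
      · exact (Set.finite_singleton (0 : ℂ)).infinite_compl) J
    have h2 : Q.coeff J = ∑ d ∈ Finset.range (J + 1), P.coeff d • F d := by
      rw [hQ, Finset.mul_sum, Polynomial.finsetSum_coeff]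
      apply Finset.sum_congr rfl
      intro d hd
      have hd' : d ≤ J := by
        have := Finset.mem_range.1 hd
        omega
      rw [← mul_assoc, Polynomial.coeff_mul_X_pow', if_pos (by omega), Polynomial.coeff_mul_C,
        Polynomial.coeff_map, smul_eq_C_mul]
      congr 3
      omega
    rw [h2] at h1
    exact h1
  -- the elements of `A`
  have hex : ∀ d, ∃ b : R, d ≤ J → b ∈ 𝔪 ∧ F d = C b := by
    intro d
    by_cases hd : d ≤ J
    · obtain ⟨b, hb, hb2⟩ := (mem_ofI 𝔪 (F d)).1 (hmemM d (by omega))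
      exact ⟨b, fun _ => ⟨hb, hb2⟩⟩
    · exact ⟨0, fun h => absurd h hd⟩
  choose f' hf' using hex
  refine ⟨P.coeff, f', hP0, ?_, ?_, ?_⟩
  · have h1 := (hf' 0 (Nat.zero_le _)).2
    rw [hF0] at h1
    exact (C_injective _ _ h1).symm
  · rw [← C_mem_ofI 𝔫, map_sum]
    have h1 : ∑ d ∈ Finset.range (J + 1), (C (P.coeff d * f' d) : U R) =
        ∑ d ∈ Finset.range (J + 1), P.coeff d • F d := by
      apply Finset.sum_congr rfl
      intro d hd
      have hd' : d ≤ J := by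
        have := Finset.mem_range.1 hd
        omega
      rw [map_mul, smul_eq_C_mul, (hf' d hd').2]
    rw [h1]
    exact hcoef
  · intro d hd
    refine ⟨(hf' d hd).1, ?_, ?_⟩
    · rw [← (hf' d hd).2]
      exact hF2 d hd
    · rw [← (hf' d hd).2]
      exact hLT' d (by omega)

private theorem x10_claim {𝔪 𝔫 : Ideal R} (h𝔪 : GSI 𝔪) (h𝔫 : GSI 𝔫) (n D : ℕ) (H : ℕ → R)
    (hF : ∀ j ≤ D, ∀ Z : Set ℕ, Z.Finite → (∀ z ∈ Z, 2 * n ≤ z) →
      (∀ z ∈ Z, ∀ z' ∈ Z, om (ee z) (ee z') = 0) →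
      ∀ f ∈ 𝔪, (C f : U R) ∈ MP50e386N.LT R (Set.Iio (2 * n) ∪ Z) → TD n j (C f : U R) →
        ∀ w : ℕ → V, Iso w → (∀ i, ∀ z ∈ Set.Iio (2 * n) ∪ Z, om (w i) (ee z) = 0) →
          sbR w (H j) * f ∈ 𝔫) (N : ℕ)
    (hN : ∀ i ≤ D, (C (H i) : U R) ∈ MP50e386N.LT R (Set.Iio N)) (j : ℕ) (hj : j ≤ D)
    (Z : Set ℕ) (hZf : Z.Finite) (hZ : ∀ z ∈ Z, 2 * n ≤ z)
    (hZi : ∀ z ∈ Z, ∀ z' ∈ Z, om (ee z) (ee z') = 0)
    (f : R) (hf : f ∈ 𝔪) (hfT : (C f : U R) ∈ MP50e386N.LT R (Set.Iio (2 * n) ∪ Z))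
    (hTD : TD n j (C f : U R)) (w : ℕ → ℕ → V) (hw : ∀ i, Iso (w i))
    (hwN : ∀ i l, N ≤ l → w i l = 0) (hwZ : ∀ i ≤ j, ∀ l, ∀ z ∈ Z, om (w i l) (ee z) = 0) :
    (∏ i ∈ Finset.range (j + 1), sbR (w i) (H i)) * f ∈ 𝔫 := by
  induction j generalizing Z f with
  | zero =>
    obtain ⟨L, hL1, -⟩ := x10_level n N 0 Z hZf w hwN
    rw [zero_add, Finset.prod_range_one]
    exact x10_base h𝔫 n N (H 0) (hN 0 (Nat.zero_le _)) Z hZf hZ
      (fun f hf hfT hTD w hw hwT => hF 0 (Nat.zero_le _) Z hZf hZ hZi f hf hfT hTD w hw hwT)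
      f hf hfT hTD (w 0) (hw 0) L hL1 (fun l z hz => hwZ 0 le_rfl l z hz)
  | succ j IH =>
    obtain ⟨L, hL1, hL2⟩ := x10_level n N (j + 1) Z hZf w hwN
    obtain ⟨P, f', hP0, hf'0, hsum, hf'⟩ := x10_step h𝔪 h𝔫 n N (H (j + 1)) (hN (j + 1) hj)
      (j + 1) Z hZf hZ hZi (fun f hf hfT hTD w hw hwT =>
        hF (j + 1) hj Z hZf hZ hZi f hf hfT hTD w hw hwT) f hf hfT hTD (w (j + 1)) (hw (j + 1)) L
      hL1 (fun l m hm => hL2 (j + 1) le_rfl l m hm) (fun l z hz => hwZ (j + 1) le_rfl l z hz)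
    have hnL : n ≤ L := by
      rcases Nat.eq_zero_or_pos n with h | h
      · omega
      · have := hL1 (2 * n - 1) (Or.inl (by rw [Set.mem_Iio]; omega))
        omega
    set Pi : R := ∏ i ∈ Finset.range (j + 1), sbR (w i) (H i) with hPi
    have hIH : ∀ d ∈ Finset.range (j + 1), Pi * f' (d + 1) ∈ 𝔫 := by
      intro d hd
      have hd' := Finset.mem_range.1 hd
      obtain ⟨h1, h2, h3⟩ := hf' (d + 1) (by omega)
      refine IH (by omega) (Z ∪ (fun l => 2 * L + 2 * l + 1) '' Set.Iio N)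
        (hZf.union ((Set.finite_Iio N).image _)) ?_ ?_ _ h1 h3
        (MP50e386N.TD_mono (by omega) h2) ?_
      · rintro z (hz | ⟨l, -, rfl⟩)
        · exact hZ z hz
        · beta_reduce
          omega
      · have Bde : ∀ l, ∀ i ∈ Z, T5.B (ee (2 * L + 2 * l + 1)) (ee i) = 0 := fun l i hi =>
          T5.B_far (n := L) (ee i) (fun m hm => by
            have := hL1 i (Or.inr hi)
            exact Finsupp.single_eq_of_ne (by omega)) (by omega)
        rintro z (hz | ⟨l, -, rfl⟩) z' (hz' | ⟨l', -, rfl⟩)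
        · exact hZi z hz z' hz'
        · beta_reduce
          rw [T5.om_eq, T5.B_anti, Bde l' z hz]
        · beta_reduce
          rw [T5.om_eq, Bde l z' hz']
        · beta_reduce
          rw [T5.om_eq, T5.B_ss]
      · rintro i hi l z (hz | ⟨l', -, rfl⟩)
        · exact hwZ i (by omega) l z hz
        · beta_reduce
          rw [T5.om_eq, T5.B_anti, T5.B_far (w i l) (fun m hm => hL2 i (by omega) l m hm)
            (by omega)]
    rw [Finset.sum_range_succ', hP0, hf'0] at hsum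
    have h4 := 𝔫.mul_mem_left Pi hsum
    rw [mul_add, Finset.mul_sum] at h4
    have h6 : ∑ d ∈ Finset.range (j + 1), Pi * (P (d + 1) * f' (d + 1)) ∈ 𝔫 := by
      apply Ideal.sum_mem
      intro d hd
      rw [mul_left_comm]
      exact 𝔫.mul_mem_left _ (hIH d hd)
    have h7 := (Submodule.add_mem_iff_right _ h6).1 h4
    rw [Finset.prod_range_succ, ← hPi, mul_assoc]
    exact h7

end

theorem A_gen {𝔪 𝔫 : Ideal AA} (h𝔪 : GSI 𝔪) (h𝔫 : GSI 𝔫) (n D : ℕ) (H : ℕ → AA)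
    (hF : ∀ j ≤ D, ∀ Z : Set ℕ, Z.Finite → (∀ z ∈ Z, 2 * n ≤ z) →
      (∀ z ∈ Z, ∀ z' ∈ Z, om (ee z) (ee z') = 0) →
      ∀ f ∈ 𝔪, (C f : U AA) ∈ MP50e386N.LT AA (Set.Iio (2 * n) ∪ Z) → TD n j (C f : U AA) →
        ∀ w : ℕ → V, Iso w → (∀ i, ∀ z ∈ Set.Iio (2 * n) ∪ Z, om (w i) (ee z) = 0) →
          sbR w (H j) * f ∈ 𝔫)
    (f : AA) (hf : f ∈ 𝔪) (hfT : (C f : U AA) ∈ MP50e386N.LT AA (Set.Iio (2 * n)))
    (hTD : TD n D (C f : U AA)) (w : ℕ → ℕ → V) (hw : ∀ j, Iso (w j)) :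
    (∏ j ∈ Finset.range (D + 1), sbR (w j) (H j)) * f ∈ 𝔫 := by
  classical
  have hex : ∀ i, ∃ m, (C (H i) : U AA) ∈ MP50e386N.LT AA (Set.Iio m) := fun i => exists_LT _
  choose m hm using hex
  set N : ℕ := (Finset.range (D + 1)).sup m with hNdef
  have hN : ∀ i ≤ D, (C (H i) : U AA) ∈ MP50e386N.LT AA (Set.Iio N) := by
    intro i hi
    refine LT_mono ?_ (hm i)
    apply Set.Iio_subset_Iio
    exact Finset.le_sup (f := m) (Finset.mem_range.2 (by omega))
  set w' : ℕ → ℕ → V := fun i l => if l < N then w i l else 0 with hw'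
  have h1 : ∀ j ∈ Finset.range (D + 1), sbR (w j) (H j) = sbR (w' j) (H j) := by
    intro j hj
    have hj' := Finset.mem_range.1 hj
    apply x10_congr (hN j (by omega))
    intro l hl
    rw [hw']
    beta_reduce
    rw [if_pos (Set.mem_Iio.1 hl)]
  rw [Finset.prod_congr rfl h1]
  have B0l : ∀ x : V, T5.B 0 x = 0 := by
    intro x
    have h := T5.B_sl 0 0 x
    rwa [zero_smul, zero_mul] at h
  have B0r : ∀ x : V, T5.B x 0 = 0 := by
    intro x
    rw [T5.B_anti, B0l]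
  refine x10_claim h𝔪 h𝔫 n D H hF N hN D le_rfl ∅ Set.finite_empty
    (fun _ h => absurd h (Set.notMem_empty _)) (fun _ h => absurd h (Set.notMem_empty _)) f hf
    (LT_mono Set.subset_union_left hfT) hTD w' ?_ ?_
    (fun _ _ _ _ h => absurd h (Set.notMem_empty _))
  · intro i l l'
    rw [hw']
    beta_reduce
    split_ifs
    · exact hw i l l'
    · rw [T5.om_eq, B0r]
    · rw [T5.om_eq, B0l]
    · rw [T5.om_eq, B0l]
  · intro i l hl
    rw [hw']
    beta_reduce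
    rw [if_neg (by omega)]

end MP50e386O
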