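import Mathlib
import Pool.Agent.Lib.MP_50e386_al.O.XDefs
import Pool.Agent.Lib.MP_50e386_al.O.X2
import Pool.Agent.Lib.MP_50e386_al.O.X10

/-! Products of the ideals `nn(J)`. -/

namespace MP50e386O

open MvPolynomial Pool.Agent.Lib.MP50e386 MP50e386N

/-- products of elements of a generating set kill `f` -/
theorem span_pow_mul_mem {𝔫 : Ideal AA} (s : Set AA) (f : AA) (D : ℕ)
    (h : ∀ x : ℕ → AA, (∀ j < D, x j ∈ s) → (∏ j ∈ Finset.range D, x j) * f ∈ 𝔫) :
    ∀ c ∈ Ideal.span s ^ D, c * f ∈ 𝔫 := by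
  classical
  induction D generalizing f with
  | zero =>
    intro c _
    have h1 := h (fun _ => 0) (fun j hj => absurd hj (Nat.not_lt_zero j))
    rw [Finset.range_zero, Finset.prod_empty, one_mul] at h1
    exact Ideal.mul_mem_left _ _ h1
  | succ D ih =>
    intro c hc
    rw [pow_succ] at hc
    refine Submodule.mul_induction_on hc ?_ ?_
    · intro a ha b hb
      rw [mul_assoc]
      refine ih (b * f) ?_ a ha
      intro x hx
      have hb' : b ∈ Submodule.span AA s := hb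
      induction hb' using Submodule.span_induction with
      | mem b hb1 =>
        have h1 := h (fun j => if j < D then x j else b) (by
          intro j hj
          by_cases hjD : j < D
          · simp only [if_pos hjD]
            exact hx j hjD
          · simp only [if_neg hjD]
            exact hb1)
        rw [Finset.prod_range_succ, if_neg (lt_irrefl D)] at h1
        have h2 : ∏ j ∈ Finset.range D, (if j < D then x j else b) = ∏ j ∈ Finset.range D, x j := by
          refine Finset.prod_congr rfl fun j hj => ?_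
          rw [if_pos (Finset.mem_range.1 hj)]
        rw [h2, mul_assoc] at h1
        exact h1
      | zero => rw [zero_mul, mul_zero]; exact 𝔫.zero_mem
      | add b b' _ _ h1 h2 =>
        rw [add_mul, mul_add]
        exact 𝔫.add_mem (h1 ‹_›) (h2 ‹_›)
      | smul r b _ h1 =>
        have e : (∏ j ∈ Finset.range D, x j) * (r • b * f) = r * ((∏ j ∈ Finset.range D, x j) * (b * f)) := by
          rw [smul_eq_mul]; ring
        rw [e]
        exact Ideal.mul_mem_left _ _ (h1 ‹_›)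
    · intro a b ha hb
      rw [add_mul]
      exact 𝔫.add_mem ha hb

/-! ### helpers -/

private theorem x11_congr {T : Set ℕ} {a : AA} (ha : (C a : U AA) ∈ MP50e386N.LT AA T) (φ φ' : ℕ → V)
    (h : ∀ i ∈ T, φ i = φ' i) : sbR φ a = sbR φ' a := by
  have h1 := sbC_congr ha φ φ' h
  rw [sbC_C, sbC_C] at h1
  exact C_injective _ _ h1

private theorem x11_even {i j : ℕ} (hi : Even i) (hj : Even j) : om (ee i) (ee j) = 0 := by
  change osf (ee i) (ee j) = 0
  unfold osf
  rw [Finsupp.sum_single_index (by simp)]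
  rw [if_pos hi, one_mul, Finsupp.single_eq_of_ne]
  intro h
  have h1 : ¬ Even (i + 1) := by
    rw [Nat.even_add_one]
    exact not_not.2 hi
  exact h1 (h ▸ hj)

private theorem x11_evenl (v : V) {i : ℕ} (hi : Even i) (h : v (i + 1) = 0) : om (ee i) v = 0 := by
  change osf (ee i) v = 0
  unfold osf
  rw [Finsupp.sum_single_index (by simp), if_pos hi, one_mul, h]

private theorem x11_evenr (v : V) {i : ℕ} (hi : Even i) (h : v (i + 1) = 0) : om v (ee i) = 0 :=
  (osf_comm v (ee i)).trans (x11_evenl v hi h)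

/-- far even letters -/
private theorem x11_far {F₁ F₂ : Ideal AA} (h₂ : GLSI F₂) {H : AA} (hH : H ∈ F₂) {f : AA}
    (hf : f ∈ nnI F₁) : ∃ N : ℕ, ∀ y : ℕ → ℕ, (∀ l, Even (y l) ∧ N ≤ y l) →
      sbR (fun l => ee (y l)) H * f ∈ nnI (F₁ * F₂) := by
  classical
  have hf' : f ∈ Submodule.span AA {f | ∃ φ : ℕ → V, Iso φ ∧ ∃ g ∈ F₁, f = sbR φ g} := hf
  induction hf' using Submodule.span_induction with
  | mem f hf1 =>
    obtain ⟨φ, hφ, g, hg, rfl⟩ := hf1
    obtain ⟨m, hm⟩ := exists_LT (C g : U AA)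
    refine ⟨(Finset.range m).sup (fun i => (φ i).support.sup id) + 1, fun y hy => ?_⟩
    have hsupp : ∀ i < m, ∀ l, φ i (y l + 1) = 0 := by
      intro i hi l
      by_contra hne
      have h1 : y l + 1 ∈ (φ i).support := Finsupp.mem_support_iff.2 hne
      have h2 : y l + 1 ≤ (φ i).support.sup id := Finset.le_sup (f := id) h1
      have h3 : (φ i).support.sup id ≤ (Finset.range m).sup (fun i => (φ i).support.sup id) :=
        Finset.le_sup (f := fun i => (φ i).support.sup id) (Finset.mem_range.2 hi)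
      have h4 := (hy l).2
      omega
    set θ : ℕ → V := fun i => if i < m then φ i else ee (y (i - m)) with hθ
    have hθ1 : ∀ i, i < m → θ i = φ i := fun i hi => by simp only [hθ, if_pos hi]
    have hθ2 : ∀ l, θ (m + l) = ee (y l) := fun l => by
      have : ¬ (m + l < m) := by omega
      simp only [hθ, if_neg this, Nat.add_sub_cancel_left]
    have hIso : Iso θ := by
      intro i j
      rcases lt_or_ge i m with hi | hi
      · rcases lt_or_ge j m with hj | hj
        · rw [hθ1 i hi, hθ1 j hj]; exact hφ i j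
        · obtain ⟨l, rfl⟩ := Nat.exists_eq_add_of_le hj
          rw [hθ1 i hi, hθ2]
          exact x11_evenr _ (hy l).1 (hsupp i hi l)
      · obtain ⟨k, rfl⟩ := Nat.exists_eq_add_of_le hi
        rcases lt_or_ge j m with hj | hj
        · rw [hθ1 j hj, hθ2]
          exact x11_evenl _ (hy k).1 (hsupp j hj k)
        · obtain ⟨l, rfl⟩ := Nat.exists_eq_add_of_le hj
          rw [hθ2, hθ2]
          exact x11_even (hy k).1 (hy l).1
    have e0 : (fun l => linC θ (ee (m + l))) = fun l => ee (y l) := by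
      funext l
      rw [linC_ee, hθ2]
    have e1 : sbR θ (sbR (fun l => ee (m + l)) H) = sbR (fun l => ee (y l)) H := by
      rw [sbR_sbR, e0]
    have e2 : sbR θ g = sbR φ g := x11_congr hm θ φ (fun i hi => hθ1 i hi)
    have e3 : sbR (fun l => ee (y l)) H * sbR φ g = sbR θ (g * sbR (fun l => ee (m + l)) H) := by
      rw [map_mul, e1, e2, mul_comm]
    rw [e3]
    exact Ideal.subset_span ⟨θ, hIso, _, Ideal.mul_mem_mul hg (h₂ _ _ hH), rfl⟩
  | zero => exact ⟨0, fun y _ => by rw [mul_zero]; exact Ideal.zero_mem _⟩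
  | add f f' _ _ h1 h2 =>
    obtain ⟨N, hN⟩ := h1 ‹_›
    obtain ⟨N', hN'⟩ := h2 ‹_›
    refine ⟨max N N', fun y hy => ?_⟩
    rw [mul_add]
    exact Ideal.add_mem _ (hN y fun l => ⟨(hy l).1, (le_max_left _ _).trans (hy l).2⟩)
      (hN' y fun l => ⟨(hy l).1, (le_max_right _ _).trans (hy l).2⟩)
  | smul r f _ h1 =>
    obtain ⟨N, hN⟩ := h1 ‹_›
    refine ⟨N, fun y hy => ?_⟩
    rw [smul_eq_mul, mul_left_comm]
    exact Ideal.mul_mem_left _ _ (hN y hy)

private theorem x11_mulI {F₁ F₂ : Ideal AA} (h₁ : GLSI F₁) (h₂ : GLSI F₂) : GLSI (F₁ * F₂) :=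
  GLSI.mul h₁ h₂

/-- the hypothesis of `A_gen` -/
private theorem x11_key {F₁ F₂ : Ideal AA} (h₁ : GLSI F₁) (h₂ : GLSI F₂) {H : AA} (hH : H ∈ F₂)
    {f : AA} (hf : f ∈ nnI F₁) {T : Set ℕ} (hT : T.Finite)
    (hfT : (C f : U AA) ∈ MP50e386N.LT AA T) (w : ℕ → V) (hw : Iso w)
    (hwT : ∀ i, ∀ z ∈ T, om (w i) (ee z) = 0) : sbR w H * f ∈ nnI (F₁ * F₂) := by
  classical
  obtain ⟨N, hN⟩ := x11_far h₂ hH hf
  obtain ⟨m, hm⟩ := exists_LT (C H : U AA)
  obtain ⟨b, hb⟩ := hT.bddAbove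
  set K : ℕ := N + b + 1 with hK
  set y : ℕ → ℕ := fun l => 2 * (K + l) with hy
  have hyE : ∀ l, Even (y l) ∧ N ≤ y l := fun l => ⟨even_two_mul _, by simp only [hy, hK]; omega⟩
  have hyT : ∀ l, ∀ z ∈ T, z < y l := by
    intro l z hz
    have := hb hz
    simp only [hy, hK]
    omega
  have hmem := hN y hyE
  -- the substitution
  set φ : ℕ → V := fun i => if i ∈ T then ee i else w (i / 2 - K) with hφ
  have hφT : ∀ i ∈ T, φ i = ee i := fun i hi => by simp only [hφ, if_pos hi]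
  have hφy : ∀ l, φ (y l) = w l := by
    intro l
    have h1 : y l ∉ T := fun h => lt_irrefl _ (hyT l _ h)
    simp only [hφ, if_neg h1]
    congr 1
    simp only [hy]
    omega
  have hL1 : (C (sbR (fun l => ee (y l)) H) : U AA) ∈ MP50e386N.LT AA (y '' Set.Iio m) := by
    rw [← sbC_C]
    refine sbC_LT hm _ ?_
    intro i hi j hj
    have h1 : (ee (y i) : V) j ≠ 0 := hj
    by_cases h2 : j = y i
    · exact ⟨i, hi, h2.symm⟩
    · exact absurd (Finsupp.single_eq_of_ne h2) h1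
  have hL2 : (C (sbR (fun l => ee (y l)) H * f) : U AA) ∈
      MP50e386N.LT AA (y '' Set.Iio m ∪ T) := by
    rw [C_mul]
    exact mul_mem (LT_mono Set.subset_union_left hL1) (LT_mono Set.subset_union_right hfT)
  have hfin : (y '' Set.Iio m ∪ T).Finite := ((Set.finite_Iio m).image y).union hT
  have hfar : ∀ l, ∀ z ∈ T, om (ee (y l)) (ee z) = 0 := by
    intro l z hz
    refine x11_evenl _ (hyE l).1 (Finsupp.single_eq_of_ne ?_)
    have := hyT l z hz
    omega
  have hres := witt1I (nnI_GSI (x11_mulI h₁ h₂)) hmem hfin hL2 φ (by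
    rintro i (⟨l, -, rfl⟩ | hi) j (⟨l', -, rfl⟩ | hj)
    · rw [hφy, hφy, hw l l', x11_even (hyE l).1 (hyE l').1]
    · rw [hφy, hφT j hj, hwT l j hj, hfar l j hj]
    · rw [hφy, hφT i hi]
      exact (osf_comm _ _).trans ((hwT l' i hi).trans ((hfar l' i hi).symm.trans (osf_comm _ _)))
    · rw [hφT i hi, hφT j hj])
  rw [map_mul, sbR_sbR] at hres
  have e1 : (fun i => linC φ (ee (y i))) = w := by
    funext l
    rw [linC_ee, hφy]
  have e2 : sbR φ f = f := by
    rw [x11_congr hfT φ ee hφT, sbR_id]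
  rw [e1, e2] at hres
  exact hres

/-- `nn(F₂)^(D+1) f ⊆ nn(F₁ F₂)` for `f ∈ nn(F₁)` of weight at most `D` -/
theorem nn_prod_one {F₁ F₂ : Ideal AA} (h₁ : GLSI F₁) (h₂ : GLSI F₂) (D : ℕ) (f : AA)
    (hf : f ∈ nnI F₁) (hD : ∃ e ≤ D, HW e (C f : U AA)) :
    ∀ c ∈ nnI F₂ ^ (D + 1), c * f ∈ nnI (F₁ * F₂) := by
  classical
  obtain ⟨e, heD, hHW⟩ := hD
  obtain ⟨n, hn⟩ := exists_LT (C f : U AA)
  have hn2 : (C f : U AA) ∈ MP50e386N.LT AA (Set.Iio (2 * n)) :=
    LT_mono (Set.Iio_subset_Iio (by omega)) hn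
  have hTD : TD n D (C f : U AA) := TD_mono heD (TD_of_HW hHW)
  refine span_pow_mul_mem _ f (D + 1) ?_
  intro x hx
  have hx' : ∀ j, ∃ (w : ℕ → V) (H : AA), Iso w ∧ H ∈ F₂ ∧ (j < D + 1 → x j = sbR w H) := by
    intro j
    by_cases hj : j < D + 1
    · obtain ⟨w, hw, H, hH, h⟩ := hx j hj
      exact ⟨w, H, hw, hH, fun _ => h⟩
    · refine ⟨fun _ => 0, 0, fun _ _ => ?_, F₂.zero_mem, fun h => absurd h hj⟩
      simp [osf]
  choose w H hw hH hxe using hx'
  have hprod : ∏ j ∈ Finset.range (D + 1), x j = ∏ j ∈ Finset.range (D + 1), sbR (w j) (H j) :=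
    Finset.prod_congr rfl fun j hj => hxe j (Finset.mem_range.1 hj)
  rw [hprod]
  refine A_gen (nnI_GSI h₁) (nnI_GSI (x11_mulI h₁ h₂)) n D H ?_ f hf hn2 hTD w hw
  intro j _ Z hZ _ _ f' hf' hf'T _ w' hw' hw'T
  exact x11_key h₁ h₂ (hH j) hf' ((Set.finite_Iio _).union hZ) hf'T w' hw' hw'T

private theorem x11_det_GLSI (M N0 : ℕ) : GLSI (MP50e386.detIdeal M N0) := by
  intro φ f hf
  rw [sbR_eq_sub]
  exact MP50e386.detIdeal_stable M N0 φ f hf

private theorem x11_linC_smul (c : ℂ) (v : V) : linC (fun i => c • ee i) v = c • v := by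
  conv_rhs => rw [← linC_id v]
  unfold linC
  rw [Finsupp.linearCombination_apply, Finsupp.linearCombination_apply, Finsupp.smul_sum]
  refine Finsupp.sum_congr fun i _ => ?_
  rw [smul_comm]

private theorem x11_HW_Dl (M : ℕ) (w : Fin M → V) : HW (2 * M) (C (Dl w : AA) : U AA) := by
  intro c
  rw [sbC_C, sbR_Dl]
  have h1 := Dl_mat (R := AA) (c • (1 : Matrix (Fin M) (Fin M) ℂ)) w
  have h2 : (fun j => ∑ i, (c • (1 : Matrix (Fin M) (Fin M) ℂ)) i j • w i) = fun j => c • w j := by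
    funext j
    rw [Finset.sum_eq_single j]
    · rw [Matrix.smul_apply, Matrix.one_apply_eq, smul_eq_mul, mul_one]
    · intro i _ hij
      rw [Matrix.smul_apply, Matrix.one_apply_ne hij, smul_zero, zero_smul]
    · intro h
      exact absurd (Finset.mem_univ j) h
  rw [h2, Matrix.det_smul, Matrix.det_one, mul_one, Fintype.card_fin] at h1
  have h3 : (fun i => linC (fun i => c • ee i) (w i)) = fun j => c • w j := by
    funext j
    exact x11_linC_smul c (w j)
  rw [h3, h1, C_mul]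
  rw [← pow_mul, mul_comm M 2, Algebra.smul_def]
  rfl

private theorem x11_HW_pow {d : ℕ} {a : AA} (h : HW d (C a : U AA)) (k : ℕ) :
    HW (d * k) (C (a ^ k) : U AA) := by
  intro c
  have h1 := h c
  rw [sbC_C] at h1 ⊢
  rw [map_pow, C_pow, h1, smul_pow, ← pow_mul, C_pow]

/-- `nn(detIdeal) nn(F)^(D+1) ≤ nn(detIdeal · F)` -/
theorem nn_prod_det (M N0 : ℕ) {F : Ideal AA} (h : GLSI F) :
    nnI (MP50e386.detIdeal M N0) * nnI F ^ (2 * M * N0 + 1) ≤
      nnI (MP50e386.detIdeal M N0 * F) := by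
  rw [Ideal.mul_le]
  intro x hx c hc
  have hx' : x ∈ Submodule.span AA {f | ∃ w : Fin M → V, Iso w ∧ f = (Dl w : AA) ^ N0} := by
    rw [nnI_detIdeal] at hx
    exact hx
  induction hx' using Submodule.span_induction with
  | mem x hx1 =>
    obtain ⟨w, hw, rfl⟩ := hx1
    rw [mul_comm ((Dl w : AA) ^ N0) c]
    exact nn_prod_one (x11_det_GLSI M N0) h (2 * M * N0) _ hx
      ⟨2 * M * N0, le_rfl, x11_HW_pow (x11_HW_Dl M w) N0⟩ c hc
  | zero => rw [zero_mul]; exact Ideal.zero_mem _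
  | add x x' hx1 hx2 h1 h2 =>
    rw [add_mul]
    refine Ideal.add_mem _ (h1 ?_) (h2 ?_)
    · rw [nnI_detIdeal]; exact hx1
    · rw [nnI_detIdeal]; exact hx2
  | smul r x hx1 h1 =>
    rw [smul_eq_mul, mul_assoc]
    refine Ideal.mul_mem_left _ _ (h1 ?_)
    rw [nnI_detIdeal]; exact hx1

theorem nn_prod (r s a : ℕ) : ∃ b : ℕ,
    (nnI (MP50e386.detIdeal r (s + 1)) * nnI (MP50e386.detIdeal (r + 1) s)) ^ b ≤
      nnI ((MP50e386.detIdeal r (s + 1) * MP50e386.detIdeal (r + 1) s) ^ a) := by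
  set J' := MP50e386.detIdeal r (s + 1) with hJ'
  set J'' := MP50e386.detIdeal (r + 1) s with hJ''
  have g' : GLSI J' := x11_det_GLSI _ _
  have g'' : GLSI J'' := x11_det_GLSI _ _
  induction a with
  | zero => exact ⟨0, by rw [pow_zero, pow_zero, Ideal.one_eq_top, nnI_top]⟩
  | succ a ih =>
    obtain ⟨b, hb⟩ := ih
    have gF : GLSI ((J' * J'') ^ a) := GLSI.pow (x11_mulI g' g'') a
    have h1 := nn_prod_det (r + 1) s gF
    have h2 := nn_prod_det r (s + 1) (x11_mulI g'' gF)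
    set K' := 2 * (r + 1) * s + 1 with hK'
    set K := 2 * r * (s + 1) + 1 with hK
    set PQ := nnI J' * nnI J'' with hPQ
    have hP : PQ ≤ nnI J' := Ideal.mul_le_left
    have hQ : PQ ≤ nnI J'' := Ideal.mul_le_right
    refine ⟨1 + K * (1 + b * K'), ?_⟩
    have e : (J' * J'') ^ (a + 1) = J' * (J'' * (J' * J'') ^ a) := by
      rw [pow_succ']; ring
    rw [e]
    refine le_trans ?_ h2
    have h3 : PQ ^ (1 + b * K') ≤ nnI (J'' * (J' * J'') ^ a) := by
      refine le_trans ?_ h1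
      rw [pow_add, pow_one, pow_mul]
      exact Ideal.mul_mono hQ (Ideal.pow_right_mono hb K')
    rw [pow_add, pow_one, mul_comm K, pow_mul]
    exact Ideal.mul_mono hP (Ideal.pow_right_mono h3 K)

end MP50e386O
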