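import Mathlib
import Pool.Agent.Lib.MP_50e386_al.O.XDefs
import Pool.Agent.Lib.MP_50e386_al.O.X1
import Pool.Agent.Lib.MP_50e386_al.O.X2

/-! The key identity on isotropic vectors. -/

namespace MP50e386O

open MvPolynomial Pool.Agent.Lib.MP50e386 MP50e386N

private theorem x12_al (x y z : V) : om (x + y) z = om x z + om y z := by
  rw [T5.om_eq, T5.om_eq, T5.om_eq, T5.B_al]

private theorem x12_sl (c : ℂ) (x z : V) : om (c • x) z = c * om x z := by
  rw [T5.om_eq, T5.om_eq, T5.B_sl]

private theorem x12_ar (x y z : V) : om x (y + z) = om x y + om x z := by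
  rw [T5.om_eq, T5.om_eq, T5.om_eq, T5.B_ar]

private theorem x12_sr (c : ℂ) (x z : V) : om x (c • z) = c * om x z := by
  rw [T5.om_eq, T5.om_eq, T5.B_sr]

private theorem x12_xsl (a : ℂ) (y y' : VR AA) :
    (xf (a • y) y' : AA) = algebraMap ℂ AA a * xf y y' := by
  rw [← algebraMap_smul AA a y, map_smul, LinearMap.smul_apply, smul_eq_mul]

private theorem x12_xsr (a : ℂ) (y y' : VR AA) :
    (xf y (a • y') : AA) = algebraMap ℂ AA a * xf y y' := by
  rw [← algebraMap_smul AA a y', map_smul, smul_eq_mul]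

private theorem x12_pow (r s : ℕ) (u : Fin r → V) (c : V) (hu : ∀ i j, om (u i) (u j) = 0)
    (hc : ∀ i, om (u i) c = 0) (hcc : om c c = 0) :
    (Dl1 u c : AA) ^ (s + 1) ∈ nnI (Jd r s) := by
  have h := nnI_detIdeal (r + 1) (s + 1)
  unfold Jd
  rw [h]
  apply Ideal.subset_span
  refine ⟨Fin.snoc u c, ?_, rfl⟩
  intro i j
  refine Fin.lastCases ?_ (fun i' => ?_) i <;> refine Fin.lastCases ?_ (fun j' => ?_) j
  · rw [Fin.snoc_last]; exact hcc
  · rw [Fin.snoc_last, Fin.snoc_castSucc]
    exact (osf_comm _ _).trans (hc j')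
  · rw [Fin.snoc_last, Fin.snoc_castSucc]
    exact hc i'
  · rw [Fin.snoc_castSucc, Fin.snoc_castSucc]
    exact hu i' j'

private theorem x12_unit {J : Ideal AA} (z : ℂ) (hz : z ≠ 0) (x : AA)
    (h : algebraMap ℂ AA z * x ∈ J) : x ∈ J := by
  have h1 : x = algebraMap ℂ AA z⁻¹ * (algebraMap ℂ AA z * x) := by
    rw [← mul_assoc, ← map_mul, inv_mul_cancel₀ hz, map_one, one_mul]
  rw [h1]
  exact Ideal.mul_mem_left _ _ h

private theorem x12_coef {J : Ideal AA} (P : Polynomial AA)
    (h : ∀ t : ℂ, P.eval (algebraMap ℂ AA t) ∈ J) : P.derivative.eval 0 ∈ J := by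
  have h5 : P.coeff 1 ∈ (J.restrictScalars ℂ : Submodule ℂ AA) := by
    apply vand_poly
    have : {t : ℂ | P.eval (algebraMap ℂ AA t) ∈ (J.restrictScalars ℂ : Submodule ℂ AA)} =
        Set.univ := by
      ext t
      simp only [Set.mem_univ, iff_true]
      exact h t
    rw [this]
    exact Set.infinite_univ
  have h7 := Polynomial.coeff_derivative P 0
  rw [Nat.cast_zero, zero_add, zero_add, mul_one] at h7
  rw [← Polynomial.coeff_zero_eq_eval_zero, h7]
  exact h5

/-- the key identity on isotropic vectors -/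
theorem KI_iso (r s : ℕ) (u : Fin r → V) (a b : V) (hu : ∀ i j, om (u i) (u j) = 0)
    (hua : ∀ i, om (u i) a = 0) (hub : ∀ i, om (u i) b = 0) (haa : om a a = 0)
    (hab : om a b = 0) (hbb : om b b = 0) :
    (Dl1 u a : AA) ^ s * xf (til u a) (cst b) ∈ nnI (Jd r s) := by
  set A : AA := Dl1 u a with hA
  set B : AA := xf (til u a) (cst b) with hB
  set D : AA := Dl1 u b with hD
  set Q : Polynomial AA := Polynomial.C A + Polynomial.C (2 * B) * Polynomial.X +
    Polynomial.C D * Polynomial.X ^ 2 with hQ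
  have h2 : ∀ t : ℂ, (Q ^ (s + 1)).eval (algebraMap ℂ AA t) ∈ nnI (Jd r s) := by
    intro t
    have h3 := x12_pow r s u (a + t • b) hu
      (fun i => by rw [x12_ar, x12_sr, hua, hub, mul_zero, add_zero])
      (by
        rw [x12_ar, x12_al, x12_al, x12_sr, x12_sr, x12_sl, x12_sl, haa, hab, hbb,
          show om b a = 0 from (osf_comm _ _).trans hab]
        ring)
    rw [Dl1_add] at h3
    rw [Polynomial.eval_pow]
    have h4 : Q.eval (algebraMap ℂ AA t) =
        Dl1 u a + (2 * t) • (xf (til u a) (cst b) : AA) + t ^ 2 • Dl1 u b := by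
      rw [hQ]
      simp only [Polynomial.eval_add, Polynomial.eval_mul, Polynomial.eval_C, Polynomial.eval_X,
        Polynomial.eval_pow, Polynomial.eval_ofNat, Algebra.smul_def, map_mul, map_pow, map_ofNat]
      rw [hA, hB, hD]
      ring
    rw [h4]
    exact h3
  have h5 := x12_coef (Q ^ (s + 1)) h2
  have h8 : Q.eval 0 = A := by
    rw [hQ]; simp
  have h9 : Q.derivative.eval 0 = 2 * B := by
    rw [hQ]; simp
  rw [Polynomial.derivative_pow_succ, Polynomial.eval_mul, Polynomial.eval_mul,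
    Polynomial.eval_pow, h8, h9, Polynomial.eval_C] at h5
  refine x12_unit (((s : ℂ) + 1) * 2) ?_ _ ?_
  · have : ((s : ℂ) + 1) ≠ 0 := Nat.cast_add_one_ne_zero s
    exact mul_ne_zero this (by norm_num)
  · have h10 : algebraMap ℂ AA (((s : ℂ) + 1) * 2) * (A ^ s * B) =
        ((s + 1 : ℕ) : AA) * A ^ s * (2 * B) := by
      rw [map_mul, map_add, map_natCast, map_one, map_ofNat]
      push_cast
      ring
    rw [h10]
    exact_mod_cast h5

/-- the hyperbolic pairs give the same value -/
theorem KI_hyp (r s : ℕ) (u : Fin r → V) (a a' b b' : V) (hu : ∀ i j, om (u i) (u j) = 0)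
    (h1 : ∀ i, om (u i) a = 0) (h1' : ∀ i, om (u i) a' = 0) (h2 : ∀ i, om (u i) b = 0)
    (h2' : ∀ i, om (u i) b' = 0) (haa : om a a = 0) (ha'a' : om a' a' = 0) (hbb : om b b = 0)
    (hb'b' : om b' b' = 0) (haa' : om a a' = 1) (hbb' : om b b' = 1) (hab : om a b = 0)
    (hab' : om a b' = 0) (ha'b : om a' b = 0) (ha'b' : om a' b' = 0) :
    (Dl1 u a : AA) ^ s * Dl1 u b ^ s * (xf (til u a) (cst a') - xf (til u b) (cst b')) ∈
      nnI (Jd r s) := by
  have hba : om b a = 0 := (osf_comm _ _).trans hab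
  have hba' : om b a' = 0 := (osf_comm _ _).trans ha'b
  have hb'a' : om b' a' = 0 := (osf_comm _ _).trans ha'b'
  set A : AA := Dl1 u a with hA
  set E : AA := xf (til u a) (cst b) with hE
  set G : AA := Dl1 u b with hG
  set x1 : AA := xf (til u a) (cst a') with hx1
  set x2 : AA := xf (til u b) (cst b') with hx2
  set x3 : AA := xf (til u a) (cst b') with hx3
  set x4 : AA := xf (til u b) (cst a') with hx4
  set Q : Polynomial AA := Polynomial.C A + Polynomial.C (2 * E) * Polynomial.X +
    Polynomial.C G * Polynomial.X ^ 2 with hQ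
  set L : Polynomial AA := Polynomial.C (-x3) + Polynomial.C (x1 - x2) * Polynomial.X +
    Polynomial.C x4 * Polynomial.X ^ 2 with hL
  have hv : ∀ t : ℂ, (Q ^ s * L).eval (algebraMap ℂ AA t) ∈ nnI (Jd r s) := by
    intro t
    have h3 := KI_iso r s u (a + t • b) (t • a' + (-1 : ℂ) • b') hu
      (fun i => by rw [x12_ar, x12_sr, h1, h2, mul_zero, add_zero])
      (fun i => by rw [x12_ar, x12_sr, x12_sr, h1', h2', mul_zero, mul_zero, add_zero])
      (by
        rw [x12_ar, x12_al, x12_al, x12_sr, x12_sr, x12_sl, x12_sl, haa, hab, hbb, hba]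
        ring)
      (by
        simp only [x12_ar, x12_al, x12_sr, x12_sl]
        rw [haa', hbb', hab', hba']
        ring)
      (by
        simp only [x12_ar, x12_al, x12_sr, x12_sl]
        rw [ha'a', hb'b', ha'b', hb'a']
        ring)
    rw [Dl1_add, til_add, til_smul] at h3
    have h4 : Q.eval (algebraMap ℂ AA t) =
        Dl1 u a + (2 * t) • (xf (til u a) (cst b) : AA) + t ^ 2 • Dl1 u b := by
      rw [hQ]
      simp only [Polynomial.eval_add, Polynomial.eval_mul, Polynomial.eval_C, Polynomial.eval_X,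
        Polynomial.eval_pow, Polynomial.eval_ofNat, Algebra.smul_def, map_mul, map_pow, map_ofNat]
      rw [hA, hE, hG]
      ring
    have h5 : L.eval (algebraMap ℂ AA t) =
        xf (til u a + t • til u b) (cst (t • a' + (-1 : ℂ) • b')) := by
      rw [hL]
      rw [map_add (cst : V →ₗ[ℂ] VR AA), map_smul (cst : V →ₗ[ℂ] VR AA),
        map_smul (cst : V →ₗ[ℂ] VR AA)]
      simp only [Polynomial.eval_add, Polynomial.eval_mul, Polynomial.eval_C, Polynomial.eval_X,
        Polynomial.eval_pow, Polynomial.eval_neg, map_add, LinearMap.add_apply, x12_xsl, x12_xsr,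
        map_neg, map_one]
      rw [hx1, hx2, hx3, hx4]
      ring
    rw [Polynomial.eval_mul, Polynomial.eval_pow, h4, h5]
    exact h3
  have h5 := x12_coef (Q ^ s * L) hv
  have h8 : Q.eval 0 = A := by
    rw [hQ]; simp
  have h9 : Q.derivative.eval 0 = 2 * E := by
    rw [hQ]; simp
  have h10 : L.eval 0 = -x3 := by
    rw [hL]; simp
  have h11 : L.derivative.eval 0 = x1 - x2 := by
    rw [hL]; simp
  rw [Polynomial.derivative_mul, Polynomial.derivative_pow, Polynomial.eval_add,
    Polynomial.eval_mul, Polynomial.eval_mul, Polynomial.eval_mul, Polynomial.eval_mul,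
    Polynomial.eval_pow, Polynomial.eval_pow, h8, h9, h10, h11, Polynomial.eval_C] at h5
  have h12 : G ^ s * E ∈ nnI (Jd r s) := by
    have h13 := KI_iso r s u b a hu h2 h1 hbb hba haa
    rw [xf_til_comm u b a] at h13
    exact h13
  have h14 : A ^ s * G ^ s * (x1 - x2) =
      G ^ s * ((s : AA) * A ^ (s - 1) * (2 * E) * -x3 + A ^ s * (x1 - x2)) +
        (s : AA) * A ^ (s - 1) * 2 * x3 * (G ^ s * E) := by ring
  rw [h14]
  exact Ideal.add_mem _ (Ideal.mul_mem_left _ _ h5) (Ideal.mul_mem_left _ _ h12)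

end MP50e386O
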