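import Mathlib
import Pool.Agent.Lib.MP_50e386_al.O.XDefs
import Pool.Agent.Lib.MP_50e386_al.O.X1
import Pool.Agent.Lib.MP_50e386_al.O.X2

/-! `K_J` and the scaling of letters. -/

namespace MP50e386O

open MvPolynomial Pool.Agent.Lib.MP50e386 MP50e386N

private theorem X12b_om_ee (k : ℕ) (y : V) :
    om (ee k) y = if Even k then y (k + 1) else y (k - 1) := by
  change osf (Finsupp.single k 1) y = _
  unfold osf
  rw [Finsupp.sum_single_index]
  · split_ifs <;> simp
  · split_ifs <;> simp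

private theorem X12b_om_smul_ee (a b : ℂ) (i j : ℕ) :
    om (a • ee i) (b • ee j) = a * b * om (ee i) (ee j) := by
  have e : ∀ (a : ℂ) (i : ℕ) (y : V), om (a • ee i) y = a * om (ee i) y := by
    intro a i y
    rw [X12b_om_ee, show (a • ee i : V) = Finsupp.single i a by
      rw [ee, Finsupp.smul_single, smul_eq_mul, mul_one]]
    change osf (Finsupp.single i a) y = _
    unfold osf
    rw [Finsupp.sum_single_index]
    · split_ifs <;> simp
    · split_ifs <;> simp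
  rw [e, mul_assoc]
  congr 1
  rw [X12b_om_ee, X12b_om_ee]
  split_ifs
  · rw [Finsupp.smul_apply, smul_eq_mul]
  · rw [Finsupp.smul_apply, smul_eq_mul]

/-- letters `< 2n` are orthogonal to the letters `≥ 2n` -/
private theorem X12b_om_TZ {n i j : ℕ} (hi : i < 2 * n) (hj : 2 * n ≤ j) :
    om (ee i) (ee j) = 0 := by
  rw [X12b_om_ee]
  simp only [ee, Finsupp.single_apply]
  split_ifs with h1 h2 h2
  · obtain ⟨k, hk⟩ := h1
    omega
  · rfl
  · omega
  · rfl

private theorem X12b_scT (n : ℕ) (c : ℂ) (i : ℕ) :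
    scT n c i = (if i < 2 * n then c else 1) • ee i := by
  unfold scT
  split_ifs
  · rfl
  · rw [one_smul]

private theorem X12b_om_scT (n : ℕ) (Z : Set ℕ) (hZ : ∀ z ∈ Z, 2 * n ≤ z)
    (hZi : ∀ z ∈ Z, ∀ z' ∈ Z, om (ee z) (ee z') = 0) (c : ℂ) (i : ℕ)
    (hi : i ∈ Set.Iio (2 * n) ∪ Z) (j : ℕ) (hj : j ∈ Set.Iio (2 * n) ∪ Z) :
    om (scT n c i) (scT n c j) = c ^ 2 * om (ee i) (ee j) := by
  rw [X12b_scT, X12b_scT, X12b_om_smul_ee]
  rcases hi with hi | hi <;> rcases hj with hj | hj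
  · rw [if_pos (Set.mem_Iio.1 hi), if_pos (Set.mem_Iio.1 hj)]; ring
  · rw [X12b_om_TZ (Set.mem_Iio.1 hi) (hZ j hj)]; ring
  · have h1 : om (ee i) (ee j) = 0 := by
      have := osf_comm (ee i) (ee j)
      rw [show om (ee i) (ee j) = osf (ee i) (ee j) from rfl, this]
      exact X12b_om_TZ (Set.mem_Iio.1 hj) (hZ i hi)
    rw [h1]; ring
  · rw [hZi i hi j hj]; ring

private theorem X12b_cst_single (i : ℕ) (a : ℂ) : (cst (Finsupp.single i a) : VR AA) =
    Finsupp.single i (algebraMap ℂ AA a) := by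
  simp [cst]

private theorem X12b_tauA_alg (c : ℂ) : tauA (algebraMap ℂ AA c) =
    Polynomial.C (algebraMap ℂ AA c) := by
  rw [AlgHom.commutes]
  rfl

private theorem X12b_tauU_zf (a : ℕ) (v : V) :
    tauU (zf a (cst v : VR AA)) = Polynomial.C (zf a (cst v : VR AA)) := by
  induction v using Finsupp.induction_linear with
  | zero => rw [map_zero, map_zero, map_zero, map_zero]
  | add v w hv hw => rw [map_add, map_add, map_add, map_add, hv, hw]
  | single i c =>
    rw [X12b_cst_single, zf_single, tauU_smul, tauU_X, X12b_tauA_alg, Polynomial.map_C,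
      ← Polynomial.C_mul, MvPolynomial.smul_eq_C_mul]

/-- equivariance of `τ` on elements with letters in `T`; only the form on `T` matters -/
private theorem X12b_equiv (φ : ℕ → V) (μ : ℂ) (T : Set ℕ)
    (h : ∀ i ∈ T, ∀ j ∈ T, om (φ i) (φ j) = μ * om (ee i) (ee j)) (f : U AA)
    (hf : f ∈ MP50e386N.LT AA T) : tauU (sbC φ f) = actP φ μ (tauU f) := by
  induction hf using Algebra.adjoin_induction with
  | mem f hf =>
    rcases hf with ⟨i, hi, j, hj, rfl⟩ | ⟨a, i, hi, rfl⟩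
    · rw [sbC_C, ← xv_ee, sb_x_cst, linC_ee, linC_ee, tauU_C, tauA_xv, tauU_C, tauA_xv,
        h i hi j hj]
      unfold actP
      simp only [Polynomial.map_add, Polynomial.map_mul, Polynomial.map_C, Polynomial.map_X,
        map_add, map_mul, Polynomial.coe_eval₂RingHom, Polynomial.eval₂_C, Polynomial.eval₂_X,
        RingHom.comp_apply]
      have e2 : ∀ c : ℂ, sbC φ (C (C c) : U AA) = C (C c) := by
        intro c
        rw [sbC_C]
        exact congrArg C ((sbR φ : AA →ₐ[ℂ] AA).commutes c)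
      have e3 : (algebraMap ℂ (U AA)) μ = C (C μ) := rfl
      rw [e2, e3, sbC_C, sb_x_cst, linC_ee, linC_ee]
      ring
    · rw [sbC_X, tauU_X, X12b_tauU_zf]
      unfold actP
      simp only [Polynomial.coe_eval₂RingHom, Polynomial.eval₂_C, RingHom.comp_apply]
      rw [sbC_X]
  | algebraMap r =>
    have e1 : (algebraMap ℂ (U AA) r) = C (algebraMap ℂ AA r) := rfl
    rw [e1, sbC_C, AlgHom.commutes, tauU_C, X12b_tauA_alg, Polynomial.map_C]
    unfold actP
    simp only [Polynomial.coe_eval₂RingHom, Polynomial.eval₂_C, RingHom.comp_apply]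
    rw [sbC_C, AlgHom.commutes]
  | add f g _ _ hf hg => rw [map_add, map_add, map_add, map_add, hf, hg]
  | mul f g _ _ hf hg => rw [map_mul, map_mul, map_mul, map_mul, hf, hg]

private theorem X12b_coeff (φ : ℕ → V) (μ : ℂ) (T : Set ℕ)
    (h : ∀ i ∈ T, ∀ j ∈ T, om (φ i) (φ j) = μ * om (ee i) (ee j)) (a : AA)
    (ha : (C a : U AA) ∈ MP50e386N.LT AA T) (k : ℕ) :
    (tauA (sbR φ a)).coeff k = μ ^ k • sbR φ ((tauA a).coeff k) := by
  have h1 := X12b_equiv φ μ T h (C a) ha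
  rw [sbC_C, tauU_C, tauU_C] at h1
  have h2 := congrArg (fun P => Polynomial.coeff P k) h1
  beta_reduce at h2
  rw [Polynomial.coeff_map, actP_coeff, Polynomial.coeff_map, sbC_C] at h2
  have h3 : (C (μ ^ k • sbR φ ((tauA a).coeff k)) : U AA) =
      μ ^ k • C (sbR φ ((tauA a).coeff k)) := by
    rw [Algebra.smul_def, map_mul, Algebra.smul_def]
    rfl
  exact C_injective _ _ (h2.trans h3.symm)

/-- `K_J` is stable under scaling of the letters in `T` on elements with letters in `T ∪ Z` -/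
theorem KK_scT {J : Ideal AA} (hJ : GLSI J) (n : ℕ) (Z : Set ℕ) (hZ : ∀ z ∈ Z, 2 * n ≤ z)
    (hZi : ∀ z ∈ Z, ∀ z' ∈ Z, om (ee z) (ee z') = 0) (f : AA) (hf : f ∈ KK J)
    (hfT : (C f : U AA) ∈ MP50e386N.LT AA (Set.Iio (2 * n) ∪ Z)) (c : ℂ) :
    sbR (scT n c) f ∈ KK J := by
  rw [mem_KK] at hf ⊢
  intro k
  rw [X12b_coeff (scT n c) (c ^ 2) (Set.Iio (2 * n) ∪ Z) (X12b_om_scT n Z hZ hZi c) f hfT k]
  exact (J.restrictScalars ℂ).smul_mem _ (hJ _ _ (hf k))

/-- the `T`-homogeneous components of elements of `K_J` -/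
theorem KK_comp {J : Ideal AA} (hJ : GLSI J) (n D : ℕ) (Z : Set ℕ) (hZ : ∀ z ∈ Z, 2 * n ≤ z)
    (hZi : ∀ z ∈ Z, ∀ z' ∈ Z, om (ee z) (ee z') = 0) (f : AA) (hf : f ∈ KK J)
    (hfT : (C f : U AA) ∈ MP50e386N.LT AA (Set.Iio (2 * n) ∪ Z)) (hD : TD n D (C f : U AA)) :
    ∃ g : ℕ → AA, f = ∑ d ∈ Finset.range (D + 1), g d ∧
      ∀ d, g d ∈ KK J ∧ (C (g d) : U AA) ∈ MP50e386N.LT AA (Set.Iio (2 * n) ∪ Z) ∧
        ∀ c : ℂ, sbC (scT n c) (C (g d) : U AA) = c ^ d • (C (g d) : U AA) := by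
  obtain ⟨G, hfG, hG⟩ := hD
  have hexp : ∀ c : ℂ, sbC (scT n c) (C f : U AA) = ∑ d ∈ Finset.range (D + 1), c ^ d • G d := by
    intro c
    conv_lhs => rw [hfG]
    rw [map_sum]
    exact Finset.sum_congr rfl fun d _ => hG d c
  have hinf : ∀ P : ℂ → Prop, (∀ c, P c) → {c : ℂ | P c}.Infinite := by
    intro P hP
    have : {c : ℂ | P c} = Set.univ := Set.eq_univ_of_forall hP
    rw [this]
    exact Set.infinite_univ
  have h1 : ∀ d < D + 1, G d ∈ ((KK J).restrictScalars ℂ).map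
      (IsScalarTower.toAlgHom ℂ AA (U AA)).toLinearMap := by
    refine vand1 _ (D + 1) G (hinf _ fun c => ?_)
    rw [← hexp c, sbC_C]
    exact ⟨_, KK_scT hJ n Z hZ hZi f hf hfT c, rfl⟩
  have h2 : ∀ d < D + 1, G d ∈ Subalgebra.toSubmodule
      (MP50e386N.LT AA (Set.Iio (2 * n) ∪ Z)) := by
    refine vand1 (Subalgebra.toSubmodule (MP50e386N.LT AA (Set.Iio (2 * n) ∪ Z))) (D + 1) G
      (hinf _ fun c => ?_)
    rw [← hexp c]
    refine sbC_LT hfT _ ?_
    intro i hi j hj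
    have : j = i := by
      by_contra hne
      apply hj
      rw [X12b_scT, Finsupp.smul_apply, ee, Finsupp.single_eq_of_ne hne, smul_zero]
    rw [this]
    exact hi
  have h3 : ∀ d, ∃ a : AA, a ∈ KK J ∧ (d < D + 1 → (C a : U AA) = G d) ∧
      (¬ d < D + 1 → a = 0) := by
    intro d
    by_cases hd : d < D + 1
    · obtain ⟨a, ha, hae⟩ := h1 d hd
      exact ⟨a, ha, fun _ => hae, fun h => absurd hd h⟩
    · exact ⟨0, Ideal.zero_mem _, fun h => absurd h hd, fun _ => rfl⟩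
  choose g hg1 hg2 hg3 using h3
  refine ⟨g, ?_, fun d => ⟨hg1 d, ?_, ?_⟩⟩
  · apply C_injective (ℕ × ℕ) AA
    rw [hfG, map_sum]
    exact Finset.sum_congr rfl fun d hd => (hg2 d (Finset.mem_range.1 hd)).symm
  · by_cases hd : d < D + 1
    · rw [hg2 d hd]
      exact h2 d hd
    · rw [hg3 d hd, map_zero]
      exact Subalgebra.zero_mem _
  · intro c
    by_cases hd : d < D + 1
    · rw [hg2 d hd]
      exact hG d c
    · rw [hg3 d hd, map_zero, map_zero, smul_zero]

end MP50e386O
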