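import Mathlib
import Pool.Agent.Lib.MP_50e386_al.N.C6
import Pool.Agent.Lib.MP_50e386_al.N.CDefs
import Pool.Agent.Lib.MP_50e386_al.N.T1
import Pool.Agent.Lib.MP_50e386_al.N.T2
import Pool.Agent.Lib.MP_50e386_al.N.Q1
import Pool.Agent.Lib.MP_50e386_al.O.T5
import Pool.Agent.Lib.MP_50e386_al.O.T8
import Pool.Agent.Lib.MP_50e386_al.O.W
import Pool.Agent.Lib.MP_50e386_al.O.XDefs
import Pool.Agent.Lib.MP_50e386_al.O.X2
import Pool.Agent.Lib.MP_50e386_al.O.X12
import Pool.Agent.Lib.MP_50e386_al.O.X12b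

/-! (F) for `K_J`. -/

namespace MP50e386O

open MvPolynomial Pool.Agent.Lib.MP50e386 MP50e386N

section
variable {R : Type} [CommRing R] [Algebra ℂ R] [GLRing R]

private theorem X13_om_div {i j : ℕ} (h : i / 2 ≠ j / 2) : om (ee i) (ee j) = 0 := by
  rw [T5.om_eq, T5.B_ee]
  unfold _root_.MP50e386.gam _root_.MP50e386.pis
  rw [if_neg]
  split_ifs with hi
  · obtain ⟨k, hk⟩ := hi
    omega
  · rw [Nat.not_even_iff_odd] at hi
    obtain ⟨k, hk⟩ := hi
    omega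

private theorem X13_om_even {i j : ℕ} (hi : Even i) (hj : Even j) : om (ee i) (ee j) = 0 := by
  rw [T5.om_eq, T5.B_ee]
  unfold _root_.MP50e386.gam _root_.MP50e386.pis
  rw [if_neg]
  rw [if_pos hi]
  obtain ⟨k, hk⟩ := hi
  obtain ⟨l, hl⟩ := hj
  omega

private theorem X13_om_anti (x y : V) (h : om x y = 0) : om y x = 0 := by
  rw [T5.om_eq] at h ⊢
  rw [T5.B_anti, h]

private theorem X13_x_LT {T : Set ℕ} {i j : ℕ} (hi : i ∈ T) (hj : j ∈ T) :
    (C (xv (ee i) (ee j) : R) : U R) ∈ MP50e386N.LT R T := by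
  rw [xv_ee]
  exact Algebra.subset_adjoin (Or.inl ⟨i, hi, j, hj, rfl⟩)

private theorem X13_Dl_LT {m : ℕ} (T : Set ℕ) (v : Fin m → ℕ) (hv : ∀ i, v i ∈ T) :
    (C (Dl (fun i => ee (v i)) : R) : U R) ∈ MP50e386N.LT R T := by
  unfold Dl
  rw [Matrix.det_apply', map_sum]
  refine Subalgebra.sum_mem _ fun σ _ => ?_
  rw [map_mul, map_prod, map_intCast]
  refine Subalgebra.mul_mem _ (Subalgebra.intCast_mem _ _) ?_
  refine Subalgebra.prod_mem _ fun i _ => ?_
  exact X13_x_LT (hv _) (hv _)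

private theorem X13_Dl1_LT {m : ℕ} (T : Set ℕ) (v : Fin m → ℕ) (hv : ∀ i, v i ∈ T) (c : ℕ)
    (hc : c ∈ T) : (C (Dl1 (fun i => ee (v i)) (ee c) : R) : U R) ∈ MP50e386N.LT R T := by
  have h1 : (Fin.snoc (fun i => ee (v i)) (ee c) : Fin (m + 1) → V) =
      fun i => ee ((Fin.snoc v c : Fin (m + 1) → ℕ) i) := by
    exact (Fin.comp_snoc (fun i => ee i) v c).symm
  unfold Dl1
  rw [h1]
  refine X13_Dl_LT T _ fun i => ?_
  refine Fin.lastCases ?_ (fun j => ?_) i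
  · rw [Fin.snoc_last]; exact hc
  · rw [Fin.snoc_castSucc]; exact hv j

private theorem X13_hh_LT {r k s q : ℕ} (T : Set ℕ) (v : Fin r → ℕ) (hv : ∀ i, v i ∈ T)
    (c : Fin k → ℕ) (hc : ∀ i, c i ∈ T) :
    (C (hh s q (fun i => ee (v i)) (fun j => ee (c j)) : R) : U R) ∈ MP50e386N.LT R T := by
  unfold hh Ek
  rw [map_mul, map_prod, map_pow]
  refine Subalgebra.mul_mem _ (Subalgebra.prod_mem _ fun j _ => ?_)
    (Subalgebra.pow_mem _ (X13_Dl_LT T v hv) _)
  rw [map_pow]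
  exact Subalgebra.pow_mem _ (X13_Dl1_LT T v hv _ (hc j)) _

private theorem X13_bound {T : Set ℕ} (hT : T.Finite) : ∃ N : ℕ, ∀ z ∈ T, z < N := by
  obtain ⟨N, hN⟩ := hT.bddAbove
  exact ⟨N + 1, fun z hz => Nat.lt_succ_of_le (hN hz)⟩

/-- it is enough to know (F) for fresh letters of even index -/
private theorem X13_F_of_letters {r s k q n : ℕ} (Nn : Submodule R (U R)) (hNn : GS Nn)
    (Z : Set ℕ) (hZf : Z.Finite) (f : U R) (hfT : f ∈ MP50e386N.LT R (Set.Iio (2 * n) ∪ Z)) (B : ℕ)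
    (h : ∀ w : Fin r ⊕ Fin k → ℕ, Function.Injective w → (∀ i, B ≤ w i ∧ Even (w i)) →
      (hh s q (fun i => ee (w (Sum.inl i))) (fun j => ee (w (Sum.inr j))) : R) • f ∈ Nn)
    (u : Fin r → V) (b : Fin k → V) (hub : Iso (Sum.elim u b))
    (hT : ∀ i, ∀ z ∈ Set.Iio (2 * n) ∪ Z, om (Sum.elim u b i) (ee z) = 0) :
    (hh s q u b : R) • f ∈ Nn := by
  classical
  have hfin : (Set.Iio (2 * n) ∪ Z).Finite := (Set.finite_Iio _).union hZf
  obtain ⟨N0, hN0⟩ := X13_bound hfin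
  obtain ⟨L, hL⟩ : ∃ L : Fin r ⊕ Fin k → ℕ, ∀ i, L i = 2 * (N0 + B + (finSumFinEquiv i : ℕ)) :=
    ⟨_, fun i => rfl⟩
  have hinj : Function.Injective L := by
    intro i j hij
    rw [hL, hL] at hij
    exact finSumFinEquiv.injective (Fin.ext (by omega))
  have hev : ∀ i, Even (L i) := fun i => by rw [hL]; exact even_two_mul _
  have hge : ∀ i, N0 + B ≤ L i := fun i => by rw [hL]; omega
  obtain ⟨φ, hφ1, hφ2⟩ : ∃ φ : ℕ → V, (∀ i, φ (L i) = Sum.elim u b i) ∧
      ∀ j ∈ Set.Iio (2 * n) ∪ Z, φ j = ee j := by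
    refine ⟨fun j => if h : ∃ i, L i = j then Sum.elim u b h.choose else ee j, fun i => ?_,
      fun j hj => ?_⟩
    · have hi : ∃ i', L i' = L i := ⟨i, rfl⟩
      beta_reduce
      rw [dif_pos hi, hinj hi.choose_spec]
    · beta_reduce
      rw [dif_neg]
      rintro ⟨i, hi⟩
      have h1 := hN0 j hj
      have h2 := hge i
      omega
  have h1 := h L hinj (fun i => ⟨by have := hge i; omega, hev i⟩)
  have hTfin : ((Set.Iio (2 * n) ∪ Z) ∪ Set.range L).Finite := hfin.union (Set.finite_range _)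
  have hLT : (hh s q (fun i => ee (L (Sum.inl i))) (fun j => ee (L (Sum.inr j))) : R) • f ∈
      MP50e386N.LT R ((Set.Iio (2 * n) ∪ Z) ∪ Set.range L) := by
    rw [smul_eq_C_mul]
    refine Subalgebra.mul_mem _ (X13_hh_LT _ (fun i => L (Sum.inl i)) (fun i => Or.inr ⟨_, rfl⟩)
      (fun i => L (Sum.inr i)) (fun i => Or.inr ⟨_, rfl⟩)) (LT_mono Set.subset_union_left hfT)
  have hfar : ∀ i, ∀ z ∈ Set.Iio (2 * n) ∪ Z, om (ee (L i)) (ee z) = 0 := by
    intro i z hz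
    refine X13_om_div ?_
    have h1 := hN0 z hz
    rw [hL]
    omega
  have h2 := witt1 hNn h1 hTfin hLT φ (by
    rintro i (hi | ⟨i, rfl⟩) j (hj | ⟨j, rfl⟩)
    · rw [hφ2 i hi, hφ2 j hj]
    · rw [hφ2 i hi, hφ1, X13_om_anti _ _ (hT j i hi), X13_om_anti _ _ (hfar j i hi)]
    · rw [hφ2 j hj, hφ1, hT i j hj, hfar i j hj]
    · rw [hφ1, hφ1, hub i j, X13_om_even (hev i) (hev j)])
  rw [sbC_smul, sbR_hh, sbC_congr hfT φ ee hφ2, sbC_id] at h2
  simp only [linC_ee, hφ1, Sum.elim_inl, Sum.elim_inr] at h2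
  exact h2

omit [GLRing R] in
private theorem X13_top (N : Submodule R (U R)) (s : ℕ) (A B C' E : R) (f : U R)
    (h : ∀ t : ℂ, (E * (A + (2 * t) • B + t ^ 2 • C') ^ s) • f ∈ N) :
    (E * C' ^ s) • f ∈ N := by
  obtain ⟨P, hP⟩ : ∃ P : Polynomial (U R), P = Polynomial.C (C E * f) *
    (Polynomial.C (C A) + Polynomial.C (C (2 * B)) * Polynomial.X +
      Polynomial.C (C C') * Polynomial.X ^ 2) ^ s := ⟨_, rfl⟩
  have h1 : ∀ t : ℂ, P.eval (algebraMap ℂ (U R) t) =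
      (E * (A + (2 * t) • B + t ^ 2 • C') ^ s) • f := by
    intro t
    rw [hP]
    simp only [Polynomial.eval_mul, Polynomial.eval_C, Polynomial.eval_pow, Polynomial.eval_add,
      Polynomial.eval_X]
    have e0 : (C (E * (A + (2 * t) • B + t ^ 2 • C') ^ s) : U R) =
        C E * (C A + C ((2 * t) • B) + C (t ^ 2 • C')) ^ s := by
      rw [MvPolynomial.C_mul, MvPolynomial.C_pow, MvPolynomial.C_add, MvPolynomial.C_add]
    have e : (algebraMap ℂ (U R) t) = C (algebraMap ℂ R t) := rfl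
    rw [smul_eq_C_mul, e0, e]
    have e1 : (C ((2 * t) • B) : U R) = C (2 * B) * C (algebraMap ℂ R t) := by
      rw [← map_mul]
      congr 1
      rw [Algebra.smul_def, map_mul, map_ofNat]
      ring
    have e2 : (C (t ^ 2 • C') : U R) = C C' * C (algebraMap ℂ R t) ^ 2 := by
      rw [← map_pow, ← map_mul]
      congr 1
      rw [Algebra.smul_def, map_pow]
      ring
    rw [e1, e2]
    ring
  have h2 := vand_poly (N.restrictScalars ℂ) P (by
    refine Set.infinite_univ.mono fun t _ => ?_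
    show P.eval _ ∈ N.restrictScalars ℂ
    rw [h1]
    exact h t) (s * 2)
  have h3 : P.coeff (s * 2) = (E * C' ^ s) • f := by
    have hd : (Polynomial.C (C A) + Polynomial.C (C (2 * B)) * Polynomial.X +
      Polynomial.C (C C') * Polynomial.X ^ 2 : Polynomial (U R)).natDegree ≤ 2 := by
      compute_degree
    rw [hP, Polynomial.coeff_C_mul, Polynomial.coeff_pow_of_natDegree_le hd]
    have e : (Polynomial.C (C A) + Polynomial.C (C (2 * B)) * Polynomial.X +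
      Polynomial.C (C C') * Polynomial.X ^ 2 : Polynomial (U R)).coeff 2 = C C' := by
      rw [Polynomial.coeff_add, Polynomial.coeff_add, Polynomial.coeff_C_mul,
        Polynomial.coeff_C_mul, Polynomial.coeff_C, Polynomial.coeff_X, Polynomial.coeff_X_pow]
      simp
    rw [e, smul_eq_C_mul, map_mul, map_pow]
    ring
  rw [h3] at h2
  exact h2

private theorem X13_Ek (N : Submodule R (U R)) {r K : ℕ} (s : ℕ) (u : Fin r → V) (c b : Fin K → V)
    (G : R) (f : U R)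
    (h : ∀ t : Fin K → ℂ, (Ek s u (fun j => c j + t j • b j) * G : R) • f ∈ N) :
    (Ek s u b * G : R) • f ∈ N := by
  classical
  have key : ∀ J : Finset (Fin K), ∀ t : Fin K → ℂ,
      ((∏ j, (if j ∈ J then (Dl1 u (b j) : R) ^ s else (Dl1 u (c j + t j • b j) : R) ^ s)) * G) •
        f ∈ N := by
    intro J
    induction J using Finset.induction_on with
    | empty =>
      intro t
      have h1 := h t
      unfold Ek at h1
      simpa only [Finset.notMem_empty, if_false] using h1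
    | insert j0 J hj ih =>
      intro t
      rw [← Finset.mul_prod_erase Finset.univ _ (Finset.mem_univ j0),
        if_pos (Finset.mem_insert_self _ _)]
      have h1 : ∀ z : ℂ, ∏ j ∈ Finset.univ.erase j0, (if j ∈ insert j0 J then
          (Dl1 u (b j) : R) ^ s else (Dl1 u (c j + t j • b j) : R) ^ s) =
          ∏ j ∈ Finset.univ.erase j0, (if j ∈ J then (Dl1 u (b j) : R) ^ s else
            (Dl1 u (c j + (Function.update t j0 z) j • b j) : R) ^ s) := by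
        intro z
        refine Finset.prod_congr rfl fun j hj' => ?_
        have hne : j ≠ j0 := (Finset.mem_erase.1 hj').1
        rw [Function.update_of_ne hne]
        by_cases hJ : j ∈ J
        · rw [if_pos hJ, if_pos (Finset.mem_insert_of_mem hJ)]
        · rw [if_neg hJ, if_neg]
          intro h2
          rcases Finset.mem_insert.1 h2 with h3 | h3
          · exact hne h3
          · exact hJ h3
      have h2 := X13_top N s (Dl1 u (c j0)) (xf (til u (c j0)) (cst (b j0))) (Dl1 u (b j0))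
        ((∏ j ∈ Finset.univ.erase j0, (if j ∈ insert j0 J then
          (Dl1 u (b j) : R) ^ s else (Dl1 u (c j + t j • b j) : R) ^ s)) * G) f (fun z => by
          have h3 := ih (Function.update t j0 z)
          rw [← Finset.mul_prod_erase Finset.univ _ (Finset.mem_univ j0), if_neg hj,
            Function.update_self, ← h1 z, Dl1_add] at h3
          convert h3 using 2
          ring)
      convert h2 using 2
      ring
  have h1 := key Finset.univ (fun _ => 0)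
  unfold Ek
  simpa only [Finset.mem_univ, if_true] using h1

private theorem X13_om_add (x y v w : V) (c d : ℂ) (h1 : om x w = 0) (h2 : om v y = 0)
    (h3 : om v w = 0) : om (x + c • v) (y + d • w) = om x y := by
  rw [T5.om_eq] at h1 h2 h3 ⊢
  rw [T5.om_eq, T5.B_al, T5.B_ar, T5.B_ar, T5.B_sl, T5.B_sl, T5.B_sr, T5.B_sr, h1, h2, h3]
  ring

private theorem X13_hh_split (s q q' : ℕ) {r k k' : ℕ} (u : Fin r → V) (b : Fin (k + k') → V) :
    (hh s (q + q') u b : R) = hh s q u (fun j => b (Fin.castAdd k' j)) *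
      hh s q' u (fun j => b (Fin.natAdd k j)) := by
  unfold hh Ek
  rw [Fin.prod_univ_add]
  ring

end

/-- the statement (F) -/
private def X13_FP (r s k q n D : ℕ) : Prop :=
  ∀ Z : Set ℕ, Z.Finite → (∀ z ∈ Z, 2 * n ≤ z) →
    (∀ z ∈ Z, ∀ z' ∈ Z, om (ee z) (ee z') = 0) →
    ∀ f ∈ KK (Jd r s), (C f : U AA) ∈ MP50e386N.LT AA (Set.Iio (2 * n) ∪ Z) →
      TD n D (C f : U AA) → ∀ (u : Fin r → V) (b : Fin k → V), Iso (Sum.elim u b) →
        (∀ i, ∀ z ∈ Set.Iio (2 * n) ∪ Z, om (Sum.elim u b i) (ee z) = 0) →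
        hh s q u b * f ∈ nnI (Jd r s)

private theorem X13_GLSI (r s : ℕ) : GLSI (R := AA) (Jd r s) := by
  intro φ f hf
  rw [sbR_eq_sub]
  exact GLIdeal.st φ f hf

/-- the induction step for homogeneous elements and letters -/
private theorem X13_step {r s : ℕ} (n D k' q' : ℕ) (hF : X13_FP r s k' q' n D) :
    ∀ Z : Set ℕ, Z.Finite → (∀ z ∈ Z, 2 * n ≤ z) →
      (∀ z ∈ Z, ∀ z' ∈ Z, om (ee z) (ee z') = 0) → ∀ f0 ∈ KK (Jd r s),
      (C f0 : U AA) ∈ MP50e386N.LT AA (Set.Iio (2 * n) ∪ Z) →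
      (∀ c : ℂ, sbC (scT n c) (C f0 : U AA) = c ^ (D + 1) • (C f0 : U AA)) →
      ∃ B : ℕ, ∀ w : Fin r ⊕ Fin (2 * n + k') → ℕ, Function.Injective w →
        (∀ i, B ≤ w i ∧ Even (w i)) →
        (hh s ((D + 1) + q') (fun i => ee (w (Sum.inl i))) (fun j => ee (w (Sum.inr j))) : AA) •
          (C f0 : U AA) ∈ ofI (nnI (Jd r s)) := by
  classical
  intro Z hZf hZ2 hZi f0 hf0 hfT hdeg
  have hJL := X13_GLSI r s
  have hJG : GSI (Jd r s) := gsi_of_glsi hJL
  have hKG : GS (ofI (KK (Jd r s))) := (GS_ofI _).2 (KK_GSI hJG)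
  have hNG : GS (ofI (nnI (Jd r s))) := (GS_ofI _).2 (nnI_GSI hJL)
  obtain ⟨f, hf⟩ : ∃ f : U AA, f = C f0 := ⟨_, rfl⟩
  rw [← hf] at hfT hdeg
  have hfK : f ∈ ofI (KK (Jd r s)) := by
    rw [hf, C_mem_ofI]
    exact hf0
  have hfin : (Set.Iio (2 * n) ∪ Z).Finite := (Set.finite_Iio _).union hZf
  obtain ⟨B, hB⟩ := X13_bound hfin
  refine ⟨B + 2 * n, fun w _ hw => ?_⟩
  have hwe : ∀ i, Even (w i) := fun i => (hw i).2
  have hwB : ∀ i, B ≤ w i := fun i => by have := (hw i).1; omega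
  have hwn : ∀ i, 2 * n ≤ w i := fun i => by have := (hw i).1; omega
  -- the letters
  obtain ⟨uL, huL⟩ : ∃ uL : Fin r → ℕ, ∀ i, uL i = w (Sum.inl i) := ⟨_, fun i => rfl⟩
  obtain ⟨b1, hb1⟩ : ∃ b1 : Fin (2 * n) → ℕ, ∀ j, b1 j = w (Sum.inr (Fin.castAdd k' j)) :=
    ⟨_, fun i => rfl⟩
  obtain ⟨b2, hb2⟩ : ∃ b2 : Fin k' → ℕ, ∀ j, b2 j = w (Sum.inr (Fin.natAdd (2 * n) j)) :=
    ⟨_, fun i => rfl⟩
  have hwfar : ∀ i, ∀ z ∈ Set.Iio (2 * n) ∪ Z, om (ee (w i)) (ee z) = 0 := by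
    intro i z hz
    refine X13_om_div ?_
    have h1 := hB z hz
    have h2 := hwB i
    obtain ⟨k, hk⟩ := hwe i
    omega
  -- claim 0
  have hcl := claim0K r s n (D + 1) Z hZf hZ2 hZi f0 hf0 (by rw [← hf]; exact hfT)
    (by rw [← hf]; exact hdeg) (fun i => ee (uL i)) (fun i j => by
      rw [huL, huL]
      exact X13_om_even (hwe _) (hwe _)) (fun i z hz => by
      rw [huL]
      exact hwfar _ z hz)
  have hcl' : (hh s (D + 1) (fun i => ee (uL i)) (fun i : Fin (2 * n) => ee (i : ℕ)) : AA) • f ∈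
      ofI (nnI (Jd r s)) := by
    rw [hf, smul_eq_C_mul, ← MvPolynomial.C_mul, C_mem_ofI]
    unfold hh
    exact hcl
  -- the substitution
  have hbfar : ∀ j : Fin (2 * n), ∀ z ∈ (Set.Iio (2 * n) ∪ Z) ∪ Set.range uL,
      om (ee (b1 j)) (ee z) = 0 := by
    rintro j z (hz | ⟨i, rfl⟩)
    · rw [hb1]
      exact hwfar _ z hz
    · rw [hb1, huL]
      exact X13_om_even (hwe _) (hwe _)
  have hb1e : ∀ j, Even (b1 j) := fun j => by rw [hb1]; exact hwe _
  obtain ⟨y, hy⟩ : ∃ y : ℕ → ℕ, ∀ j : Fin (2 * n), y j = b1 j := by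
    refine ⟨fun j => if h : j < 2 * n then b1 ⟨j, h⟩ else 0, fun j => ?_⟩
    beta_reduce
    rw [dif_pos j.2]
  have hyG : ∀ j < 2 * n, Even (y j) ∧ ∀ z ∈ (Set.Iio (2 * n) ∪ Z) ∪ Set.range uL,
      om (ee (y j)) (ee z) = 0 := by
    intro j hj
    rw [hy ⟨j, hj⟩]
    exact ⟨hb1e _, hbfar _⟩
  have hφ : ∀ t : ℕ → ℂ, ∃ φ : ℕ → V, (∀ i < 2 * n, φ i = ee i + t i • ee (y i)) ∧
      (∀ i ∈ Z, φ i = ee i) ∧ (∀ i, φ (uL i) = ee (uL i)) ∧
      (∀ i ∈ (Set.Iio (2 * n) ∪ Z) ∪ Set.range uL,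
        ∀ j ∈ (Set.Iio (2 * n) ∪ Z) ∪ Set.range uL,
        om (φ i) (φ j) = om (ee i) (ee j)) := by
    intro t
    obtain ⟨φ, hφ⟩ : ∃ φ : ℕ → V, φ = fun i => if i < 2 * n then ee i + t i • ee (y i)
      else ee i := ⟨_, rfl⟩
    have e1 : ∀ i < 2 * n, φ i = ee i + t i • ee (y i) := fun i hi => by
      rw [hφ]; exact if_pos hi
    have e2 : ∀ i, 2 * n ≤ i → φ i = ee i := fun i hi => by
      rw [hφ]
      exact if_neg (by omega)
    have e4 : ∀ i ∈ (Set.Iio (2 * n) ∪ Z) ∪ Set.range uL, φ i = ee i ∨ ∃ (c : ℂ) (l : ℕ),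
        (Even l ∧ ∀ z ∈ (Set.Iio (2 * n) ∪ Z) ∪ Set.range uL, om (ee l) (ee z) = 0) ∧
          φ i = ee i + c • ee l := by
      rintro i ((hi | hi) | ⟨i, rfl⟩)
      · exact Or.inr ⟨t i, y i, hyG i hi, e1 i hi⟩
      · exact Or.inl (e2 i (hZ2 i hi))
      · exact Or.inl (e2 _ (by rw [huL]; exact hwn _))
    refine ⟨φ, e1, fun i hi => e2 i (hZ2 i hi), fun i => e2 _ (by rw [huL]; exact hwn _),
      fun i hi j hj => ?_⟩
    rcases e4 i hi with hl' | ⟨c, l, hl, hl'⟩ <;> rcases e4 j hj with hll' | ⟨c', l', hll, hll'⟩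
    · rw [hl', hll']
    · have h3 := X13_om_add (ee i) (ee j) 0 (ee l') 0 c' (X13_om_anti _ _ (hll.2 i hi))
        (by rw [T5.om_eq, map_zero, LinearMap.zero_apply])
        (by rw [T5.om_eq, map_zero, LinearMap.zero_apply])
      rw [smul_zero, add_zero] at h3
      rw [hl', hll', h3]
    · have h3 := X13_om_add (ee i) (ee j) (ee l) 0 c 0 (by rw [T5.om_eq, map_zero])
        (hl.2 j hj) (by rw [T5.om_eq, map_zero])
      rw [smul_zero, add_zero] at h3
      rw [hl', hll', h3]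
    · rw [hl', hll']
      exact X13_om_add _ _ _ _ _ _ (X13_om_anti _ _ (hll.2 i hi)) (hl.2 j hj)
        (X13_om_even hl.1 hll.1)
  obtain ⟨s', g, hg1, hg0, hg00, hgs, hgd⟩ := replace_letters n (D + 1) f hdeg y (fun i hi => by
    rw [hy ⟨i, hi⟩, hb1]
    exact hwn _)
  have hsub : ∀ t : ℕ → ℂ, ∀ φ : ℕ → V, (∀ i < 2 * n, φ i = ee i + t i • ee (y i)) →
      (∀ i ∈ Z, φ i = ee i) → sbC φ f = ∑ κ ∈ s', (κ.prod fun i k => t i ^ k) • g κ := by
    intro t φ ha hb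
    rw [← hg1]
    refine sbC_congr hfT _ _ ?_
    rintro i (hi | hi)
    · rw [if_pos (show i < 2 * n from hi)]
      exact ha i hi
    · rw [if_neg (not_lt.2 (hZ2 i hi))]
      exact hb i hi
  -- properties of the `g κ`
  have hgM : ∀ κ ∈ s', g κ ∈ ofI (KK (Jd r s)) := by
    refine vandM ((ofI (KK (Jd r s))).restrictScalars ℂ) s' g fun t _ => ?_
    obtain ⟨φ, ha, hb, -, hi⟩ := hφ t
    rw [← hsub t φ ha hb]
    exact witt1 hKG hfK hfin hfT φ fun i hi' j hj' => hi i (Or.inl hi') j (Or.inl hj')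
  obtain ⟨Z', hZ'⟩ : ∃ Z' : Set ℕ, Z' = Z ∪ y '' Set.Iio (2 * n) := ⟨_, rfl⟩
  have hyK : ∀ i < 2 * n, ∃ j : Fin (2 * n), y i = b1 j := fun i hi => ⟨⟨i, hi⟩, hy ⟨i, hi⟩⟩
  have hgLT : ∀ κ ∈ s', g κ ∈ MP50e386N.LT AA (Set.Iio (2 * n) ∪ Z') := by
    refine vandM (Subalgebra.toSubmodule (MP50e386N.LT AA (Set.Iio (2 * n) ∪ Z'))) s' g
      fun t _ => ?_
    obtain ⟨φ, ha, hb, -, -⟩ := hφ t
    rw [← hsub t φ ha hb]
    refine sbC_LT hfT φ ?_
    rintro i (hi | hi) j hj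
    · rw [ha i hi] at hj
      by_cases h2 : j = i
      · rw [h2]; exact Or.inl hi
      · by_cases h3 : j = y i
        · rw [h3, hZ']
          exact Or.inr (Or.inr ⟨i, hi, rfl⟩)
        · exfalso
          apply hj
          rw [Finsupp.add_apply, Finsupp.smul_apply, ee, ee, Finsupp.single_apply,
            Finsupp.single_apply, if_neg (Ne.symm h2), if_neg (Ne.symm h3), smul_zero, add_zero]
    · rw [hb i hi] at hj
      have h2 : j = i := by
        by_contra h2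
        apply hj
        rw [ee, Finsupp.single_apply, if_neg (Ne.symm h2)]
      rw [h2, hZ']
      exact Or.inr (Or.inl hi)
  have hgTD : ∀ κ ∈ s', κ ≠ 0 → TD n D (g κ) := by
    intro κ hκ hκ0
    have hdeg0 : κ.degree ≠ 0 := fun h => hκ0 ((Finsupp.degree_eq_zero_iff κ).1 h)
    refine ⟨fun d => if d = D + 1 - κ.degree then g κ else 0, ?_, fun d c => ?_⟩
    · rw [Finset.sum_ite_eq', if_pos]
      rw [Finset.mem_range]
      omega
    · beta_reduce
      split_ifs with h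
      · rw [h]
        exact (hgd κ hκ c).1
      · rw [map_zero, smul_zero]
  -- the induction hypothesis
  have hF' : ∀ κ ∈ s', κ ≠ 0 →
      (hh s q' (fun i => ee (uL i)) (fun j => ee (b2 j)) : AA) • g κ ∈ ofI (nnI (Jd r s)) := by
    intro κ hκ hκ0
    obtain ⟨g0, hg0K, hg0e⟩ := (mem_ofI _ _).1 (hgM κ hκ)
    rw [hg0e, smul_eq_C_mul, ← MvPolynomial.C_mul, C_mem_ofI]
    refine hF Z' ?_ ?_ ?_ g0 hg0K (by rw [← hg0e]; exact hgLT κ hκ)
      (by rw [← hg0e]; exact hgTD κ hκ hκ0) _ _ ?_ ?_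
    · rw [hZ']
      exact hZf.union ((Set.finite_Iio _).image y)
    · rw [hZ']
      rintro z (hz | ⟨i, hi, rfl⟩)
      · exact hZ2 z hz
      · obtain ⟨j, hj⟩ := hyK i hi
        rw [hj, hb1]
        exact hwn _
    · rw [hZ']
      rintro z (hz | ⟨i, hi, rfl⟩) z' (hz' | ⟨i', hi', rfl⟩)
      · exact hZi z hz z' hz'
      · obtain ⟨j, hj⟩ := hyK i' hi'
        rw [hj]
        exact X13_om_anti _ _ (hbfar j z (Or.inl (Or.inr hz)))
      · obtain ⟨j, hj⟩ := hyK i hi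
        rw [hj]
        exact hbfar j z' (Or.inl (Or.inr hz'))
      · obtain ⟨j, hj⟩ := hyK i hi
        obtain ⟨j', hj'⟩ := hyK i' hi'
        rw [hj, hj']
        exact X13_om_even (hb1e _) (hb1e _)
    · have h2 : ∀ i, ∃ l, Even l ∧ (Sum.elim (fun i => ee (uL i)) (fun j => ee (b2 j)) :
          Fin r ⊕ Fin k' → V) i = ee l := by
        rintro (i | j)
        · exact ⟨uL i, by rw [huL]; exact hwe _, rfl⟩
        · exact ⟨b2 j, by rw [hb2]; exact hwe _, rfl⟩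
      intro i j
      obtain ⟨l, hl, hl'⟩ := h2 i
      obtain ⟨l', hll, hll'⟩ := h2 j
      rw [hl', hll']
      exact X13_om_even hl hll
    · have h2 : ∀ i, ∃ l, (Sum.elim (fun i => ee (uL i)) (fun j => ee (b2 j)) :
          Fin r ⊕ Fin k' → V) i = ee (w l) := by
        rintro (i | j)
        · exact ⟨Sum.inl i, by rw [Sum.elim_inl, huL]⟩
        · exact ⟨Sum.inr (Fin.natAdd (2 * n) j), by rw [Sum.elim_inr, hb2]⟩
      intro i z hz
      obtain ⟨l, hl⟩ := h2 i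
      rw [hl]
      rw [hZ'] at hz
      rcases hz with hz | hz | ⟨i', hi', rfl⟩
      · exact hwfar l z (Or.inl hz)
      · exact hwfar l z (Or.inr hz)
      · obtain ⟨j, hj⟩ := hyK i' hi'
        rw [hj]
        exact X13_om_even (hwe _) (hb1e _)
  -- the coefficient of the top monomial
  obtain ⟨N, hN⟩ : ∃ N : Submodule AA (U AA),
      N = ofI (nnI (Jd r s)) ⊔ Submodule.span AA {x | ∃ κ ∈ s', κ ≠ 0 ∧ x = g κ} := ⟨_, rfl⟩
  have hkey : ∀ t : Fin (2 * n) → ℂ, (Ek s (fun i => ee (uL i))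
      (fun j : Fin (2 * n) => ee (j : ℕ) + t j • ee (b1 j)) *
        Dl (fun i => ee (uL i)) ^ (D + 1) : AA) • f ∈ N := by
    intro t
    obtain ⟨t', ht'⟩ : ∃ t' : ℕ → ℂ, ∀ j : Fin (2 * n), t' j = t j := by
      refine ⟨fun j => if h : j < 2 * n then t ⟨j, h⟩ else 0, fun j => ?_⟩
      beta_reduce
      rw [dif_pos j.2]
    obtain ⟨φ, ha, hb, hc, hi⟩ := hφ t'
    have hTfin : ((Set.Iio (2 * n) ∪ Z) ∪ Set.range uL).Finite :=
      hfin.union (Set.finite_range _)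
    have hLT : (hh s (D + 1) (fun i => ee (uL i)) (fun j : Fin (2 * n) => ee (j : ℕ)) : AA) • f ∈
        MP50e386N.LT AA ((Set.Iio (2 * n) ∪ Z) ∪ Set.range uL) := by
      rw [smul_eq_C_mul]
      exact Subalgebra.mul_mem _ (X13_hh_LT _ uL (fun i => Or.inr ⟨_, rfl⟩)
        (fun j : Fin (2 * n) => (j : ℕ)) (fun j => Or.inl (Or.inl j.2)))
        (LT_mono Set.subset_union_left hfT)
    have h2 := witt1 hNG hcl' hTfin hLT φ hi
    rw [sbC_smul, sbR_hh, hsub t' φ ha hb] at h2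
    have hd : ∀ j : Fin (2 * n), φ (j : ℕ) = ee (j : ℕ) + t j • ee (b1 j) := fun j => by
      rw [ha j j.2, ht', hy]
    simp only [linC_ee, hc, hd] at h2
    have h3 : ∑ κ ∈ s', (κ.prod fun i k => t' i ^ k) • g κ =
        f + ∑ κ ∈ s'.erase 0, (κ.prod fun i k => t' i ^ k) • g κ := by
      rw [← Finset.add_sum_erase s' _ hg0, Finsupp.prod_zero_index, one_smul, hg00]
    rw [h3, smul_add] at h2
    have h4 : (hh s (D + 1) (fun i => ee (uL i))
        (fun j : Fin (2 * n) => ee (j : ℕ) + t j • ee (b1 j)) : AA) •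
        ∑ κ ∈ s'.erase 0, (κ.prod fun i k => t' i ^ k) • g κ ∈ N := by
      rw [hN]
      refine Submodule.smul_mem _ _ (Submodule.sum_mem _ fun κ hκ => smulC_mem _ _ ?_)
      refine Submodule.mem_sup_right (Submodule.subset_span ⟨κ, (Finset.mem_erase.1 hκ).2,
        (Finset.mem_erase.1 hκ).1, rfl⟩)
    have h5 : ofI (nnI (Jd r s)) ≤ N := by rw [hN]; exact le_sup_left
    exact (Submodule.add_mem_iff_left N h4).1 (h5 h2)
  have htop := X13_Ek N s (fun i => ee (uL i)) (fun j : Fin (2 * n) => ee (j : ℕ))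
    (fun j => ee (b1 j)) (Dl (fun i => ee (uL i)) ^ (D + 1)) f hkey
  have hNQ : N ≤ (ofI (nnI (Jd r s))).comap
      ((hh s q' (fun i => ee (uL i)) (fun j => ee (b2 j)) : AA) •
      (LinearMap.id : U AA →ₗ[AA] U AA)) := by
    rw [hN]
    refine sup_le (fun x hx => ?_) (Submodule.span_le.2 ?_)
    · exact Submodule.smul_mem _ _ hx
    · rintro x ⟨κ, hκ, hκ0, rfl⟩
      exact hF' κ hκ hκ0
  have h2 := hNQ htop
  rw [Submodule.mem_comap, LinearMap.smul_apply, LinearMap.id_apply, smul_smul] at h2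
  have h3 : (hh s ((D + 1) + q') (fun i => ee (w (Sum.inl i)))
      (fun j => ee (w (Sum.inr j))) : AA) =
      hh s q' (fun i => ee (uL i)) (fun j => ee (b2 j)) *
        (Ek s (fun i => ee (uL i)) (fun j => ee (b1 j)) * Dl (fun i => ee (uL i)) ^ (D + 1)) := by
    unfold hh Ek
    rw [Fin.prod_univ_add]
    simp only [huL, hb1, hb2]
    ring
  rw [h3, ← hf]
  exact h2

private theorem X13_main (r s n D : ℕ) : ∃ k q : ℕ, X13_FP r s k q n D := by
  classical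
  have hJL := X13_GLSI r s
  have hNG : GS (ofI (nnI (Jd r s))) := (GS_ofI _).2 (nnI_GSI hJL)
  induction D with
  | zero =>
    refine ⟨0, 0, fun Z _ hZ2 hZi f hf hfT hTD u b _ _ => ?_⟩
    obtain ⟨g, hg, hg'⟩ := hTD
    rw [zero_add, Finset.sum_range_one] at hg
    have h2 := LT_of_TD_zero (n := n) hfT (by
      intro c
      rw [hg]
      exact hg' 0 c)
    refine Ideal.mul_mem_left _ _ (mem_nnI_of_letters (KK_le _ hf) h2 ?_)
    have h3 : ∀ i ∈ (Set.Iio (2 * n) ∪ Z) \ Set.Iio (2 * n), i ∈ Z := by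
      rintro i ⟨hi | hi, hi'⟩
      · exact absurd hi hi'
      · exact hi
    intro i hi j hj
    exact hZi i (h3 i hi) j (h3 j hj)
  | succ D ih =>
    obtain ⟨k', q', hF⟩ := ih
    have hk := X13_step n D k' q' hF
    refine ⟨(2 * n + k') + k', ((D + 1) + q') + q', fun Z hZf hZ2 hZi f hf hfT hTD u b hub hT => ?_⟩
    obtain ⟨g, hg, hg'⟩ := KK_comp hJL n (D + 1) Z hZ2 hZi f hf hfT hTD
    obtain ⟨b1, hb1⟩ : ∃ b1 : Fin (2 * n + k') → V, b1 = fun j => b (Fin.castAdd k' j) :=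
      ⟨_, rfl⟩
    obtain ⟨b2, hb2⟩ : ∃ b2 : Fin k' → V, b2 = fun j => b (Fin.natAdd (2 * n + k') j) := ⟨_, rfl⟩
    have hin1 : ∀ i, ∃ j, (Sum.elim u b1 : Fin r ⊕ Fin (2 * n + k') → V) i =
        (Sum.elim u b : Fin r ⊕ Fin ((2 * n + k') + k') → V) j := by
      rintro (i | i)
      · exact ⟨Sum.inl i, rfl⟩
      · exact ⟨Sum.inr (Fin.castAdd k' i), by rw [Sum.elim_inr, Sum.elim_inr, hb1]⟩
    have hin2 : ∀ i, ∃ j, (Sum.elim u b2 : Fin r ⊕ Fin k' → V) i =
        (Sum.elim u b : Fin r ⊕ Fin ((2 * n + k') + k') → V) j := by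
      rintro (i | i)
      · exact ⟨Sum.inl i, rfl⟩
      · exact ⟨Sum.inr (Fin.natAdd (2 * n + k') i), by rw [Sum.elim_inr, Sum.elim_inr, hb2]⟩
    have hiso1 : Iso (Sum.elim u b1) := by
      intro i j
      obtain ⟨i', hi'⟩ := hin1 i
      obtain ⟨j', hj'⟩ := hin1 j
      rw [hi', hj']
      exact hub i' j'
    have hiso2 : Iso (Sum.elim u b2) := by
      intro i j
      obtain ⟨i', hi'⟩ := hin2 i
      obtain ⟨j', hj'⟩ := hin2 j
      rw [hi', hj']
      exact hub i' j'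
    -- the top component
    have htop : hh s ((D + 1) + q') u b1 * g (D + 1) ∈ nnI (Jd r s) := by
      obtain ⟨hgM, hgT, hgd⟩ := hg' (D + 1)
      obtain ⟨B, hB⟩ := hk Z hZf hZ2 hZi (g (D + 1)) hgM hgT hgd
      have h5 := X13_F_of_letters (ofI (nnI (Jd r s))) hNG Z hZf (C (g (D + 1))) hgT B hB u b1
        hiso1 (fun i z hz => by
          obtain ⟨i', hi'⟩ := hin1 i
          rw [hi']
          exact hT i' z hz)
      rwa [smul_eq_C_mul, ← MvPolynomial.C_mul, C_mem_ofI] at h5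
    -- the other components
    have hlow : hh s q' u b2 * (∑ d ∈ Finset.range (D + 1), g d) ∈ nnI (Jd r s) := by
      refine hF Z hZf hZ2 hZi _ (Ideal.sum_mem _ fun d _ => (hg' d).1) ?_ ?_ u b2 hiso2
        fun i z hz => ?_
      · rw [map_sum]
        exact Subalgebra.sum_mem _ fun d _ => (hg' d).2.1
      · refine ⟨fun d => C (g d), ?_, fun d => (hg' d).2.2⟩
        rw [map_sum]
      · obtain ⟨i', hi'⟩ := hin2 i
        rw [hi']
        exact hT i' z hz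
    rw [hg, Finset.sum_range_succ, mul_add, X13_hh_split, ← hb1, ← hb2]
    refine Ideal.add_mem _ ?_ ?_
    · rw [mul_assoc]
      exact Ideal.mul_mem_left _ _ hlow
    · rw [mul_comm (hh s (D + 1 + q') u b1) (hh s q' u b2), mul_assoc]
      exact Ideal.mul_mem_left _ _ htop

theorem FK (r s n D : ℕ) : ∃ k q : ℕ, ∀ Z : Set ℕ, Z.Finite → (∀ z ∈ Z, 2 * n ≤ z) →
    (∀ z ∈ Z, ∀ z' ∈ Z, om (ee z) (ee z') = 0) →
    ∀ f ∈ KK (Jd r s), (C f : U AA) ∈ MP50e386N.LT AA (Set.Iio (2 * n) ∪ Z) →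
      TD n D (C f : U AA) → ∀ (u : Fin r → V) (b : Fin k → V), Iso (Sum.elim u b) →
        (∀ i, ∀ z ∈ Set.Iio (2 * n) ∪ Z, om (Sum.elim u b i) (ee z) = 0) →
        hh s q u b * f ∈ nnI (Jd r s) :=
  X13_main r s n D

end MP50e386O
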