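import Mathlib
import Pool.Agent.Lib.MP_50e386_al.N.L2
import Pool.Agent.Lib.MP_50e386_al.N.L3
import Pool.Agent.Lib.MP_50e386_al.O.XDefs
import Pool.Agent.Lib.MP_50e386_al.O.X2
import Pool.Agent.Lib.MP_50e386_al.O.X10
import Pool.Agent.Lib.MP_50e386_al.O.X11
import Pool.Agent.Lib.MP_50e386_al.O.X13

/-! Elementwise torsion of `K_J / nn(J)`. -/

namespace MP50e386O

open MvPolynomial Pool.Agent.Lib.MP50e386 MP50e386N

private theorem x14_GLSI_det (M N0 : ℕ) : GLSI (MP50e386.detIdeal M N0) := by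
  intro φ f hf
  rw [sbR_eq_sub]
  exact MP50e386.detIdeal_stable M N0 φ f hf

private theorem x14_Dl_mk (J : Ideal AA) [GLIdeal J] {r : ℕ} (v : Fin r → V) :
    (Dl v : AA ⧸ J) = Ideal.Quotient.mk J (Dl v : AA) := by
  rw [Dl_mk]
  congr 1
  unfold Dl gramM
  congr 1
  ext i j
  rw [Matrix.of_apply, Matrix.of_apply, xv_A]

private theorem x14_hh_mk (J : Ideal AA) [GLIdeal J] (s q : ℕ) {r k : ℕ} (u : Fin r → V)
    (b : Fin k → V) : (hh s q u b : AA ⧸ J) = Ideal.Quotient.mk J (hh s q u b : AA) := by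
  unfold hh Ek Dl1
  rw [map_mul, map_prod, map_pow, x14_Dl_mk]
  congr 1
  refine Finset.prod_congr rfl fun j _ => ?_
  rw [map_pow, x14_Dl_mk]

private theorem x14_hh_not_mem (r s k q : ℕ) :
    (hh s q (fun i : Fin r => ee (i : ℕ)) (fun j : Fin k => ee (r + (j : ℕ))) : AA) ∉ Jd r s := by
  intro h0
  have h1 := Rrs_P3 r s 1 k q (fun _ i => (i : ℕ)) (fun _ j => r + (j : ℕ)) (by
    rintro ⟨d, p⟩ ⟨d', p'⟩ h
    have hd : d = d' := Subsingleton.elim _ _
    subst hd
    rcases p with i | i <;> rcases p' with j | j <;> simp only [Sum.elim_inl, Sum.elim_inr] at h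
    · rw [Fin.ext h]
    · exact absurd h (by have := i.2; omega)
    · exact absurd h (by have := j.2; omega)
    · rw [Fin.ext (Nat.add_left_cancel h)])
  apply h1
  rw [Fin.prod_univ_one]
  rw [x14_hh_mk, Ideal.Quotient.eq_zero_iff_mem]
  exact h0

private theorem x14_P5 (r s k q : ℕ) : ∃ a : ℕ,
    (MP50e386.detIdeal r (s + 1) * MP50e386.detIdeal (r + 1) s) ^ a ≤
      Ideal.span {f | ∃ (u : Fin r → V) (b : Fin k → V), f = (hh s q u b : AA)} ⊔ Jd r s := by
  refine KP5 r s _ ?_ le_sup_right ?_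
  · intro w f hf
    obtain ⟨f1, hf1, f2, hf2, rfl⟩ := Submodule.mem_sup.1 hf
    rw [map_add]
    refine add_mem (Ideal.mem_sup_left ?_) (Ideal.mem_sup_right ?_)
    · have h1 : Ideal.span {f | ∃ (u : Fin r → V) (b : Fin k → V), f = (hh s q u b : AA)} ≤
          Ideal.comap (MP50e386.sub w : AA →ₐ[ℂ] AA)
            (Ideal.span {f | ∃ (u : Fin r → V) (b : Fin k → V), f = (hh s q u b : AA)}) := by
        rw [Ideal.span_le]
        rintro _ ⟨u, b, rfl⟩
        show MP50e386.sub w (hh s q u b : AA) ∈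
          Ideal.span {f | ∃ (u : Fin r → V) (b : Fin k → V), f = (hh s q u b : AA)}
        rw [← sbR_eq_sub, sbR_hh]
        exact Ideal.subset_span ⟨_, _, rfl⟩
      exact h1 hf1
    · exact MP50e386.detIdeal_stable _ _ w f2 hf2
  · intro h
    apply x14_hh_not_mem r s k q
    have h1 : (hh s q (fun i : Fin r => ee (i : ℕ)) (fun j : Fin k => ee (r + (j : ℕ))) : AA) ∈
        Ideal.span {f | ∃ (u : Fin r → V) (b : Fin k → V), f = (hh s q u b : AA)} ⊔ Jd r s :=
      Ideal.mem_sup_left (Ideal.subset_span ⟨_, _, rfl⟩)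
    rw [h] at h1
    exact h1

/-- the ideal generated by the `h(w)`, `w` isotropic, contains a power modulo `nn(J)` -/
theorem pow_le_hh (r s k q : ℕ) : ∃ a : ℕ,
    nnI ((MP50e386.detIdeal r (s + 1) * MP50e386.detIdeal (r + 1) s) ^ a) ≤
      Ideal.span {f | ∃ (u : Fin r → V) (b : Fin k → V), Iso (Sum.elim u b) ∧
        f = (hh s q u b : AA)} ⊔ nnI (Jd r s) := by
  obtain ⟨a, ha⟩ := x14_P5 r s k q
  refine ⟨a, nnI_le_of _ _ ?_⟩
  intro φ hφ g hg
  obtain ⟨g1, hg1, g2, hg2, rfl⟩ := Submodule.mem_sup.1 (ha hg)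
  rw [map_add]
  refine add_mem (Ideal.mem_sup_left ?_) (Ideal.mem_sup_right ?_)
  · have h1 : Ideal.span {f | ∃ (u : Fin r → V) (b : Fin k → V), f = (hh s q u b : AA)} ≤
        Ideal.comap (sbR φ : AA →ₐ[ℂ] AA)
          (Ideal.span {f | ∃ (u : Fin r → V) (b : Fin k → V), Iso (Sum.elim u b) ∧
            f = (hh s q u b : AA)}) := by
      rw [Ideal.span_le]
      rintro _ ⟨u, b, rfl⟩
      show sbR φ (hh s q u b : AA) ∈
        Ideal.span {f | ∃ (u : Fin r → V) (b : Fin k → V), Iso (Sum.elim u b) ∧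
            f = (hh s q u b : AA)}
      rw [sbR_hh]
      refine Ideal.subset_span ⟨_, _, ?_, rfl⟩
      intro i j
      have h2 : ∀ i : Fin r ⊕ Fin k, (Sum.elim (fun i => linC φ (u i)) (fun j => linC φ (b j))
          : Fin r ⊕ Fin k → V) i = linC φ (Sum.elim u b i) := by
        rintro (i | i) <;> rfl
      rw [h2, h2]
      have h3 := Iso.lin hφ (fun n : ℕ => if n = 0 then Sum.elim u b i else Sum.elim u b j)
      have h4 := h3 0 1
      simpa using h4
    exact h1 hg1
  · exact Ideal.subset_span ⟨φ, hφ, g2, hg2, rfl⟩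

private theorem x14_sup_pow (I K : Ideal AA) (n : ℕ) : (I ⊔ K) ^ n ≤ I ^ n ⊔ K := by
  induction n with
  | zero => rw [pow_zero, pow_zero]; exact le_sup_left
  | succ n ih =>
    rw [pow_succ, pow_succ]
    refine (Ideal.mul_mono ih le_rfl).trans ?_
    rw [Ideal.sup_mul, Ideal.mul_sup]
    refine sup_le (sup_le le_sup_left (le_trans ?_ le_sup_right)) (le_trans ?_ le_sup_right)
    · exact Ideal.mul_le.2 fun a _ b hb => Ideal.mul_mem_left _ _ hb
    · exact Ideal.mul_le.2 fun a ha b _ => Ideal.mul_mem_right _ _ ha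

theorem torsK (r s : ℕ) (f : AA) (hf : f ∈ KK (Jd r s)) : ∃ a : ℕ,
    ∀ c ∈ (nnI (MP50e386.detIdeal r (s + 1)) * nnI (MP50e386.detIdeal (r + 1) s)) ^ a,
      c * f ∈ nnI (Jd r s) := by
  obtain ⟨n, hn⟩ := exists_LT (C f : U AA)
  have hfT : (C f : U AA) ∈ MP50e386N.LT AA (Set.Iio (2 * n)) :=
    LT_mono (Set.Iio_subset_Iio (by omega)) hn
  obtain ⟨D, hD⟩ := exists_TD n (C f : U AA)
  obtain ⟨k, q, hkq⟩ := FK r s n D
  have hJ : GLSI (Jd r s) := x14_GLSI_det _ _
  set Sx : Set AA := {f | ∃ (u : Fin r → V) (b : Fin k → V), Iso (Sum.elim u b) ∧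
        f = (hh s q u b : AA)} with hSx
  set H : ℕ → AA := fun _ => hh s q (fun i : Fin r => ee (i : ℕ))
    (fun j : Fin k => ee (r + (j : ℕ))) with hH
  have hHw : ∀ (w : ℕ → V) (j : ℕ), sbR w (H j) =
      hh s q (fun i : Fin r => w (i : ℕ)) (fun j : Fin k => w (r + (j : ℕ))) := by
    intro w j
    rw [hH]
    simp only
    rw [sbR_hh]
    simp only [linC_ee]
  have key := A_gen (𝔪 := KK (Jd r s)) (𝔫 := nnI (Jd r s)) (KK_GSI (gsi_of_glsi hJ))
    (nnI_GSI hJ) n D H (by
      intro j hj Z hZ hZ2 hZi g hg hgT hgD w hw hwT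
      rw [hHw w j]
      refine hkq Z hZ hZ2 hZi g hg hgT (TD_mono hj hgD) _ _ ?_ ?_
      · intro a b
        rcases a with a | a <;> rcases b with b | b <;> exact hw _ _
      · intro a z hz
        rcases a with a | a <;> exact hwT _ z hz) f hf hfT hD
  have h1 : ∀ c ∈ Ideal.span Sx ^ (D + 1), c * f ∈ nnI (Jd r s) := by
    refine span_pow_mul_mem Sx f (D + 1) ?_
    intro x hx
    have h2 : ∀ j : ℕ, ∃ w : ℕ → V, Iso w ∧ (j < D + 1 → sbR w (H j) = x j) := by
      intro j
      by_cases hj : j < D + 1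
      · obtain ⟨u, b, hub, hxj⟩ := hx j hj
        refine ⟨fun i => if h : i < r then u ⟨i, h⟩ else
          if h' : i - r < k then b ⟨i - r, h'⟩ else 0, ?_, ?_⟩
        · have h3 : ∀ i : ℕ, (if h : i < r then u ⟨i, h⟩ else
              if h' : i - r < k then b ⟨i - r, h'⟩ else 0) = 0 ∨
              ∃ p, (if h : i < r then u ⟨i, h⟩ else
                if h' : i - r < k then b ⟨i - r, h'⟩ else 0) = Sum.elim u b p := by
            intro i
            by_cases h : i < r
            · exact Or.inr ⟨Sum.inl ⟨i, h⟩, by rw [dif_pos h]; rfl⟩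
            · by_cases h' : i - r < k
              · exact Or.inr ⟨Sum.inr ⟨i - r, h'⟩, by rw [dif_neg h, dif_pos h']; rfl⟩
              · exact Or.inl (by rw [dif_neg h, dif_neg h'])
          intro i j
          show om (if h : i < r then u ⟨i, h⟩ else if h' : i - r < k then b ⟨i - r, h'⟩ else 0)
            (if h : j < r then u ⟨j, h⟩ else if h' : j - r < k then b ⟨j - r, h'⟩ else 0) = 0
          have hz1 : ∀ v : V, om 0 v = 0 := fun v => by
            show osf 0 v = 0
            unfold osf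
            exact Finsupp.sum_zero_index
          have hz2 : ∀ v : V, om v 0 = 0 := fun v => by
            show osf v 0 = 0
            rw [osf_comm]
            exact hz1 v
          rcases h3 i with hi | ⟨p, hi⟩
          · rw [hi]
            exact hz1 _
          · rcases h3 j with hj | ⟨p', hj⟩
            · rw [hj]
              exact hz2 _
            · rw [hi, hj]
              exact hub p p'
        · intro _
          rw [hHw _ j, hxj]
          congr 1
          · funext i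
            rw [dif_pos i.2]
          · funext i
            rw [dif_neg (by omega : ¬ r + (i : ℕ) < r)]
            have h4 : r + (i : ℕ) - r = i := by omega
            rw [dif_pos (by rw [h4]; exact i.2)]
            congr 1
            exact Fin.ext h4
      · refine ⟨fun _ => 0, ?_, fun h => absurd h hj⟩
        intro i j
        show osf 0 0 = 0
        unfold osf
        exact Finsupp.sum_zero_index
    choose w hw hwx using h2
    have h5 := key w hw
    have h6 : ∏ j ∈ Finset.range (D + 1), sbR (w j) (H j) = ∏ j ∈ Finset.range (D + 1), x j :=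
      Finset.prod_congr rfl fun j hj => hwx j (Finset.mem_range.1 hj)
    rw [← h6]
    exact h5
  obtain ⟨a, ha⟩ := pow_le_hh r s k q
  obtain ⟨b, hb⟩ := nn_prod r s a
  refine ⟨b * (D + 1), ?_⟩
  intro c hc
  rw [pow_mul] at hc
  have h7 := x14_sup_pow (Ideal.span Sx) (nnI (Jd r s)) (D + 1)
    (Ideal.pow_right_mono (hb.trans ha) (D + 1) hc)
  obtain ⟨c1, hc1, c2, hc2, rfl⟩ := Submodule.mem_sup.1 h7
  rw [add_mul]
  exact add_mem (h1 c1 hc1) (Ideal.mul_mem_right _ _ hc2)

end MP50e386O
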