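import Mathlib
import Pool.Agent.Lib.MP_50e386_al.O.XDefs
import Pool.Agent.Lib.MP_50e386_al.O.X1

/-! `t` is integral over `τ(A)` modulo `J_{r|s}[t]`. -/

namespace MP50e386O

open MvPolynomial Pool.Agent.Lib.MP50e386 MP50e386N

/-- an orthonormal family -/
private noncomputable def x3w (i : ℕ) : V := ee (2 * i) + (1 / 2 : ℂ) • ee (2 * i + 1)

private theorem x3_gam (i j : ℕ) : om (ee i) (ee j) =
    if j = MP50e386.pis i then (1 : ℂ) else 0 := by
  have h1 : om (ee i) (ee j) = MP50e386.frm MP50e386.pis sio (ee i) (ee j) := osf_eq _ _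
  have h2 : MP50e386.frm MP50e386.pis sio (MP50e386.ee i) (MP50e386.ee j) =
      MP50e386.gam MP50e386.pis sio i j := MP50e386.frm_ee i j
  rw [h1]
  exact h2

private theorem x3_om (i j : ℕ) : om (x3w i) (x3w j) = if i = j then (1 : ℂ) else 0 := by
  have hb : ∀ x y : V, om x y = MP50e386.frm MP50e386.pis sio x y := fun x y => osf_eq x y
  have e : ∀ a b : ℕ, MP50e386.frm MP50e386.pis sio (ee a) (ee b) =
      if b = MP50e386.pis a then (1 : ℂ) else 0 := by
    intro a b
    rw [← hb]
    exact x3_gam a b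
  have p1 : MP50e386.pis (2 * i) = 2 * i + 1 := by
    unfold MP50e386.pis
    rw [if_pos (even_two_mul i)]
  have p2 : MP50e386.pis (2 * i + 1) = 2 * i := by
    unfold MP50e386.pis
    rw [if_neg (by rw [Nat.not_even_iff_odd]; exact odd_two_mul_add_one i)]
    omega
  rw [hb]
  unfold x3w
  simp only [map_add, map_smul, LinearMap.add_apply, LinearMap.smul_apply, smul_eq_mul, e, p1, p2]
  by_cases h : i = j
  · subst h
    rw [if_neg (by omega), if_pos rfl, if_pos rfl, if_neg (by omega), if_pos rfl]
    norm_num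
  · rw [if_neg (by omega), if_neg (by omega), if_neg (by omega), if_neg (by omega), if_neg h]
    norm_num

/-- evaluation `τ` on the coefficients, `t ↦ t` -/
private noncomputable def x3E : Polynomial AA →+* Polynomial AA :=
  Polynomial.eval₂RingHom (tauA : AA →+* Polynomial AA) Polynomial.X

private theorem x3E_C (a : AA) : x3E (Polynomial.C a) = tauA a := by
  show Polynomial.eval₂ _ _ _ = _
  rw [Polynomial.eval₂_C]
  rfl

private theorem x3E_X : x3E Polynomial.X = Polynomial.X := by
  show Polynomial.eval₂ _ _ _ = _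
  rw [Polynomial.eval₂_X]

private noncomputable def x3M (r : ℕ) : Matrix (Fin (r + 1)) (Fin (r + 1)) AA :=
  Matrix.of fun i j => (xv (x3w (i : ℕ)) (x3w (j : ℕ)) : AA)

private theorem x3_charpoly (r : ℕ) : x3E (x3M r).charpoly =
    Polynomial.C ((-1) ^ (r + 1) * (x3M r).det) := by
  unfold Matrix.charpoly
  rw [RingHom.map_det]
  have h1 : x3E.mapMatrix (Matrix.charmatrix (x3M r)) =
      (Polynomial.C : AA →+* Polynomial AA).mapMatrix (-(x3M r)) := by
    ext1 i j
    rw [RingHom.mapMatrix_apply, RingHom.mapMatrix_apply, Matrix.map_apply, Matrix.map_apply,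
      Matrix.neg_apply, map_neg]
    have h2 : tauA (x3M r i j) = Polynomial.C (x3M r i j) +
        Polynomial.C (C (if (i : ℕ) = (j : ℕ) then (1 : ℂ) else 0)) * Polynomial.X := by
      unfold x3M
      rw [Matrix.of_apply, tauA_xv, x3_om]
    by_cases hij : i = j
    · subst hij
      rw [Matrix.charmatrix_apply_eq, map_sub, x3E_X, x3E_C, h2, if_pos rfl]
      simp only [map_one, one_mul]
      ring
    · rw [Matrix.charmatrix_apply_ne _ _ _ hij, map_neg, x3E_C, h2,
        if_neg (fun h => hij (Fin.ext h))]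
      simp only [map_zero, zero_mul, add_zero]
  rw [h1, ← RingHom.map_det, Matrix.det_neg, Fintype.card_fin]

theorem int_det (r s : ℕ) : IntP (Jd r s) ((r + 1) * (s + 1)) := by
  set P : Polynomial AA := (x3M r).charpoly ^ (s + 1) with hP
  have hmon : (x3M r).charpoly.Monic := Matrix.charpoly_monic _
  have hdeg : (x3M r).charpoly.natDegree = r + 1 := by
    rw [Matrix.charpoly_natDegree_eq_dim, Fintype.card_fin]
  have hPm : P.Monic := hmon.pow (s + 1)
  have hPd : P.natDegree = (r + 1) * (s + 1) := by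
    rw [hP, hmon.natDegree_pow, hdeg, mul_comm]
  refine ⟨fun k => -P.coeff k, ?_⟩
  have h1 : x3E P = Polynomial.X ^ ((r + 1) * (s + 1)) -
      ∑ k ∈ Finset.range ((r + 1) * (s + 1)), Polynomial.X ^ k * tauA (-P.coeff k) := by
    have h2 : x3E P = ∑ k ∈ Finset.range ((r + 1) * (s + 1) + 1),
        (tauA (P.coeff k) : Polynomial AA) * Polynomial.X ^ k := by
      show Polynomial.eval₂ _ _ _ = _
      rw [Polynomial.eval₂_eq_sum_range, hPd]
      rfl
    have h3 : P.coeff ((r + 1) * (s + 1)) = 1 := by
      rw [← hPd]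
      exact hPm
    rw [h2, Finset.sum_range_succ, h3, map_one, one_mul, add_comm, sub_eq_add_neg,
      ← Finset.sum_neg_distrib]
    congr 1
    apply Finset.sum_congr rfl
    intro k _
    rw [map_neg]
    ring
  rw [← h1, hP, map_pow, x3_charpoly, ← map_pow]
  apply Ideal.mem_map_of_mem
  rw [mul_pow]
  apply Ideal.mul_mem_left
  apply Ideal.subset_span
  refine ⟨fun i => x3w (i : ℕ), ?_⟩
  have h4 : x3M r = Matrix.of fun i j : Fin (r + 1) =>
      MP50e386.bil (x3w (i : ℕ)) (x3w (j : ℕ)) := by
    unfold x3M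
    ext1 i j
    rw [Matrix.of_apply, Matrix.of_apply, xv_A]
  rw [h4]

private theorem x3_pow {R B : Type} [CommRing R] [CommRing B] (f : R →+* B) (I : Ideal B) (t : B)
    {m : ℕ} (q : ℕ → R) (hq : t ^ m - ∑ k ∈ Finset.range m, t ^ k * f (q k) ∈ I) (k : ℕ) :
    ∃ p : ℕ → R, t ^ k - ∑ l ∈ Finset.range m, t ^ l * f (p l) ∈ I := by
  rcases m with _ | n
  · refine ⟨fun _ => 0, ?_⟩
    rw [Finset.range_zero, Finset.sum_empty, sub_zero] at hq ⊢
    rw [pow_zero] at hq
    have := Ideal.mul_mem_left _ (t ^ k) hq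
    rwa [mul_one] at this
  · induction k with
    | zero =>
      refine ⟨fun l => if l = 0 then 1 else 0, ?_⟩
      have h1 : ∑ l ∈ Finset.range (n + 1), t ^ l * f (if l = 0 then (1 : R) else 0) = 1 := by
        rw [Finset.sum_eq_single 0]
        · rw [if_pos rfl, map_one, pow_zero, one_mul]
        · intro b _ hb
          rw [if_neg hb, map_zero, mul_zero]
        · intro h0
          exact absurd (Finset.mem_range.2 (Nat.succ_pos n)) h0
      rw [h1, pow_zero, sub_self]
      exact Ideal.zero_mem _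
    | succ k ih =>
      obtain ⟨p, hp⟩ := ih
      refine ⟨fun l => (if l = 0 then 0 else p (l - 1)) + q l * p n, ?_⟩
      have h1 : ∑ l ∈ Finset.range (n + 1), t ^ l *
          f ((if l = 0 then 0 else p (l - 1)) + q l * p n) =
          ∑ l ∈ Finset.range n, t ^ (l + 1) * f (p l) +
            (∑ l ∈ Finset.range (n + 1), t ^ l * f (q l)) * f (p n) := by
        rw [Finset.sum_mul]
        have h2 : ∑ l ∈ Finset.range n, t ^ (l + 1) * f (p l) =
            ∑ l ∈ Finset.range (n + 1), t ^ l * f (if l = 0 then 0 else p (l - 1)) := by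
          rw [Finset.sum_range_succ', if_pos rfl, map_zero, mul_zero, add_zero]
          apply Finset.sum_congr rfl
          intro l _
          rw [if_neg (Nat.succ_ne_zero l), Nat.add_sub_cancel]
        rw [h2, ← Finset.sum_add_distrib]
        apply Finset.sum_congr rfl
        intro l _
        rw [map_add, map_mul]
        ring
      rw [h1]
      have h3 := Ideal.mul_mem_left _ t hp
      have h4 := Ideal.mul_mem_right (f (p n)) _ hq
      have h5 := Ideal.add_mem _ h3 h4
      have h7 : t * ∑ l ∈ Finset.range (n + 1), t ^ l * f (p l) =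
          ∑ l ∈ Finset.range n, t ^ (l + 1) * f (p l) + t ^ (n + 1) * f (p n) := by
        rw [Finset.mul_sum, Finset.sum_range_succ]
        congr 1
        · apply Finset.sum_congr rfl
          intro l _
          ring
        · ring
      have h6 : t * (t ^ k - ∑ l ∈ Finset.range (n + 1), t ^ l * f (p l)) +
          (t ^ (n + 1) - ∑ l ∈ Finset.range (n + 1), t ^ l * f (q l)) * f (p n) =
          t ^ (k + 1) - (∑ l ∈ Finset.range n, t ^ (l + 1) * f (p l) +
            (∑ l ∈ Finset.range (n + 1), t ^ l * f (q l)) * f (p n)) := by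
        rw [mul_sub, h7]
        ring
      rw [h6] at h5
      exact h5

/-- all powers of `t` are combinations of the first `m` ones -/
theorem IntP.pow {J : Ideal AA} {m : ℕ} (h : IntP J m) (k : ℕ) :
    ∃ p : ℕ → AA, Polynomial.X ^ k - ∑ l ∈ Finset.range m, Polynomial.X ^ l * tauA (p l) ∈
      Ideal.map Polynomial.C J := by
  obtain ⟨q, hq⟩ := h
  exact x3_pow (tauA : AA →+* Polynomial AA) _ _ q hq k

end MP50e386O
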