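import Mathlib
import Pool.Agent.Lib.MP_50e386_al.O.XDefs

/-! Purity; two pieces. -/

namespace MP50e386O

open MvPolynomial Pool.Agent.Lib.MP50e386 MP50e386N

/-- purity: `W` a `ℂ`-subspace of the polynomials with complex coefficients -/
theorem purity (𝔞 : Ideal AA) (W : Submodule ℂ (U AA))
    (hW : ∀ f ∈ W, f ∈ (MvPolynomial.map (algebraMap ℂ AA) : MvPolynomial (ℕ × ℕ) ℂ →+* U AA).range)
    (f : U AA) (hf : f ∈ Submodule.span AA (W : Set (U AA))) (hf' : ∀ m, coeff m f ∈ 𝔞) :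
    f ∈ 𝔞 • Submodule.span AA (W : Set (U AA)) := by
  set io : MvPolynomial (ℕ × ℕ) ℂ →ₗ[ℂ] U AA :=
    (MvPolynomial.mapAlgHom (Algebra.ofId ℂ AA)).toLinearMap with hio
  have hio' : ∀ g, io g = MvPolynomial.map (algebraMap ℂ AA) g := fun g => rfl
  set W0 : Submodule ℂ (MvPolynomial (ℕ × ℕ) ℂ) := W.comap io with hW0
  obtain ⟨p, hp⟩ := LinearMap.exists_leftInverse_of_injective W0.subtype W0.ker_subtype
  have hp' : ∀ g : W0, (p (g : MvPolynomial (ℕ × ℕ) ℂ)) = g := fun g =>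
    LinearMap.congr_fun hp g
  set pA : U AA →ₗ[AA] U AA := (basisMonomials (ℕ × ℕ) AA).constr AA
    (fun m => io ((p (monomial m 1) : W0) : MvPolynomial (ℕ × ℕ) ℂ)) with hpA
  have hmon : ∀ m : (ℕ × ℕ) →₀ ℕ, pA (monomial m 1)
      = io ((p (monomial m 1) : W0) : MvPolynomial (ℕ × ℕ) ℂ) := by
    intro m
    have h := (basisMonomials (ℕ × ℕ) AA).constr_basis AA
      (fun m => io ((p (monomial m 1) : W0) : MvPolynomial (ℕ × ℕ) ℂ)) m
    rwa [coe_basisMonomials] at h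
  have hlin : (pA.restrictScalars ℂ) ∘ₗ io = io ∘ₗ W0.subtype ∘ₗ p := by
    apply (basisMonomials (ℕ × ℕ) ℂ).ext
    intro m
    rw [coe_basisMonomials]
    simp only [LinearMap.comp_apply, LinearMap.restrictScalars_apply, Submodule.subtype_apply]
    have e : io (monomial m 1) = monomial m 1 := by
      rw [hio', map_monomial, map_one]
    rw [e, hmon]
  have hWfix : ∀ w ∈ W, pA w = w := by
    intro w hw
    obtain ⟨g, hg⟩ := hW w hw
    have hg' : io g = w := hg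
    have hgW : g ∈ W0 := by
      change io g ∈ W
      rw [hg']; exact hw
    have h1 := LinearMap.congr_fun hlin g
    simp only [LinearMap.comp_apply, LinearMap.restrictScalars_apply, Submodule.subtype_apply,
      hg'] at h1
    rw [h1, hp' ⟨g, hgW⟩]
    exact hg'
  have hfix : pA f = f := by
    have h1 : Set.EqOn pA (LinearMap.id : U AA →ₗ[AA] U AA) (Submodule.span AA (W : Set (U AA))) :=
      LinearMap.eqOn_span (fun w hw => hWfix w hw)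
    exact h1 hf
  rw [← hfix, f.as_sum, map_sum]
  refine Submodule.sum_mem _ fun m _ => ?_
  have e : (monomial m (coeff m f) : U AA) = coeff m f • monomial m 1 := by
    rw [smul_monomial, smul_eq_mul, mul_one]
  rw [e, map_smul, hmon]
  refine Submodule.smul_mem_smul (hf' m) (Submodule.subset_span ?_)
  exact (p (monomial m 1)).2

/-- two pieces -/
theorem NoethInt_sup {X₁ Y₁ X₂ Y₂ : Submodule AA (U AA)} (hY₁ : GS Y₁) (hY₂ : GS Y₂)
    (hXY₁ : X₁ ≤ Y₁) (hXY₂ : X₂ ≤ Y₂) (h₁ : NoethInt GS X₁ Y₁) (h₂ : NoethInt GS X₂ Y₂) :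
    NoethInt (R := AA) GS (X₁ ⊔ X₂) (Y₁ ⊔ Y₂) := by
  intro N hmono hN
  obtain ⟨n1, hn1⟩ := h₁ (fun i => N i ⊓ Y₁) (fun i j hij => inf_le_inf_right _ (hmono hij))
    (fun i => ⟨GS.inf (hN i).1 hY₁, le_inf (le_sup_left.trans (hN i).2.1) hXY₁, inf_le_right⟩)
  obtain ⟨n2, hn2⟩ := h₂ (fun i => (N i ⊔ Y₁) ⊓ Y₂)
    (fun i j hij => inf_le_inf_right _ (sup_le_sup_right (hmono hij) _))
    (fun i => ⟨GS.inf (GS.sup (hN i).1 hY₁) hY₂,
      le_inf ((le_sup_right.trans (hN i).2.1).trans le_sup_left) hXY₂, inf_le_right⟩)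
  have hdec : ∀ i, N i ⊔ Y₁ = ((N i ⊔ Y₁) ⊓ Y₂) ⊔ Y₁ := by
    intro i
    have h3 : N i ⊔ Y₁ ≤ Y₁ ⊔ Y₂ := sup_le (hN i).2.2 le_sup_left
    have h4 : Y₁ ⊔ Y₂ ⊓ (N i ⊔ Y₁) = (Y₁ ⊔ Y₂) ⊓ (N i ⊔ Y₁) :=
      (sup_inf_assoc_of_le Y₂ le_sup_right).symm
    rw [inf_comm (N i ⊔ Y₁) Y₂, sup_comm (Y₂ ⊓ (N i ⊔ Y₁)) Y₁, h4, inf_eq_right.2 h3]
  refine ⟨max n1 n2, fun n hn => ?_⟩
  have ha : N n ⊓ Y₁ = N (max n1 n2) ⊓ Y₁ :=
    (hn1 n ((le_max_left _ _).trans hn)).trans (hn1 (max n1 n2) (le_max_left _ _)).symm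
  have hb : N n ⊔ Y₁ = N (max n1 n2) ⊔ Y₁ := by
    rw [hdec n, hdec (max n1 n2)]
    have h5 : (N n ⊔ Y₁) ⊓ Y₂ = (N (max n1 n2) ⊔ Y₁) ⊓ Y₂ :=
      (hn2 n ((le_max_right _ _).trans hn)).trans (hn2 (max n1 n2) (le_max_right _ _)).symm
    rw [h5]
  exact (eq_of_le_of_inf_le_of_sup_le (hmono hn) ha.le hb.le).symm

end MP50e386O
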