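import Mathlib
import Pool.Agent.Lib.MP_50e386_al.N.G2
import Pool.Agent.Lib.MP_50e386_al.O.XDefs

/-! The cover of `M_S(A)` in one weight. -/

namespace MP50e386O

open MvPolynomial Pool.Agent.Lib.MP50e386 MP50e386N

private theorem x5_cst (c : ℂ) (i : ℕ) : (cst (c • ee i) : VR AA) =
    Finsupp.single i (algebraMap ℂ AA c) := by
  unfold cst
  simp [Finsupp.mapRange.linearMap_apply, Finsupp.mapRange_single]

private theorem x5_cst_ee (i : ℕ) : (cst (ee i) : VR AA) = Finsupp.single i 1 := by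
  have := x5_cst 1 i
  rwa [one_smul, map_one] at this

private theorem x5_MW_X (a i : ℕ) : MW (Finsupp.single i 1) (X (a, i) : U AA) := by
  intro t
  rw [sbC_X, x5_cst, zf_single, algebraMap_smul]
  congr 1
  exact ((Finsupp.prod_single_index (h := fun i k => t i ^ k) (pow_zero _)).trans (pow_one _)).symm

private theorem x5_MW_x (i j : ℕ) :
    MW (Finsupp.single i 1 + Finsupp.single j 1) (C (X s(i, j)) : U AA) := by
  intro t
  have h0 : (Finsupp.single i 1 + Finsupp.single j 1 : ℕ →₀ ℕ).prod (fun i k => t i ^ k) =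
      t i * t j := by
    rw [Finsupp.prod_add_index' (fun _ => pow_zero _) (fun _ _ _ => pow_add _ _ _)]
    exact congrArg₂ (· * ·)
      ((Finsupp.prod_single_index (h := fun i k => t i ^ k) (pow_zero _)).trans (pow_one _))
      ((Finsupp.prod_single_index (h := fun i k => t i ^ k) (pow_zero _)).trans (pow_one _))
  rw [sbC_C, h0]
  have h2 : sbR (fun i => t i • ee i) (X s(i, j) : AA) = (t i * t j) • (X s(i, j) : AA) := by
    have h3 : (X s(i, j) : AA) = GLRing.x i j := rfl
    unfold sbR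
    rw [h3, sb_x', x5_cst, x5_cst, xf_single, Algebra.smul_def, map_mul]
  rw [h2, Algebra.smul_def, C_mul, Algebra.smul_def]
  rfl

private theorem x5_MW_one : MW 0 (1 : U AA) := by
  intro t
  rw [Finsupp.prod_zero_index, one_smul, map_one]

private theorem x5_MW_prod {ι : Type} (s : Finset ι) (κ : ι → ℕ →₀ ℕ) (f : ι → U AA)
    (h : ∀ i ∈ s, MW (κ i) (f i)) : MW (∑ i ∈ s, κ i) (∏ i ∈ s, f i) := by
  classical
  induction s using Finset.induction_on with
  | empty => rw [Finset.sum_empty, Finset.prod_empty]; exact x5_MW_one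
  | insert a s ha ih =>
    rw [Finset.sum_insert ha, Finset.prod_insert ha]
    exact MW_mul (h a (Finset.mem_insert_self _ _)) (ih fun i hi => h i (Finset.mem_insert_of_mem hi))

private noncomputable def x5idx (S : Finset ℕ) (a : ℕ) : ℕ :=
  if h : a ∈ S then (S.equivFin ⟨a, h⟩ : ℕ) else 0

private theorem x5idx_lt (S : Finset ℕ) {a : ℕ} (ha : a ∈ S) : x5idx S a < S.card := by
  unfold x5idx; rw [dif_pos ha]; exact (S.equivFin ⟨a, ha⟩).2

private theorem x5idx_sum (S : Finset ℕ) {M : Type} [AddCommMonoid M] (F : ℕ → M) :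
    ∑ a ∈ S, F (x5idx S a) = ∑ t ∈ Finset.range S.card, F t := by
  rw [← Finset.sum_coe_sort, Finset.sum_range]
  refine Fintype.sum_equiv S.equivFin _ _ fun a => ?_
  unfold x5idx
  rw [dif_pos a.2]

/-- the cover element -/
private noncomputable def x5g (S : Finset ℕ) (k : ℕ) : U AA :=
  (∏ i ∈ Finset.range k, C (X s(2 * i, 2 * i + 1))) * ∏ a ∈ S, X (a, 2 * k + x5idx S a)

private theorem x5_ML (S : Finset ℕ) (k : ℕ) : ML (2 * k + S.card) (x5g S k) := by
  unfold ML x5g
  have h1 : (∑ i ∈ Finset.range (2 * k + S.card), Finsupp.single i 1 : ℕ →₀ ℕ) =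
      (∑ i ∈ Finset.range k, (Finsupp.single (2 * i) 1 + Finsupp.single (2 * i + 1) 1)) +
      ∑ a ∈ S, Finsupp.single (2 * k + x5idx S a) 1 := by
    rw [Finset.sum_range_add, x5idx_sum S (fun t => (Finsupp.single (2 * k + t) 1 : ℕ →₀ ℕ))]
    congr 1
    clear S
    induction k with
    | zero => simp
    | succ k ih =>
      rw [Finset.sum_range_succ, ← ih, show 2 * (k + 1) = 2 * k + 1 + 1 by ring,
        Finset.sum_range_succ, Finset.sum_range_succ, add_assoc]
  rw [h1]
  exact MW_mul (x5_MW_prod _ _ _ fun i _ => x5_MW_x _ _) (x5_MW_prod _ _ _ fun a _ => x5_MW_X _ _)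

private theorem x5_sdeg_add (a : ℕ) (m m' : ℕ × ℕ →₀ ℕ) :
    sdeg a (m + m') = sdeg a m + sdeg a m' := by
  unfold sdeg
  refine Finsupp.sum_add_index' ?_ ?_
  · intro p; simp
  · intro p b c; split_ifs <;> simp

private theorem x5_sdeg_zero (a : ℕ) : sdeg a (0 : ℕ × ℕ →₀ ℕ) = 0 := by
  unfold sdeg; exact Finsupp.sum_zero_index

private theorem x5_sdeg_single (a : ℕ) (p : ℕ × ℕ) :
    sdeg a (Finsupp.single p 1) = if p.1 = a then 1 else 0 := by
  unfold sdeg
  rw [Finsupp.sum_single_index]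
  simp

private theorem x5_sdeg_sum (a : ℕ) (s : Finset ℕ) (f : ℕ → (ℕ × ℕ →₀ ℕ)) :
    sdeg a (∑ k ∈ s, f k) = ∑ k ∈ s, sdeg a (f k) := by
  classical
  induction s using Finset.induction_on with
  | empty => rw [Finset.sum_empty, Finset.sum_empty, x5_sdeg_zero]
  | insert k s hk ih => rw [Finset.sum_insert hk, Finset.sum_insert hk, x5_sdeg_add, ih]

private theorem x5_prod_X (S : Finset ℕ) (b : ℕ → ℕ) :
    (∏ a ∈ S, X (a, b a) : U AA) = monomial (∑ a ∈ S, Finsupp.single (a, b a) 1) 1 := by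
  rw [monomial_sum_one]
  rfl

private theorem x5_mem (S : Finset ℕ) (k : ℕ) : x5g S k ∈ MS AA S := by
  unfold x5g
  rw [← map_prod, ← smul_eq_C_mul]
  refine Submodule.smul_mem _ _ ?_
  rw [x5_prod_X S (fun a => 2 * k + x5idx S a)]
  refine (monomial_mem_restrictSupport AA).2 (Or.inl fun a => ?_)
  rw [x5_sdeg_sum]
  simp only [x5_sdeg_single]
  rw [Finset.sum_ite_eq']

private theorem x5_sdeg_pos {a : ℕ} {m : ℕ × ℕ →₀ ℕ} (h : sdeg a m = 1) :
    ∃ j : ℕ, m (a, j) = 1 ∧ ∀ j', m (a, j') ≠ 0 → j' = j := by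
  classical
  unfold sdeg at h
  rw [Finsupp.sum] at h
  have h1 : ∃ p ∈ m.support, (if p.1 = a then m p else 0) ≠ 0 := by
    by_contra hc
    push Not at hc
    rw [Finset.sum_eq_zero hc] at h
    exact zero_ne_one h
  obtain ⟨p, hp, hne⟩ := h1
  have hpa : p.1 = a := by
    by_contra hc
    rw [if_neg hc] at hne
    exact hne rfl
  rw [← Finset.add_sum_erase _ _ hp, if_pos hpa] at h
  rw [if_pos hpa] at hne
  have hp' : p = (a, p.2) := Prod.ext hpa rfl
  have h2 : m p = 1 := by omega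
  have h3 : ∑ q ∈ m.support.erase p, (if q.1 = a then m q else 0) = 0 := by omega
  refine ⟨p.2, by rw [← hp']; exact h2, fun j' hj' => ?_⟩
  by_contra hc
  rw [Finset.sum_eq_zero_iff] at h3
  have h4 := h3 (a, j') (by
    rw [Finset.mem_erase, Finsupp.mem_support_iff]
    refine ⟨fun he => hc ?_, hj'⟩
    rw [← he])
  rw [if_pos rfl] at h4
  exact hj' h4

private theorem x5_struct {S : Finset ℕ} {m : ℕ × ℕ →₀ ℕ}
    (hm : ∀ a, sdeg a m = if a ∈ S then 1 else 0) :
    ∃ j : ℕ → ℕ, m = ∑ a ∈ S, Finsupp.single (a, j a) 1 := by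
  classical
  have h1 : ∀ a, a ∈ S → ∃ j : ℕ, m (a, j) = 1 ∧ ∀ j', m (a, j') ≠ 0 → j' = j := by
    intro a ha
    apply x5_sdeg_pos
    rw [hm, if_pos ha]
  choose! j hj using h1
  refine ⟨j, ?_⟩
  ext ⟨a, i⟩
  rw [Finsupp.finsetSum_apply]
  by_cases ha : a ∈ S
  · rw [Finset.sum_eq_single_of_mem a ha]
    · by_cases hi : i = j a
      · rw [hi, Finsupp.single_eq_same, (hj a ha).1]
      · rw [Finsupp.single_apply, if_neg]
        · by_contra hc
          exact hi ((hj a ha).2 i hc)
        · intro h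
          exact hi (Prod.ext_iff.1 h).2.symm
    · intro k' hk'' hne
      rw [Finsupp.single_apply, if_neg]
      intro h
      exact hne (Prod.ext_iff.1 h).1
  · have h2 : m (a, i) = 0 := by
      by_contra hc
      have h3 := hm a
      rw [if_neg ha] at h3
      unfold sdeg at h3
      rw [Finsupp.sum, Finset.sum_eq_zero_iff] at h3
      have h4 := h3 (a, i) (Finsupp.mem_support_iff.2 hc)
      rw [if_pos rfl] at h4
      exact hc h4
    rw [h2]
    symm
    refine Finset.sum_eq_zero fun k hk => ?_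
    rw [Finsupp.single_apply, if_neg]
    intro h
    apply ha
    have h' : k = a := (Prod.ext_iff.1 h).1
    rw [← h']
    exact hk

private theorem x5_word (k : ℕ) : ∀ μ : Sym2 ℕ →₀ ℕ, μ.degree = k →
    ∃ s : ℕ → Sym2 ℕ, μ = ∑ i ∈ Finset.range k, Finsupp.single (s i) 1 := by
  classical
  induction k with
  | zero =>
    intro μ h
    refine ⟨fun _ => s(0, 0), ?_⟩
    rw [Finset.range_zero, Finset.sum_empty]
    exact (Finsupp.degree_eq_zero_iff μ).1 h
  | succ k ih =>
    intro μ h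
    have h0 : μ ≠ 0 := by
      rintro rfl
      rw [map_zero] at h
      omega
    obtain ⟨t, ht⟩ := Finsupp.support_nonempty_iff.2 h0
    have h1 : Finsupp.single t 1 ≤ μ := by
      rw [Finsupp.single_le_iff]
      exact Nat.one_le_iff_ne_zero.2 (Finsupp.mem_support_iff.1 ht)
    have h2 : μ = (μ - Finsupp.single t 1) + Finsupp.single t 1 := (tsub_add_cancel_of_le h1).symm
    have h3 : (μ - Finsupp.single t 1).degree = k := by
      have := congrArg Finsupp.degree h2
      rw [map_add, Finsupp.degree_single, h] at this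
      omega
    obtain ⟨s, hs⟩ := ih _ h3
    refine ⟨fun i => if i < k then s i else t, ?_⟩
    have e1 : ∀ i ∈ Finset.range k, (Finsupp.single (s i) 1 : Sym2 ℕ →₀ ℕ) =
        Finsupp.single ((fun i => if i < k then s i else t) i) 1 := by
      intro i hi
      simp only [if_pos (Finset.mem_range.1 hi)]
    rw [Finset.sum_range_succ, ← Finset.sum_congr rfl e1, ← hs]
    simp only [lt_irrefl, if_false]
    exact h2

private theorem x5_sbR_monomial (c : ℂ) (μ : Sym2 ℕ →₀ ℕ) (r : ℂ) :
    sbR (fun i => c • ee i) (monomial μ r : AA) = c ^ (2 * μ.degree) • (monomial μ r : AA) := by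
  have hX : ∀ s : Sym2 ℕ, sbR (fun i => c • ee i) (X s : AA) = C (c ^ 2) * X s := by
    intro s
    induction s using Sym2.ind with
    | _ i j =>
      have h3 : (X s(i, j) : AA) = GLRing.x i j := rfl
      unfold sbR
      rw [h3, sb_x', x5_cst, x5_cst, xf_single, pow_two, C_mul]
      rfl
  have h1 : (∏ s ∈ μ.support, (C (c ^ 2) : AA) ^ μ s) = C (c ^ (2 * μ.degree)) := by
    rw [Finset.prod_pow_eq_pow_sum, ← Finsupp.degree_apply, ← C_pow, pow_mul]
  have h2 : sbR (fun i => c • ee i) (C r : AA) = C r := AlgHom.commutes _ _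
  rw [smul_eq_C_mul, ← h1]
  generalize (C (c ^ 2) : AA) = D at hX h1 ⊢
  rw [monomial_eq, map_mul, Finsupp.prod, map_prod]
  simp only [map_pow, hX, mul_pow]
  rw [Finset.prod_mul_distrib, h2]
  ring

private theorem x5_sbC_monomial (c : ℂ) (m : ℕ × ℕ →₀ ℕ) (a : AA) :
    sbC (fun i => c • ee i) (monomial m a : U AA) =
      monomial m (c ^ m.degree • sbR (fun i => c • ee i) a) := by
  rw [monomial_eq, map_mul, Finsupp.prod, map_prod]
  have hX : ∀ p : ℕ × ℕ, sbC (fun i => c • ee i) (X p : U AA) = C (algebraMap ℂ AA c) * X p := by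
    rintro ⟨a, i⟩
    rw [sbC_X, x5_cst, zf_single, smul_eq_C_mul]
  simp only [map_pow, hX, mul_pow]
  rw [Finset.prod_mul_distrib, sbC_C]
  have h1 : (∏ p ∈ m.support, (C (algebraMap ℂ AA c) : U AA) ^ m p) =
      C (algebraMap ℂ AA (c ^ m.degree)) := by
    rw [Finset.prod_pow_eq_pow_sum, ← Finsupp.degree_apply, ← C_pow, ← map_pow]
  rw [h1, monomial_eq, Algebra.smul_def, C_mul, Finsupp.prod]
  ring

private theorem x5_weight {S : Finset ℕ} {e : ℕ} {f : U AA} (hf : f ∈ MS AA S) (hw : HW e f)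
    {m : ℕ × ℕ →₀ ℕ} (hm : m ∈ f.support) {μ : Sym2 ℕ →₀ ℕ} (hμ : μ ∈ (coeff m f).support) :
    e = 2 * μ.degree + S.card := by
  classical
  have hmS : ∀ a, sdeg a m = if a ∈ S then 1 else 0 :=
    ((mem_restrictSupport_iff AA).1 hf) (by exact_mod_cast hm)
  obtain ⟨j, hj⟩ := x5_struct hmS
  have hd : m.degree = S.card := by
    rw [hj, map_sum]
    simp only [Finsupp.degree_single]
    rw [Finset.sum_const, smul_eq_mul, mul_one]
  have h1 := hw 2
  have h2 : sbC (fun i => (2 : ℂ) • ee i) f =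
      ∑ m ∈ f.support, monomial m ((2 : ℂ) ^ m.degree • sbR (fun i => (2 : ℂ) • ee i) (coeff m f)) := by
    conv_lhs => rw [f.as_sum]
    rw [map_sum]
    exact Finset.sum_congr rfl fun m _ => x5_sbC_monomial _ _ _
  rw [h2] at h1
  have h3 := congrArg (coeff m) h1
  rw [coeff_sum, Finset.sum_eq_single_of_mem m hm, coeff_monomial, if_pos rfl, coeff_smul] at h3
  swap
  · intro m' _ hne
    rw [coeff_monomial, if_neg hne]
  have h4 : sbR (fun i => (2 : ℂ) • ee i) (coeff m f) = ∑ μ ∈ (coeff m f).support,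
      (2 : ℂ) ^ (2 * μ.degree) • (monomial μ (coeff μ (coeff m f)) : AA) := by
    conv_lhs => rw [(coeff m f).as_sum]
    rw [map_sum]
    exact Finset.sum_congr rfl fun μ _ => x5_sbR_monomial _ _ _
  rw [h4] at h3
  have h5 := congrArg (coeff μ) h3
  rw [coeff_smul, coeff_sum, Finset.sum_eq_single_of_mem μ hμ, coeff_smul, coeff_monomial,
    if_pos rfl, coeff_smul] at h5
  swap
  · intro μ' _ hne
    rw [coeff_smul, coeff_monomial, if_neg hne, smul_zero]
  have h6 : coeff μ (coeff m f) ≠ 0 := mem_support_iff.1 hμ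
  rw [smul_eq_mul, smul_eq_mul, smul_eq_mul, ← mul_assoc] at h5
  have h7 := mul_right_cancel₀ h6 h5
  rw [← pow_add, hd] at h7
  have h8 : (2 : ℕ) ^ (S.card + 2 * μ.degree) = 2 ^ e := by exact_mod_cast h7
  have h9 := Nat.pow_right_injective (le_refl 2) h8
  omega

private theorem x5_value (S : Finset ℕ) (k : ℕ) (s : ℕ → Sym2 ℕ) (b : ℕ → ℕ) :
    ∃ j : ℕ → ℕ, Th (x5g S k) id (∏ l ∈ Finset.range (2 * k + S.card), X (l, j l)) =
      C (∏ i ∈ Finset.range k, X (s i)) * ∏ a ∈ S, X (a, b a) := by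
  have h1 : ∀ i, ∃ p : ℕ × ℕ, s i = s(p.1, p.2) := by
    intro i
    induction s i using Sym2.ind with
    | _ x y => exact ⟨(x, y), rfl⟩
  choose p hp using h1
  let j : ℕ → ℕ := fun l => if l < 2 * k then (if l % 2 = 0 then (p (l / 2)).1 else (p (l / 2)).2)
    else if h : l - 2 * k < S.card then b (S.equivFin.symm ⟨l - 2 * k, h⟩) else 0
  refine ⟨j, ?_⟩
  have hT := Th_mono (x5g S k) (x5_ML S k) id (Set.injOn_id _) j
  simp only [id] at hT
  rw [hT]
  unfold x5g
  rw [map_mul, map_prod, map_prod, map_prod]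
  congr 1
  · refine Finset.prod_congr rfl fun i hi => ?_
    have hi' := Finset.mem_range.1 hi
    rw [sbC_C]
    congr 1
    have h3 : (X s(2 * i, 2 * i + 1) : AA) = GLRing.x (2 * i) (2 * i + 1) := rfl
    unfold sbR
    rw [h3, sb_x', x5_cst_ee, x5_cst_ee, xf_single, one_mul, one_mul, hp i]
    have e1 : j (2 * i) = (p i).1 := by
      simp only [j]
      rw [if_pos (by omega), if_pos (by omega), show 2 * i / 2 = i by omega]
    have e2 : j (2 * i + 1) = (p i).2 := by
      simp only [j]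
      rw [if_pos (by omega), if_neg (by omega), show (2 * i + 1) / 2 = i by omega]
    rw [e1, e2]
    rfl
  · refine Finset.prod_congr rfl fun a ha => ?_
    rw [sbC_X, x5_cst_ee, zf_single, one_smul]
    congr 2
    simp only [j]
    have h4 := x5idx_lt S ha
    rw [if_neg (by omega), dif_pos (by omega)]
    congr 1
    have h5 : (⟨2 * k + x5idx S a - 2 * k, by omega⟩ : Fin S.card) = S.equivFin ⟨a, ha⟩ := by
      ext
      simp only [add_tsub_cancel_left]
      unfold x5idx
      rw [dif_pos ha]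
    rw [h5, Equiv.symm_apply_apply]

/-- the multilinear element `x_{01} x_{23} ⋯ z_{a_1,2k} ⋯` and its surjectivity in weight `e` -/
theorem exists_cover (S : Finset ℕ) (e : ℕ) :
    (∀ f ∈ MS AA S, HW e f → f = 0) ∨
    ∃ g : U AA, ML e g ∧ g ∈ MS AA S ∧ ∀ f ∈ MS AA S, HW e f →
      ∃ w ∈ Submodule.span ℂ {v : U AA | ∃ j : ℕ → ℕ, v = ∏ k ∈ Finset.range e, X (k, j k)},
        Th g id w = f := by
  classical
  by_cases he : ∃ k, e = 2 * k + S.card
  · right
    obtain ⟨k, rfl⟩ := he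
    refine ⟨x5g S k, x5_ML S k, x5_mem S k, fun f hf hw => ?_⟩
    let T : Submodule ℂ (U AA) := Submodule.map ((Th (x5g S k) id).restrictScalars ℂ)
      (Submodule.span ℂ {v : U AA | ∃ j : ℕ → ℕ, v = ∏ l ∈ Finset.range (2 * k + S.card), X (l, j l)})
    have hT : f ∈ T := by
      rw [f.as_sum]
      refine Submodule.sum_mem _ fun m hm => ?_
      have h1 : (monomial m (coeff m f) : U AA) =
          ∑ μ ∈ (coeff m f).support, coeff μ (coeff m f) • monomial m (monomial μ (1 : ℂ)) := by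
        conv_lhs => rw [(coeff m f).as_sum]
        rw [map_sum]
        refine Finset.sum_congr rfl fun μ _ => ?_
        rw [smul_monomial]
        congr 1
        rw [smul_monomial, smul_eq_mul, mul_one]
      rw [h1]
      refine Submodule.sum_mem _ fun μ hμ => Submodule.smul_mem _ _ ?_
      have h2 := x5_weight hf hw hm hμ
      have h3 : μ.degree = k := by omega
      obtain ⟨s, hs⟩ := x5_word k μ h3
      have hmS : ∀ a, sdeg a m = if a ∈ S then 1 else 0 :=
        ((mem_restrictSupport_iff AA).1 hf) (by exact_mod_cast hm)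
      obtain ⟨b, hb⟩ := x5_struct hmS
      obtain ⟨j, hj⟩ := x5_value S k s b
      refine ⟨∏ l ∈ Finset.range (2 * k + S.card), X (l, j l), Submodule.subset_span ⟨j, rfl⟩, ?_⟩
      rw [LinearMap.restrictScalars_apply, hj, x5_prod_X, ← hb]
      have h5 : (∏ i ∈ Finset.range k, X (s i) : AA) = monomial μ 1 := by
        rw [hs, monomial_sum_one]
        rfl
      rw [h5, C_mul_monomial, mul_one]
    obtain ⟨w, hw1, hw2⟩ := hT
    exact ⟨w, hw1, hw2⟩
  · left
    intro f hf hw
    by_contra hne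
    obtain ⟨m, hm⟩ := support_nonempty.2 hne
    have h1 : coeff m f ≠ 0 := mem_support_iff.1 hm
    obtain ⟨μ, hμ⟩ := support_nonempty.2 h1
    exact he ⟨_, x5_weight hf hw hm hμ⟩

end MP50e386O
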