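import Mathlib
import Pool.Agent.Lib.MP_50e386_al.N.G2
import Pool.Agent.Lib.MP_50e386_al.N.T6
import Pool.Agent.Lib.MP_50e386_al.O.XDefs
import Pool.Agent.Lib.MP_50e386_al.O.X5a
import Pool.Agent.Lib.MP_50e386_al.O.X5b

/-! Noetherianity of `F / 𝔞 F` for submodules `F` generated in bounded weight (FG). -/

namespace MP50e386O

open MvPolynomial Pool.Agent.Lib.MP50e386 MP50e386N

/-- the span of the multilinear monomials `z_{0,j_0} ⋯ z_{e-1,j_{e-1}}` -/
private noncomputable def x5B (e : ℕ) : Submodule ℂ (U AA) :=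
  Submodule.span ℂ {v : U AA | ∃ j : ℕ → ℕ, v = ∏ k ∈ Finset.range e, X (k, j k)}

private theorem x5_mono_mem (n : ℕ) (j : ℕ → ℕ) :
    (∏ k ∈ Finset.range n, X (k, j k) : U AA) ∈ MS AA (Finset.range n) := by
  classical
  have h0 : (∏ k ∈ Finset.range n, X (k, j k) : U AA) =
      monomial (∑ k ∈ Finset.range n, Finsupp.single (k, j k) 1) 1 := by
    rw [monomial_sum_one]
    rfl
  rw [h0]
  unfold MS
  rw [mem_restrictSupport_iff]
  intro m hm
  have hm' : m = ∑ k ∈ Finset.range n, Finsupp.single (k, j k) 1 := by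
    have := support_monomial_subset (Finset.mem_coe.1 hm)
    exact Finset.mem_singleton.1 this
  subst hm'
  intro a
  have hadd : ∀ m m' : ℕ × ℕ →₀ ℕ, sdeg a (m + m') = sdeg a m + sdeg a m' := by
    intro m m'
    unfold sdeg
    refine Finsupp.sum_add_index' ?_ ?_
    · intro p
      simp
    · intro p e e'
      split_ifs
      · rfl
      · rfl
  have hsum : ∀ s : Finset ℕ, sdeg a (∑ k ∈ s, Finsupp.single (k, j k) 1) =
      ∑ k ∈ s, if k = a then 1 else 0 := by
    intro s
    induction s using Finset.induction_on with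
    | empty =>
      rw [Finset.sum_empty, Finset.sum_empty]
      unfold sdeg
      exact Finsupp.sum_zero_index
    | insert k s hk ih =>
      rw [Finset.sum_insert hk, Finset.sum_insert hk, hadd, ih]
      congr 1
      unfold sdeg
      rw [Finsupp.sum_single_index]
      simp
  rw [hsum, Finset.sum_ite_eq']

private theorem x5B_MS (e : ℕ) {f : U AA} (hf : f ∈ x5B e) : f ∈ MS AA (Finset.range e) := by
  unfold x5B at hf
  induction hf using Submodule.span_induction with
  | mem v hv =>
    obtain ⟨j, rfl⟩ := hv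
    exact x5_mono_mem e j
  | zero => exact Submodule.zero_mem _
  | add u v _ _ hu hv => exact Submodule.add_mem _ hu hv
  | smul c v _ hv => exact smulC_mem _ c hv

private theorem x5_zf (a : ℕ) (v : V) :
    (zf a (cst v) : U AA) ∈ Submodule.span ℂ (Set.range fun i : ℕ => (X (a, i) : U AA)) := by
  induction v using Finsupp.induction_linear with
  | zero => simp
  | add f g hf hg => rw [map_add, map_add]; exact Submodule.add_mem _ hf hg
  | single i c =>
    have h1 : (Finsupp.single i c : V) = c • ee i := by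
      rw [Finsupp.smul_single, smul_eq_mul, mul_one]
    have h2 : (cst (ee i) : VR AA) = Finsupp.single i 1 := by
      simp [cst]
    rw [h1, map_smul, h2]
    have h3 : (zf a (c • (Finsupp.single i 1 : VR AA)) : U AA) = c • X (a, i) := by
      rw [← algebraMap_smul AA c (Finsupp.single i 1 : VR AA), map_smul, zf_single, one_smul,
        algebraMap_smul]
    rw [h3]
    exact Submodule.smul_mem _ _ (Submodule.subset_span ⟨i, rfl⟩)

private theorem x5B_prod (v : ℕ → V) (n : ℕ) :
    (∏ k ∈ Finset.range n, zf k (cst (v k)) : U AA) ∈ x5B n := by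
  induction n with
  | zero =>
    refine Submodule.subset_span ⟨fun _ => 0, ?_⟩
    rw [Finset.prod_range_zero, Finset.prod_range_zero]
  | succ n ih =>
    rw [Finset.prod_range_succ]
    have h2 := x5_zf n (v n)
    generalize (zf n (cst (v n)) : U AA) = y at h2
    generalize (∏ k ∈ Finset.range n, zf k (cst (v k)) : U AA) = x at ih
    induction h2 using Submodule.span_induction with
    | mem y hy =>
      obtain ⟨i, rfl⟩ := hy
      unfold x5B at ih
      induction ih using Submodule.span_induction with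
      | mem x hx =>
        obtain ⟨j, rfl⟩ := hx
        refine Submodule.subset_span ⟨Function.update j n i, ?_⟩
        rw [Finset.prod_range_succ, Function.update_self]
        congr 1
        refine Finset.prod_congr rfl fun k hk => ?_
        rw [Function.update_of_ne (Finset.mem_range.1 hk).ne]
      | zero => rw [zero_mul]; exact Submodule.zero_mem _
      | add x x' _ _ hx hx' => rw [add_mul]; exact Submodule.add_mem _ hx hx'
      | smul c x _ hx => rw [smul_mul_assoc]; exact Submodule.smul_mem _ _ hx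
    | zero => rw [mul_zero]; exact Submodule.zero_mem _
    | add y y' _ _ hy hy' => rw [mul_add]; exact Submodule.add_mem _ hy hy'
    | smul c y _ hy => rw [mul_smul_comm]; exact Submodule.smul_mem _ _ hy

private theorem x5B_sbC (e : ℕ) (φ : ℕ → V) {f : U AA} (hf : f ∈ x5B e) : sbC φ f ∈ x5B e := by
  unfold x5B at hf
  induction hf using Submodule.span_induction with
  | mem v hv =>
    obtain ⟨j, rfl⟩ := hv
    rw [map_prod]
    simp only [sbC_X]
    exact x5B_prod (fun k => φ (j k)) e
  | zero => rw [map_zero]; exact Submodule.zero_mem _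
  | add u v _ _ hu hv => rw [map_add]; exact Submodule.add_mem _ hu hv
  | smul c v _ hv => rw [sbC_smulC]; exact Submodule.smul_mem _ _ hv

private theorem x5B_range (e : ℕ) {f : U AA} (hf : f ∈ x5B e) :
    f ∈ (MvPolynomial.map (algebraMap ℂ AA) : MvPolynomial (ℕ × ℕ) ℂ →+* U AA).range := by
  unfold x5B at hf
  induction hf using Submodule.span_induction with
  | mem v hv =>
    obtain ⟨j, rfl⟩ := hv
    refine ⟨∏ k ∈ Finset.range e, X (k, j k), ?_⟩
    rw [map_prod]
    exact Finset.prod_congr rfl fun k _ => map_X _ _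
  | zero => exact Subring.zero_mem _
  | add u v _ _ hu hv => exact Subring.add_mem _ hu hv
  | smul c v _ hv =>
    obtain ⟨p, hp⟩ := hv
    refine ⟨C c * p, ?_⟩
    rw [map_mul, map_C, hp, ← smul_eq_C_mul, algebraMap_smul]

/-- restriction to a smaller module -/
private theorem x5_inf {X' P Q M : Submodule AA (U AA)} (hQ : GS Q) (hPM : P ≤ M) (hQM : Q ≤ M)
    (hPQ : P ⊓ Q ≤ X') (h : NoethInt (R := AA) GS Q M) : NoethInt (R := AA) GS X' P := by
  intro N hmono hN
  obtain ⟨n0, h0⟩ := h (fun i => N i ⊔ Q) (fun i j hij => sup_le_sup_right (hmono hij) _)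
    (fun i => ⟨GS.sup (hN i).1 hQ, le_sup_right, sup_le ((hN i).2.2.trans hPM) hQM⟩)
  refine ⟨n0, fun n hn => le_antisymm (fun f hf => ?_) (hmono hn)⟩
  have h1 : f ∈ N n0 ⊔ Q := by
    have h2 := h0 n hn
    rw [← h2]
    exact Submodule.mem_sup_left hf
  obtain ⟨a, ha, q, hq, haq⟩ := Submodule.mem_sup.1 h1
  have h3 : q ∈ X' := by
    refine hPQ ⟨?_, hq⟩
    have h4 : q = f - a := by rw [← haq]; abel
    rw [h4]
    exact Submodule.sub_mem _ ((hN n).2.2 hf) ((hN n0).2.2 ha)
  rw [← haq]
  exact Submodule.add_mem _ ha ((hN n0).2.1 h3)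

private theorem x5_coeff {𝔞 : Ideal AA} {N : Submodule AA (U AA)} {f : U AA} (hf : f ∈ 𝔞 • N)
    (m : ℕ × ℕ →₀ ℕ) : coeff m f ∈ 𝔞 := by
  refine Submodule.smul_induction_on hf ?_ ?_
  · intro r hr g _
    rw [coeff_smul, smul_eq_mul]
    exact Ideal.mul_mem_right _ _ hr
  · intro x y hx hy
    rw [coeff_add]
    exact Ideal.add_mem _ hx hy

/-- (FG) for one weight -/
theorem FG_one (𝔞 : Ideal AA) (h𝔞 : NI 𝔞) (h𝔞G : GSI 𝔞) (S : Finset ℕ) (e : ℕ)
    (W : Submodule ℂ (U AA)) (hW : ∀ f ∈ W, f ∈ MS AA S ∧ HW e f)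
    (hWG : ∀ g : Cinf ≃ₗ[ℂ] Cinf, IsSo g → ∀ c : ℂ, c ≠ 0 → ∀ f ∈ W,
      sbC (fun i => c • g (ee i)) f ∈ W) :
    NoethInt (R := AA) GS (𝔞 • Submodule.span AA (W : Set (U AA)))
      (Submodule.span AA (W : Set (U AA))) := by
  rcases exists_cover S e with h0 | ⟨g, hg, hgS, hcov⟩
  · have hWb : Submodule.span AA (W : Set (U AA)) = ⊥ := by
      rw [Submodule.span_eq_bot]
      intro f hf
      exact h0 f (hW f hf).1 (hW f hf).2
    rw [hWb, Submodule.smul_bot]
    exact NoethInt.refl _ _
  · have hinj : Set.InjOn (id : ℕ → ℕ) (Set.Iio e) := Function.injective_id.injOn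
    have hlab : labS e (id : ℕ → ℕ) = Finset.range e := by
      unfold labS
      exact Finset.image_id
    have hThC : ∀ (φ : ℕ → V) (f : U AA), f ∈ MS AA (Finset.range e) →
        Th g id (sbC φ f) = sbC φ (Th g id f) := by
      intro φ f hf
      exact Th_sbC g hg id hinj φ f (by rw [hlab]; exact hf)
    have hThc : ∀ (c : ℂ) (f : U AA), Th g id (c • f) = c • Th g id f := by
      intro c f
      rw [← algebraMap_smul AA c f, map_smul, algebraMap_smul]
    let W' : Submodule ℂ (U AA) :=
      { carrier := {w | w ∈ x5B e ∧ Th g id w ∈ W}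
        zero_mem' := ⟨Submodule.zero_mem _, by rw [map_zero]; exact Submodule.zero_mem _⟩
        add_mem' := by
          rintro a b ⟨ha, ha'⟩ ⟨hb, hb'⟩
          refine ⟨Submodule.add_mem _ ha hb, ?_⟩
          rw [map_add]
          exact Submodule.add_mem _ ha' hb'
        smul_mem' := by
          rintro c a ⟨ha, ha'⟩
          refine ⟨Submodule.smul_mem _ c ha, ?_⟩
          rw [hThc]
          exact Submodule.smul_mem _ c ha' }
    have hW'mem : ∀ w, w ∈ W' ↔ w ∈ x5B e ∧ Th g id w ∈ W := fun w => Iff.rfl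
    set P : Submodule AA (U AA) := Submodule.span AA (W' : Set (U AA)) with hP
    set F : Submodule AA (U AA) := Submodule.span AA (W : Set (U AA)) with hF
    have hPM : P ≤ MS AA (Finset.range e) := by
      rw [hP, Submodule.span_le]
      intro w hw
      exact x5B_MS e hw.1
    have hPG : GS P := by
      rw [hP]
      refine GS_span _ fun g' hg' c hc w hw => Submodule.subset_span ?_
      refine ⟨x5B_sbC e _ hw.1, ?_⟩
      rw [hThC _ _ (x5B_MS e hw.1)]
      exact hWG g' hg' c hc _ hw.2
    have hThP : ∀ p ∈ P, Th g id p ∈ F := by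
      intro p hp
      rw [hP] at hp
      induction hp using Submodule.span_induction with
      | mem v hv => exact Submodule.subset_span hv.2
      | zero => rw [map_zero]; exact Submodule.zero_mem _
      | add u v _ _ hu hv => rw [map_add]; exact Submodule.add_mem _ hu hv
      | smul c v _ hv => rw [map_smul]; exact Submodule.smul_mem _ _ hv
    have hsurj : ∀ y ∈ F, ∃ f ∈ P, y = Th g id f := by
      intro y hy
      rw [hF] at hy
      induction hy using Submodule.span_induction with
      | mem v hv =>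
        obtain ⟨w, hw, hwv⟩ := hcov v (hW v hv).1 (hW v hv).2
        refine ⟨w, Submodule.subset_span ⟨hw, ?_⟩, hwv.symm⟩
        rw [hwv]
        exact hv
      | zero => exact ⟨0, Submodule.zero_mem _, (map_zero _).symm⟩
      | add u v _ _ hu hv =>
        obtain ⟨a, ha, rfl⟩ := hu
        obtain ⟨b, hb, rfl⟩ := hv
        exact ⟨a + b, Submodule.add_mem _ ha hb, (map_add _ _ _).symm⟩
      | smul c v _ hv =>
        obtain ⟨a, ha, rfl⟩ := hv
        exact ⟨c • a, Submodule.smul_mem _ _ ha, (map_smul _ _ _).symm⟩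
    have hQ : GS (𝔞 • MS AA (Finset.range e)) := GS.smul h𝔞G (gs_of_gls (GLS_MS _))
    have hNP : NoethInt (R := AA) GS (𝔞 • P) P := by
      refine x5_inf hQ hPM Submodule.smul_le_right ?_ (h𝔞 (Finset.range e))
      rintro f ⟨hf1, hf2⟩
      exact purity 𝔞 W' (fun w hw => x5B_range e hw.1) f hf1 fun m => x5_coeff hf2 m
    refine NoethInt.of_map (X' := 𝔞 • P) (Y' := P) (P' := GS)
      ((Th g id : U AA →ₗ[AA] U AA) : U AA →+ U AA) ?_ ?_ hNP
    · intro N hN hXN hNY
      refine ⟨P ⊓ N.comap (Th g id), fun f => Iff.rfl, ?_, ?_⟩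
      · intro g' hg' c hc f hf
        refine ⟨hPG g' hg' c hc f hf.1, ?_⟩
        change Th g id (sbC _ f) ∈ N
        rw [hThC _ _ (hPM hf.1)]
        exact hN g' hg' c hc _ hf.2
      · rw [Submodule.smul_le]
        intro a ha p hp
        refine ⟨Submodule.smul_mem _ _ hp, ?_⟩
        change Th g id (a • p) ∈ N
        rw [map_smul]
        exact hXN (Submodule.smul_mem_smul ha (hThP p hp))
    · intro y hy
      obtain ⟨f, hf, hyf⟩ := hsurj y hy
      exact ⟨f, hf, 0, Submodule.zero_mem _, by rw [add_zero]; exact hyf⟩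

/-- (FG) -/
theorem FG (𝔞 : Ideal AA) (h𝔞 : NI 𝔞) (h𝔞G : GSI 𝔞) (S : Finset ℕ) (F : Submodule AA (U AA))
    (hF : GS F) (hFS : F ≤ MS AA S) (d : ℕ)
    (hgen : F = Submodule.span AA {f | f ∈ F ∧ ∃ e ≤ d, HW e f}) :
    NoethInt (R := AA) GS (𝔞 • F) F := by
  have hHW0 : ∀ e, HW e (0 : U AA) := by
    intro e c
    rw [map_zero, smul_zero]
  have hHWs : ∀ (e : ℕ) (c : ℂ) (f : U AA), HW e f → HW e (c • f) := by
    intro e c f hf t
    rw [sbC_smulC, hf t, smul_comm]
  -- one weight
  let We : ℕ → Submodule ℂ (U AA) := fun e =>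
    { carrier := {f | f ∈ F ∧ HW e f}
      zero_mem' := ⟨Submodule.zero_mem _, hHW0 e⟩
      add_mem' := by
        rintro a b ⟨ha, ha'⟩ ⟨hb, hb'⟩
        exact ⟨Submodule.add_mem _ ha hb, HW_add ha' hb'⟩
      smul_mem' := by
        rintro c a ⟨ha, ha'⟩
        exact ⟨smulC_mem _ c ha, hHWs e c a ha'⟩ }
  have h1 : ∀ e, NoethInt (R := AA) GS (𝔞 • Submodule.span AA (We e : Set (U AA)))
      (Submodule.span AA (We e : Set (U AA))) := by
    intro e
    refine FG_one 𝔞 h𝔞 h𝔞G S e (We e) (fun f hf => ⟨hFS hf.1, hf.2⟩) fun g hg c hc f hf => ?_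
    exact ⟨hF g hg c hc f hf.1, HW_sbC hf.2 _⟩
  have h2 : ∀ e, GS (Submodule.span AA (We e : Set (U AA))) := by
    intro e
    refine GS_span _ fun g hg c hc f hf => Submodule.subset_span ?_
    exact ⟨hF g hg c hc f hf.1, HW_sbC hf.2 _⟩
  -- all weights up to `d`
  have h3 : ∀ d, NoethInt (R := AA) GS
      (𝔞 • Submodule.span AA {f : U AA | f ∈ F ∧ ∃ e ≤ d, HW e f})
      (Submodule.span AA {f : U AA | f ∈ F ∧ ∃ e ≤ d, HW e f}) := by
    intro d
    induction d with
    | zero =>
      have e1 : {f : U AA | f ∈ F ∧ ∃ e ≤ 0, HW e f} = (We 0 : Set (U AA)) := by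
        ext f
        constructor
        · rintro ⟨hf, e, he, hfe⟩
          obtain rfl : e = 0 := by omega
          exact ⟨hf, hfe⟩
        · rintro ⟨hf, hfe⟩
          exact ⟨hf, 0, le_rfl, hfe⟩
      rw [e1]
      exact h1 0
    | succ d ih =>
      have e1 : Submodule.span AA {f : U AA | f ∈ F ∧ ∃ e ≤ d + 1, HW e f} =
          Submodule.span AA {f : U AA | f ∈ F ∧ ∃ e ≤ d, HW e f} ⊔
            Submodule.span AA (We (d + 1) : Set (U AA)) := by
        rw [← Submodule.span_union]
        congr 1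
        ext f
        constructor
        · rintro ⟨hf, e, he, hfe⟩
          rcases Nat.lt_or_ge d e with h | h
          · obtain rfl : e = d + 1 := by omega
            exact Or.inr ⟨hf, hfe⟩
          · exact Or.inl ⟨hf, e, h, hfe⟩
        · rintro (⟨hf, e, he, hfe⟩ | ⟨hf, hfe⟩)
          · exact ⟨hf, e, by omega, hfe⟩
          · exact ⟨hf, d + 1, le_rfl, hfe⟩
      rw [e1, Submodule.smul_sup]
      refine NoethInt_sup ?_ (h2 (d + 1)) Submodule.smul_le_right Submodule.smul_le_right ih
        (h1 (d + 1))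
      refine GS_span _ fun g hg c hc f hf => Submodule.subset_span ?_
      obtain ⟨hf1, e, he, hfe⟩ := hf
      exact ⟨hF g hg c hc f hf1, e, he, HW_sbC hfe _⟩
  have h4 := h3 d
  rw [← hgen] at h4
  exact h4

end MP50e386O
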