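import Mathlib
import Pool.Agent.Lib.MP_50e386_al.O.XDefs
import Pool.Agent.Lib.MP_50e386_al.O.X2

/-! The Kähler differential. -/

namespace MP50e386O

open MvPolynomial Pool.Agent.Lib.MP50e386 MP50e386N

private noncomputable def x6g (s : Sym2 ℕ) : U AA :=
  Sym2.lift ⟨fun i j => X (0, i) * X (1, j) + X (0, j) * X (1, i), fun _ _ => add_comm _ _⟩ s

private noncomputable def x6d : Derivation ℂ AA (U AA) := mkDerivation ℂ x6g

private theorem x6d_X (i j : ℕ) : x6d (X s(i, j)) = X (0, i) * X (1, j) + X (0, j) * X (1, i) := by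
  unfold x6d
  rw [mkDerivation_X]
  rfl

private noncomputable def x6v (m : ℕ × ℕ →₀ ℕ) : AA :=
  ∑ p ∈ m.support, ∑ q ∈ m.support, if p.1 = 0 ∧ q.1 = 1 then X s(p.2, q.2) else 0

private noncomputable def x6e : U AA →ₗ[AA] AA := (basisMonomials (ℕ × ℕ) AA).constr AA x6v

private theorem x6_mon (i j : ℕ) : (X (0, i) * X (1, j) : U AA) =
    monomial (Finsupp.single (0, i) 1 + Finsupp.single (1, j) 1) 1 := by
  rw [X, X, monomial_mul, one_mul]

private theorem x6e_X (i j : ℕ) : x6e (X (0, i) * X (1, j)) = X s(i, j) := by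
  rw [x6_mon]
  have h1 := (basisMonomials (ℕ × ℕ) AA).constr_basis AA x6v
    (Finsupp.single (0, i) 1 + Finsupp.single (1, j) 1)
  rw [coe_basisMonomials] at h1
  unfold x6e
  rw [h1]
  unfold x6v
  have hne : ((0, i) : ℕ × ℕ) ≠ (1, j) := by
    intro h
    have := congrArg Prod.fst h
    exact zero_ne_one this
  have hs : (Finsupp.single ((0, i) : ℕ × ℕ) 1 + Finsupp.single (1, j) 1).support =
      {((0, i) : ℕ × ℕ), (1, j)} := by
    ext p
    rw [Finsupp.mem_support_iff, Finsupp.add_apply, Finset.mem_insert, Finset.mem_singleton,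
      Finsupp.single_apply, Finsupp.single_apply]
    constructor
    · intro h
      by_contra h2
      push Not at h2
      rw [if_neg (Ne.symm h2.1), if_neg (Ne.symm h2.2)] at h
      exact h rfl
    · rintro (rfl | rfl)
      · rw [if_pos rfl]
        omega
      · rw [if_pos (rfl : ((1, j) : ℕ × ℕ) = (1, j))]
        omega
  rw [hs, Finset.sum_pair hne, Finset.sum_pair hne, Finset.sum_pair hne]
  simp

private theorem x6_sdeg (a : ℕ) (i j : ℕ) :
    sdeg a (Finsupp.single ((0, i) : ℕ × ℕ) 1 + Finsupp.single (1, j) 1) =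
      if a ∈ ({0, 1} : Finset ℕ) then 1 else 0 := by
  unfold sdeg
  rw [Finsupp.sum_add_index', Finsupp.sum_single_index, Finsupp.sum_single_index]
  · simp only [Finset.mem_insert, Finset.mem_singleton]
    by_cases h0 : a = 0
    · subst h0
      simp
    · by_cases h1 : a = 1
      · subst h1
        simp
      · rw [if_neg (fun h => h0 h.symm), if_neg (fun h => h1 h.symm),
          if_neg (by push Not; exact ⟨h0, h1⟩)]
  · split_ifs <;> rfl
  · split_ifs <;> rfl
  · intro p
    split_ifs <;> rfl
  · intro p b c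
    split_ifs <;> rfl

private theorem x6_MS (i j : ℕ) : (X (0, i) * X (1, j) : U AA) ∈ MS AA {0, 1} := by
  rw [x6_mon]
  unfold MS
  rw [mem_restrictSupport_iff]
  intro m hm
  have h1 := support_monomial_subset hm
  rw [Finset.mem_singleton] at h1
  subst h1
  intro a
  exact x6_sdeg a i j

private theorem x6_mem (a : AA) : x6d a ∈ MS AA {0, 1} := by
  induction a using MvPolynomial.induction_on with
  | C c =>
    have : x6d (C c) = 0 := x6d.map_algebraMap c
    rw [this]
    exact Submodule.zero_mem _
  | add p q hp hq =>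
    rw [map_add]
    exact Submodule.add_mem _ hp hq
  | mul_X p s hp =>
    rw [Derivation.leibniz]
    refine Submodule.add_mem _ (Submodule.smul_mem _ _ ?_) (Submodule.smul_mem _ _ hp)
    induction s using Sym2.ind with
    | _ i j =>
      rw [x6d_X]
      exact Submodule.add_mem _ (x6_MS i j) (x6_MS j i)

private theorem x6_cst (i : ℕ) (a : ℂ) : (cst (Finsupp.single i a) : VR AA) =
    Finsupp.single i (algebraMap ℂ AA a) := by
  unfold cst
  rw [Finsupp.mapRange.linearMap_apply, Finsupp.mapRange_single]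
  rfl

private theorem x6_zf (k i : ℕ) (a : ℂ) : (zf k (cst (Finsupp.single i a) : VR AA) : U AA) =
    a • X (k, i) := by
  rw [x6_cst, zf_single, algebraMap_smul]

private theorem x6_xv_single (i j : ℕ) (a b : ℂ) :
    (xv (Finsupp.single i a) (Finsupp.single j b) : AA) = (a * b) • X s(i, j) := by
  have h1 : (xv (Finsupp.single i a) (Finsupp.single j b) : AA) =
      xf (cst (Finsupp.single i a)) (cst (Finsupp.single j b)) := rfl
  rw [h1, x6_cst, x6_cst, xf_single, Algebra.smul_def, map_mul]
  rfl

private theorem x6_dxv (v w : V) : x6d (xv v w : AA) =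
    zf 0 (cst v) * zf 1 (cst w) + zf 0 (cst w) * zf 1 (cst v) := by
  induction v using Finsupp.induction_linear with
  | zero =>
    have h1 : (xv 0 w : AA) = 0 := by
      change xf (cst 0) (cst w) = 0
      rw [map_zero, map_zero, LinearMap.zero_apply]
    rw [h1, map_zero, map_zero, map_zero, map_zero, zero_mul, mul_zero, add_zero]
  | add v v' hv hv' =>
    have h1 : (xv (v + v') w : AA) = xv v w + xv v' w := by
      change xf (cst (v + v')) (cst w) = xf (cst v) (cst w) + xf (cst v') (cst w)
      rw [map_add, map_add, LinearMap.add_apply]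
    rw [h1, map_add, hv, hv', map_add, map_add, map_add]
    ring
  | single i a =>
    induction w using Finsupp.induction_linear with
    | zero =>
      have h1 : (xv (Finsupp.single i a) 0 : AA) = 0 := by
        change xf (cst (Finsupp.single i a)) (cst 0) = 0
        rw [map_zero, map_zero]
      rw [h1, map_zero, map_zero, map_zero, map_zero, zero_mul, mul_zero, add_zero]
    | add w w' hw hw' =>
      have h1 : (xv (Finsupp.single i a) (w + w') : AA) =
          xv (Finsupp.single i a) w + xv (Finsupp.single i a) w' := by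
        change xf (cst (Finsupp.single i a)) (cst (w + w')) =
          xf (cst (Finsupp.single i a)) (cst w) + xf (cst (Finsupp.single i a)) (cst w')
        rw [map_add, map_add]
      rw [h1, map_add, hw, hw', map_add, map_add, map_add]
      ring
    | single j b =>
      rw [x6_xv_single, x6_zf, x6_zf, x6_zf, x6_zf, Derivation.map_smul, x6d_X, smul_add,
        smul_mul_smul_comm, smul_mul_smul_comm, mul_comm b a]

private theorem x6_equi (φ : ℕ → V) (a : AA) : x6d (sbR φ a) = sbC φ (x6d a) := by
  induction a using MvPolynomial.induction_on with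
  | C c =>
    have h1 : x6d (C c) = 0 := x6d.map_algebraMap c
    have h2 : sbR φ (C c : AA) = C c := (sbR φ : AA →ₐ[ℂ] AA).commutes c
    rw [h2, h1, map_zero]
  | add p q hp hq =>
    rw [map_add, map_add, map_add, map_add, hp, hq]
  | mul_X p s hp =>
    have key : x6d (sbR φ (X s : AA)) = sbC φ (x6d (X s)) := by
      induction s using Sym2.ind with
      | _ i j =>
        have h3 : sbR φ (X s(i, j) : AA) = xv (φ i) (φ j) :=
          sb_x' (R := AA) (fun i => cst (φ i)) i j
        rw [h3, x6_dxv, x6d_X, map_add, map_mul, map_mul, sbC_X, sbC_X, sbC_X, sbC_X]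
    rw [map_mul, Derivation.leibniz, Derivation.leibniz, map_add, sbC_smul, sbC_smul, hp, key]

private theorem x6_euler_mul (p : AA) (s : Sym2 ℕ) : x6e (x6d (p * X s)) =
    p * (2 * X s) + X s * x6e (x6d p) := by
  have key : x6e (x6d (X s)) = 2 * X s := by
    induction s using Sym2.ind with
    | _ i j =>
      rw [x6d_X, map_add, x6e_X, x6e_X, Sym2.eq_swap (a := j) (b := i), two_mul]
  rw [Derivation.leibniz, map_add, map_smul, map_smul, smul_eq_mul, smul_eq_mul, key]

private theorem x6_euler_mon (m : Sym2 ℕ →₀ ℕ) (c : ℂ) :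
    ∃ e : ℕ, (monomial m c : AA).IsHomogeneous e ∧
      x6e (x6d (monomial m c)) = (2 * e : ℂ) • (monomial m c : AA) := by
  refine induction_on_monomial (motive := fun p : AA => ∃ e : ℕ, p.IsHomogeneous e ∧
      x6e (x6d p) = (2 * e : ℂ) • p) (fun c => ?_) (fun p s hp => ?_) m c
  · refine ⟨0, isHomogeneous_C _ _, ?_⟩
    have h1 : x6d (C c) = 0 := x6d.map_algebraMap c
    rw [h1, map_zero, Nat.cast_zero, mul_zero, zero_smul]
  · obtain ⟨e, he, h1⟩ := hp
    refine ⟨e + 1, he.mul (isHomogeneous_X _ _), ?_⟩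
    rw [x6_euler_mul, h1, Algebra.smul_def, Algebra.smul_def]
    rw [map_mul, map_mul, map_ofNat, map_natCast, map_natCast]
    push_cast
    ring

private theorem x6_euler (e : ℕ) (a : AA) (ha : a.IsHomogeneous e) :
    x6e (x6d a) = (2 * e : ℂ) • a := by
  have h1 : ∀ m ∈ a.support, x6e (x6d (monomial m (coeff m a))) =
      (2 * e : ℂ) • (monomial m (coeff m a) : AA) := by
    intro m hm
    obtain ⟨e', he', h2⟩ := x6_euler_mon m (coeff m a)
    have hne : coeff m a ≠ 0 := mem_support_iff.1 hm
    have hd : (monomial m (coeff m a) : AA).IsHomogeneous e := by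
      apply isHomogeneous_monomial
      have := ha hne
      rw [Finsupp.degree_eq_weight_one]
      exact this
    have h3 : e' = e := he'.inj_right hd (fun h => hne (monomial_eq_zero.1 h))
    rw [h2, h3]
  conv_lhs => rw [a.as_sum, map_sum, map_sum, Finset.sum_congr rfl h1, ← Finset.smul_sum]
  rw [← a.as_sum]

/-- the equivariant derivation `d : A → M_{0,1}(A)`, `x_ij ↦ z_{0,i} z_{1,j} + z_{0,j} z_{1,i}`, and
the `A`-linear contraction `z_{0,i} z_{1,j} ↦ x_ij` -/
theorem exists_kaehler : ∃ (d : Derivation ℂ AA (U AA)) (ε : U AA →ₗ[AA] AA),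
    (∀ a, d a ∈ MS AA {0, 1}) ∧ (∀ (φ : ℕ → V) (a : AA), d (sbR φ a) = sbC φ (d a)) ∧
      (∀ i j, ε (X (0, i) * X (1, j)) = X s(i, j)) ∧
      ∀ (e : ℕ) (a : AA), a.IsHomogeneous e → ε (d a) = (2 * e : ℂ) • a :=
  ⟨x6d, x6e, x6_mem, x6_equi, x6e_X, x6_euler⟩

end MP50e386O
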