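import Mathlib
import Pool.Agent.Lib.MP_50e386_al.O.XDefs
import Pool.Agent.Lib.MP_50e386_al.O.X2
import Pool.Agent.Lib.MP_50e386_al.O.X6a

/-! Bounded generation of the ideals with noetherian quotient. -/

namespace MP50e386O

open MvPolynomial Pool.Agent.Lib.MP50e386 MP50e386N

/-! ### monomials of `M_{0,1}` -/

private theorem x6_sdeg_add (a : ℕ) (m m' : ℕ × ℕ →₀ ℕ) :
    sdeg a (m + m') = sdeg a m + sdeg a m' := by
  unfold sdeg
  refine Finsupp.sum_add_index' ?_ ?_
  · intro p; simp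
  · intro p b c; split_ifs <;> simp

private theorem x6_sdeg_single (a : ℕ) (p : ℕ × ℕ) (k : ℕ) :
    sdeg a (Finsupp.single p k) = if p.1 = a then k else 0 := by
  unfold sdeg
  rw [Finsupp.sum_single_index]
  simp

private theorem x6_le_sdeg (m : ℕ × ℕ →₀ ℕ) (p : ℕ × ℕ) : m p ≤ sdeg p.1 m := by
  by_cases hp : p ∈ m.support
  · unfold sdeg Finsupp.sum
    have := Finset.single_le_sum (f := fun q : ℕ × ℕ => if q.1 = p.1 then m q else 0)
      (fun q _ => Nat.zero_le _) hp
    simpa using this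
  · rw [Finsupp.notMem_support_iff.1 hp]
    exact Nat.zero_le _

private theorem x6_split (m : ℕ × ℕ →₀ ℕ) (a : ℕ) (h : sdeg a m ≠ 0) :
    ∃ (i : ℕ) (m' : ℕ × ℕ →₀ ℕ), m = Finsupp.single (a, i) 1 + m' := by
  by_contra hcon
  push Not at hcon
  apply h
  unfold sdeg Finsupp.sum
  refine Finset.sum_eq_zero fun p hp => if_neg ?_
  intro hpa
  have h1 : Finsupp.single (a, p.2) 1 ≤ m := by
    rw [Finsupp.single_le_iff]
    have h2 : (a, p.2) = p := by rw [← hpa]
    rw [h2]
    exact Nat.one_le_iff_ne_zero.2 (Finsupp.mem_support_iff.1 hp)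
  exact hcon p.2 (m - Finsupp.single (a, p.2) 1) (add_tsub_cancel_of_le h1).symm

private theorem x6_mono (m : ℕ × ℕ →₀ ℕ)
    (h : ∀ a, sdeg a m = if a ∈ ({0, 1} : Finset ℕ) then 1 else 0) :
    ∃ i j : ℕ, m = Finsupp.single (0, i) 1 + Finsupp.single (1, j) 1 := by
  obtain ⟨i, m', hm'⟩ := x6_split m 0 (by rw [h 0]; simp)
  have h1 : sdeg 1 m' = 1 := by
    have h2 := h 1
    rw [hm', x6_sdeg_add, x6_sdeg_single] at h2
    simpa using h2
  obtain ⟨j, m'', hm''⟩ := x6_split m' 1 (by rw [h1]; simp)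
  refine ⟨i, j, ?_⟩
  have h3 : ∀ a, sdeg a m'' = 0 := by
    intro a
    have h2 := h a
    rw [hm', hm'', x6_sdeg_add, x6_sdeg_single, x6_sdeg_add, x6_sdeg_single] at h2
    dsimp only at h2
    by_cases ha0 : a = 0
    · subst ha0
      simpa using h2
    · by_cases ha1 : a = 1
      · subst ha1
        simpa using h2
      · rw [if_neg (Ne.symm ha0), if_neg (Ne.symm ha1), if_neg (by
          rw [Finset.mem_insert, Finset.mem_singleton]
          rintro (h | h)
          · exact ha0 h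
          · exact ha1 h)] at h2
        omega
  have h4 : m'' = 0 := by
    ext p
    exact Nat.le_zero.1 ((x6_le_sdeg m'' p).trans (h3 p.1).le)
  rw [hm', hm'', h4, add_zero]

private theorem x6_MS (f : U AA) (hf : f ∈ MS AA {0, 1}) (P : U AA → Prop) (h0 : P 0)
    (hadd : ∀ f g, P f → P g → P (f + g))
    (hP : ∀ (a : AA) (i j : ℕ), P (a • (X (0, i) * X (1, j)))) : P f := by
  rw [f.as_sum]
  have h1 : ∀ s : Finset (ℕ × ℕ →₀ ℕ), s ⊆ f.support → P (∑ m ∈ s, monomial m (coeff m f)) := by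
    intro s
    induction s using Finset.induction_on with
    | empty =>
      intro _
      rw [Finset.sum_empty]
      exact h0
    | insert m s hm ih =>
      intro hs
      rw [Finset.sum_insert hm]
      refine hadd _ _ ?_ (ih fun x hx => hs (Finset.mem_insert_of_mem hx))
      obtain ⟨i, j, hij⟩ := x6_mono m (hf (hs (Finset.mem_insert_self _ _)))
      have h2 : (monomial m (coeff m f) : U AA) = coeff m f • (X (0, i) * X (1, j)) := by
        rw [hij]
        unfold X
        rw [monomial_mul, smul_monomial, smul_eq_mul, mul_one, mul_one]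
      rw [h2]
      exact hP _ _ _
  exact h1 _ (Finset.Subset.refl _)

/-! ### homogeneous components -/

private theorem x6_hcX (b : AA) (s : Sym2 ℕ) (e : ℕ) :
    homogeneousComponent (e + 1) (b * X s) = homogeneousComponent e b * X s := by
  conv_lhs => rw [← sum_homogeneousComponent b, Finset.sum_mul, map_sum]
  have h1 : ∀ k, homogeneousComponent (e + 1) (homogeneousComponent k b * X s) =
      if k = e then homogeneousComponent e b * X s else 0 := by
    intro k
    have h2 : (homogeneousComponent k b * X s : AA) ∈ homogeneousSubmodule (Sym2 ℕ) ℂ (k + 1) :=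
      (homogeneousComponent_isHomogeneous k b).mul (isHomogeneous_X ℂ s)
    rw [homogeneousComponent_of_mem h2]
    by_cases hk : k = e
    · subst hk
      rw [if_pos rfl, if_pos rfl]
    · rw [if_neg hk, if_neg (by omega)]
  rw [Finset.sum_congr rfl fun k _ => h1 k, Finset.sum_ite_eq']
  split_ifs with h3
  · rfl
  · rw [Finset.mem_range, not_lt] at h3
    rw [homogeneousComponent_eq_zero e b (by omega), zero_mul]

/-- an exhaustion of `𝔟` by graded stable ideals is finite -/
theorem N1 (𝔟 : Ideal AA) (h𝔟 : NI 𝔟) (h𝔟G : GSI 𝔟) (X : ℕ → Ideal AA) (hmono : Monotone X)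
    (hX : ∀ i, GSI (X i)) (hle : ∀ i, X i ≤ 𝔟) (hcov : ∀ f ∈ 𝔟, ∃ i, f ∈ X i) :
    ∃ n, X n = 𝔟 := by
  obtain ⟨d, ε, hdM, hdφ, hεx, hεd⟩ := exists_kaehler
  -- the submodules `d(X_i) + 𝔟 M`
  let N : ℕ → Submodule AA (U AA) := fun i =>
    { carrier := {F | ∃ f ∈ X i, F - d f ∈ 𝔟 • MS AA {0, 1}}
      zero_mem' := ⟨0, (X i).zero_mem, by rw [map_zero, sub_zero]; exact Submodule.zero_mem _⟩
      add_mem' := by
        rintro F F' ⟨f, hf, hF⟩ ⟨f', hf', hF'⟩
        refine ⟨f + f', (X i).add_mem hf hf', ?_⟩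
        rw [map_add, add_sub_add_comm]
        exact Submodule.add_mem _ hF hF'
      smul_mem' := by
        rintro a F ⟨f, hf, hF⟩
        refine ⟨a * f, (X i).mul_mem_left a hf, ?_⟩
        rw [Derivation.leibniz, ← sub_sub, ← smul_sub]
        exact Submodule.sub_mem _ (Submodule.smul_mem _ _ hF)
          (Submodule.smul_mem_smul (hle i hf) (hdM a)) }
  have hNmem : ∀ i F, F ∈ N i ↔ ∃ f ∈ X i, F - d f ∈ 𝔟 • MS AA {0, 1} := fun i F => Iff.rfl
  have h𝔟M : 𝔟 • MS AA {0, 1} ≤ MS AA {0, 1} := Submodule.smul_le_right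
  have hNmono : Monotone N := by
    rintro i j hij F ⟨f, hf, hF⟩
    exact ⟨f, hmono hij hf, hF⟩
  have hGS𝔟 : GS (𝔟 • MS AA {0, 1}) := GS.smul h𝔟G (gs_of_gls (GLS_MS _))
  have hNGS : ∀ i, GS (N i) := by
    rintro i g hg c hc F ⟨f, hf, hF⟩
    refine ⟨_, hX i g hg c hc f hf, ?_⟩
    rw [hdφ, ← map_sub]
    exact hGS𝔟 g hg c hc _ hF
  obtain ⟨n0, hn0⟩ := h𝔟 {0, 1} N hNmono (fun i => ⟨hNGS i, fun F hF =>
    ⟨0, (X i).zero_mem, by rw [map_zero, sub_zero]; exact hF⟩, by
      rintro F ⟨f, _, hF⟩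
      have h1 := Submodule.add_mem _ (h𝔟M hF) (hdM f)
      rwa [sub_add_cancel] at h1⟩)
  obtain ⟨i1, hi1⟩ : ∃ i1, (1 : AA) ∈ 𝔟 → (1 : AA) ∈ X i1 := by
    by_cases h1 : (1 : AA) ∈ 𝔟
    · obtain ⟨i, hi⟩ := hcov 1 h1
      exact ⟨i, fun _ => hi⟩
    · exact ⟨0, fun h => absurd h h1⟩
  obtain ⟨n, hnn0, hni1⟩ : ∃ n, n0 ≤ n ∧ i1 ≤ n := ⟨max n0 i1, le_max_left _ _, le_max_right _ _⟩
  refine ⟨n, le_antisymm (hle n) ?_⟩
  -- homogeneous elements
  have key : ∀ e : ℕ, ∀ f ∈ 𝔟, f.IsHomogeneous e → f ∈ X n := by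
    intro e
    induction e with
    | zero =>
      intro f hf hfe
      have h1 : f = C (coeff 0 f) := by
        have h2 := hfe.totalDegree_le
        exact totalDegree_eq_zero_iff_eq_C.1 (Nat.le_zero.1 h2)
      by_cases hc : coeff 0 f = 0
      · rw [h1, hc, C_0]
        exact (X n).zero_mem
      · have h3 : (1 : AA) ∈ 𝔟 := by
          have h4 : (1 : AA) = C (coeff 0 f)⁻¹ * f := by
            conv_rhs => rw [h1, ← C_mul]
            rw [coeff_C, if_pos rfl, inv_mul_cancel₀ hc, C_1]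
          rw [h4]
          exact 𝔟.mul_mem_left _ hf
        have h5 : (1 : AA) ∈ X n := hmono hni1 (hi1 h3)
        rw [← mul_one f]
        exact (X n).mul_mem_left _ h5
    | succ e ih =>
      intro f hf hfe
      -- components of `ε β`
      have hε : ∀ m ∈ MS AA {0, 1}, ∀ r ∈ 𝔟, homogeneousComponent (e + 1) (r * ε m) ∈ X n := by
        intro m hm
        refine x6_MS m hm (fun m => ∀ r ∈ 𝔟, homogeneousComponent (e + 1) (r * ε m) ∈ X n)
          ?_ ?_ ?_
        · intro r _
          rw [map_zero, mul_zero, map_zero]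
          exact (X n).zero_mem
        · intro f g hf hg r hr
          rw [map_add, mul_add, map_add]
          exact (X n).add_mem (hf r hr) (hg r hr)
        · intro a i j r hr
          rw [map_smul, hεx, smul_eq_mul, ← mul_assoc, x6_hcX]
          refine (X n).mul_mem_right _ (ih _ (GSI_hc h𝔟G (𝔟.mul_mem_right a hr) e)
            (homogeneousComponent_isHomogeneous _ _))
      have hε' : ∀ β ∈ 𝔟 • MS AA {0, 1}, homogeneousComponent (e + 1) (ε β) ∈ X n := by
        intro β hβ
        refine Submodule.smul_induction_on hβ ?_ ?_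
        · intro r hr m hm
          rw [map_smul, smul_eq_mul]
          exact hε m hm r hr
        · intro x y hx hy
          rw [map_add, map_add]
          exact (X n).add_mem hx hy
      obtain ⟨i, hi⟩ := hcov f hf
      have h1 : d f ∈ N n := by
        have h2 : d f ∈ N (max i n) := ⟨f, hmono (le_max_left _ _) hi, by
          rw [sub_self]
          exact Submodule.zero_mem _⟩
        rwa [hn0 (max i n) (hnn0.trans (le_max_right _ _)), ← hn0 n hnn0] at h2
      obtain ⟨g, hg, hβ⟩ := (hNmem _ _).1 h1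
      have h3 := hε' _ hβ
      rw [map_sub, map_sub, hεd _ f hfe] at h3
      have h4 : ε (d g) ∈ X n := by
        have h40 : ε (d g) = ∑ k ∈ Finset.range (g.totalDegree + 1),
            ε (d (homogeneousComponent k g)) := by
          conv_lhs => rw [← sum_homogeneousComponent g, map_sum, map_sum]
        rw [h40]
        refine (X n).sum_mem fun k _ => ?_
        rw [hεd _ _ (homogeneousComponent_isHomogeneous k g), smul_eq_C_mul]
        exact (X n).mul_mem_left _ (GSI_hc (hX n) hg k)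
      have h5 := (X n).add_mem h3 (GSI_hc (hX n) h4 (e + 1))
      rw [sub_add_cancel, map_smul, homogeneousComponent_eq_self hfe] at h5
      have h6 : f = C (2 * ((e + 1 : ℕ) : ℂ))⁻¹ * ((2 * ((e + 1 : ℕ) : ℂ)) • f) := by
        have h7 : (2 * ((e + 1 : ℕ) : ℂ)) ≠ 0 :=
          mul_ne_zero two_ne_zero (Nat.cast_ne_zero.2 (Nat.succ_ne_zero e))
        rw [← smul_eq_C_mul, smul_smul, inv_mul_cancel₀ h7, one_smul]
      rw [h6]
      exact (X n).mul_mem_left _ h5
  intro f hf
  rw [← sum_homogeneousComponent f]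
  exact (X n).sum_mem fun k _ => key k _ (GSI_hc h𝔟G hf k) (homogeneousComponent_isHomogeneous k f)

private theorem x6_bil (u v : V) : (MP50e386.bil u v).IsHomogeneous 1 := by
  unfold MP50e386.bil
  rw [Finsupp.linearCombination_apply, Finsupp.sum, LinearMap.sum_apply]
  apply IsHomogeneous.sum
  intro i _
  rw [LinearMap.smul_apply, Finsupp.linearCombination_apply, Finsupp.sum, smul_eq_C_mul]
  apply IsHomogeneous.C_mul
  apply IsHomogeneous.sum
  intro j _
  rw [smul_eq_C_mul]
  exact isHomogeneous_C_mul_X _ _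

private theorem x6_sub_homog {f : AA} {k : ℕ} (h : f.IsHomogeneous k) (w : ℕ → V) :
    (MP50e386.sub w f).IsHomogeneous k := by
  unfold MP50e386.sub
  have h1 := IsHomogeneous.aeval h (MP50e386.Yw w) (n := 1) (by
    intro s
    induction s using Sym2.ind with
    | _ i j =>
      rw [MP50e386.Yw_mk]
      exact x6_bil _ _)
  rwa [one_mul] at h1

/-- bounded generation -/
theorem bdgen (𝔟 : Ideal AA) (h𝔟 : NI 𝔟) (h𝔟G : GSI 𝔟) :
    ∃ d, 𝔟 = Ideal.span {f | f ∈ 𝔟 ∧ ∃ e ≤ d, f.IsHomogeneous e} := by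
  have main : ∃ n, (fun i : ℕ => Ideal.span {f | f ∈ 𝔟 ∧ ∃ e ≤ i, f.IsHomogeneous e}) n = 𝔟 := by
    refine N1 𝔟 h𝔟 h𝔟G
      (fun i => Ideal.span {f | f ∈ 𝔟 ∧ ∃ e ≤ i, f.IsHomogeneous e}) ?_ ?_ ?_ ?_
    · intro i j hij
      refine Ideal.span_mono ?_
      rintro f ⟨hf, e, he, hfe⟩
      exact ⟨hf, e, he.trans hij, hfe⟩
    · intro i g hg c hc f hf
      induction hf using Submodule.span_induction with
      | mem x hx =>
        obtain ⟨hx1, e, he, hxe⟩ := hx
        refine Ideal.subset_span ⟨h𝔟G g hg c hc x hx1, e, he, ?_⟩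
        rw [sbR_eq_sub]
        exact x6_sub_homog hxe _
      | zero => rw [map_zero]; exact Submodule.zero_mem _
      | add x y _ _ hx hy => rw [map_add]; exact Submodule.add_mem _ hx hy
      | smul a x _ hx =>
        rw [smul_eq_mul, map_mul]
        exact Ideal.mul_mem_left _ _ hx
    · intro i
      rw [Ideal.span_le]
      rintro f ⟨hf, _⟩
      exact hf
    · intro f hf
      refine ⟨f.totalDegree, ?_⟩
      have h1 : ∑ i ∈ Finset.range (f.totalDegree + 1), homogeneousComponent i f ∈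
          Ideal.span {g | g ∈ 𝔟 ∧ ∃ e ≤ f.totalDegree, g.IsHomogeneous e} := by
        refine Ideal.sum_mem _ fun k hk => Ideal.subset_span
          ⟨GSI_hc h𝔟G hf k, k, by rw [Finset.mem_range] at hk; omega,
            homogeneousComponent_isHomogeneous k f⟩
      rwa [sum_homogeneousComponent] at h1
  obtain ⟨n, hn⟩ := main
  exact ⟨n, hn.symm⟩

end MP50e386O
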