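import Mathlib
import Pool.Agent.Lib.MP_50e386_al.O.XDefs
import Pool.Agent.Lib.MP_50e386_al.O.X2
import Pool.Agent.Lib.MP_50e386_al.O.X5
import Pool.Agent.Lib.MP_50e386_al.O.X6

/-! Products. -/

namespace MP50e386O

open MvPolynomial Pool.Agent.Lib.MP50e386 MP50e386N

theorem NI_mono {𝔞 𝔟 : Ideal AA} (h : 𝔞 ≤ 𝔟) (h𝔞 : NI 𝔞) : NI 𝔟 := by
  intro S
  exact NoethInt.mono (Submodule.smul_mono_left h) le_rfl (h𝔞 S)

private theorem x7_HW_one : HW 0 (1 : U AA) := by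
  intro c
  rw [map_one, pow_zero, one_smul]

private theorem x7_HW_X (p : ℕ × ℕ) : HW 1 (X p : U AA) := by
  intro c
  obtain ⟨a, i⟩ := p
  have h1 : (cst (ee i) : VR AA) = Finsupp.single i 1 := by
    unfold cst
    rw [Finsupp.mapRange.linearMap_apply, Finsupp.mapRange_single, Algebra.linearMap_apply,
      map_one]
  rw [sbC_X, map_smul, LinearMap.map_smul_of_tower, h1, zf_single, one_smul, pow_one]

private theorem x7_HW_pow {d : ℕ} {f : U AA} (hf : HW d f) (k : ℕ) : HW (k * d) (f ^ k) := by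
  induction k with
  | zero => rw [Nat.zero_mul, pow_zero]; exact x7_HW_one
  | succ k ih => rw [pow_succ, Nat.succ_mul]; exact HW_mul ih hf

private theorem x7_HW_monomial (μ : ℕ × ℕ →₀ ℕ) : HW μ.degree (monomial μ (1 : AA)) := by
  classical
  rw [monomial_eq, C_1, one_mul]
  unfold Finsupp.prod Finsupp.degree
  have key : ∀ s : Finset (ℕ × ℕ), HW (∑ i ∈ s, μ i) (∏ a ∈ s, (X a : U AA) ^ μ a) := by
    intro s
    induction s using Finset.induction_on with
    | empty => rw [Finset.sum_empty, Finset.prod_empty]; exact x7_HW_one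
    | insert a s ha ih =>
      rw [Finset.sum_insert ha, Finset.prod_insert ha]
      have h1 := x7_HW_pow (x7_HW_X a) (μ a)
      rw [Nat.mul_one] at h1
      exact HW_mul h1 ih
  exact key _

/-- `F = 𝔟 M_S` is generated in bounded weight -/
theorem bd_smul_MS (𝔟 : Ideal AA) (h𝔟G : GSI 𝔟) (d : ℕ)
    (hd : 𝔟 = Ideal.span {f | f ∈ 𝔟 ∧ ∃ e ≤ d, f.IsHomogeneous e}) (S : Finset ℕ) :
    𝔟 • MS AA S = Submodule.span AA {f | f ∈ 𝔟 • MS AA S ∧ ∃ e ≤ 2 * d + S.card, HW e f} := by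
  apply le_antisymm
  · set T : Submodule AA (U AA) :=
      Submodule.span AA {f | f ∈ 𝔟 • MS AA S ∧ ∃ e ≤ 2 * d + S.card, HW e f} with hT
    rw [Submodule.smul_le]
    intro b hb n hn
    have hL : ∀ a ∈ S, a < S.sup id + 1 := fun a ha =>
      Nat.lt_succ_of_le (Finset.le_sup (f := id) ha)
    -- monomials
    have key : ∀ μ : ℕ × ℕ →₀ ℕ, monomial μ (1 : AA) ∈ MS AA S → b • monomial μ (1 : AA) ∈ T := by
      intro μ hμ
      have hdeg : μ.degree ≤ S.card := by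
        have h1 := MS_le_BD S (S.sup id + 1) hL hμ
        rcases (monomial_mem_restrictSupport _).1 h1 with h2 | h2
        · exact h2.2
        · exact absurd h2 one_ne_zero
      have h2 : 𝔟 ≤ T.comap (LinearMap.toSpanSingleton AA (U AA) (monomial μ (1 : AA))) := by
        conv_lhs => rw [hd]
        rw [Ideal.span_le]
        rintro f ⟨hf, e, he, hfe⟩
        rw [SetLike.mem_coe, Submodule.mem_comap, LinearMap.toSpanSingleton_apply, hT]
        refine Submodule.subset_span ⟨Submodule.smul_mem_smul hf hμ, 2 * e + μ.degree,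
          by omega, ?_⟩
        rw [smul_eq_C_mul]
        exact HW_mul (HW_of_homog hfe) (x7_HW_monomial μ)
      exact h2 hb
    rw [n.as_sum, Finset.smul_sum]
    refine Submodule.sum_mem _ fun μ hμ => ?_
    have h3 : monomial μ (1 : AA) ∈ MS AA S :=
      (monomial_mem_restrictSupport _).2 (Or.inl ((mem_restrictSupport_iff _).1 hn hμ))
    have h4 : b • monomial μ (coeff μ n) = coeff μ n • (b • monomial μ (1 : AA)) := by
      rw [smul_monomial, smul_monomial, smul_monomial, smul_eq_mul, smul_eq_mul, smul_eq_mul,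
        mul_one, mul_comm]
    rw [h4]
    exact Submodule.smul_mem _ _ (key μ h3)
  · rw [Submodule.span_le]
    rintro f ⟨hf, -⟩
    exact hf

theorem NI_mul {𝔞 𝔟 : Ideal AA} (h𝔞 : NI 𝔞) (h𝔞G : GSI 𝔞) (h𝔟 : NI 𝔟) (h𝔟G : GSI 𝔟) :
    NI (𝔞 * 𝔟) := by
  intro S
  have hY : GS (𝔟 • MS AA S) := GS.smul h𝔟G (gs_of_gls (GLS_MS S))
  obtain ⟨d, hd⟩ := bdgen 𝔟 h𝔟 h𝔟G
  have h1 : NoethInt (R := AA) GS (𝔞 • (𝔟 • MS AA S)) (𝔟 • MS AA S) :=
    FG 𝔞 h𝔞 h𝔞G S (𝔟 • MS AA S) hY Submodule.smul_le_right (2 * d + S.card)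
      (bd_smul_MS 𝔟 h𝔟G d hd S)
  have h2 : (𝔞 * 𝔟) • MS AA S = 𝔞 • (𝔟 • MS AA S) := Submodule.mul_smul _ _ _
  rw [h2]
  exact NoethInt.trans (fun _ _ => GS.sup) (fun _ _ => GS.inf) hY Submodule.smul_le_right
    Submodule.smul_le_right h1 (h𝔟 S)

theorem NI_pow {𝔞 : Ideal AA} (h𝔞 : NI 𝔞) (h𝔞G : GSI 𝔞) (k : ℕ) : NI (𝔞 ^ k) := by
  induction k with
  | zero =>
    intro S
    rw [pow_zero, Ideal.one_eq_top, Submodule.top_smul]
    exact NoethInt.refl _ _
  | succ k ih =>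
    rw [pow_succ]
    exact NI_mul ih (h𝔞G.pow k) h𝔞 h𝔞G

end MP50e386O
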