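import Mathlib
import Pool.Agent.Lib.MP_50e386_al.O.XDefs
import Pool.Agent.Lib.MP_50e386_al.O.X1

/-! Hilbert basis theorem for `M_S(A/J)[t]`. -/

namespace MP50e386O

open MvPolynomial Pool.Agent.Lib.MP50e386 MP50e386N

/-- leading coefficients of degree `d` -/
private noncomputable def x4L (Y : Submodule ℂ (Polynomial (U AA))) (hY : GX Y) (d : ℕ) :
    Submodule AA (U AA) where
  carrier := {u | ∃ P ∈ Y, (∀ k, d < k → P.coeff k = 0) ∧ P.coeff d = u}
  zero_mem' := ⟨0, Submodule.zero_mem _, fun k _ => Polynomial.coeff_zero k,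
    Polynomial.coeff_zero d⟩
  add_mem' := by
    rintro a b ⟨P, hP, hP1, hP2⟩ ⟨Q, hQ, hQ1, hQ2⟩
    refine ⟨P + Q, Submodule.add_mem _ hP hQ, fun k hk => ?_, ?_⟩
    · rw [Polynomial.coeff_add, hP1 k hk, hQ1 k hk, add_zero]
    · rw [Polynomial.coeff_add, hP2, hQ2]
  smul_mem' := by
    rintro c a ⟨P, hP, hP1, hP2⟩
    refine ⟨Polynomial.C (C c) * P, hY.1 c P hP, fun k hk => ?_, ?_⟩
    · rw [Polynomial.coeff_C_mul, hP1 k hk, mul_zero]
    · rw [Polynomial.coeff_C_mul, hP2, MvPolynomial.smul_eq_C_mul]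

private theorem x4_mem {Y : Submodule ℂ (Polynomial (U AA))} {hY : GX Y} {d : ℕ} {u : U AA} :
    u ∈ x4L Y hY d ↔ ∃ P ∈ Y, (∀ k, d < k → P.coeff k = 0) ∧ P.coeff d = u := Iff.rfl

private theorem x4_gs (Y : Submodule ℂ (Polynomial (U AA))) (hY : GX Y) (d : ℕ) :
    GS (x4L Y hY d) := by
  intro g hg c hc f hf
  obtain ⟨P, hP, hP1, hP2⟩ := x4_mem.1 hf
  have h1 := hY.2.2 g hg c hc P hP
  refine x4_mem.2 ⟨((c ^ 2) ^ d)⁻¹ • actP (fun i => c • g (ee i)) (c ^ 2) P,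
    Submodule.smul_mem _ _ h1, fun k hk => ?_, ?_⟩
  · rw [Polynomial.coeff_smul, actP_coeff, hP1 k hk, map_zero, smul_zero, smul_zero]
  · have hne : (c ^ 2) ^ d ≠ 0 := pow_ne_zero _ (pow_ne_zero _ hc)
    rw [Polynomial.coeff_smul, actP_coeff, hP2, smul_smul, inv_mul_cancel₀ hne, one_smul]

private theorem x4_mono {Y Z : Submodule ℂ (Polynomial (U AA))} (hY : GX Y) (hZ : GX Z)
    (h : Y ≤ Z) (d : ℕ) : x4L Y hY d ≤ x4L Z hZ d := by
  intro u hu
  obtain ⟨P, hP, hP1, hP2⟩ := x4_mem.1 hu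
  exact x4_mem.2 ⟨P, h hP, hP1, hP2⟩

private theorem x4_succ (Y : Submodule ℂ (Polynomial (U AA))) (hY : GX Y) (d : ℕ) :
    x4L Y hY d ≤ x4L Y hY (d + 1) := by
  intro u hu
  obtain ⟨P, hP, hP1, hP2⟩ := x4_mem.1 hu
  refine x4_mem.2 ⟨Polynomial.X * P, hY.2.1 P hP, fun k hk => ?_, ?_⟩
  · obtain ⟨k, rfl⟩ : ∃ j, k = j + 1 := ⟨k - 1, by omega⟩
    rw [Polynomial.coeff_X_mul, hP1 k (by omega)]
  · rw [Polynomial.coeff_X_mul, hP2]

private theorem x4_monod (Y : Submodule ℂ (Polynomial (U AA))) (hY : GX Y) :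
    Monotone (x4L Y hY) := monotone_nat_of_le_succ (x4_succ Y hY)

theorem hilbert (J : Ideal AA) (hJ : NI J) (S : Finset ℕ)
    (Y : ℕ → Submodule ℂ (Polynomial (U AA))) (hmono : Monotone Y) (hY : ∀ i, GX (Y i))
    (hlow : ∀ i, ∀ P : Polynomial (U AA), (∀ k, P.coeff k ∈ J • MS AA S) → P ∈ Y i)
    (hup : ∀ i, ∀ P ∈ Y i, ∀ k, P.coeff k ∈ MS AA S) :
    ∃ n0, ∀ n ≥ n0, Y n = Y n0 := by
  classical
  have hbd : ∀ i d, GS (x4L (Y i) (hY i) d) ∧ J • MS AA S ≤ x4L (Y i) (hY i) d ∧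
      x4L (Y i) (hY i) d ≤ MS AA S := by
    intro i d
    refine ⟨x4_gs _ _ _, ?_, ?_⟩
    · intro u hu
      refine x4_mem.2 ⟨Polynomial.monomial d u, hlow i _ (fun k => ?_), fun k hk => ?_, ?_⟩
      · rw [Polynomial.coeff_monomial]
        split_ifs
        · exact hu
        · exact Submodule.zero_mem _
      · rw [Polynomial.coeff_monomial, if_neg (by omega)]
      · rw [Polynomial.coeff_monomial, if_pos rfl]
    · intro u hu
      obtain ⟨P, hP, -, hP2⟩ := x4_mem.1 hu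
      rw [← hP2]
      exact hup i P hP d
  -- the diagonal chain
  obtain ⟨d0, hd0⟩ := hJ S (fun i => x4L (Y i) (hY i) i) (by
    apply monotone_nat_of_le_succ
    intro i
    exact (x4_succ _ _ _).trans (x4_mono _ _ (hmono (Nat.le_succ i)) _)) (fun i => hbd i i)
  have hdiag : ∀ d i, d0 ≤ d → d0 ≤ i → x4L (Y i) (hY i) d = x4L (Y d0) (hY d0) d0 := by
    intro d i hd hi
    apply le_antisymm
    · have h1 : x4L (Y i) (hY i) d ≤ x4L (Y (max d i)) (hY _) (max d i) :=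
        (x4_mono _ _ (hmono (le_max_right _ _)) _).trans (x4_monod _ _ (le_max_left _ _))
      refine h1.trans (le_of_eq ?_)
      exact hd0 (max d i) (hd.trans (le_max_left _ _))
    · exact (x4_mono _ _ (hmono hi) _).trans (x4_monod _ _ hd)
  have hsmall : ∀ d : ℕ, ∃ i0, ∀ i ≥ i0, x4L (Y i) (hY i) d = x4L (Y i0) (hY i0) d := by
    intro d
    exact hJ S (fun i => x4L (Y i) (hY i) d) (fun i j hij => x4_mono _ _ (hmono hij) _)
      (fun i => hbd i d)
  choose i0 hi0 using hsmall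
  refine ⟨max d0 ((Finset.range d0).sup i0), fun n hn => ?_⟩
  set n0 := max d0 ((Finset.range d0).sup i0) with hn0
  have hd0n0 : d0 ≤ n0 := le_max_left _ _
  have heq : ∀ d, x4L (Y n) (hY n) d = x4L (Y n0) (hY n0) d := by
    intro d
    by_cases hd : d0 ≤ d
    · rw [hdiag d n hd (hd0n0.trans hn), hdiag d n0 hd hd0n0]
    · have h1 : i0 d ≤ n0 :=
        (Finset.le_sup (f := i0) (Finset.mem_range.2 (by omega))).trans (le_max_right _ _)
      rw [hi0 d n (h1.trans hn), hi0 d n0 h1]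
  apply le_antisymm _ (hmono hn)
  have key : ∀ d, ∀ P ∈ Y n, (∀ k, d ≤ k → P.coeff k = 0) → P ∈ Y n0 := by
    intro d
    induction d with
    | zero =>
      intro P _ h0
      have : P = 0 := Polynomial.ext fun k => by rw [h0 k (Nat.zero_le _), Polynomial.coeff_zero]
      rw [this]
      exact Submodule.zero_mem _
    | succ d ih =>
      intro P hP h0
      have h1 : P.coeff d ∈ x4L (Y n) (hY n) d :=
        x4_mem.2 ⟨P, hP, fun k hk => h0 k (by omega), rfl⟩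
      rw [heq d] at h1
      obtain ⟨Q, hQ, hQ1, hQ2⟩ := x4_mem.1 h1
      have h2 : P - Q ∈ Y n0 := by
        apply ih (P - Q) (Submodule.sub_mem _ hP (hmono hn hQ))
        intro k hk
        rw [Polynomial.coeff_sub]
        rcases Nat.eq_or_lt_of_le hk with h | h
        · rw [← h, hQ2, sub_self]
        · rw [h0 k (by omega), hQ1 k h, sub_self]
      have h3 : P = P - Q + Q := by rw [sub_add_cancel]
      rw [h3]
      exact Submodule.add_mem _ h2 hQ
  intro P hP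
  apply key (P.natDegree + 1) P hP
  intro k hk
  exact Polynomial.coeff_eq_zero_of_natDegree_lt (by omega)

end MP50e386O
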