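import Mathlib
import Pool.Agent.Lib.MP_50e386_al.N.T2
import Pool.Agent.Lib.MP_50e386_al.N.T8
import Pool.Agent.Lib.MP_50e386_al.O.L5
import Pool.Agent.Lib.MP_50e386_al.O.XDefs
import Pool.Agent.Lib.MP_50e386_al.O.X1
import Pool.Agent.Lib.MP_50e386_al.O.X2
import Pool.Agent.Lib.MP_50e386_al.O.X3
import Pool.Agent.Lib.MP_50e386_al.O.X5
import Pool.Agent.Lib.MP_50e386_al.O.X6
import Pool.Agent.Lib.MP_50e386_al.O.X7
import Pool.Agent.Lib.MP_50e386_al.O.X8
import Pool.Agent.Lib.MP_50e386_al.O.X9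
import Pool.Agent.Lib.MP_50e386_al.O.X14

/-! The isotropic parts `nn(J_{r|s})` of the determinantal ideals have noetherian quotients. -/

namespace MP50e386O

open MvPolynomial Pool.Agent.Lib.MP50e386 MP50e386N

theorem glsi_det (M N0 : ℕ) : GLSI (R := AA) (MP50e386.detIdeal M N0) := by
  intro φ f hf
  rw [sbR_eq_sub]
  exact GLIdeal.st φ f hf

/-- the transporter of `𝔥` into `𝔫` inside `K` -/
def trn (K 𝔥 𝔫 : Ideal AA) : Ideal AA where
  carrier := {f | f ∈ K ∧ ∀ c ∈ 𝔥, c * f ∈ 𝔫}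
  add_mem' := by
    rintro a b ⟨ha, ha'⟩ ⟨hb, hb'⟩
    refine ⟨K.add_mem ha hb, fun c hc => ?_⟩
    rw [mul_add]
    exact 𝔫.add_mem (ha' c hc) (hb' c hc)
  zero_mem' := ⟨K.zero_mem, fun c _ => by rw [mul_zero]; exact 𝔫.zero_mem⟩
  smul_mem' := by
    rintro a b ⟨hb, hb'⟩
    refine ⟨K.mul_mem_left a hb, fun c hc => ?_⟩
    rw [smul_eq_mul, mul_left_comm]
    exact 𝔫.mul_mem_left a (hb' c hc)

theorem mem_trn (K 𝔥 𝔫 : Ideal AA) (f : AA) : f ∈ trn K 𝔥 𝔫 ↔ f ∈ K ∧ ∀ c ∈ 𝔥, c * f ∈ 𝔫 :=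
  Iff.rfl

theorem trn_GSI {K 𝔥 𝔫 : Ideal AA} (hK : GSI K) (h𝔥 : GSI 𝔥) (h𝔫 : GSI 𝔫) :
    GSI (trn K 𝔥 𝔫) := by
  intro g hg c hc f hf
  refine ⟨hK g hg c hc f hf.1, fun a ha => ?_⟩
  have hinv : sbR (fun i => c • g (ee i)) (sbR (fun i => c⁻¹ • g.symm (ee i)) a) = a := by
    rw [sbR_sbR]
    have : (fun i => linC (fun i => c • g (ee i)) (c⁻¹ • g.symm (ee i))) = ee := by
      funext i
      have hlin : ∀ v : V, linC (fun i => c • g (ee i)) v = c • g v := by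
        intro v
        have : linC (fun i => c • g (ee i)) = c • (g : Cinf →ₗ[ℂ] Cinf) := by
          refine Finsupp.lhom_ext' fun i => LinearMap.ext_ring ?_
          simp [linC]
        rw [this]
        rfl
      rw [hlin, map_smul, smul_smul, mul_inv_cancel₀ hc, one_smul, LinearEquiv.apply_symm_apply]
    rw [this]
    exact sbR_id a
  rw [← hinv, ← map_mul]
  exact h𝔫 g hg c hc _ (hf.2 _ (h𝔥 g.symm (isSo_inv hg) c⁻¹ (inv_ne_zero hc) a ha))

theorem NI_nn_step (r s : ℕ) (h1 : NI (nnI (MP50e386.detIdeal r (s + 1))))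
    (h2 : NI (nnI (MP50e386.detIdeal (r + 1) s))) : NI (nnI (Jd r s)) := by
  set P : Ideal AA := nnI (MP50e386.detIdeal r (s + 1)) with hP
  set Q : Ideal AA := nnI (MP50e386.detIdeal (r + 1) s) with hQ
  have hPG : GSI P := nnI_GSI (glsi_det _ _)
  have hQG : GSI Q := nnI_GSI (glsi_det _ _)
  have hhG : GSI (P * Q) := hPG.mul hQG
  have hhN : NI (P * Q) := NI_mul h1 hPG h2 hQG
  have hJ : NI (Jd r s) := NI_det (r + 1) (s + 1)
  have hJL : GLSI (Jd r s) := glsi_det _ _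
  have hJG : GSI (Jd r s) := gsi_of_glsi hJL
  obtain ⟨a, ha⟩ := exists_cond r s (pkg_rs r s (NI_det r (s + 1)) (NI_det (r + 1) s))
  have hK : NI (KK (Jd r s)) := NI_KK (Jd r s) hJ hJG _ (int_det r s) ((P * Q) ^ a)
    (NI_pow hhN hhG a) (hhG.pow a) ha
  have hKG : GSI (KK (Jd r s)) := KK_GSI hJG
  obtain ⟨n, hn⟩ := N1 (KK (Jd r s)) hK hKG (fun i => trn (KK (Jd r s)) ((P * Q) ^ i) (nnI (Jd r s)))
    (fun i j hij f hf => ⟨hf.1, fun c hc => hf.2 c (Ideal.pow_le_pow_right hij hc)⟩)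
    (fun i => trn_GSI hKG (hhG.pow i) (nnI_GSI hJL)) (fun i f hf => hf.1)
    (fun f hf => by
      obtain ⟨b, hb⟩ := torsK r s f hf
      exact ⟨b, hf, hb⟩)
  obtain ⟨d, hd⟩ := bdgen (KK (Jd r s)) hK hKG
  intro S
  have hMS : GS (MS AA S) := gs_of_gls (GLS_MS S)
  have hF : GS (KK (Jd r s) • MS AA S) := GS.smul hKG hMS
  have hle : (P * Q) ^ n • (KK (Jd r s) • MS AA S) ≤ nnI (Jd r s) • MS AA S := by
    rw [← Submodule.mul_smul]
    refine Submodule.smul_mono_left ?_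
    rw [Ideal.mul_le]
    intro c hc f hf
    have hf' : f ∈ trn (KK (Jd r s)) ((P * Q) ^ n) (nnI (Jd r s)) := by
      rw [hn]
      exact hf
    exact hf'.2 c hc
  have h3 := FG ((P * Q) ^ n) (NI_pow hhN hhG n) (hhG.pow n) S (KK (Jd r s) • MS AA S) hF
    Submodule.smul_le_right (2 * d + S.card) (bd_smul_MS _ hKG d hd S)
  have hle2 : nnI (Jd r s) • MS AA S ≤ KK (Jd r s) • MS AA S :=
    Submodule.smul_mono_left (nnI_le_KK hJL)
  exact NoethInt.trans (fun _ _ => GS.sup) (fun _ _ => GS.inf) hF hle2 Submodule.smul_le_right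
    (NoethInt.mono hle le_rfl h3) (hK S)

theorem NI_nn (M N0 : ℕ) : NI (nnI (MP50e386.detIdeal M N0)) := by
  induction hm : M + N0 using Nat.strong_induction_on generalizing M N0 with
  | _ m ih =>
    rcases M with - | r
    · have : MP50e386.detIdeal 0 N0 = ⊤ := by
        rw [Ideal.eq_top_iff_one]
        refine Ideal.subset_span ⟨fun i => i.elim0, ?_⟩
        simp
      rw [this, nnI_top]
      exact NI_top
    rcases N0 with - | s
    · have : MP50e386.detIdeal (r + 1) 0 = ⊤ := by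
        rw [Ideal.eq_top_iff_one]
        refine Ideal.subset_span ⟨fun _ => 0, ?_⟩
        simp
      rw [this, nnI_top]
      exact NI_top
    · exact NI_nn_step r s (ih (r + (s + 1)) (by omega) r (s + 1) rfl)
        (ih (r + 1 + s) (by omega) (r + 1) s rfl)

end MP50e386O
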