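import Mathlib
import Pool.Agent.Lib.MP_50e386_al.Bridge
import Pool.Agent.Lib.MP_50e386_al.N.LDefs
import Pool.Agent.Lib.MP_50e386_al.N.T2
import Pool.Agent.Lib.MP_50e386_al.N.T8
import Pool.Agent.Lib.MP_50e386_al.N.L1
import Pool.Agent.Lib.MP_50e386_al.N.L6
import Pool.Agent.Lib.MP_50e386_al.O.XDefs
import Pool.Agent.Lib.MP_50e386_al.O.X2
import Pool.Agent.Lib.MP_50e386_al.O.X15

/-! The final theorem for the split symmetric form. -/

namespace MP50e386O

open MvPolynomial Pool.Agent.Lib.MP50e386 MP50e386N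

attribute [local instance] MvPolynomial.gradedAlgebra

private theorem l6_bil (u v : V) : (MP50e386.bil u v).IsHomogeneous 1 := by
  unfold MP50e386.bil
  rw [Finsupp.linearCombination_apply, Finsupp.sum, LinearMap.sum_apply]
  apply IsHomogeneous.sum
  intro i _
  rw [LinearMap.smul_apply, Finsupp.linearCombination_apply, Finsupp.sum, smul_eq_C_mul]
  apply IsHomogeneous.C_mul
  apply IsHomogeneous.sum
  intro j _
  rw [smul_eq_C_mul]
  exact isHomogeneous_C_mul_X _ _

private theorem l6_sub_homog {f : MP50e386.A} {k : ℕ} (h : f.IsHomogeneous k) (w : ℕ → V) :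
    (MP50e386.sub w f).IsHomogeneous k := by
  unfold MP50e386.sub
  have h1 := IsHomogeneous.aeval h (MP50e386.Yw w) (n := 1) (by
    intro s
    induction s using Sym2.ind with
    | _ i j =>
      rw [MP50e386.Yw_mk]
      exact l6_bil _ _)
  rwa [one_mul] at h1

private theorem l6_sub_hc (f : MP50e386.A) (w : ℕ → V) (d : ℕ) :
    homogeneousComponent d (MP50e386.sub w f) = MP50e386.sub w (homogeneousComponent d f) := by
  conv_lhs => rw [← sum_homogeneousComponent f, map_sum, map_sum]
  by_cases hd : d ∈ Finset.range (f.totalDegree + 1)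
  · rw [Finset.sum_eq_single_of_mem d hd]
    · exact homogeneousComponent_eq_self
        (l6_sub_homog (homogeneousComponent_isHomogeneous d f) w)
    · intro k _ hkd
      rw [homogeneousComponent_of_mem
        (l6_sub_homog (homogeneousComponent_isHomogeneous k f) w), if_neg (Ne.symm hkd)]
  · rw [Finset.sum_eq_zero]
    · rw [Finset.mem_range, not_lt] at hd
      rw [homogeneousComponent_eq_zero _ _ (by omega), map_zero]
    · intro k hk
      rw [homogeneousComponent_of_mem
        (l6_sub_homog (homogeneousComponent_isHomogeneous k f) w), if_neg]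
      rintro rfl
      exact hd hk

theorem GSI_grI {I : Ideal MP50e386.A} (hI : IsStable IsSo I) : GSI (grI I) := by
  intro g hg c hc f hf
  rw [sbR_eq_sub]
  have key : grI I ≤ (grI I).comap (MP50e386.sub (fun i => c • g (ee i))) := by
    conv_lhs => unfold grI
    rw [Ideal.span_le]
    rintro T ⟨f0, hf0, rfl⟩
    rw [SetLike.mem_coe, Ideal.mem_comap,
      MP50e386.sub_smul_homog (homogeneousComponent_isHomogeneous _ f0) c (fun i => g (ee i)),
      ← l6_sub_hc, smul_eq_C_mul]
    apply Ideal.mul_mem_left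
    have h1 : MP50e386.sub (fun i => g (ee i)) f0 ∈ I := by
      have h2 := hI g hg f0 hf0
      rwa [MP50e386.act_eq] at h2
    set F := MP50e386.sub (fun i => g (ee i)) f0 with hF
    by_cases h0 : homogeneousComponent f0.totalDegree F = 0
    · rw [h0]
      exact Submodule.zero_mem _
    · apply Ideal.subset_span
      refine ⟨F, h1, ?_⟩
      have h3 : f0.totalDegree ≤ F.totalDegree := by
        by_contra hcon
        exact h0 (homogeneousComponent_eq_zero _ _ (by omega))
      have h4 : F.totalDegree ≤ f0.totalDegree := by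
        rw [hF]
        conv_lhs => rw [← sum_homogeneousComponent f0, map_sum]
        refine (totalDegree_finsetSum _ _).trans (Finset.sup_le fun k hk => ?_)
        have h5 := (l6_sub_homog (homogeneousComponent_isHomogeneous k f0)
          (fun i => g (ee i))).totalDegree_le
        rw [Finset.mem_range] at hk
        omega
      rw [le_antisymm h4 h3]
  exact key hf


/-- the substitutions into isotropic vectors -/
def mOne (I : Ideal AA) : Ideal AA where
  carrier := {f | ∀ φ : ℕ → V, Iso φ → sbR φ f ∈ I}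
  add_mem' := by
    intro a b ha hb φ hφ
    rw [map_add]
    exact I.add_mem (ha φ hφ) (hb φ hφ)
  zero_mem' := by
    intro φ _
    rw [map_zero]
    exact I.zero_mem
  smul_mem' := by
    intro a b hb φ hφ
    rw [smul_eq_mul, map_mul]
    exact I.mul_mem_left _ (hb φ hφ)

theorem mOne_GLSI (I : Ideal AA) : GLSI (mOne I) := by
  intro ψ f hf φ hφ
  rw [sbR_sbR]
  exact hf _ (Iso.lin hφ ψ)

theorem exists_nn_le {I : Ideal AA} (hI : GSI I) (hne : I ≠ ⊥) :
    ∃ M N0 : ℕ, nnI (MP50e386.detIdeal M N0) ≤ I := by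
  have h1 : I ≤ mOne I := fun f hf φ hφ => witt2I hI hf φ hφ
  obtain ⟨M, N0, h⟩ := MP50e386.main_sp (mOne I) (fun h0 => hne (le_bot_iff.1 (h0 ▸ h1)))
    (fun g _ _ f hf => by
      have := mOne_GLSI I (fun i => g (ee i)) f hf
      rwa [sbR_eq_sub] at this)
  exact ⟨M, N0, nnI_le_of _ _ fun φ hφ g hg => h hg φ hφ⟩

theorem grI_bot : grI ⊥ = ⊥ := by
  unfold grI
  rw [Ideal.span_eq_bot]
  rintro g ⟨f, hf, rfl⟩
  rw [Ideal.mem_bot] at hf
  rw [hf, map_zero]

theorem so_noetherian (I : ℕ → Ideal SymSym) (hmono : Monotone I)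
    (hI : ∀ n, IsStable IsSo (I n)) : ∃ n0, ∀ n ≥ n0, I n = I n0 := by
  by_cases hbot : ∀ n, I n = ⊥
  · exact ⟨0, fun n _ => by rw [hbot n, hbot 0]⟩
  push Not at hbot
  obtain ⟨n1, hn1⟩ := hbot
  have hgr : grI (I n1) ≠ ⊥ := fun h => hn1 (eq_of_grI bot_le (grI_bot.trans h.symm)).symm
  obtain ⟨M, N0, hle⟩ := exists_nn_le (GSI_grI (hI n1)) hgr
  have hleN : ∀ i, nnI (MP50e386.detIdeal M N0) ≤ grI (I (n1 + i)) := fun i =>
    hle.trans (grI_mono (hmono (Nat.le_add_right n1 i)))
  obtain ⟨n0, hn0⟩ := NI_nn M N0 ∅ (fun i => ofI (grI (I (n1 + i))))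
    (fun i j hij => (ofI_le _ _).2 (grI_mono (hmono (Nat.add_le_add_left hij n1))))
    (fun i => by
      refine ⟨(GS_ofI _).2 (GSI_grI (hI _)), ?_, ?_⟩
      · rw [MS_empty, ofI_smul, Ideal.mul_top, ofI_le]
        exact hleN i
      · rw [MS_empty, ofI_le]
        exact le_top)
  refine ⟨n1 + n0, fun n hn => ?_⟩
  obtain ⟨j, rfl⟩ := Nat.exists_eq_add_of_le (le_trans (Nat.le_add_right n1 n0) hn)
  have hj : n0 ≤ j := by omega
  have h1 := hn0 j hj
  have h2 : grI (I (n1 + j)) = grI (I (n1 + n0)) :=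
    le_antisymm ((ofI_le _ _).1 h1.le) ((ofI_le _ _).1 h1.ge)
  exact (eq_of_grI (hmono hn) h2.symm).symm

end MP50e386O
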