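import Mathlib
import Pool.Agent.Lib.MP_50e386_al.Bridge
import Pool.Agent.Lib.MP_50e386_al.N.T2
import Pool.Agent.Lib.MP_50e386_al.O.Defs
import Pool.Agent.Lib.MP_50e386_al.O.W
import Pool.Agent.Lib.MP_50e386_al.O.X16
import Pool.Agent.Lib.MP_50e386_al.O.X17

/-! The final theorem for the standard symmetric form. -/

namespace MP50e386O

open MvPolynomial Pool.Agent.Lib.MP50e386 MP50e386N

private theorem x18_act_act (g g' : Cinf ≃ₗ[ℂ] Cinf) (f : SymSym) :
    act g' (act g f) = act (g.trans g') f := by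
  rw [_root_.MP50e386.act_eq, _root_.MP50e386.act_eq, _root_.MP50e386.act_eq,
    _root_.MP50e386.sub_sub]
  congr 2
  funext i
  have : _root_.MP50e386.lin (fun i => g' (ee i)) = (g' : Cinf →ₗ[ℂ] Cinf) := by
    apply Finsupp.lhom_ext'
    intro i
    apply LinearMap.ext_ring
    exact _root_.MP50e386.lin_ee _ i
  exact congrArg (fun F => F (g (ee i))) this

private theorem x18_act_refl (f : SymSym) : act (LinearEquiv.refl ℂ Cinf) f = f := by
  rw [_root_.MP50e386.act_eq, ← sbR_eq_sub]
  exact sbR_id f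

/-- vectors supported below `n` are mapped to vectors supported below `n` -/
private theorem x18_low (w : ℕ → V) (n : ℕ) (hw : ∀ i < n, ∀ j, n ≤ j → w i j = 0) (x : V)
    (hx : ∀ j, n ≤ j → x j = 0) (j : ℕ) (hj : n ≤ j) : linC w x j = 0 := by
  rw [linC, Finsupp.linearCombination_apply, Finsupp.sum, Finset.sum_apply']
  apply Finset.sum_eq_zero
  intro i hi
  rw [Finsupp.mem_support_iff] at hi
  have hin : i < n := by
    by_contra h
    exact hi (hx i (not_lt.1 h))
  rw [Finsupp.smul_apply, hw i hin j hj, smul_zero]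

private theorem x18_lin (g : Cinf ≃ₗ[ℂ] Cinf) (x : V) : linC (fun i => g (ee i)) x = g x := by
  have : linC (fun i => g (ee i)) = (g : Cinf →ₗ[ℂ] Cinf) := by
    apply Finsupp.lhom_ext'
    intro i
    apply LinearMap.ext_ring
    exact linC_ee _ i
  exact congrArg (fun F => F x) this

private theorem x18_thv (n i j : ℕ) (hi : i < 2 * n) (hj : 2 * n ≤ j) : thv i j = 0 := by
  obtain ⟨k, rfl | rfl⟩ : ∃ k, i = 2 * k ∨ i = 2 * k + 1 := ⟨i / 2, by omega⟩
  · rw [thv_even, Finsupp.add_apply, Finsupp.smul_apply, Finsupp.single_eq_of_ne (by omega),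
      Finsupp.single_eq_of_ne (by omega), smul_zero, add_zero]
  · rw [thv_odd, Finsupp.sub_apply, Finsupp.smul_apply, Finsupp.smul_apply,
      Finsupp.single_eq_of_ne (by omega),
      Finsupp.single_eq_of_ne (by omega), smul_zero, smul_zero, sub_zero]

private theorem x18_thw (n i j : ℕ) (hi : i < 2 * n) (hj : 2 * n ≤ j) : thw i j = 0 := by
  obtain ⟨k, rfl | rfl⟩ : ∃ k, i = 2 * k ∨ i = 2 * k + 1 := ⟨i / 2, by omega⟩
  · rw [thw_even, Finsupp.add_apply, Finsupp.smul_apply, Finsupp.single_eq_of_ne (by omega),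
      Finsupp.single_eq_of_ne (by omega), smul_zero, add_zero]
  · rw [thw_odd, Finsupp.sub_apply, Finsupp.smul_apply, Finsupp.smul_apply,
      Finsupp.single_eq_of_ne (by omega),
      Finsupp.single_eq_of_ne (by omega), smul_zero, smul_zero, sub_zero]

private theorem x18_high (n : ℕ) (g : Cinf ≃ₗ[ℂ] Cinf)
    (hg : ∀ i, n ≤ i → g (Finsupp.single i 1) = Finsupp.single i 1) (i : ℕ) (hi : 2 * n ≤ i) :
    g (thw i) = thw i := by
  obtain ⟨k, rfl | rfl⟩ : ∃ k, i = 2 * k ∨ i = 2 * k + 1 := ⟨i / 2, by omega⟩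
  · rw [thw_even, map_add, map_smul, hg _ (by omega), hg _ (by omega)]
  · rw [thw_odd, map_sub, map_smul, map_smul, hg _ (by omega), hg _ (by omega)]

/-- the conjugate of `g` by `θ` -/
theorem isO_conj {g : Cinf ≃ₗ[ℂ] Cinf} (hg : IsSo g) : IsO ((theta.symm.trans g).trans theta) := by
  obtain ⟨⟨n, h1, h2⟩, h3⟩ := hg
  refine ⟨⟨2 * n, fun i hi => ?_, fun i hi j hj => ?_⟩, fun x y => ?_⟩
  · show theta (g (theta.symm (ee i))) = ee i
    rw [theta_symm_ee, x18_high n g h1 i hi, ← theta_symm_ee, LinearEquiv.apply_symm_apply]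
  · show theta (g (theta.symm (ee i))) j = 0
    rw [theta_symm_ee]
    refine x18_low thv (2 * n) (fun i hi j hj => x18_thv n i j hi hj) _ ?_ j hj
    intro l hl
    rw [← x18_lin g]
    refine x18_low _ (2 * n) ?_ _ (fun m hm => x18_thw n i m hi hm) l hl
    intro a ha b hb
    rcases lt_or_ge a n with h | h
    · exact h2 a h b (by omega)
    · rw [h1 a h]
      exact Finsupp.single_eq_of_ne (by omega)
  · show symmForm (theta (g (theta.symm x))) (theta (g (theta.symm y))) = symmForm x y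
    rw [symmForm_theta, h3, ← symmForm_theta, LinearEquiv.apply_symm_apply,
      LinearEquiv.apply_symm_apply]

/-- `A = Sym(Sym^2(ℂ^∞))` is `O_∞`-noetherian -/
theorem o_noetherian (I : ℕ → Ideal SymSym) (hmono : Monotone I)
    (hI : ∀ n, IsStable IsO (I n)) : ∃ n0, ∀ n ≥ n0, I n = I n0 := by
  have hsurj : Function.Surjective (act theta : SymSym →ₐ[ℂ] SymSym) := fun f =>
    ⟨act theta.symm f, by
      rw [x18_act_act, LinearEquiv.symm_trans_self, x18_act_refl]⟩
  obtain ⟨n0, hn0⟩ := so_noetherian (fun n => (I n).comap (act theta))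
    (fun i j hij => Ideal.comap_mono (hmono hij))
    (fun n g hg f hf => by
      rw [Ideal.mem_comap] at hf ⊢
      have h1 := hI n _ (isO_conj hg) _ hf
      rw [x18_act_act] at h1 ⊢
      have e : theta.trans ((theta.symm.trans g).trans theta) = g.trans theta := by
        ext x : 1
        simp
      rwa [e] at h1)
  refine ⟨n0, fun n hn => ?_⟩
  exact Ideal.comap_injective_of_surjective _ hsurj (hn0 n hn)

end MP50e386O
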