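import Mathlib
import Pool.Agent.Lib.MP_50e386_al.N.L2
import Pool.Agent.Lib.MP_50e386_al.N.L3
import Pool.Agent.Lib.MP_50e386_al.O.XDefs
import Pool.Agent.Lib.MP_50e386_al.O.X1
import Pool.Agent.Lib.MP_50e386_al.O.X2

/-! `t` times a Gram determinant expression lies in `τ(A)`. -/

namespace MP50e386O

open MvPolynomial Pool.Agent.Lib.MP50e386 MP50e386N

private theorem x9a_om_comm (v w : V) : om v w = om w v := osf_comm v w

private theorem x9a_xv {v w : V} (h : om v w = 0) :
    tauA (xv v w : AA) = Polynomial.C (xv v w : AA) := by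
  rw [tauA_xv, h, map_zero, map_zero, zero_mul, add_zero]

private theorem x9a_gram {m : ℕ} {w : Fin m → V} (h : ∀ i j, om (w i) (w j) = 0) :
    (tauA : AA →+* Polynomial AA).mapMatrix (gramM w : Matrix (Fin m) (Fin m) AA) =
      (Polynomial.C : AA →+* Polynomial AA).mapMatrix (gramM w) := by
  ext1 i j
  exact x9a_xv (h i j)

private theorem x9a_Dl {m : ℕ} {w : Fin m → V} (h : ∀ i j, om (w i) (w j) = 0) :
    tauA (Dl w : AA) = Polynomial.C (Dl w : AA) := by
  have h1 : (tauA : AA →+* Polynomial AA) (Dl w : AA) = Polynomial.C (Dl w : AA) := by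
    unfold Dl
    rw [RingHom.map_det, x9a_gram h, RingHom.map_det]
  exact h1

private theorem x9a_adj {m : ℕ} {w : Fin m → V} (h : ∀ i j, om (w i) (w j) = 0) (l k : Fin m) :
    tauA ((gramM w : Matrix (Fin m) (Fin m) AA).adjugate l k) =
      Polynomial.C ((gramM w : Matrix (Fin m) (Fin m) AA).adjugate l k) := by
  have h1 : (tauA : AA →+* Polynomial AA).mapMatrix
      ((gramM w : Matrix (Fin m) (Fin m) AA).adjugate) =
      (Polynomial.C : AA →+* Polynomial AA).mapMatrix
      ((gramM w : Matrix (Fin m) (Fin m) AA).adjugate) := by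
    rw [RingHom.map_adjugate, RingHom.map_adjugate, x9a_gram h]
  exact congrFun (congrFun h1 l) k

private theorem x9a_xf_til {r : ℕ} (v : Fin r → V) (c y : V) :
    (xf (til v c) (cst y) : AA) = Dl v * xv c y - ∑ k, (∑ l, (xv c (v l) : AA) *
      (gramM v : Matrix (Fin r) (Fin r) AA).adjugate l k) * xv (v k) y := by
  unfold til pit
  rw [map_sub, LinearMap.sub_apply, map_smul, LinearMap.smul_apply, smul_eq_mul, map_sum,
    LinearMap.sum_apply]
  congr 1
  refine Finset.sum_congr rfl fun k _ => ?_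
  rw [map_smul, LinearMap.smul_apply, smul_eq_mul]
  rfl

private theorem x9a_mk_xv {J : Ideal AA} [GLIdeal J] (v w : V) :
    Ideal.Quotient.mk J (xv v w : AA) = (xv v w : AA ⧸ J) := by
  rw [xv_mk, xv_A]

private theorem x9a_mk_Dl {J : Ideal AA} [GLIdeal J] {m : ℕ} (w : Fin m → V) :
    Ideal.Quotient.mk J (Dl w : AA) = (Dl w : AA ⧸ J) := by
  unfold Dl
  rw [RingHom.map_det]
  congr 1
  ext1 i j
  exact x9a_mk_xv (w i) (w j)

private theorem x9a_mk_xf {J : Ideal AA} [GLIdeal J] {m : ℕ} (w : Fin m → V) (c y : V) :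
    Ideal.Quotient.mk J (xf (til w c) (cst y) : AA) = (xf (til w c) (cst y) : AA ⧸ J) := by
  rw [← det_border, ← det_border, RingHom.map_det]
  congr 1
  ext1 i j
  exact x9a_mk_xv _ _

/-- `t · Δ(u,c)^s Δ(u)` lies in `τ(A)` modulo `J[t]`, for letters `u, c` and a partner `c'` of `c` -/
theorem cond_letters (r s : ℕ) (u : Fin r → V) (c c' : V) (hu : ∀ i j, om (u i) (u j) = 0)
    (huc : ∀ i, om (u i) c = 0) (huc' : ∀ i, om (u i) c' = 0) (hcc : om c c = 0)
    (hcc' : om c c' = 1) :
    ∃ f' : AA, tauA f' - Polynomial.X * Polynomial.C ((Dl1 u c : AA) ^ s * Dl u) ∈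
      Ideal.map Polynomial.C (Jd r s) := by
  have hB : tauA (xf (til u c) (cst c') : AA) =
      Polynomial.C (xf (til u c) (cst c') : AA) + Polynomial.C (Dl u : AA) * Polynomial.X := by
    rw [x9a_xf_til]
    simp only [map_sub, map_mul, map_sum]
    rw [x9a_Dl hu, tauA_xv c c', hcc']
    have h1 : ∀ k l, tauA (xv c (u l) : AA) *
        tauA ((gramM u : Matrix (Fin r) (Fin r) AA).adjugate l k) =
        Polynomial.C (xv c (u l) : AA) *
          Polynomial.C ((gramM u : Matrix (Fin r) (Fin r) AA).adjugate l k) := by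
      intro k l
      rw [x9a_adj hu, x9a_xv (by rw [x9a_om_comm]; exact huc l)]
    have h2 : ∀ k, tauA (xv (u k) c' : AA) = Polynomial.C (xv (u k) c' : AA) :=
      fun k => x9a_xv (huc' k)
    simp only [h1, h2]
    simp only [map_one, one_mul]
    ring
  have hD : tauA (Dl1 u c : AA) = Polynomial.C (Dl1 u c : AA) := by
    unfold Dl1
    refine x9a_Dl fun i j => ?_
    refine Fin.lastCases ?_ (fun i => ?_) i <;> refine Fin.lastCases ?_ (fun j => ?_) j
    · rw [Fin.snoc_last]
      exact hcc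
    · rw [Fin.snoc_last, Fin.snoc_castSucc, x9a_om_comm]
      exact huc j
    · rw [Fin.snoc_last, Fin.snoc_castSucc]
      exact huc i
    · rw [Fin.snoc_castSucc, Fin.snoc_castSucc]
      exact hu i j
  have hJ : (Dl1 u c : AA) ^ s * xf (til u c) (cst c') ∈ Jd r s := by
    rw [← Ideal.Quotient.eq_zero_iff_mem, map_mul, map_pow]
    have h1 := KI (Rrs_P1 r s) u c (cst c')
    have h2 : Ideal.Quotient.mk (Jd r s) (Dl1 u c : AA) = (Dl1 u c : Rrs r s) := x9a_mk_Dl _
    rw [h2, x9a_mk_xf]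
    exact h1
  refine ⟨(Dl1 u c : AA) ^ s * xf (til u c) (cst c'), ?_⟩
  have h3 : tauA ((Dl1 u c : AA) ^ s * xf (til u c) (cst c')) -
      Polynomial.X * Polynomial.C ((Dl1 u c : AA) ^ s * Dl u) =
      Polynomial.C ((Dl1 u c : AA) ^ s * xf (til u c) (cst c')) := by
    rw [map_mul, map_pow, hD, hB, map_mul, map_mul, map_pow]
    ring
  rw [h3]
  exact Ideal.mem_map_of_mem _ hJ

end MP50e386O
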