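import Mathlib
import Pool.Agent.Lib.MP_50e386_al.N.L2
import Pool.Agent.Lib.MP_50e386_al.N.L3
import Pool.Agent.Lib.MP_50e386_al.O.TL
import Pool.Agent.Lib.MP_50e386_al.O.L5
import Pool.Agent.Lib.MP_50e386_al.O.XDefs
import Pool.Agent.Lib.MP_50e386_al.O.X1
import Pool.Agent.Lib.MP_50e386_al.O.X2
import Pool.Agent.Lib.MP_50e386_al.O.X3
import Pool.Agent.Lib.MP_50e386_al.O.X9a

/-! The conductor of `A / K` in `R_{r|s}[t]`. -/

namespace MP50e386O

open MvPolynomial Pool.Agent.Lib.MP50e386 MP50e386N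

private theorem x9_GLSI_det (M N0 : ℕ) : GLSI (MP50e386.detIdeal M N0) := by
  intro φ f hf
  rw [sbR_eq_sub]
  exact MP50e386.detIdeal_stable M N0 φ f hf

/-- the conductor -/
private noncomputable def x9_CR (J : Ideal AA) : Ideal AA where
  carrier := {b | ∀ k : ℕ, ∃ c' : AA, tauA c' - Polynomial.X ^ k * Polynomial.C b ∈
    Ideal.map Polynomial.C J}
  zero_mem' := by
    intro k
    refine ⟨0, ?_⟩
    rw [map_zero, map_zero, mul_zero, sub_zero]
    exact Ideal.zero_mem _
  add_mem' := by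
    intro a b ha hb k
    obtain ⟨a', ha'⟩ := ha k
    obtain ⟨b', hb'⟩ := hb k
    refine ⟨a' + b', ?_⟩
    have e : tauA (a' + b') - Polynomial.X ^ k * Polynomial.C (a + b) =
      (tauA a' - Polynomial.X ^ k * Polynomial.C a) +
        (tauA b' - Polynomial.X ^ k * Polynomial.C b) := by
      rw [map_add, map_add]; ring
    rw [e]
    exact Ideal.add_mem _ ha' hb'
  smul_mem' := by
    intro a b hb k
    choose b' hb' using hb
    obtain ⟨n, p, hp⟩ := C_eq_sum_tau a
    refine ⟨∑ j ∈ Finset.range n, p j * b' (k + j), ?_⟩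
    have e : tauA (∑ j ∈ Finset.range n, p j * b' (k + j)) -
        Polynomial.X ^ k * Polynomial.C (a • b) =
        ∑ j ∈ Finset.range n, tauA (p j) *
          (tauA (b' (k + j)) - Polynomial.X ^ (k + j) * Polynomial.C b) := by
      rw [smul_eq_mul, Polynomial.C_mul, hp, map_sum, Finset.sum_mul, Finset.mul_sum,
        ← Finset.sum_sub_distrib]
      refine Finset.sum_congr rfl fun j _ => ?_
      rw [map_mul, pow_add]
      ring
    rw [e]
    exact Ideal.sum_mem _ fun j _ => Ideal.mul_mem_left _ _ (hb' _)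

private theorem x9_mem_CR {J : Ideal AA} {b : AA} : b ∈ x9_CR J ↔
    ∀ k : ℕ, ∃ c' : AA, tauA c' - Polynomial.X ^ k * Polynomial.C b ∈ Ideal.map Polynomial.C J :=
  Iff.rfl

private theorem x9_le_CR (J : Ideal AA) : J ≤ x9_CR J := by
  intro b hb
  rw [x9_mem_CR]
  intro k
  refine ⟨0, ?_⟩
  rw [map_zero, zero_sub]
  exact Ideal.neg_mem_iff _ |>.2 (Ideal.mul_mem_left _ _ (Ideal.mem_map_of_mem _ hb))

private theorem x9_om_smul (g : Cinf ≃ₗ[ℂ] Cinf) (hg : IsSo g) (c : ℂ) (i j : ℕ) :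
    om (c • g (ee i)) (c • g (ee j)) = c ^ 2 * om (ee i) (ee j) := by
  have h := hg.2 (ee i) (ee j)
  change om (g (ee i)) (g (ee j)) = om (ee i) (ee j) at h
  rw [← h, T5.om_eq, T5.om_eq, T5.B_sl, T5.B_sr]
  ring

private theorem x9_CR_GSI (J : Ideal AA) (hJ : GLSI J) : GSI (x9_CR J) := by
  intro g hg c hc b hb
  rw [x9_mem_CR] at hb ⊢
  intro k
  obtain ⟨c', hc'⟩ := hb k
  set φ : ℕ → V := fun i => c • g (ee i) with hφ
  have hμ : ∀ i j, om (φ i) (φ j) = c ^ 2 * om (ee i) (ee j) :=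
    fun i j => x9_om_smul g hg c i j
  have hμ0 : (c ^ 2) ^ k ≠ 0 := pow_ne_zero _ (pow_ne_zero _ hc)
  refine ⟨((c ^ 2) ^ k)⁻¹ • sbR φ c', ?_⟩
  rw [Ideal.mem_map_C_iff] at hc' ⊢
  intro l
  have h1 := hJ φ _ (hc' l)
  have e : ∀ y : AA, (Polynomial.X ^ k * Polynomial.C y : Polynomial AA).coeff l =
      if k = l then y else 0 := by
    intro y
    rw [mul_comm, Polynomial.C_mul_X_pow_eq_monomial, Polynomial.coeff_monomial]
  rw [Polynomial.coeff_sub, e, map_sub] at h1
  rw [map_smul, Polynomial.coeff_sub, Polynomial.coeff_smul, tauA_sbR φ (c ^ 2) hμ, e]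
  by_cases hkl : k = l
  · subst hkl
    rw [if_pos rfl] at h1 ⊢
    rw [smul_smul, inv_mul_cancel₀ hμ0, one_smul]
    exact h1
  · rw [if_neg hkl] at h1 ⊢
    rw [map_zero, sub_zero] at h1
    rw [sub_zero, smul_smul]
    exact Submodule.smul_of_tower_mem J _ h1

private theorem x9_tau_Dl {n : ℕ} (w : Fin n → V) (hw : Iso w) :
    tauA (Dl w : AA) = Polynomial.C (Dl w : AA) := by
  unfold Dl
  rw [AlgHom.map_det, RingHom.map_det]
  congr 1
  apply Matrix.ext
  intro i j
  rw [AlgHom.mapMatrix_apply, RingHom.mapMatrix_apply, Matrix.map_apply, Matrix.map_apply]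
  unfold gramM
  rw [Matrix.of_apply, tauA_xv, hw i j, map_zero, map_zero, zero_mul, add_zero]

private theorem x9_om_ee (a b : ℕ) : om (ee (2 * a)) (ee b) = if b = 2 * a + 1 then 1 else 0 := by
  change osf (Finsupp.single (2 * a) 1) (Finsupp.single b 1) = _
  unfold osf
  rw [Finsupp.sum_single_index]
  · rw [if_pos (even_two_mul a), one_mul, Finsupp.single_apply]
  · split_ifs <;> simp

private theorem x9_om_even (a b : ℕ) : om (ee (2 * a)) (ee (2 * b)) = 0 := by
  rw [x9_om_ee, if_neg (by omega)]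

private theorem x9_mk_Dl (J : Ideal AA) [GLIdeal J] {n : ℕ} (w : Fin n → V) :
    Ideal.Quotient.mk J (Dl w : AA) = (Dl w : AA ⧸ J) := by
  rw [Dl_mk]
  congr 1
  unfold Dl gramM
  congr 1
  apply Matrix.ext
  intro i j
  rw [Matrix.of_apply, Matrix.of_apply]
  exact xv_A _ _

/-- fixed elements of `I` -/
private def x9_G (I : Ideal AA) : Set AA := {y | y ∈ I ∧ tauA y = Polynomial.C y}

private theorem x9_G_mul (I I' : Ideal AA) :
    Ideal.span (x9_G I) * Ideal.span (x9_G I') ≤ Ideal.span (x9_G (I * I')) := by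
  rw [Ideal.span_mul_span']
  apply Ideal.span_mono
  rintro _ ⟨a, ha, b, hb, rfl⟩
  refine ⟨Ideal.mul_mem_mul ha.1 hb.1, ?_⟩
  change tauA (a * b) = Polynomial.C (a * b)
  rw [map_mul, ha.2, hb.2, Polynomial.C_mul]

private theorem x9_G_pow (I : Ideal AA) (q : ℕ) :
    Ideal.span (x9_G I) ^ q ≤ Ideal.span (x9_G (I ^ q)) := by
  induction q with
  | zero =>
    have h1 : (1 : AA) ∈ Ideal.span (x9_G (I ^ 0)) := by
      apply Ideal.subset_span
      refine ⟨?_, ?_⟩
      · rw [pow_zero, Ideal.one_eq_top]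
        trivial
      · rw [map_one, map_one]
    rw [(Ideal.eq_top_iff_one _).2 h1]
    exact le_top
  | succ q ih =>
    rw [pow_succ, pow_succ]
    exact (Ideal.mul_mono ih le_rfl).trans (x9_G_mul _ _)

private theorem x9_nnI_le (J : Ideal AA) (hJ : GLSI J) : nnI J ≤ Ideal.span (x9_G J) := by
  unfold nnI
  apply Ideal.span_mono
  rintro f ⟨φ, hφ, g, hg, rfl⟩
  exact ⟨hJ φ g hg, tauA_iso hφ g⟩

/-- the elements satisfying `CondP` -/
private noncomputable def x9_CP (J : Ideal AA) : Ideal AA where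
  carrier := {b | CondP J b}
  zero_mem' := by
    intro k
    refine ⟨0, ?_⟩
    rw [map_zero, mul_zero, sub_zero]
    exact Ideal.zero_mem _
  add_mem' := by
    intro a b ha hb k
    obtain ⟨a', ha'⟩ := ha k
    obtain ⟨b', hb'⟩ := hb k
    refine ⟨a' + b', ?_⟩
    have e : tauA (a' + b') - Polynomial.X ^ k * tauA (a + b) =
      (tauA a' - Polynomial.X ^ k * tauA a) + (tauA b' - Polynomial.X ^ k * tauA b) := by
      rw [map_add, map_add]; ring
    rw [e]
    exact Ideal.add_mem _ ha' hb'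
  smul_mem' := by
    intro a b hb k
    obtain ⟨b', hb'⟩ := hb k
    refine ⟨a * b', ?_⟩
    have e : tauA (a * b') - Polynomial.X ^ k * tauA (a • b) =
        tauA a * (tauA b' - Polynomial.X ^ k * tauA b) := by
      rw [smul_eq_mul, map_mul, map_mul]
      ring
    rw [e]
    exact Ideal.mul_mem_left _ _ hb'

/-- the element of the conductor -/
private theorem x9_elt (r s : ℕ) (P : Pkg (Rrs r s) r s (hrs r s)) :
    ∃ F : AA, F ∈ x9_CR (Jd r s) ∧ Ideal.Quotient.mk (Jd r s) F ≠ 0 := by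
  classical
  set J : Ideal AA := Jd r s with hJ
  set m : ℕ := (r + 1) * (s + 1) with hm
  let v : ℕ → Fin r → ℕ := fun j i => 2 * (j * (r + 1) + (i : ℕ))
  let c : ℕ → ℕ := fun j => 2 * (j * (r + 1) + r)
  let u : ℕ → Fin r → V := fun j i => ee (v j i)
  have huu : ∀ j i i', om (u j i) (u j i') = 0 := fun j i i' => x9_om_even _ _
  have huc : ∀ j i, om (u j i) (ee (c j)) = 0 := fun j i => x9_om_even _ _
  have hcu : ∀ j i, om (ee (c j)) (u j i) = 0 := fun j i => x9_om_even _ _
  have hcc : ∀ j, om (ee (c j)) (ee (c j)) = 0 := fun j => x9_om_even _ _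
  have huc' : ∀ j i, om (u j i) (ee (c j + 1)) = 0 := by
    intro j i
    change om (ee (2 * (j * (r + 1) + (i : ℕ)))) (ee (2 * (j * (r + 1) + r) + 1)) = 0
    have hi := i.2
    rw [x9_om_ee, if_neg (by omega)]
  have hcc' : ∀ j, om (ee (c j)) (ee (c j + 1)) = 1 := by
    intro j
    change om (ee (2 * (j * (r + 1) + r))) (ee (2 * (j * (r + 1) + r) + 1)) = 1
    rw [x9_om_ee, if_pos rfl]
  let f : ℕ → AA := fun j => (Dl1 (u j) (ee (c j)) : AA) ^ s * Dl (u j)
  choose f' hf' using fun j => cond_letters r s (u j) (ee (c j)) (ee (c j + 1)) (huu j) (huc j)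
    (huc' j) (hcc j) (hcc' j)
  have hsn : ∀ j, Iso (Fin.snoc (u j) (ee (c j)) : Fin (r + 1) → V) := by
    intro j a b
    refine Fin.lastCases ?_ (fun a => ?_) a
    · refine Fin.lastCases ?_ (fun b => ?_) b
      · rw [Fin.snoc_last]
        exact hcc j
      · rw [Fin.snoc_last, Fin.snoc_castSucc]
        exact hcu j b
    · refine Fin.lastCases ?_ (fun b => ?_) b
      · rw [Fin.snoc_last, Fin.snoc_castSucc]
        exact huc j a
      · rw [Fin.snoc_castSucc, Fin.snoc_castSucc]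
        exact huu j a b
  have hft : ∀ j, tauA (f j) = Polynomial.C (f j) := by
    intro j
    change tauA ((Dl1 (u j) (ee (c j)) : AA) ^ s * Dl (u j)) =
      Polynomial.C ((Dl1 (u j) (ee (c j)) : AA) ^ s * Dl (u j))
    rw [map_mul, map_pow, Polynomial.C_mul, Polynomial.C_pow]
    unfold Dl1
    rw [x9_tau_Dl _ (hsn j), x9_tau_Dl _ (huu j)]
  let F : AA := ∏ j ∈ Finset.range m, f j
  let G : ℕ → AA := fun k => (∏ j ∈ Finset.range k, f' j) * ∏ j ∈ Finset.Ico k m, f j
  set q := Ideal.Quotient.mk (Ideal.map Polynomial.C J : Ideal (Polynomial AA)) with hq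
  have hG : ∀ k ≤ m, tauA (G k) - Polynomial.X ^ k * Polynomial.C F ∈
      (Ideal.map Polynomial.C J : Ideal (Polynomial AA)) := by
    intro k hk
    rw [← Ideal.Quotient.eq, ← hq]
    have h1 : ∀ j, q (tauA (f' j)) = q Polynomial.X * q (Polynomial.C (f j)) := by
      intro j
      rw [← map_mul]
      exact Ideal.Quotient.eq.2 (hf' j)
    have h2 : Polynomial.C F = (∏ j ∈ Finset.range k, Polynomial.C (f j)) *
        ∏ j ∈ Finset.Ico k m, Polynomial.C (f j) := by
      rw [Finset.prod_range_mul_prod_Ico _ hk, ← map_prod]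
    have h3 : tauA (G k) = (∏ j ∈ Finset.range k, tauA (f' j)) *
        ∏ j ∈ Finset.Ico k m, Polynomial.C (f j) := by
      change tauA ((∏ j ∈ Finset.range k, f' j) * ∏ j ∈ Finset.Ico k m, f j) = _
      rw [map_mul, map_prod, map_prod]
      congr 1
      exact Finset.prod_congr rfl fun j _ => hft j
    rw [h2, h3, map_mul, map_mul, map_mul, map_pow, map_prod, map_prod,
      Finset.prod_congr rfl (fun j _ => h1 j), Finset.prod_mul_distrib, Finset.prod_const,
      Finset.card_range, map_prod, mul_assoc]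
  refine ⟨F, ?_, ?_⟩
  · rw [x9_mem_CR]
    intro k
    obtain ⟨p, hp⟩ := (int_det r s).pow k
    refine ⟨∑ l ∈ Finset.range m, p l * G l, ?_⟩
    have e : tauA (∑ l ∈ Finset.range m, p l * G l) - Polynomial.X ^ k * Polynomial.C F =
        ∑ l ∈ Finset.range m, tauA (p l) * (tauA (G l) - Polynomial.X ^ l * Polynomial.C F) -
        (Polynomial.X ^ k - ∑ l ∈ Finset.range m, Polynomial.X ^ l * tauA (p l)) *
          Polynomial.C F := by
      rw [map_sum, sub_mul, Finset.sum_mul]
      have e2 : ∑ l ∈ Finset.range m, tauA (p l) *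
          (tauA (G l) - Polynomial.X ^ l * Polynomial.C F) =
          ∑ l ∈ Finset.range m, tauA (p l * G l) -
          ∑ l ∈ Finset.range m, Polynomial.X ^ l * tauA (p l) * Polynomial.C F := by
        rw [← Finset.sum_sub_distrib]
        refine Finset.sum_congr rfl fun l _ => ?_
        rw [map_mul tauA (p l) (G l)]
        ring
      rw [e2]
      ring
    rw [e]
    refine Ideal.sub_mem _ (Ideal.sum_mem _ fun l hl => Ideal.mul_mem_left _ _
      (hG l (Finset.mem_range.1 hl).le)) (Ideal.mul_mem_right _ _ hp)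
  · have hinj : Function.Injective (fun p : Fin m × (Fin r ⊕ Fin 1) =>
        Sum.elim ((fun (j : Fin m) (i : Fin r) => v j i) p.1)
          ((fun (j : Fin m) (_ : Fin 1) => c j) p.1) p.2) := by
      have key : ∀ j j' a a' : ℕ, a < r + 1 → a' < r + 1 →
          2 * (j * (r + 1) + a) = 2 * (j' * (r + 1) + a') → j = j' ∧ a = a' := by
        intro j j' a a' ha ha' h
        have h1 : a + (r + 1) * j = a' + (r + 1) * j' := by
          have := Nat.eq_of_mul_eq_mul_left two_pos h
          linarith [this, mul_comm j (r + 1), mul_comm j' (r + 1)]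
        have h2 : (a + (r + 1) * j) / (r + 1) = j := by
          rw [Nat.add_mul_div_left _ _ (Nat.succ_pos r), Nat.div_eq_of_lt ha, zero_add]
        have h3 : (a' + (r + 1) * j') / (r + 1) = j' := by
          rw [Nat.add_mul_div_left _ _ (Nat.succ_pos r), Nat.div_eq_of_lt ha', zero_add]
        have h4 : j = j' := by rw [← h2, ← h3, h1]
        subst h4
        exact ⟨rfl, by omega⟩
      rintro ⟨d, a⟩ ⟨d', a'⟩ hp
      rcases a with i | j <;> rcases a' with i' | j'
      · obtain ⟨h1, h2⟩ := key _ _ _ _ (by omega) (by omega) hp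
        have h3 : d = d' := Fin.ext h1
        have h4 : i = i' := Fin.ext h2
        rw [h3, h4]
      · obtain ⟨h1, h2⟩ := key _ _ _ _ (by omega) (by omega) hp
        have := i.2
        omega
      · obtain ⟨h1, h2⟩ := key _ _ _ _ (by omega) (by omega) hp
        have := i'.2
        omega
      · obtain ⟨h1, h2⟩ := key _ _ _ _ (by omega) (by omega) hp
        have h3 : d = d' := Fin.ext h1
        rw [h3, Subsingleton.elim j j']
    have h1 := P.p3 m 1 1 (fun j i => v j i) (fun j _ => c j) hinj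
    intro h2
    apply h1
    rw [← h2]
    change _ = Ideal.Quotient.mk J (∏ j ∈ Finset.range m, f j)
    rw [map_prod, Finset.prod_range]
    refine Finset.prod_congr rfl fun j _ => ?_
    change _ = Ideal.Quotient.mk J ((Dl1 (u j) (ee (c j)) : AA) ^ s * Dl (u j))
    unfold hh Ek Dl1
    rw [map_mul, map_pow, x9_mk_Dl, x9_mk_Dl, pow_one, Fin.prod_univ_one]

/-- the conductor contains the products of the isotropic parts -/
theorem exists_cond (r s : ℕ) (P : Pkg (Rrs r s) r s (hrs r s)) :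
    ∃ a : ℕ, ∀ c ∈ (nnI (MP50e386.detIdeal r (s + 1)) * nnI (MP50e386.detIdeal (r + 1) s)) ^ a,
      CondP (Jd r s) c := by
  obtain ⟨F, hF, hF0⟩ := x9_elt r s P
  have hCG := x9_CR_GSI (Jd r s) (x9_GLSI_det _ _)
  obtain ⟨q, hq⟩ := TL P (Ideal.map (Ideal.Quotient.mk (Jd r s)) (x9_CR (Jd r s))) (by
    intro g hg c hc f hf
    obtain ⟨a, ha, rfl⟩ := (Ideal.mem_map_iff_of_surjective _
      Ideal.Quotient.mk_surjective).1 hf
    have h2 : sbR (fun i => c • g (ee i)) (Ideal.Quotient.mk (Jd r s) a) =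
      Ideal.Quotient.mk (Jd r s) (sbR (fun i => c • g (ee i)) a) := sbR_mk (Jd r s) _ a
    rw [h2]
    exact Ideal.mem_map_of_mem _ (hCG g hg c hc a ha)) (by
    intro h
    apply hF0
    have h1 := Ideal.mem_map_of_mem (Ideal.Quotient.mk (Jd r s)) hF
    rw [h] at h1
    exact h1)
  have hle : (MP50e386.detIdeal r (s + 1) * MP50e386.detIdeal (r + 1) s) ^ q ≤
      x9_CR (Jd r s) := by
    intro y hy
    have h1 : Ideal.Quotient.mk (Jd r s) y ∈ hrs r s ^ q := by
      unfold hrs
      rw [← Ideal.map_pow]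
      exact Ideal.mem_map_of_mem _ hy
    obtain ⟨b, hb, hby⟩ := (Ideal.mem_map_iff_of_surjective _
      Ideal.Quotient.mk_surjective).1 (hq h1)
    have h2 : b - y ∈ Jd r s := Ideal.Quotient.eq.1 hby
    have h3 := Ideal.sub_mem _ hb (x9_le_CR _ h2)
    rwa [sub_sub_cancel] at h3
  refine ⟨q, fun c hc => ?_⟩
  have h1 : (nnI (MP50e386.detIdeal r (s + 1)) * nnI (MP50e386.detIdeal (r + 1) s)) ^ q ≤
      Ideal.span (x9_G ((MP50e386.detIdeal r (s + 1) * MP50e386.detIdeal (r + 1) s) ^ q)) := by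
    refine le_trans (Ideal.pow_right_mono ?_ q) (x9_G_pow _ q)
    exact (Ideal.mul_mono (x9_nnI_le _ (x9_GLSI_det _ _)) (x9_nnI_le _ (x9_GLSI_det _ _))).trans
      (x9_G_mul _ _)
  have h2 : Ideal.span (x9_G ((MP50e386.detIdeal r (s + 1) * MP50e386.detIdeal (r + 1) s) ^ q)) ≤
      x9_CP (Jd r s) := by
    rw [Ideal.span_le]
    rintro y ⟨hy, hty⟩ k
    obtain ⟨c', hc'⟩ := x9_mem_CR.1 (hle hy) k
    refine ⟨c', ?_⟩
    rw [hty]
    exact hc'
  exact h2 (h1 hc)

end MP50e386O
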